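import Mathlib

set_option autoImplicit false

namespace Pool.Agent.Work.MP_f2148a_nt.Exp

open Polynomial

/-- The value at `(p, r)` of the binary cubic form `a p³ + 3 b p² r + 3 c p r² + d r³`. -/
def Fv (a b c d p r : ℤ) : ℤ := a * p ^ 3 + 3 * b * p ^ 2 * r + 3 * c * p * r ^ 2 + d * r ^ 3

/-- (Minus 1/27 times) the discriminant of the binary cubic form `(a, 3b, 3c, d)`. -/
def Dv (a b c d : ℤ) : ℤ :=
  a ^ 2 * d ^ 2 - 6 * a * b * c * d + 4 * a * c ^ 3 + 4 * b ^ 3 * d - 3 * b ^ 2 * c ^ 2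

/-- `Dv a b c (X + m)` as a polynomial in `X`. -/
noncomputable def delta (a b c m : ℤ) : ℤ[X] :=
  C (a ^ 2) * (X + C m) ^ 2 + C (4 * b ^ 3 - 6 * a * b * c) * (X + C m) +
    C (4 * a * c ^ 3 - 3 * b ^ 2 * c ^ 2)

/-- The middle coefficient of the quadratic covariant polynomial, at `d = X + m`. -/
noncomputable def ps1 (a b c m : ℤ) : ℤ[X] :=
  C (7 * a * b * c - 6 * b ^ 3) - C (a ^ 2) * (X + C m)

/-- The constant coefficient, at `d = X + m`. -/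
noncomputable def ps0 (a b c m : ℤ) : ℤ[X] :=
  C (4 * a * c ^ 2 - 3 * b ^ 2 * c) - C (a * b) * (X + C m)

/-- First coefficient of the derived linear form of `r U + p V`. -/
noncomputable def hatU (a b c m : ℤ) (f : ℤ[X] × ℤ[X]) : ℤ[X] :=
  3 * delta a b c m * derivative f.1 - ps0 a b c m * f.2

/-- Second coefficient of the derived linear form of `r U + p V`. -/
noncomputable def hatV (a b c m : ℤ) (f : ℤ[X] × ℤ[X]) : ℤ[X] :=
  3 * delta a b c m * derivative f.2 - ps1 a b c m * f.2 + C (2 * a * (a * c - b ^ 2)) * f.1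

/-- The determinant of the linear form `(U, V)` and its derived form. -/
noncomputable def omega (a b c m : ℤ) (f : ℤ[X] × ℤ[X]) : ℤ[X] :=
  f.1 * hatV a b c m f - hatU a b c m f * f.2

/-- The polynomial `ξ ↦ P(X0 + ξ) - m`, `P(X) = -(a X³ + 3 b X² + 3 c X)`. -/
noncomputable def dpol (a b c m : ℤ) (X0 : ℝ) : ℝ[X] :=
  -(C (a : ℝ) * (C X0 + X) ^ 3 + 3 * C (b : ℝ) * (C X0 + X) ^ 2 + 3 * C (c : ℝ) * (C X0 + X)) -
    C (m : ℝ)

/-- `w(ξ) = U(d(ξ)) + (X0 + ξ) V(d(ξ))`. -/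
noncomputable def wpol (a b c m : ℤ) (X0 : ℝ) (f : ℤ[X] × ℤ[X]) : ℝ[X] :=
  (f.1.map (Int.castRingHom ℝ)).comp (dpol a b c m X0) +
    (C X0 + X) * (f.2.map (Int.castRingHom ℝ)).comp (dpol a b c m X0)

/-- The majorant norm `∑ |w_k| ρ^k`. -/
noncomputable def nrm (w : ℝ[X]) (ρ : ℝ) : ℝ := ∑ k ∈ w.support, |w.coeff k| * ρ ^ k

end Pool.Agent.Work.MP_f2148a_nt.Exp
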