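import Mathlib
import Pool.Agent.Work.MP_f2148a_nt.Exp.Defs

set_option autoImplicit false

namespace Pool.Agent.Work.MP_f2148a_nt.Exp

/-- coefficients of the cubic form of `(x, y)` in the basis `(a, q), (b, s)` -/
def cA (x y a q : ℤ) : ℤ := a ^ 3 - 3 * x * a * q ^ 2 + 2 * y * q ^ 3
def cB (x y a q b s : ℤ) : ℤ := a ^ 2 * b - x * (2 * a * q * s + b * q ^ 2) + 2 * y * q ^ 2 * s
def cC (x y a q b s : ℤ) : ℤ := a * b ^ 2 - x * (a * s ^ 2 + 2 * b * q * s) + 2 * y * q * s ^ 2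
def cD (x y b s : ℤ) : ℤ := b ^ 3 - 3 * x * b * s ^ 2 + 2 * y * s ^ 3

theorem Dv_c (x y a q b s : ℤ) : Dv (cA x y a q) (cB x y a q b s) (cC x y a q b s) (cD x y b s) =
    4 * (y ^ 2 - x ^ 3) * (a * s - q * b) ^ 6 := by
  unfold Dv cA cB cC cD
  ring

theorem Fv_c (x y a q b s : ℤ) : Fv (cA x y a q) (cB x y a q b s) (cC x y a q b s) (cD x y b s)
    (-s) q = -(a * s - q * b) ^ 3 := by
  unfold Fv cA cB cC cD
  ring

end Pool.Agent.Work.MP_f2148a_nt.Exp
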