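import Mathlib
import Pool.Agent.Work.MP_f2148a_nt.Exp.GeomA

set_option autoImplicit false

namespace Pool.Agent.Work.MP_f2148a_nt.Exp

theorem completion (a q : ℤ) (hq : 0 < q) (hc : IsCoprime a q) (u : ℝ) (ε : ℤ) :
    ∃ b s : ℤ, a * s - q * b = ε ∧ u - q < s ∧ (s : ℝ) ≤ u := by
  obtain ⟨s0, b0, h⟩ := hc
  -- s0 * a + b0 * q = 1
  have hq' : (0 : ℝ) < q := by exact_mod_cast hq
  set j : ℤ := ⌊(u - ε * s0) / q⌋ with hj
  refine ⟨-ε * b0 + j * a, ε * s0 + j * q, ?_, ?_, ?_⟩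
  · linear_combination ε * h
  · have h1 := Int.lt_floor_add_one ((u - ε * s0) / q)
    rw [← hj, div_lt_iff₀ hq'] at h1
    push_cast
    linarith
  · have h1 := Int.floor_le ((u - ε * s0) / q)
    rw [← hj, le_div_iff₀ hq'] at h1
    push_cast
    linarith

theorem cA_ne_zero (x y a q : ℤ) (H : ℝ) (hH : 1 ≤ H) (hk0 : y ^ 2 ≠ x ^ 3)
    (hk : |(y : ℝ) ^ 2 - (x : ℝ) ^ 3| ≤ H ^ 4) (hxH : 4 * H ^ 4 ≤ (x : ℝ)) (hq : 0 < q)
    (hc : IsCoprime a q) (hg : |(a : ℝ) - q * Real.sqrt x| ≤ 1 / 4) : cA x y a q ≠ 0 := by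
  intro h0
  have hdvd : q ∣ a ^ 3 := ⟨q * (3 * x * a - 2 * y * q), by unfold cA at h0; linear_combination h0⟩
  have hu : IsUnit q := by
    have : IsCoprime (a ^ 3) q := hc.pow_left
    exact this.isUnit_of_dvd' hdvd dvd_rfl
  have hq1 : q = 1 := by
    rcases Int.isUnit_iff.1 hu with h | h
    · exact h
    · omega
  subst hq1
  unfold cA at h0
  have h4 : 4 * (y ^ 2 - x ^ 3) = (a ^ 2 - x) ^ 2 * (a ^ 2 - 4 * x) := by
    have h2y : 2 * y = 3 * x * a - a ^ 3 := by linear_combination h0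
    have : 4 * y ^ 2 = (3 * x * a - a ^ 3) ^ 2 := by rw [← h2y]; ring
    linear_combination this
  have hne : a ^ 2 - x ≠ 0 := by
    intro h
    rw [h] at h4
    apply hk0
    have : 4 * (y ^ 2 - x ^ 3) = 0 := by rw [h4]; ring
    linarith
  have h1 : 1 ≤ (a ^ 2 - x) ^ 2 := by
    have := sq_nonneg (a ^ 2 - x)
    have h2 : (a ^ 2 - x) ^ 2 ≠ 0 := pow_ne_zero 2 hne
    omega
  have hH4 : 1 ≤ H ^ 4 := one_le_pow₀ hH
  have hx4 : (4 : ℝ) ≤ x := by linarith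
  set t := Real.sqrt x with ht
  have htt : t ^ 2 = x := Real.sq_sqrt (by linarith)
  have ht2 : 2 ≤ t := by
    rw [ht]; apply Real.le_sqrt_of_sq_le; linarith
  have hg' := abs_le.1 hg
  have ha0 : (a : ℝ) ≤ t + 1 / 4 := by push_cast at hg'; linarith [hg'.2]
  have ha1 : -(t + 1 / 4) ≤ (a : ℝ) := by push_cast at hg'; linarith [hg'.1]
  have ha2 : (a : ℝ) ^ 2 ≤ (t + 1 / 4) ^ 2 := by nlinarith
  have h5 : 2 * (x : ℝ) ≤ 4 * x - a ^ 2 := by nlinarith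
  have h1' : (1 : ℝ) ≤ ((a : ℝ) ^ 2 - x) ^ 2 := by exact_mod_cast h1
  have h4' : 4 * ((y : ℝ) ^ 2 - (x : ℝ) ^ 3) = ((a : ℝ) ^ 2 - x) ^ 2 * ((a : ℝ) ^ 2 - 4 * x) := by
    exact_mod_cast h4
  have hk' := (abs_le.1 hk).1
  nlinarith [mul_le_mul h1' h5 (by linarith) (by positivity)]

/-- Rational approximation. -/
theorem approx (t N : ℝ) (hN : 1 ≤ N) : ∃ a q : ℤ, 0 < q ∧ IsCoprime a q ∧ (q : ℝ) ≤ N ∧
    |(a : ℝ) - q * t| ≤ 1 / N := by
  have hn : 0 < ⌊N⌋₊ := Nat.floor_pos.2 hN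
  obtain ⟨r, h1, h2⟩ := Real.exists_rat_abs_sub_le_and_den_le t hn
  refine ⟨r.num, r.den, by exact_mod_cast r.den_pos, ?_, ?_, ?_⟩
  · rw [Int.isCoprime_iff_gcd_eq_one]
    exact_mod_cast r.reduced
  · push_cast
    exact (Nat.cast_le.2 h2).trans (Nat.floor_le (by linarith))
  · have hd : (0 : ℝ) < r.den := by exact_mod_cast r.den_pos
    have hN' : N < (⌊N⌋₊ : ℝ) + 1 := Nat.lt_floor_add_one N
    have e : (r : ℝ) = (r.num : ℝ) / (r.den : ℝ) := by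
      exact_mod_cast (Rat.num_div_den r).symm
    have e1 : (r.num : ℝ) - ((r.den : ℤ) : ℝ) * t = -(r.den : ℝ) * (t - r) := by
      rw [e]; push_cast; field_simp; ring
    rw [e1, abs_mul, abs_neg, abs_of_pos hd]
    calc (r.den : ℝ) * |t - r| ≤ r.den * (1 / (((⌊N⌋₊ : ℝ) + 1) * r.den)) := by gcongr
      _ = 1 / ((⌊N⌋₊ : ℝ) + 1) := by field_simp
      _ ≤ 1 / N := by
        apply one_div_le_one_div_of_le (by linarith) hN'.le

end Pool.Agent.Work.MP_f2148a_nt.Exp
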