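import Mathlib
import Pool.Agent.Work.MP_f2148a_nt.Exp.GeomB

set_option autoImplicit false

namespace Pool.Agent.Work.MP_f2148a_nt.Exp

/-- normalised coefficients -/
noncomputable def rA (H ν e g q : ℝ) : ℝ := g ^ 3 * ν + 3 * H * g ^ 2 * q + 2 * H * e * q ^ 3
noncomputable def rB (H ν e g q h s : ℝ) : ℝ :=
  g ^ 2 * h * ν + 2 * H * g * h * q + H * g ^ 2 * s + 2 * H * e * q ^ 2 * s
noncomputable def rC (H ν e g q h s : ℝ) : ℝ :=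
  g * h ^ 2 * ν + H * h ^ 2 * q + 2 * H * g * h * s + 2 * H * e * q * s ^ 2

theorem cA_eq (x y a q : ℤ) (t H e N : ℝ) (hx : (x : ℝ) = t ^ 2) (hN : N ≠ 0)
    (hH : H ≠ 0) (ht : t = N * H) (hy : (y : ℝ) = t ^ 3 + e * H / N ^ 3) :
    (cA x y a q : ℝ) = rA H (1 / N ^ 3) e ((a - q * t) * N) (q / N) := by
  unfold cA rA
  push_cast
  rw [hx, hy, ht]
  field_simp
  ring

theorem cB_eq (x y a q b s : ℤ) (t H e N : ℝ) (hx : (x : ℝ) = t ^ 2) (hN : N ≠ 0)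
    (hH : H ≠ 0) (ht : t = N * H) (hy : (y : ℝ) = t ^ 3 + e * H / N ^ 3) :
    (cB x y a q b s : ℝ) = rB H (1 / N ^ 3) e ((a - q * t) * N) (q / N) ((b - s * t) * N) (s / N) := by
  unfold cB rB
  push_cast
  rw [hx, hy, ht]
  field_simp
  ring

theorem cC_eq (x y a q b s : ℤ) (t H e N : ℝ) (hx : (x : ℝ) = t ^ 2) (hN : N ≠ 0)
    (hH : H ≠ 0) (ht : t = N * H) (hy : (y : ℝ) = t ^ 3 + e * H / N ^ 3) :
    (cC x y a q b s : ℝ) = rC H (1 / N ^ 3) e ((a - q * t) * N) (q / N) ((b - s * t) * N) (s / N) := by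
  unfold cC rC
  push_cast
  rw [hx, hy, ht]
  field_simp
  ring

theorem cD_eq (x y b s : ℤ) (t H e N : ℝ) (hx : (x : ℝ) = t ^ 2) (hN : N ≠ 0)
    (hH : H ≠ 0) (ht : t = N * H) (hy : (y : ℝ) = t ^ 3 + e * H / N ^ 3) :
    (cD x y b s : ℝ) = rA H (1 / N ^ 3) e ((b - s * t) * N) (s / N) := by
  unfold cD rA
  push_cast
  rw [hx, hy, ht]
  field_simp
  ring

/-- General bounds by monotonicity. -/
theorem rA_le (H ν e g q g' q' : ℝ) (hH : 0 ≤ H) (hν : 0 ≤ ν) (he : |e| ≤ 1) (hg : |g| ≤ g')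
    (hq0 : 0 ≤ q) (hq : q ≤ q') :
    |rA H ν e g q| ≤ g' ^ 3 * ν + 3 * H * g' ^ 2 * q' + 2 * H * q' ^ 3 := by
  have hg0 : 0 ≤ g' := (abs_nonneg g).trans hg
  have hq0' : 0 ≤ q' := hq0.trans hq
  unfold rA
  have t1 : |g ^ 3 * ν| ≤ g' ^ 3 * ν := by
    rw [abs_mul, abs_pow, abs_of_nonneg hν]; gcongr
  have t2 : |3 * H * g ^ 2 * q| ≤ 3 * H * g' ^ 2 * q' := by
    rw [abs_mul, abs_mul, abs_pow, abs_of_nonneg hq0, abs_of_nonneg (by positivity : 0 ≤ 3 * H)]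
    gcongr
  have t3 : |2 * H * e * q ^ 3| ≤ 2 * H * q' ^ 3 := by
    rw [abs_mul, abs_mul, abs_pow, abs_of_nonneg hq0, abs_of_nonneg (by positivity : 0 ≤ 2 * H)]
    calc 2 * H * |e| * q ^ 3 ≤ 2 * H * 1 * q' ^ 3 := by gcongr
      _ = _ := by ring
  calc _ ≤ |g ^ 3 * ν + 3 * H * g ^ 2 * q| + |2 * H * e * q ^ 3| := abs_add_le _ _
    _ ≤ |g ^ 3 * ν| + |3 * H * g ^ 2 * q| + |2 * H * e * q ^ 3| := by gcongr; exact abs_add_le _ _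
    _ ≤ _ := by gcongr

theorem rB_le (H ν e g q h s g' q' h' s' : ℝ) (hH : 0 ≤ H) (hν : 0 ≤ ν) (he : |e| ≤ 1)
    (hg : |g| ≤ g') (hh : |h| ≤ h') (hq0 : 0 ≤ q) (hq : q ≤ q') (hs0 : 0 ≤ s) (hs : s ≤ s') :
    |rB H ν e g q h s| ≤ g' ^ 2 * h' * ν + 2 * H * g' * h' * q' + H * g' ^ 2 * s' +
      2 * H * q' ^ 2 * s' := by
  have hg0 : 0 ≤ g' := (abs_nonneg g).trans hg
  have hh0 : 0 ≤ h' := (abs_nonneg h).trans hh
  have hq0' : 0 ≤ q' := hq0.trans hq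
  have hs0' : 0 ≤ s' := hs0.trans hs
  unfold rB
  have t1 : |g ^ 2 * h * ν| ≤ g' ^ 2 * h' * ν := by
    rw [abs_mul, abs_mul, abs_pow, abs_of_nonneg hν]; gcongr
  have t2 : |2 * H * g * h * q| ≤ 2 * H * g' * h' * q' := by
    rw [abs_mul, abs_mul, abs_mul, abs_of_nonneg hq0, abs_of_nonneg (by positivity : 0 ≤ 2 * H)]
    gcongr
  have t3 : |H * g ^ 2 * s| ≤ H * g' ^ 2 * s' := by
    rw [abs_mul, abs_mul, abs_pow, abs_of_nonneg hs0, abs_of_nonneg hH]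
    gcongr
  have t4 : |2 * H * e * q ^ 2 * s| ≤ 2 * H * q' ^ 2 * s' := by
    rw [abs_mul, abs_mul, abs_mul, abs_pow, abs_of_nonneg hq0, abs_of_nonneg hs0,
      abs_of_nonneg (by positivity : 0 ≤ 2 * H)]
    calc 2 * H * |e| * q ^ 2 * s ≤ 2 * H * 1 * q' ^ 2 * s' := by gcongr
      _ = _ := by ring
  calc _ ≤ |g ^ 2 * h * ν + 2 * H * g * h * q + H * g ^ 2 * s| + |2 * H * e * q ^ 2 * s| :=
        abs_add_le _ _
    _ ≤ |g ^ 2 * h * ν + 2 * H * g * h * q| + |H * g ^ 2 * s| + |2 * H * e * q ^ 2 * s| := by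
        gcongr; exact abs_add_le _ _
    _ ≤ |g ^ 2 * h * ν| + |2 * H * g * h * q| + |H * g ^ 2 * s| + |2 * H * e * q ^ 2 * s| := by
        gcongr; exact abs_add_le _ _
    _ ≤ _ := by gcongr

theorem rC_le (H ν e g q h s g' q' h' s' : ℝ) (hH : 0 ≤ H) (hν : 0 ≤ ν) (he : |e| ≤ 1)
    (hg : |g| ≤ g') (hh : |h| ≤ h') (hq0 : 0 ≤ q) (hq : q ≤ q') (hs0 : 0 ≤ s) (hs : s ≤ s') :
    |rC H ν e g q h s| ≤ g' * h' ^ 2 * ν + H * h' ^ 2 * q' + 2 * H * g' * h' * s' +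
      2 * H * q' * s' ^ 2 := by
  have hg0 : 0 ≤ g' := (abs_nonneg g).trans hg
  have hh0 : 0 ≤ h' := (abs_nonneg h).trans hh
  have hq0' : 0 ≤ q' := hq0.trans hq
  have hs0' : 0 ≤ s' := hs0.trans hs
  unfold rC
  have t1 : |g * h ^ 2 * ν| ≤ g' * h' ^ 2 * ν := by
    rw [abs_mul, abs_mul, abs_pow, abs_of_nonneg hν]; gcongr
  have t2 : |H * h ^ 2 * q| ≤ H * h' ^ 2 * q' := by
    rw [abs_mul, abs_mul, abs_pow, abs_of_nonneg hq0, abs_of_nonneg hH]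
    gcongr
  have t3 : |2 * H * g * h * s| ≤ 2 * H * g' * h' * s' := by
    rw [abs_mul, abs_mul, abs_mul, abs_of_nonneg hs0, abs_of_nonneg (by positivity : 0 ≤ 2 * H)]
    gcongr
  have t4 : |2 * H * e * q * s ^ 2| ≤ 2 * H * q' * s' ^ 2 := by
    rw [abs_mul, abs_mul, abs_mul, abs_pow, abs_of_nonneg hq0, abs_of_nonneg hs0,
      abs_of_nonneg (by positivity : 0 ≤ 2 * H)]
    calc 2 * H * |e| * q * s ^ 2 ≤ 2 * H * 1 * q' * s' ^ 2 := by gcongr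
      _ = _ := by ring
  calc _ ≤ |g * h ^ 2 * ν + H * h ^ 2 * q + 2 * H * g * h * s| + |2 * H * e * q * s ^ 2| :=
        abs_add_le _ _
    _ ≤ |g * h ^ 2 * ν + H * h ^ 2 * q| + |2 * H * g * h * s| + |2 * H * e * q * s ^ 2| := by
        gcongr; exact abs_add_le _ _
    _ ≤ |g * h ^ 2 * ν| + |H * h ^ 2 * q| + |2 * H * g * h * s| + |2 * H * e * q * s ^ 2| := by
        gcongr; exact abs_add_le _ _
    _ ≤ _ := by gcongr

end Pool.Agent.Work.MP_f2148a_nt.Exp
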