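import Mathlib
import Pool.Agent.Work.MP_f2148a_nt.Exp.GeomC

set_option autoImplicit false

namespace Pool.Agent.Work.MP_f2148a_nt.Exp

theorem near_completion (a q : ℤ) (hq : 0 < q) (hc : IsCoprime a q) (t σ : ℝ)
    (hσ : σ = a - q * t) (h0 : σ ≠ 0) :
    ∃ b s ε : ℤ, (ε = 1 ∨ ε = -1) ∧ a * s - q * b = ε ∧ 1 / |σ| - q < s ∧ (s : ℝ) ≤ 1 / |σ| ∧
      |(b : ℝ) - s * t| ≤ |σ| := by
  have hq' : (0 : ℝ) < q := by exact_mod_cast hq
  have hσ0 : 0 < |σ| := abs_pos.2 h0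
  rcases lt_or_gt_of_ne h0 with hneg | hpos
  · obtain ⟨b, s, h1, h2, h3⟩ := completion a q hq hc (1 / |σ|) (-1)
    refine ⟨b, s, -1, Or.inr rfl, h1, h2, h3, ?_⟩
    have h1' : (a : ℝ) * s - q * b = -1 := by exact_mod_cast h1
    rw [abs_of_neg hneg] at h2 h3 ⊢
    have hσn : 0 < -σ := by linarith
    have e1 : (q : ℝ) * (b - s * t) = s * σ + 1 := by rw [hσ]; linarith
    have h3' : (s : ℝ) * (-σ) ≤ 1 := by rwa [le_div_iff₀ hσn] at h3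
    have h2' : 1 < (s + q) * (-σ) := by
      rw [sub_lt_iff_lt_add, div_lt_iff₀ hσn] at h2; exact h2
    rw [abs_le]
    constructor
    · nlinarith
    · nlinarith
  · obtain ⟨b, s, h1, h2, h3⟩ := completion a q hq hc (1 / |σ|) 1
    refine ⟨b, s, 1, Or.inl rfl, h1, h2, h3, ?_⟩
    have h1' : (a : ℝ) * s - q * b = 1 := by exact_mod_cast h1
    rw [abs_of_pos hpos] at h2 h3 ⊢
    have e1 : (q : ℝ) * (b - s * t) = s * σ - 1 := by rw [hσ]; linarith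
    have h3' : (s : ℝ) * σ ≤ 1 := by rwa [le_div_iff₀ hpos] at h3
    have h2' : 1 < (s + q) * σ := by
      rw [sub_lt_iff_lt_add, div_lt_iff₀ hpos] at h2; exact h2
    rw [abs_le]
    constructor
    · nlinarith
    · nlinarith

/-- reduced completion and its size -/
theorem red_completion (a q : ℤ) (hq : 0 < q) (hc : IsCoprime a q) (t : ℝ) :
    ∃ b s : ℤ, a * s - q * b = 1 ∧ 0 ≤ s ∧ s ≤ q ∧
      |(b : ℝ) - s * t| ≤ |(a : ℝ) - q * t| + 1 / q := by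
  have hq' : (0 : ℝ) < q := by exact_mod_cast hq
  obtain ⟨b, s, h1, h2, h3⟩ := completion a q hq hc ((q : ℝ) - 1) 1
  have hs0 : 0 ≤ s := by
    have : (-1 : ℝ) < s := by linarith
    have h : (-1 : ℤ) < s := by exact_mod_cast this
    omega
  have hs1 : s ≤ q := by
    have : (s : ℝ) ≤ q := by linarith
    exact_mod_cast this
  refine ⟨b, s, h1, hs0, hs1, ?_⟩
  have h1' : (a : ℝ) * s - q * b = 1 := by exact_mod_cast h1
  have hs0' : (0 : ℝ) ≤ s := by exact_mod_cast hs0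
  have hs1' : (s : ℝ) ≤ q := by exact_mod_cast hs1
  have e1 : (b : ℝ) - s * t = (s * (a - q * t) - 1) / q := by
    rw [eq_div_iff hq'.ne']; linarith
  rw [e1, abs_div, abs_of_pos hq', div_le_iff₀ hq', add_mul, one_div, inv_mul_cancel₀ hq'.ne']
  calc |(s : ℝ) * (a - q * t) - 1| ≤ |(s : ℝ) * (a - q * t)| + |(1 : ℝ)| := abs_sub _ _
    _ = s * |(a : ℝ) - q * t| + 1 := by rw [abs_mul, abs_of_nonneg hs0', abs_one]
    _ ≤ |(a : ℝ) - q * t| * q + 1 := by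
        rw [mul_comm]
        gcongr

theorem balanced (x y a q : ℤ) (H S t N e : ℝ) (hH : 1 ≤ H) (hS : 2 ≤ S) (hN : 2 * S ≤ N)
    (hx : (x : ℝ) = t ^ 2) (ht : t = N * H) (hy : (y : ℝ) = t ^ 3 + e * H / N ^ 3) (he : |e| ≤ 1)
    (hq : 0 < q) (hc : IsCoprime a q) (hq1 : N / S ≤ q) (hq2 : (q : ℝ) ≤ N * S)
    (hg : |(a : ℝ) - q * t| ≤ 1 / N) :
    ∃ b s : ℤ, a * s - q * b = 1 ∧ 0 ≤ s ∧ s ≤ q ∧
      |(cA x y a q : ℝ)| ≤ 18 * H * S ^ 3 ∧ |(cB x y a q b s : ℝ)| ≤ 18 * H * S ^ 3 ∧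
      |(cC x y a q b s : ℝ)| ≤ 18 * H * S ^ 3 ∧ |(cD x y b s : ℝ)| ≤ 18 * H * S ^ 3 := by
  obtain ⟨b, s, h1, h2, h3, h4⟩ := red_completion a q hq hc t
  have hN0 : 0 < N := by linarith
  have hS0 : 0 < S := by linarith
  have hH0 : 0 < H := by linarith
  have hq' : (0 : ℝ) < q := by exact_mod_cast hq
  have hs0' : (0 : ℝ) ≤ s := by exact_mod_cast h2
  have hs1' : (s : ℝ) ≤ q := by exact_mod_cast h3
  have hgN : |((a : ℝ) - q * t) * N| ≤ 1 := by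
    rw [abs_mul, abs_of_pos hN0]
    calc |(a : ℝ) - q * t| * N ≤ 1 / N * N := by gcongr
      _ = 1 := by field_simp
  have hqN : (q : ℝ) / N ≤ S := by rw [div_le_iff₀ hN0]; linarith
  have hsN : (s : ℝ) / N ≤ S := by rw [div_le_iff₀ hN0]; linarith
  have hqN0 : 0 ≤ (q : ℝ) / N := by positivity
  have hsN0 : 0 ≤ (s : ℝ) / N := by positivity
  have hqinv : 1 / (q : ℝ) ≤ S / N := by
    rw [div_le_div_iff₀ hq' hN0]
    rw [div_le_iff₀ hS0] at hq1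
    linarith
  have hhN : |((b : ℝ) - s * t) * N| ≤ 2 * S := by
    rw [abs_mul, abs_of_pos hN0]
    calc |(b : ℝ) - s * t| * N ≤ (1 / N + S / N) * N := by
          gcongr
          linarith
      _ = 1 + S := by field_simp
      _ ≤ 2 * S := by linarith
  have hν0 : 0 ≤ 1 / N ^ 3 := by positivity
  have hν : 8 * S ^ 3 * (1 / N ^ 3) ≤ 1 := by
    rw [mul_one_div, div_le_one (by positivity)]
    calc 8 * S ^ 3 = (2 * S) ^ 3 := by ring
      _ ≤ N ^ 3 := by gcongr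
  have hS3 : 8 ≤ S ^ 3 := by
    calc (8 : ℝ) = 2 ^ 3 := by norm_num
      _ ≤ S ^ 3 := by gcongr
  have hν1 : 1 / N ^ 3 ≤ 1 := by nlinarith
  have hHS3 : S ^ 3 ≤ H * S ^ 3 := by nlinarith
  have hS1 : 1 ≤ S := by linarith
  have k2 : H * S ^ 2 ≤ H * S ^ 3 := by gcongr <;> norm_num
  have k3 : H * S ≤ H * S ^ 2 := by
    calc H * S = H * S ^ 1 := by ring
      _ ≤ H * S ^ 2 := by gcongr <;> norm_num
  have k4 : S ≤ S ^ 3 := by
    calc S = S ^ 1 := by ring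
      _ ≤ S ^ 3 := by gcongr <;> norm_num
  have k5 : S ^ 2 ≤ S ^ 3 := by gcongr <;> norm_num
  have n1 : S * (1 / N ^ 3) ≤ S ^ 3 * (1 / N ^ 3) := by gcongr
  have n2 : S ^ 2 * (1 / N ^ 3) ≤ S ^ 3 * (1 / N ^ 3) := by gcongr
  refine ⟨b, s, h1, h2, h3, ?_, ?_, ?_, ?_⟩
  · rw [cA_eq x y a q t H e N hx hN0.ne' hH0.ne' ht hy]
    refine (rA_le H _ e _ _ 1 S hH0.le hν0 he hgN hqN0 hqN).trans ?_
    linarith
  · rw [cB_eq x y a q b s t H e N hx hN0.ne' hH0.ne' ht hy]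
    refine (rB_le H _ e _ _ _ _ 1 S (2 * S) S hH0.le hν0 he hgN hhN hqN0 hqN hsN0 hsN).trans ?_
    linarith
  · rw [cC_eq x y a q b s t H e N hx hN0.ne' hH0.ne' ht hy]
    refine (rC_le H _ e _ _ _ _ 1 S (2 * S) S hH0.le hν0 he hgN hhN hqN0 hqN hsN0 hsN).trans ?_
    linarith
  · rw [cD_eq x y b s t H e N hx hN0.ne' hH0.ne' ht hy]
    refine (rA_le H _ e _ _ (2 * S) S hH0.le hν0 he hhN hsN0 hsN).trans ?_
    have a1 : (2 * S) ^ 3 * (1 / N ^ 3) ≤ 1 := by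
      calc (2 * S) ^ 3 * (1 / N ^ 3) = 8 * S ^ 3 * (1 / N ^ 3) := by ring
        _ ≤ 1 := hν
    nlinarith

end Pool.Agent.Work.MP_f2148a_nt.Exp
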