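import Mathlib

set_option autoImplicit false

namespace Pool.Agent.Work.MP_f2148a_nt.Exp

theorem prodR1 (H z τ u α β γ δ : ℝ) (hH : 1 ≤ H) (hz0 : 0 < z) (hz : z ≤ 1 / 2) (hτ0 : 0 ≤ τ)
    (hτ : τ ≤ z) (hu0 : 0 < u) (hu : u ≤ z) (hc : τ ^ 3 ≤ z * u) (hα1 : 1 ≤ α)
    (hα : α ≤ 4 * H * τ ^ 2 * u + 2 * H * u ^ 3) (hβ : β ≤ 7 * H * τ + 2 * H * u ^ 3)
    (hγ : γ ≤ 13 * H / u) (hδ : δ ≤ 18 * H / u) :
    max 1 α * max 1 β * max 1 γ * max 1 δ ≤ 18720 * H ^ 4 * z := by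
  have hH0 : 0 < H := by linarith
  have hu1 : u ≤ 1 / 2 := by linarith
  have h13 : 1 ≤ 13 * H / u := by rw [le_div_iff₀ hu0]; linarith
  have h18 : 1 ≤ 18 * H / u := by rw [le_div_iff₀ hu0]; linarith
  have e1 : max 1 α = α := max_eq_right hα1
  have e3 : max 1 γ ≤ 13 * H / u := max_le h13 hγ
  have e4 : max 1 δ ≤ 18 * H / u := max_le h18 hδ
  have hz2 : z ^ 2 ≤ z / 2 := by nlinarith
  have hz3 : z ^ 3 ≤ z / 4 := by
    calc z ^ 3 = z * z ^ 2 := by ring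
      _ ≤ z * (z / 2) := by gcongr
      _ = z ^ 2 / 2 := by ring
      _ ≤ z / 4 := by linarith
  have hz4 : z ^ 4 ≤ z / 8 := by
    calc z ^ 4 = z * z ^ 3 := by ring
      _ ≤ z * (z / 4) := by gcongr
      _ = z ^ 2 / 4 := by ring
      _ ≤ z / 8 := by linarith
  have key : α * max 1 β ≤ 80 * H ^ 2 * z * u ^ 2 := by
    rcases le_total β 1 with hb | hb
    · rw [max_eq_left hb, mul_one]
      refine hα.trans ?_
      have s1 : 2 * H * u ^ 3 ≤ 2 * H ^ 2 * z * u ^ 2 := by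
        calc 2 * H * u ^ 3 = 2 * (H * 1) * (u * u ^ 2) := by ring
          _ ≤ 2 * (H * H) * (z * u ^ 2) := by gcongr
          _ = _ := by ring
      have s2 : 4 * H * τ ^ 2 * u ≤ 3 * H ^ 2 * z * u ^ 2 := by
        have h1 : 1 ≤ 4 * H * τ ^ 2 * u + 2 * H * u ^ 3 := hα1.trans hα
        have t4 : τ ^ 4 ≤ z ^ 4 := by gcongr
        have t2 : τ ^ 2 * u ^ 2 ≤ z ^ 4 := by
          calc τ ^ 2 * u ^ 2 ≤ z ^ 2 * z ^ 2 := by gcongr
            _ = z ^ 4 := by ring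
        calc 4 * H * τ ^ 2 * u = 4 * H * τ ^ 2 * u * 1 := by ring
          _ ≤ 4 * H * τ ^ 2 * u * (4 * H * τ ^ 2 * u + 2 * H * u ^ 3) := by gcongr
          _ = H ^ 2 * u ^ 2 * (16 * τ ^ 4 + 8 * (τ ^ 2 * u ^ 2)) := by ring
          _ ≤ H ^ 2 * u ^ 2 * (16 * z ^ 4 + 8 * z ^ 4) := by gcongr
          _ ≤ H ^ 2 * u ^ 2 * (16 * (z / 8) + 8 * (z / 8)) := by gcongr
          _ = 3 * H ^ 2 * z * u ^ 2 := by ring
      have : 0 ≤ H ^ 2 * z * u ^ 2 := by positivity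
      nlinarith
    · rw [max_eq_right hb]
      calc α * β ≤ (4 * H * τ ^ 2 * u + 2 * H * u ^ 3) * (7 * H * τ + 2 * H * u ^ 3) := by
            gcongr
        _ = H ^ 2 * (28 * τ ^ 3 * u + u ^ 2 * (8 * (τ ^ 2 * u ^ 2) + 14 * (τ * u) + 4 * u ^ 4)) := by
            ring
        _ ≤ H ^ 2 * (28 * (z * u) * u + u ^ 2 * (8 * (z ^ 2 * z ^ 2) + 14 * (z * z) + 4 * z ^ 4)) := by
            gcongr
        _ = H ^ 2 * u ^ 2 * (28 * z + 12 * z ^ 4 + 14 * z ^ 2) := by ring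
        _ ≤ H ^ 2 * u ^ 2 * (28 * z + 12 * (z / 8) + 14 * (z / 2)) := by gcongr
        _ ≤ H ^ 2 * u ^ 2 * (80 * z) := by gcongr; linarith
        _ = _ := by ring
  have hm0 : 0 ≤ max 1 β := zero_le_one.trans (le_max_left _ _)
  calc max 1 α * max 1 β * max 1 γ * max 1 δ ≤ α * max 1 β * (13 * H / u) * (18 * H / u) := by
        rw [e1]; gcongr
    _ ≤ (80 * H ^ 2 * z * u ^ 2) * (13 * H / u) * (18 * H / u) := by gcongr
    _ = 18720 * H ^ 4 * z := by field_simp; ring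

theorem prodR2 (H z τ u α β γ δ : ℝ) (hH : 1 ≤ H) (hz0 : 0 < z) (hz : z ≤ 1 / 2) (hτ0 : 0 < τ)
    (hτ : τ ≤ z) (hu0 : 0 < u) (hc : z * u ≤ τ ^ 3) (hα1 : 1 ≤ α)
    (hα : α ≤ 4 * H * τ ^ 2 * u + 2 * H * u ^ 3) (hβ : β ≤ 4 * H * τ + 2 * H * u ^ 2 / τ)
    (hγ : γ ≤ 4 * H * τ + 2 * H * u / τ ^ 2) (hδ : δ ≤ 4 * H * τ + 2 * H / τ ^ 3) :
    max 1 α * max 1 β * max 1 γ * max 1 δ ≤ 18720 * H ^ 4 * z := by
  have hH0 : 0 < H := by linarith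
  have hu : u ≤ τ ^ 3 / z := by rw [le_div_iff₀ hz0]; linarith
  have hτ4 : τ ^ 4 ≤ z ^ 4 := by gcongr
  have hz4' : z ^ 4 ≤ 1 / 16 := by
    calc z ^ 4 ≤ (1 / 2) ^ 4 := by gcongr
      _ = 1 / 16 := by norm_num
  have hu2 : u ^ 2 ≤ τ ^ 2 / 4 := by
    calc u ^ 2 ≤ (τ ^ 3 / z) ^ 2 := by gcongr
      _ = τ ^ 2 * τ ^ 4 / z ^ 2 := by field_simp
      _ ≤ τ ^ 2 * z ^ 4 / z ^ 2 := by gcongr
      _ = τ ^ 2 * z ^ 2 := by field_simp
      _ ≤ τ ^ 2 * (1 / 2) ^ 2 := by gcongr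
      _ = τ ^ 2 / 4 := by ring
  have hα' : α ≤ 9 / 2 * H * τ ^ 2 * u := by
    refine hα.trans ?_
    have : 2 * H * u ^ 3 ≤ 1 / 2 * H * τ ^ 2 * u := by
      calc 2 * H * u ^ 3 = 2 * H * u * u ^ 2 := by ring
        _ ≤ 2 * H * u * (τ ^ 2 / 4) := by gcongr
        _ = _ := by ring
    linarith
  have hb1 : 1 ≤ 9 / 2 * H * τ * z ^ 3 := by
    calc 1 ≤ α := hα1
      _ ≤ 9 / 2 * H * τ ^ 2 * u := hα'
      _ ≤ 9 / 2 * H * τ ^ 2 * (τ ^ 3 / z) := by gcongr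
      _ = 9 / 2 * H * τ * τ ^ 4 / z := by field_simp
      _ ≤ 9 / 2 * H * τ * z ^ 4 / z := by gcongr
      _ = 9 / 2 * H * τ * z ^ 3 := by field_simp
  have hz3 : z ^ 3 ≤ 1 / 8 := by
    calc z ^ 3 ≤ (1 / 2) ^ 3 := by gcongr
      _ = 1 / 8 := by norm_num
  have hb2 : 1 ≤ 9 / 2 * H * τ * (1 / 8) := by
    refine hb1.trans ?_
    gcongr
  have hHτ : 0 < H * τ := by positivity
  have hβ' : max 1 β ≤ 9 / 2 * H * τ := by
    apply max_le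
    · linarith
    · refine hβ.trans ?_
      have : 2 * H * u ^ 2 / τ ≤ 1 / 2 * H * τ := by
        calc 2 * H * u ^ 2 / τ ≤ 2 * H * (τ ^ 2 / 4) / τ := by gcongr
          _ = 1 / 2 * H * τ := by field_simp; ring
      linarith
  have hγ' : max 1 γ ≤ 4 * H * τ / z := by
    apply max_le
    · rw [le_div_iff₀ hz0]; nlinarith
    · refine hγ.trans ?_
      have h1 : 2 * H * u / τ ^ 2 ≤ 2 * H * τ / z := by
        calc 2 * H * u / τ ^ 2 ≤ 2 * H * (τ ^ 3 / z) / τ ^ 2 := by gcongr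
          _ = 2 * H * τ / z := by field_simp
      have h2 : 4 * H * τ ≤ 2 * H * τ / z := by
        rw [le_div_iff₀ hz0]; nlinarith
      have h3 : 2 * H * τ / z + 2 * H * τ / z = 4 * H * τ / z := by ring
      linarith
  have hδ' : max 1 δ ≤ 9 / 4 * H / τ ^ 3 := by
    have hτh : τ ≤ 1 / 2 := by linarith
    have hτ3 : τ ^ 3 ≤ 1 / 8 := by
      calc τ ^ 3 ≤ (1 / 2) ^ 3 := by gcongr
        _ = 1 / 8 := by norm_num
    apply max_le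
    · rw [le_div_iff₀ (by positivity)]; nlinarith
    · refine hδ.trans ?_
      have h1 : 4 * H * τ ≤ 1 / 4 * H / τ ^ 3 := by
        rw [le_div_iff₀ (by positivity)]
        calc 4 * H * τ * τ ^ 3 = 4 * H * τ ^ 4 := by ring
          _ ≤ 4 * H * (1 / 16) := by gcongr; linarith
          _ = 1 / 4 * H := by ring
      have h3 : 1 / 4 * H / τ ^ 3 + 2 * H / τ ^ 3 = 9 / 4 * H / τ ^ 3 := by ring
      linarith
  have e1 : max 1 α ≤ 9 / 2 * H * τ ^ 2 * u := by rw [max_eq_right hα1]; exact hα'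
  have m2 : 0 ≤ max 1 β := zero_le_one.trans (le_max_left _ _)
  have m3 : 0 ≤ max 1 γ := zero_le_one.trans (le_max_left _ _)
  have m4 : 0 ≤ max 1 δ := zero_le_one.trans (le_max_left _ _)
  calc max 1 α * max 1 β * max 1 γ * max 1 δ
      ≤ (9 / 2 * H * τ ^ 2 * u) * (9 / 2 * H * τ) * (4 * H * τ / z) * (9 / 4 * H / τ ^ 3) := by
        gcongr
    _ = 729 / 4 * H ^ 4 * τ * u / z := by field_simp; ring
    _ ≤ 729 / 4 * H ^ 4 * τ * (τ ^ 3 / z) / z := by gcongr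
    _ = 729 / 4 * H ^ 4 * τ ^ 4 / z ^ 2 := by field_simp
    _ ≤ 729 / 4 * H ^ 4 * z ^ 4 / z ^ 2 := by gcongr
    _ = 729 / 4 * H ^ 4 * z * z := by field_simp
    _ ≤ 729 / 4 * H ^ 4 * z * (1 / 2) := by gcongr
    _ ≤ 18720 * H ^ 4 * z := by
        have : 0 ≤ H ^ 4 * z := by positivity
        nlinarith

end Pool.Agent.Work.MP_f2148a_nt.Exp
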