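import Mathlib
import Pool.Agent.Work.MP_f2148a_nt.Exp.GeomD
import Pool.Agent.Work.MP_f2148a_nt.Exp.GeomE

set_option autoImplicit false

namespace Pool.Agent.Work.MP_f2148a_nt.Exp

theorem unbalanced (x y a q : ℤ) (H S t N e : ℝ) (hH : 1 ≤ H) (hS : 2 ≤ S) (hN : 2 * S ≤ N)
    (hx : (x : ℝ) = t ^ 2) (ht : t = N * H) (hy : (y : ℝ) = t ^ 3 + e * H / N ^ 3) (he : |e| ≤ 1)
    (hq : 0 < q) (hc : IsCoprime a q) (hq1 : (q : ℝ) < N / S)
    (hg : |(a : ℝ) - q * t| < 1 / (N * S)) (hA : cA x y a q ≠ 0) :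
    ∃ b s ε : ℤ, (ε = 1 ∨ ε = -1) ∧ a * s - q * b = ε ∧
      max 1 |(cA x y a q : ℝ)| * max 1 |(cB x y a q b s : ℝ)| * max 1 |(cC x y a q b s : ℝ)| *
        max 1 |(cD x y b s : ℝ)| ≤ 18720 * H ^ 4 * (1 / S) := by
  have hN0 : 0 < N := by linarith
  have hS0 : 0 < S := by linarith
  have hH0 : 0 < H := by linarith
  have hq' : (0 : ℝ) < q := by exact_mod_cast hq
  have hq1' : (1 : ℝ) ≤ q := by exact_mod_cast hq
  have hα1 : 1 ≤ |(cA x y a q : ℝ)| := by
    have : 1 ≤ |cA x y a q| := Int.one_le_abs hA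
    exact_mod_cast this
  set z := 1 / S with hz
  have hz0 : 0 < z := by positivity
  have hz2 : z ≤ 1 / 2 := by rw [hz]; apply one_div_le_one_div_of_le <;> linarith
  set u := (q : ℝ) / N with hu
  have hu0 : 0 < u := by positivity
  have huz : u ≤ z := by
    rw [hu, hz, div_le_div_iff₀ hN0 hS0]
    rw [lt_div_iff₀ hS0] at hq1
    linarith
  have hu1 : u ≤ 1 / 2 := by linarith
  set τ := |((a : ℝ) - q * t) * N| with hτ
  have hτ0 : 0 ≤ τ := abs_nonneg _
  have hτz : τ ≤ z := by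
    rw [hτ, abs_mul, abs_of_pos hN0, hz]
    calc |(a : ℝ) - q * t| * N ≤ 1 / (N * S) * N := by gcongr
      _ = 1 / S := by field_simp
  have hτ1 : τ ≤ 1 / 2 := by linarith
  set ν := 1 / N ^ 3 with hν
  have hν0 : 0 ≤ ν := by positivity
  have hνu : ν ≤ u ^ 3 := by
    rw [hν, hu, div_pow]
    gcongr
    exact one_le_pow₀ hq1'
  have hu3 : u ^ 3 ≤ u := by
    calc u ^ 3 = u * u ^ 2 := by ring
      _ ≤ u * 1 := by gcongr; nlinarith
      _ = u := by ring
  have hνu1 : ν ≤ u := hνu.trans hu3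
  have hAb : |(cA x y a q : ℝ)| ≤ 4 * H * τ ^ 2 * u + 2 * H * u ^ 3 := by
    rw [cA_eq x y a q t H e N hx hN0.ne' hH0.ne' ht hy]
    refine (rA_le H _ e _ _ τ u hH0.le hν0 he le_rfl hu0.le le_rfl).trans ?_
    have : τ ^ 3 * ν ≤ H * τ ^ 2 * u := by
      calc τ ^ 3 * ν = 1 * τ ^ 2 * (τ * ν) := by ring
        _ ≤ H * τ ^ 2 * (1 * u) := by gcongr; linarith
        _ = _ := by ring
    linarith
  rcases le_total (τ ^ 3) (z * u) with hcase | hcase
  · -- R1
    obtain ⟨b, s, h1, h2, h3, h4⟩ := red_completion a q hq hc t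
    have hs0' : (0 : ℝ) ≤ s := by exact_mod_cast h2
    have hs1' : (s : ℝ) ≤ q := by exact_mod_cast h3
    have hsN0 : 0 ≤ (s : ℝ) / N := by positivity
    have hsN : (s : ℝ) / N ≤ u := by rw [hu]; gcongr
    have hh : |((b : ℝ) - s * t) * N| ≤ 2 / u := by
      rw [abs_mul, abs_of_pos hN0]
      calc |(b : ℝ) - s * t| * N ≤ (|(a : ℝ) - q * t| + 1 / q) * N := by gcongr
        _ = τ + 1 / u := by
          rw [hτ, abs_mul, abs_of_pos hN0, hu]; field_simp
        _ ≤ 1 / u + 1 / u := by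
          gcongr
          rw [le_div_iff₀ hu0]
          nlinarith
        _ = 2 / u := by ring
    refine ⟨b, s, 1, Or.inl rfl, h1, ?_⟩
    refine prodR1 H z τ u _ _ _ _ hH hz0 hz2 hτ0 hτz hu0 huz hcase hα1 hAb ?_ ?_ ?_
    · rw [cB_eq x y a q b s t H e N hx hN0.ne' hH0.ne' ht hy]
      refine (rB_le H _ e _ _ _ _ τ u (2 / u) u hH0.le hν0 he le_rfl hh hu0.le le_rfl hsN0
        hsN).trans ?_
      have b1 : τ ^ 2 * (2 / u) * ν ≤ H * τ := by
        calc τ ^ 2 * (2 / u) * ν ≤ τ ^ 2 * (2 / u) * u := by gcongr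
          _ = 1 * (2 * τ) * τ := by field_simp
          _ ≤ H * 1 * τ := by gcongr; linarith
          _ = H * τ := by ring
      have b2 : 2 * H * τ * (2 / u) * u = 4 * H * τ := by field_simp; ring
      have b3 : H * τ ^ 2 * u ≤ H * τ := by
        calc H * τ ^ 2 * u = H * τ * (τ * u) := by ring
          _ ≤ H * τ * 1 := by gcongr; nlinarith
          _ = H * τ := by ring
      have b4 : 2 * H * u ^ 2 * u = 2 * H * u ^ 3 := by ring
      rw [b2, b4]
      have : 0 ≤ H * τ := by positivity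
      linarith
    · rw [cC_eq x y a q b s t H e N hx hN0.ne' hH0.ne' ht hy]
      refine (rC_le H _ e _ _ _ _ τ u (2 / u) u hH0.le hν0 he le_rfl hh hu0.le le_rfl hsN0
        hsN).trans ?_
      have hHu : 2 * H ≤ H / u := by
        rw [le_div_iff₀ hu0]; nlinarith
      have c1 : τ * (2 / u) ^ 2 * ν ≤ H := by
        calc τ * (2 / u) ^ 2 * ν ≤ τ * (2 / u) ^ 2 * u ^ 3 := by gcongr
          _ = 4 * τ * u := by field_simp; ring
          _ ≤ 1 := by nlinarith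
          _ ≤ H := hH
      have c2 : H * (2 / u) ^ 2 * u = 4 * (H / u) := by field_simp; ring
      have c3 : 2 * H * τ * (2 / u) * u ≤ 2 * H := by
        calc 2 * H * τ * (2 / u) * u = 2 * H * (2 * τ) := by field_simp
          _ ≤ 2 * H * 1 := by gcongr; linarith
          _ = 2 * H := by ring
      have c4 : 2 * H * u * u ^ 2 ≤ 2 * H := by
        calc 2 * H * u * u ^ 2 = 2 * H * u ^ 3 := by ring
          _ ≤ 2 * H * 1 := by gcongr; linarith
          _ = 2 * H := by ring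
      rw [c2]
      have c5 : 13 * H / u = 13 * (H / u) := by ring
      rw [c5]
      linarith
    · rw [cD_eq x y b s t H e N hx hN0.ne' hH0.ne' ht hy]
      refine (rA_le H _ e _ _ (2 / u) u hH0.le hν0 he hh hsN0 hsN).trans ?_
      have hHu : 2 * H ≤ H / u := by
        rw [le_div_iff₀ hu0]; nlinarith
      have d1 : (2 / u) ^ 3 * ν ≤ 8 * H := by
        calc (2 / u) ^ 3 * ν ≤ (2 / u) ^ 3 * u ^ 3 := by gcongr
          _ = 8 * 1 := by field_simp; norm_num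
          _ ≤ 8 * H := by gcongr
      have d2 : 3 * H * (2 / u) ^ 2 * u = 12 * (H / u) := by field_simp; ring
      have d3 : 2 * H * u ^ 3 ≤ 2 * H := by
        calc 2 * H * u ^ 3 ≤ 2 * H * 1 := by gcongr; linarith
          _ = 2 * H := by ring
      rw [d2]
      have c5 : 18 * H / u = 18 * (H / u) := by ring
      rw [c5]
      linarith
  · -- R2
    have hτpos : 0 < τ := by
      rcases hτ0.lt_or_eq with h | h
      · exact h
      · exfalso
        rw [← h] at hcase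
        have : 0 < z * u := by positivity
        norm_num at hcase
        linarith
    have hσ0 : (a : ℝ) - q * t ≠ 0 := by
      intro h
      rw [hτ, h] at hτpos
      simp at hτpos
    obtain ⟨b, s, ε, hε, h1, h2, h3, h4⟩ := near_completion a q hq hc t _ rfl hσ0
    set σ := |(a : ℝ) - q * t| with hσ
    have hσpos : 0 < σ := abs_pos.2 hσ0
    have hτσ : τ = σ * N := by rw [hτ, abs_mul, abs_of_pos hN0]
    have hinv : 1 / σ = N / τ := by rw [hτσ]; field_simp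
    have hs0' : (0 : ℝ) ≤ s := by
      have : (q : ℝ) ≤ 1 / σ := by
        rw [le_div_iff₀ hσpos]
        calc (q : ℝ) * σ ≤ (N / S) * (1 / (N * S)) := by gcongr
          _ = 1 / S * (1 / S) := by field_simp
          _ ≤ (1 / 2) * (1 / 2) := by gcongr
          _ ≤ 1 := by norm_num
      linarith
    have hsN0 : 0 ≤ (s : ℝ) / N := by positivity
    have hsN : (s : ℝ) / N ≤ 1 / τ := by
      rw [div_le_iff₀ hN0]
      calc (s : ℝ) ≤ 1 / σ := h3
        _ = 1 / τ * N := by rw [hinv]; ring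
    have hh : |((b : ℝ) - s * t) * N| ≤ τ := by
      rw [abs_mul, abs_of_pos hN0, hτσ]
      gcongr
    refine ⟨b, s, ε, hε, h1, ?_⟩
    have hν1 : τ ^ 3 * ν ≤ H * τ := by
      calc τ ^ 3 * ν = 1 * τ * (τ ^ 2 * ν) := by ring
        _ ≤ H * τ * (1 * 1) := by
          gcongr
          · nlinarith
          · linarith
        _ = H * τ := by ring
    have hτu : H * τ ^ 2 * u ≤ 1 / 2 * (H * τ) := by
      calc H * τ ^ 2 * u = H * τ * (τ * u) := by ring
        _ ≤ H * τ * (1 / 2) := by gcongr; nlinarith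
        _ = 1 / 2 * (H * τ) := by ring
    have hHτ : 0 ≤ H * τ := by positivity
    refine prodR2 H z τ u _ _ _ _ hH hz0 hz2 hτpos hτz hu0 hcase hα1 hAb ?_ ?_ ?_
    · rw [cB_eq x y a q b s t H e N hx hN0.ne' hH0.ne' ht hy]
      refine (rB_le H _ e _ _ _ _ τ u τ (1 / τ) hH0.le hν0 he le_rfl hh hu0.le le_rfl hsN0
        hsN).trans ?_
      have b2 : 2 * H * τ * τ * u = 2 * (H * τ ^ 2 * u) := by ring
      have b3 : H * τ ^ 2 * (1 / τ) = H * τ := by field_simp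
      have b4 : 2 * H * u ^ 2 * (1 / τ) = 2 * H * u ^ 2 / τ := by ring
      have b5 : τ ^ 2 * τ * ν = τ ^ 3 * ν := by ring
      rw [b2, b3, b4, b5]
      linarith
    · rw [cC_eq x y a q b s t H e N hx hN0.ne' hH0.ne' ht hy]
      refine (rC_le H _ e _ _ _ _ τ u τ (1 / τ) hH0.le hν0 he le_rfl hh hu0.le le_rfl hsN0
        hsN).trans ?_
      have c3 : 2 * H * τ * τ * (1 / τ) = 2 * (H * τ) := by field_simp
      have c4 : 2 * H * u * (1 / τ) ^ 2 = 2 * H * u / τ ^ 2 := by field_simp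
      have c5 : τ * τ ^ 2 * ν = τ ^ 3 * ν := by ring
      rw [c3, c4, c5]
      linarith
    · rw [cD_eq x y b s t H e N hx hN0.ne' hH0.ne' ht hy]
      refine (rA_le H _ e _ _ τ (1 / τ) hH0.le hν0 he hh hsN0 hsN).trans ?_
      have d2 : 3 * H * τ ^ 2 * (1 / τ) = 3 * (H * τ) := by field_simp
      have d3 : 2 * H * (1 / τ) ^ 3 = 2 * H / τ ^ 3 := by field_simp
      rw [d2, d3]
      linarith

/-- Module Geom. -/
theorem geom (x y : ℤ) (H S : ℝ) (hH : 1 ≤ H) (hS : 2 ≤ S) (hx : 0 < x) (hy : 0 < y)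
    (hk0 : y ^ 2 ≠ x ^ 3) (hk : |(y : ℝ) ^ 2 - (x : ℝ) ^ 3| ≤ H ^ 4)
    (hxH : 4 * H ^ 4 ≤ (x : ℝ)) (hN : 2 * S * H ≤ Real.sqrt x) :
    ∃ a b c d : ℤ, Dv a b c d = 4 * (y ^ 2 - x ^ 3) ∧ a ≠ 0 ∧
      ((|(a : ℝ)| ≤ 18 * H * S ^ 3 ∧ |(b : ℝ)| ≤ 18 * H * S ^ 3 ∧ |(c : ℝ)| ≤ 18 * H * S ^ 3 ∧
        |(d : ℝ)| ≤ 18 * H * S ^ 3 ∧
        ∃ p r : ℤ, |Fv a b c d p r| = 1 ∧ |p| ≤ r ∧ Real.sqrt x / (H * S) ≤ (r : ℝ) ∧
          (r : ℝ) ≤ Real.sqrt x * S / H) ∨
       max 1 |(a : ℝ)| * max 1 |(b : ℝ)| * max 1 |(c : ℝ)| * max 1 |(d : ℝ)| ≤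
         18720 * H ^ 4 / S) := by
  have hH0 : 0 < H := by linarith
  have hS0 : 0 < S := by linarith
  have hxr : (0 : ℝ) < x := by exact_mod_cast hx
  have hyr : (0 : ℝ) < y := by exact_mod_cast hy
  set t := Real.sqrt x with ht
  have ht0 : 0 < t := Real.sqrt_pos.2 hxr
  have htt : (x : ℝ) = t ^ 2 := (Real.sq_sqrt hxr.le).symm
  set N := t / H with hNdef
  have hN0 : 0 < N := by positivity
  have htN : t = N * H := by rw [hNdef]; field_simp
  have hNS : 2 * S ≤ N := by rw [hNdef, le_div_iff₀ hH0]; exact hN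
  have hN4 : 4 ≤ N := by linarith
  set e := ((y : ℝ) - t ^ 3) * N ^ 3 / H with he
  have hye : (y : ℝ) = t ^ 3 + e * H / N ^ 3 := by rw [he]; field_simp; ring
  have he1 : |e| ≤ 1 := by
    have h1 : ((y : ℝ) - t ^ 3) * (y + t ^ 3) = (y : ℝ) ^ 2 - (x : ℝ) ^ 3 := by rw [htt]; ring
    have ht3 : 0 < t ^ 3 := by positivity
    have h2 : |(y : ℝ) - t ^ 3| * t ^ 3 ≤ H ^ 4 := by
      calc |(y : ℝ) - t ^ 3| * t ^ 3 ≤ |(y : ℝ) - t ^ 3| * (y + t ^ 3) := by gcongr; linarith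
        _ = |((y : ℝ) - t ^ 3) * (y + t ^ 3)| := by
          rw [abs_mul, abs_of_pos (by linarith : 0 < (y : ℝ) + t ^ 3)]
        _ ≤ H ^ 4 := by rw [h1]; exact hk
    rw [he, abs_div, abs_mul, abs_of_pos hH0, abs_of_pos (by positivity : 0 < N ^ 3),
      div_le_one hH0]
    have h3 : |(y : ℝ) - t ^ 3| * N ^ 3 * H ^ 3 ≤ H * H ^ 3 := by
      calc |(y : ℝ) - t ^ 3| * N ^ 3 * H ^ 3 = |(y : ℝ) - t ^ 3| * t ^ 3 := by rw [htN]; ring
        _ ≤ H ^ 4 := h2
        _ = H * H ^ 3 := by ring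
    exact le_of_mul_le_mul_right h3 (by positivity)
  obtain ⟨a, q, hq, hc, hqN, hga⟩ := approx t N (by linarith)
  have hinvN : 1 / N ≤ 1 / 4 := one_div_le_one_div_of_le (by norm_num) hN4
  have hA := cA_ne_zero x y a q H hH hk0 hk hxH hq hc (hga.trans hinvN)
  -- the balanced conclusion
  have hbal : ∀ a q : ℤ, 0 < q → IsCoprime a q → N / S ≤ q → (q : ℝ) ≤ N * S →
      |(a : ℝ) - q * t| ≤ 1 / N →
      ∃ a b c d : ℤ, Dv a b c d = 4 * (y ^ 2 - x ^ 3) ∧ a ≠ 0 ∧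
      ((|(a : ℝ)| ≤ 18 * H * S ^ 3 ∧ |(b : ℝ)| ≤ 18 * H * S ^ 3 ∧ |(c : ℝ)| ≤ 18 * H * S ^ 3 ∧
        |(d : ℝ)| ≤ 18 * H * S ^ 3 ∧
        ∃ p r : ℤ, |Fv a b c d p r| = 1 ∧ |p| ≤ r ∧ t / (H * S) ≤ (r : ℝ) ∧
          (r : ℝ) ≤ t * S / H) ∨
       max 1 |(a : ℝ)| * max 1 |(b : ℝ)| * max 1 |(c : ℝ)| * max 1 |(d : ℝ)| ≤
         18720 * H ^ 4 / S) := by
    intro a q hq hc hq1 hq2 hg
    obtain ⟨b, s, h1, h2, h3, hA', hB', hC', hD'⟩ :=
      balanced x y a q H S t N e hH hS hNS htt htN hye he1 hq hc hq1 hq2 hg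
    refine ⟨cA x y a q, cB x y a q b s, cC x y a q b s, cD x y b s, ?_,
      cA_ne_zero x y a q H hH hk0 hk hxH hq hc (hg.trans hinvN), Or.inl ⟨hA', hB', hC', hD',
      -s, q, ?_, ?_, ?_, ?_⟩⟩
    · rw [Dv_c, h1]; ring
    · rw [Fv_c, h1]; norm_num
    · rw [abs_neg, abs_of_nonneg h2]; exact h3
    · calc t / (H * S) = N / S := by rw [hNdef]; field_simp
        _ ≤ q := hq1
    · calc (q : ℝ) ≤ N * S := hq2
        _ = t * S / H := by rw [hNdef]; ring
  rcases le_or_gt (N / S) q with hqS | hqS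
  · refine hbal a q hq hc hqS (hqN.trans ?_) hga
    nlinarith
  · rcases lt_or_ge |(a : ℝ) - q * t| (1 / (N * S)) with hσ | hσ
    · obtain ⟨b, s, ε, hε, h1, h2⟩ := unbalanced x y a q H S t N e hH hS hNS htt htN hye he1 hq hc
        hqS hσ hA
      refine ⟨cA x y a q, cB x y a q b s, cC x y a q b s, cD x y b s, ?_, hA, Or.inr ?_⟩
      · rw [Dv_c, h1]
        rcases hε with h | h <;> rw [h] <;> ring
      · refine h2.trans (le_of_eq ?_)
        ring
    · have hσ0 : (a : ℝ) - q * t ≠ 0 := by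
        intro h
        rw [h, abs_zero] at hσ
        have : 0 < 1 / (N * S) := by positivity
        linarith
      obtain ⟨b, s, ε, hε, h1, h2, h3, h4⟩ := near_completion a q hq hc t _ rfl hσ0
      have hσpos : 0 < |(a : ℝ) - q * t| := abs_pos.2 hσ0
      have i1 : 1 / |(a : ℝ) - q * t| ≤ N * S := by
        rw [div_le_iff₀ hσpos]
        calc 1 = N * S * (1 / (N * S)) := by field_simp
          _ ≤ N * S * |(a : ℝ) - q * t| := by gcongr
      have i2 : N ≤ 1 / |(a : ℝ) - q * t| := by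
        rw [le_div_iff₀ hσpos]
        calc N * |(a : ℝ) - q * t| ≤ N * (1 / N) := by gcongr
          _ = 1 := by field_simp
      have i3 : 2 * (N / S) ≤ N := by
        rw [← mul_div_assoc, div_le_iff₀ hS0]; nlinarith
      have hsS : N / S ≤ s := by linarith
      have hspos : 0 < s := by
        have : (0 : ℝ) < s := lt_of_lt_of_le (by positivity) hsS
        exact_mod_cast this
      refine hbal b s hspos ?_ hsS (h3.trans i1) (h4.trans hga)
      rcases hε with h | h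
      · exact ⟨-q, a, by rw [h] at h1; linarith⟩
      · exact ⟨q, -a, by rw [h] at h1; linarith⟩

end Pool.Agent.Work.MP_f2148a_nt.Exp
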