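import Mathlib

set_option autoImplicit false

namespace Pool.Agent.Work.MP_f2148a_nt.Exp

/-- The scale parameter. -/
noncomputable def scale (K : ℝ) : ℕ := ⌈(18 * K ^ (1 / 4 : ℝ)) ^ (1 / 59997 : ℝ)⌉₊

theorem one_le_H (K : ℝ) (hK : 1 ≤ K) : 1 ≤ K ^ (1 / 4 : ℝ) :=
  Real.one_le_rpow hK (by norm_num)

theorem base_gt (K : ℝ) (hK : 1 ≤ K) : 1 < (18 * K ^ (1 / 4 : ℝ)) ^ (1 / 59997 : ℝ) := by
  have := one_le_H K hK
  exact Real.one_lt_rpow (by linarith) (by norm_num)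

theorem two_le_scale (K : ℝ) (hK : 1 ≤ K) : 2 ≤ scale K := by
  have h := base_gt K hK
  have h2 : 1 < scale K := Nat.lt_ceil.2 (by push_cast; exact h)
  omega

theorem scale_ge (K : ℝ) : (18 * K ^ (1 / 4 : ℝ)) ^ (1 / 59997 : ℝ) ≤ scale K := Nat.le_ceil _

theorem scale_pow_ge (K : ℝ) (hK : 1 ≤ K) : 18 * K ^ (1 / 4 : ℝ) ≤ (scale K : ℝ) ^ 59997 := by
  have h := scale_ge K
  have h1 := one_le_H K hK
  calc 18 * K ^ (1 / 4 : ℝ) = ((18 * K ^ (1 / 4 : ℝ)) ^ (1 / 59997 : ℝ)) ^ 59997 := by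
        rw [← Real.rpow_natCast, ← Real.rpow_mul (by positivity)]
        norm_num
    _ ≤ (scale K : ℝ) ^ 59997 := by gcongr

theorem scale_ge_rpow (K : ℝ) (hK : 1 ≤ K) : K ^ (1 / 239988 : ℝ) ≤ scale K := by
  refine le_trans ?_ (scale_ge K)
  have h1 := one_le_H K hK
  calc K ^ (1 / 239988 : ℝ) = (K ^ (1 / 4 : ℝ)) ^ (1 / 59997 : ℝ) := by
        rw [← Real.rpow_mul (by positivity)]
        norm_num
    _ ≤ (18 * K ^ (1 / 4 : ℝ)) ^ (1 / 59997 : ℝ) := by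
        gcongr
        linarith

theorem scale_pow_le (n : ℕ) : ∃ c : ℝ, 0 < c ∧ ∀ K : ℝ, 1 ≤ K →
    (scale K : ℝ) ^ n ≤ c * K ^ ((n : ℝ) / 239988) := by
  refine ⟨2 ^ n * (18 : ℝ) ^ ((n : ℝ) / 59997), by positivity, fun K hK => ?_⟩
  have h1 := one_le_H K hK
  have h2 := base_gt K hK
  have h3 : (scale K : ℝ) ≤ 2 * (18 * K ^ (1 / 4 : ℝ)) ^ (1 / 59997 : ℝ) := by
    have := Nat.ceil_lt_add_one (a := (18 * K ^ (1 / 4 : ℝ)) ^ (1 / 59997 : ℝ)) (by linarith)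
    unfold scale
    linarith
  calc (scale K : ℝ) ^ n ≤ (2 * (18 * K ^ (1 / 4 : ℝ)) ^ (1 / 59997 : ℝ)) ^ n := by gcongr
    _ = 2 ^ n * (18 * K ^ (1 / 4 : ℝ)) ^ ((n : ℝ) / 59997) := by
        rw [mul_pow, ← Real.rpow_natCast ((18 * K ^ (1 / 4 : ℝ)) ^ (1 / 59997 : ℝ)) n,
          ← Real.rpow_mul (by positivity)]
        congr 2
        ring
    _ = 2 ^ n * (18 : ℝ) ^ ((n : ℝ) / 59997) * K ^ ((n : ℝ) / 239988) := by
        rw [Real.mul_rpow (by norm_num) (by positivity), ← Real.rpow_mul (by positivity), mul_assoc]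
        congr 3
        ring

/-- Comparing powers for large `K`. -/
theorem rpow_large (c α β : ℝ) (hc : 0 < c) (hαβ : α < β) :
    ∃ K0 : ℝ, 1 ≤ K0 ∧ ∀ K : ℝ, K0 ≤ K → c * K ^ α ≤ K ^ β := by
  refine ⟨max 1 (c ^ (1 / (β - α))), le_max_left _ _, fun K hK => ?_⟩
  have h1 : 1 ≤ K := (le_max_left _ _).trans hK
  have h2 : c ^ (1 / (β - α)) ≤ K := (le_max_right _ _).trans hK
  have hβ : 0 < β - α := by linarith
  have h3 : c ≤ K ^ (β - α) := by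
    calc c = (c ^ (1 / (β - α))) ^ (β - α) := by
          rw [← Real.rpow_mul hc.le, one_div, inv_mul_cancel₀ hβ.ne', Real.rpow_one]
      _ ≤ K ^ (β - α) := by gcongr
  calc c * K ^ α ≤ K ^ (β - α) * K ^ α := by gcongr
    _ = K ^ β := by
      rw [← Real.rpow_add (by linarith)]
      congr 1
      ring

/-- The large size facts. -/
theorem large_t : ∃ K0 : ℝ, 1 ≤ K0 ∧ ∀ K : ℝ, K0 ≤ K → ∀ x : ℝ, 0 < x →
    (K ^ (5 - 1 / 20 : ℝ)) ^ 2 / 2 ≤ x ^ 3 →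
    4 * K ≤ x ∧ (scale K : ℝ) ^ 330001 * K ^ (1 / 4 : ℝ) ≤ Real.sqrt x := by
  obtain ⟨c, hc, hcK⟩ := scale_pow_le 1980006
  obtain ⟨K1, hK1, hK1'⟩ := rpow_large (2 * c) ((1980006 : ℕ) / 239988 + 3 / 2) (99 / 10)
    (by positivity) (by norm_num)
  obtain ⟨K2, hK2, hK2'⟩ := rpow_large 128 3 (99 / 10) (by norm_num) (by norm_num)
  refine ⟨max K1 K2, hK1.trans (le_max_left _ _), fun K hK x hx hx3 => ?_⟩
  have hKK1 : K1 ≤ K := (le_max_left _ _).trans hK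
  have hKK2 : K2 ≤ K := (le_max_right _ _).trans hK
  have hK0 : 1 ≤ K := hK1.trans hKK1
  have hKpos : 0 < K := by linarith
  have e1 : (K ^ (5 - 1 / 20 : ℝ)) ^ 2 = K ^ (99 / 10 : ℝ) := by
    rw [← Real.rpow_natCast, ← Real.rpow_mul hKpos.le]
    norm_num
  rw [e1] at hx3
  constructor
  · have h := hK2' K hKK2
    apply le_of_pow_le_pow_left₀ (n := 3) (by norm_num) hx.le
    calc (4 * K) ^ 3 = 128 * K ^ (3 : ℝ) / 2 := by
          rw [mul_pow, ← Real.rpow_natCast K 3]; norm_num; ring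
      _ ≤ K ^ (99 / 10 : ℝ) / 2 := by gcongr
      _ ≤ x ^ 3 := hx3
  · have h := hK1' K hKK1
    apply le_of_pow_le_pow_left₀ (n := 6) (by norm_num) (Real.sqrt_nonneg x)
    have e2 : (Real.sqrt x) ^ 6 = x ^ 3 := by
      calc (Real.sqrt x) ^ 6 = ((Real.sqrt x) ^ 2) ^ 3 := by ring
        _ = x ^ 3 := by rw [Real.sq_sqrt hx.le]
    rw [e2]
    calc ((scale K : ℝ) ^ 330001 * K ^ (1 / 4 : ℝ)) ^ 6
        = (scale K : ℝ) ^ 1980006 * K ^ (3 / 2 : ℝ) := by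
          rw [mul_pow, ← pow_mul, ← Real.rpow_natCast (K ^ (1 / 4 : ℝ)) 6,
            ← Real.rpow_mul hKpos.le]
          norm_num
      _ ≤ c * K ^ (((1980006 : ℕ) : ℝ) / 239988) * K ^ (3 / 2 : ℝ) := by
          gcongr
          exact hcK K hK0
      _ = (2 * c) * K ^ (((1980006 : ℕ) : ℝ) / 239988 + 3 / 2) / 2 := by
          rw [Real.rpow_add hKpos]; ring
      _ ≤ K ^ (99 / 10 : ℝ) / 2 := by gcongr
      _ ≤ x ^ 3 := hx3

end Pool.Agent.Work.MP_f2148a_nt.Exp
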