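import Mathlib
import Pool.Agent.Work.MP_f2148a_nt.Exp.Defs
import Pool.Agent.Work.MP_f2148a_nt.Exp.Geom
import Pool.Agent.Work.MP_f2148a_nt.Exp.Scale

set_option autoImplicit false

namespace Pool.Agent.Work.MP_f2148a_nt.Exp

/-- balanced quadruples with a solution -/
def Bal (G Z : ℕ) (q : ℤ × ℤ × ℤ × ℤ) : Prop :=
  q.1 ≠ 0 ∧ |q.1| ≤ (G : ℤ) ^ 3000 ∧ |q.2.1| ≤ (G : ℤ) ^ 3000 ∧
      |q.2.2.1| ≤ (G : ℤ) ^ 3000 ∧ |q.2.2.2| ≤ (G : ℤ) ^ 3000 ∧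
      ∃ p r : ℤ, |Fv q.1 q.2.1 q.2.2.1 q.2.2.2 p r| = 1 ∧ (G : ℤ) ^ 16500 ≤ r ∧
        r < (G : ℤ) ^ (Z + 1) ∧ |p| ≤ r

/-- unbalanced quadruples -/
def Unb (X : ℝ) (q : ℤ × ℤ × ℤ × ℤ) : Prop :=
  max 1 |(q.1 : ℝ)| * max 1 |(q.2.1 : ℝ)| * max 1 |(q.2.2.1 : ℝ)| *
      max 1 |(q.2.2.2 : ℝ)| ≤ X

theorem size_facts (K L : ℝ) (x y k : ℤ) (hK : 1 ≤ K) (hL : K ≤ L) (hL2 : 2 ≤ L)
    (hk : |(k : ℝ)| ≤ K) (h : y ^ 2 = x ^ 3 + k) (hmax : L < max |(x : ℝ)| |(y : ℝ)|) :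
    (0 : ℝ) < x ∧ L ^ 2 / 2 ≤ (x : ℝ) ^ 3 := by
  have h' : (y : ℝ) ^ 2 = (x : ℝ) ^ 3 + k := by exact_mod_cast h
  have hk' := abs_le.1 hk
  have hL3 : L ^ 2 / 2 ≤ L ^ 2 - K := by nlinarith
  have hL0 : 0 < L := by linarith
  have main : L ^ 2 / 2 ≤ (x : ℝ) ^ 3 := by
    rcases lt_max_iff.1 hmax with hx | hy
    · rcases lt_abs.1 hx with h1 | h1
      · calc L ^ 2 / 2 ≤ L ^ 2 * L := by nlinarith [sq_nonneg L]
          _ = L ^ 3 := by ring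
          _ ≤ (x : ℝ) ^ 3 := by gcongr
      · exfalso
        have h2 : L ^ 3 ≤ (-(x : ℝ)) ^ 3 := by gcongr
        have h3 : (-(x : ℝ)) ^ 3 = -(x : ℝ) ^ 3 := by ring
        have h4 : L < L ^ 3 := by nlinarith [sq_nonneg L]
        have h5 := sq_nonneg (y : ℝ)
        linarith [hk'.2]
    · have h1 : L ^ 2 ≤ |(y : ℝ)| ^ 2 := by gcongr
      rw [sq_abs] at h1
      linarith [hk'.2]
  refine ⟨?_, main⟩
  by_contra hx
  push Not at hx
  have h1 : (x : ℝ) ^ 3 ≤ 0 := by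
    have : 0 ≤ (-(x : ℝ)) ^ 3 := by
      have : 0 ≤ -(x : ℝ) := by linarith
      positivity
    have h3 : (-(x : ℝ)) ^ 3 = -(x : ℝ) ^ 3 := by ring
    linarith
  have : 0 < L ^ 2 / 2 := by positivity
  linarith

theorem exp_lt (K : ℝ) (hK : 1 ≤ K) :
    Real.exp (K ^ (1 / 1000000 : ℝ)) * scale K < ((scale K : ℝ) ^ 20) ^ (scale K + 1) := by
  have h2 := two_le_scale K hK
  have h2' : (2 : ℝ) ≤ scale K := by exact_mod_cast h2
  have h1 : K ^ (1 / 1000000 : ℝ) ≤ scale K := by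
    calc K ^ (1 / 1000000 : ℝ) ≤ K ^ (1 / 239988 : ℝ) := by
          apply Real.rpow_le_rpow_of_exponent_le hK
          norm_num
      _ ≤ scale K := scale_ge_rpow K hK
  have h3 : Real.exp 1 ≤ (scale K : ℝ) ^ 2 := by
    have := Real.exp_one_lt_d9
    nlinarith
  calc Real.exp (K ^ (1 / 1000000 : ℝ)) * scale K ≤ Real.exp (scale K) * scale K := by gcongr
    _ = (Real.exp 1) ^ (scale K) * scale K := by
        rw [← Real.exp_nat_mul, mul_one]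
    _ ≤ ((scale K : ℝ) ^ 2) ^ (scale K) * scale K := by gcongr
    _ = (scale K : ℝ) ^ (2 * scale K + 1) := by rw [← pow_mul, pow_succ]
    _ < (scale K : ℝ) ^ (20 * (scale K + 1)) := by
        apply pow_lt_pow_right₀ (by linarith)
        omega
    _ = _ := by rw [pow_mul]

theorem exists_quad : ∃ K0 : ℝ, 1 ≤ K0 ∧ ∀ K : ℝ, K0 ≤ K → ∀ k x y : ℤ, k ≠ 0 → |(k : ℝ)| ≤ K →
    y ^ 2 = x ^ 3 + k → K ^ (5 - 1 / 20 : ℝ) < max |(x : ℝ)| |(y : ℝ)| →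
    max |(x : ℝ)| |(y : ℝ)| ≤ Real.exp (K ^ (1 / 1000000 : ℝ)) →
    ∃ q : ℤ × ℤ × ℤ × ℤ, Dv q.1 q.2.1 q.2.2.1 q.2.2.2 = 4 * k ∧
      (Bal (scale K ^ 20) (scale K) q ∨ Unb (18720 * K / scale K) q) := by
  obtain ⟨K1, hK1, h⟩ := large_t
  refine ⟨max K1 2, hK1.trans (le_max_left _ _), fun K hK k x y hk0 hk hxy hlo hhi => ?_⟩
  have hKK1 : K1 ≤ K := (le_max_left _ _).trans hK
  have hK2 : 2 ≤ K := (le_max_right _ _).trans hK
  have hKone : 1 ≤ K := by linarith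
  have hKpos : 0 < K := by linarith
  set H := K ^ (1 / 4 : ℝ) with hH
  have hH1 : 1 ≤ H := one_le_H K hKone
  have hH4 : H ^ 4 = K := by
    rw [hH, ← Real.rpow_natCast, ← Real.rpow_mul hKpos.le]
    norm_num
  have hL : K ≤ K ^ (5 - 1 / 20 : ℝ) := by
    calc K = K ^ (1 : ℝ) := (Real.rpow_one K).symm
      _ ≤ K ^ (5 - 1 / 20 : ℝ) := Real.rpow_le_rpow_of_exponent_le hKone (by norm_num)
  obtain ⟨hx0, hx3⟩ := size_facts K (K ^ (5 - 1 / 20 : ℝ)) x y k hKone hL (hK2.trans hL) hk hxy hlo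
  obtain ⟨h4K, hsq⟩ := h K hKK1 x hx0 hx3
  set S := scale K with hS
  have hS2 : 2 ≤ S := two_le_scale K hKone
  have hS2' : (2 : ℝ) ≤ S := by exact_mod_cast hS2
  have hS1' : (1 : ℝ) ≤ S := by linarith
  have hx1 : (1 : ℝ) ≤ x := by linarith
  have hxZ : 0 < x := by exact_mod_cast hx0
  have hyne : y ≠ 0 := by
    intro hy
    rw [hy] at hxy
    have h1 : (0 : ℝ) = (x : ℝ) ^ 3 + k := by
      have : (0 : ℤ) = x ^ 3 + k := by linarith
      exact_mod_cast this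
    have h2 := (abs_le.1 hk).1
    have h3 : (x : ℝ) ≤ (x : ℝ) ^ 3 := by
      calc (x : ℝ) = (x : ℝ) ^ 1 := by ring
        _ ≤ (x : ℝ) ^ 3 := by gcongr <;> norm_num
    linarith
  have hk0' : |y| ^ 2 - x ^ 3 = k := by rw [sq_abs]; linarith
  have hpow : 2 * (S : ℝ) * H ≤ (S : ℝ) ^ 330001 * H := by
    gcongr
    calc 2 * (S : ℝ) ≤ S * S := by gcongr
      _ = (S : ℝ) ^ 2 := by ring
      _ ≤ (S : ℝ) ^ 330001 := pow_le_pow_right₀ hS1' (by norm_num)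
  obtain ⟨a, b, c, d, hD, ha, hcase⟩ := geom x |y| H S hH1 hS2' hxZ (abs_pos.2 hyne)
    (by
      intro h
      rw [h] at hk0'
      apply hk0
      rw [← hk0']; ring)
    (by
      have : ((|y| : ℤ) : ℝ) ^ 2 - (x : ℝ) ^ 3 = k := by exact_mod_cast hk0'
      rw [this, hH4]; exact hk)
    (by rw [hH4]; exact h4K) (hpow.trans hsq)
  refine ⟨(a, b, c, d), by rw [hD, hk0'], ?_⟩
  rcases hcase with ⟨hA, hB, hC, hDD, p, r, hF, hpr, hr1, hr2⟩ | hun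
  · left
    have hbd : 18 * H * (S : ℝ) ^ 3 ≤ (((S ^ 20 : ℕ) : ℝ)) ^ 3000 := by
      have h1 := scale_pow_ge K hKone
      calc 18 * H * (S : ℝ) ^ 3 ≤ (S : ℝ) ^ 59997 * (S : ℝ) ^ 3 := by gcongr
        _ = (((S ^ 20 : ℕ) : ℝ)) ^ 3000 := by
          push_cast
          rw [← pow_add, ← pow_mul]
    have conv : ∀ z : ℤ, |(z : ℝ)| ≤ 18 * H * (S : ℝ) ^ 3 → |z| ≤ ((S ^ 20 : ℕ) : ℤ) ^ 3000 := by
      intro z hz
      have := hz.trans hbd
      exact_mod_cast this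
    refine ⟨ha, conv a hA, conv b hB, conv c hC, conv d hDD, p, r, hF, ?_, ?_, hpr⟩
    · have : (((S ^ 20 : ℕ) : ℝ)) ^ 16500 ≤ r := by
        refine le_trans ?_ hr1
        rw [le_div_iff₀ (by positivity)]
        calc (((S ^ 20 : ℕ) : ℝ)) ^ 16500 * (H * S) = (S : ℝ) ^ 330001 * H := by
              push_cast
              rw [← pow_mul, pow_succ (S : ℝ) 330000]; ring
          _ ≤ _ := hsq
      exact_mod_cast this
    · have : (r : ℝ) < (((S ^ 20 : ℕ) : ℝ)) ^ (S + 1) := by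
        push_cast
        refine lt_of_le_of_lt ?_ (exp_lt K hKone)
        refine hr2.trans ?_
        rw [div_le_iff₀ (by linarith)]
        have hsx : Real.sqrt x ≤ x := by
          rw [Real.sqrt_le_left hx0.le]
          nlinarith
        have hxe : (x : ℝ) ≤ Real.exp (K ^ (1 / 1000000 : ℝ)) :=
          (le_abs_self _).trans ((le_max_left _ _).trans hhi)
        have hnn : (0 : ℝ) ≤ Real.exp (K ^ (1 / 1000000 : ℝ)) * S := by positivity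
        calc Real.sqrt x * S ≤ Real.exp (K ^ (1 / 1000000 : ℝ)) * S := by
              gcongr; exact hsx.trans hxe
          _ ≤ Real.exp (K ^ (1 / 1000000 : ℝ)) * S * H := by nlinarith
      exact_mod_cast this
  · right
    unfold Unb
    rw [hH4] at hun
    exact hun

end Pool.Agent.Work.MP_f2148a_nt.Exp
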