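import Pool.Agent.Work.MP_f2148a_nt.Exp.Defs

set_option autoImplicit false

namespace Pool.Agent.Work.MP_f2148a_nt.Exp

/-- at most `C Y (1 + log Y)^n` elements have weight at most `Y` -/
def CountBd {α : Type} (w : α → ℝ) (C : ℝ) (n : ℕ) : Prop :=
  ∀ Y : ℝ, 1 ≤ Y → ∀ S : Finset α, (∀ s ∈ S, w s ≤ Y) →
    (S.card : ℝ) ≤ C * Y * (1 + Real.log Y) ^ n

lemma sum_inv_le (N : ℕ) :
    ∑ x ∈ Finset.Icc (-(N : ℤ)) N, (1 : ℝ) / max 1 |(x : ℝ)| ≤ 1 + 2 * (harmonic N : ℝ) := by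
  induction N with
  | zero => simp
  | succ N ih =>
    have h1 : Finset.Icc (-((N + 1 : ℕ) : ℤ)) ((N + 1 : ℕ) : ℤ) =
        insert (-((N : ℤ) + 1)) (insert ((N : ℤ) + 1) (Finset.Icc (-(N : ℤ)) N)) := by
      ext x
      simp only [Finset.mem_Icc, Finset.mem_insert]
      push_cast
      omega
    have h2 : (-((N : ℤ) + 1)) ∉ insert ((N : ℤ) + 1) (Finset.Icc (-(N : ℤ)) N) := by
      simp only [Finset.mem_Icc, Finset.mem_insert]
      omega
    have h3 : ((N : ℤ) + 1) ∉ Finset.Icc (-(N : ℤ)) N := by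
      simp only [Finset.mem_Icc]
      omega
    rw [h1, Finset.sum_insert h2, Finset.sum_insert h3, harmonic_succ]
    push_cast
    have h4 : |(-((N : ℝ) + 1))| = (N : ℝ) + 1 := by
      rw [abs_neg, abs_of_pos (by positivity)]
    have h5 : |((N : ℝ) + 1)| = (N : ℝ) + 1 := abs_of_pos (by positivity)
    have h6 : max 1 ((N : ℝ) + 1) = (N : ℝ) + 1 := by
      apply max_eq_right
      have : (0 : ℝ) ≤ N := Nat.cast_nonneg N
      linarith
    rw [h4, h5, h6, one_div]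
    linarith

lemma countBd_int : CountBd (fun x : ℤ => max 1 |(x : ℝ)|) 3 0 := by
  intro Y hY S hS
  have h1 : S ⊆ Finset.Icc (-(⌊Y⌋₊ : ℤ)) ⌊Y⌋₊ := by
    intro x hx
    have h2 : |(x : ℝ)| ≤ Y := (le_max_right _ _).trans (hS x hx)
    have h3 : (x.natAbs : ℝ) ≤ Y := by
      rw [Nat.cast_natAbs]
      push_cast
      exact h2
    have h4 := Nat.le_floor h3
    rw [Finset.mem_Icc]
    omega
  have h2 := Finset.card_le_card h1
  rw [Int.card_Icc] at h2
  have h3 : (S.card : ℝ) ≤ 2 * (⌊Y⌋₊ : ℝ) + 1 := by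
    have h4 : S.card ≤ 2 * ⌊Y⌋₊ + 1 := by omega
    exact_mod_cast h4
  have h4 := Nat.floor_le (by linarith : 0 ≤ Y)
  rw [pow_zero, mul_one]
  linarith

lemma CountBd.step {α : Type} {w : α → ℝ} {C : ℝ} {n : ℕ} (hC : 0 ≤ C)
    (hw : ∀ s, 1 ≤ w s) (h : CountBd w C n) :
    CountBd (fun p : ℤ × α => max 1 |(p.1 : ℝ)| * w p.2) (3 * C) (n + 1) := by
  classical
  intro Y hY S hS
  have hlog : 0 ≤ Real.log Y := Real.log_nonneg hY
  have h0 : ∀ p ∈ S, p.1 ∈ Finset.Icc (-(⌊Y⌋₊ : ℤ)) ⌊Y⌋₊ := by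
    intro p hp
    have h1 := hS p hp
    have h2 : |(p.1 : ℝ)| ≤ Y := by
      have h3 : (0 : ℝ) ≤ max 1 |(p.1 : ℝ)| := zero_le_one.trans (le_max_left _ _)
      have h4 := le_mul_of_one_le_right h3 (hw p.2)
      exact (le_max_right _ _).trans (h4.trans h1)
    have h3 : (p.1.natAbs : ℝ) ≤ Y := by
      rw [Nat.cast_natAbs]
      push_cast
      exact h2
    have h4 := Nat.le_floor h3
    rw [Finset.mem_Icc]
    omega
  have h1 : (S.card : ℝ) = ∑ x ∈ Finset.Icc (-(⌊Y⌋₊ : ℤ)) ⌊Y⌋₊,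
      ((S.filter (fun p => p.1 = x)).card : ℝ) := by
    rw [Finset.card_eq_sum_card_fiberwise h0]
    push_cast
    rfl
  have h2 : ∀ x ∈ Finset.Icc (-(⌊Y⌋₊ : ℤ)) ⌊Y⌋₊, ((S.filter (fun p => p.1 = x)).card : ℝ) ≤
      (C * Y * (1 + Real.log Y) ^ n) * (1 / max 1 |(x : ℝ)|) := by
    intro x _
    have hm : 1 ≤ max 1 |(x : ℝ)| := le_max_left _ _
    have hm0 : 0 < max 1 |(x : ℝ)| := by linarith
    have h3 : (S.filter (fun p => p.1 = x)).card =
        ((S.filter (fun p => p.1 = x)).image Prod.snd).card := by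
      rw [Finset.card_image_of_injOn]
      intro p hp q hq hpq
      rw [Finset.mem_coe, Finset.mem_filter] at hp hq
      exact Prod.ext (hp.2.trans hq.2.symm) hpq
    have hbd : ∀ s ∈ (S.filter (fun p => p.1 = x)).image Prod.snd,
        w s ≤ Y / max 1 |(x : ℝ)| := by
      intro s hs
      obtain ⟨p, hp, rfl⟩ := Finset.mem_image.1 hs
      rw [Finset.mem_filter] at hp
      have h4 : max 1 |(p.1 : ℝ)| * w p.2 ≤ Y := hS p hp.1
      rw [hp.2] at h4
      rw [le_div_iff₀ hm0]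
      linarith
    rcases Finset.eq_empty_or_nonempty ((S.filter (fun p => p.1 = x)).image Prod.snd) with he | hne
    · rw [h3, he]
      simp only [Finset.card_empty, Nat.cast_zero]
      positivity
    · have hY1 : 1 ≤ Y / max 1 |(x : ℝ)| := by
        obtain ⟨s, hs⟩ := hne
        exact (hw s).trans (hbd s hs)
      have h4 := h _ hY1 _ hbd
      rw [← h3] at h4
      refine h4.trans ?_
      have h5 : Real.log (Y / max 1 |(x : ℝ)|) ≤ Real.log Y := by
        apply Real.log_le_log (by linarith)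
        exact div_le_self (by linarith) hm
      have h6 : 0 ≤ Real.log (Y / max 1 |(x : ℝ)|) := Real.log_nonneg hY1
      have h7 : (1 + Real.log (Y / max 1 |(x : ℝ)|)) ^ n ≤ (1 + Real.log Y) ^ n :=
        pow_le_pow_left₀ (by linarith) (by linarith) n
      calc C * (Y / max 1 |(x : ℝ)|) * (1 + Real.log (Y / max 1 |(x : ℝ)|)) ^ n
          ≤ C * (Y / max 1 |(x : ℝ)|) * (1 + Real.log Y) ^ n := by
            apply mul_le_mul_of_nonneg_left h7
            positivity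
        _ = _ := by ring
  rw [h1]
  refine (Finset.sum_le_sum h2).trans ?_
  rw [← Finset.mul_sum]
  have h3 := sum_inv_le ⌊Y⌋₊
  have h4 := harmonic_floor_le_one_add_log Y hY
  have h5 : ∑ x ∈ Finset.Icc (-(⌊Y⌋₊ : ℤ)) ⌊Y⌋₊, (1 : ℝ) / max 1 |(x : ℝ)| ≤
      3 * (1 + Real.log Y) := by linarith
  calc (C * Y * (1 + Real.log Y) ^ n) * _ ≤
      (C * Y * (1 + Real.log Y) ^ n) * (3 * (1 + Real.log Y)) := by
        apply mul_le_mul_of_nonneg_left h5
        positivity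
    _ = _ := by rw [pow_succ]; ring

/-- Module ProdCount. -/
theorem prod_count (X : ℝ) (hX : 1 ≤ X) (S : Finset (ℤ × ℤ × ℤ × ℤ))
    (hS : ∀ q ∈ S, max 1 |(q.1 : ℝ)| * max 1 |(q.2.1 : ℝ)| * max 1 |(q.2.2.1 : ℝ)| *
      max 1 |(q.2.2.2 : ℝ)| ≤ X) :
    (S.card : ℝ) ≤ 81 * X * (1 + Real.log X) ^ 3 := by
  have m1 : ∀ x : ℝ, 1 ≤ max 1 |x| := fun x => le_max_left _ _
  have h1 := countBd_int
  have h2 := h1.step (by norm_num) (fun s => m1 _)
  have h3 := h2.step (by norm_num) (fun s => one_le_mul_of_one_le_of_one_le (m1 _) (m1 _))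
  have h4 := h3.step (by norm_num) (fun s => one_le_mul_of_one_le_of_one_le (m1 _)
    (one_le_mul_of_one_le_of_one_le (m1 _) (m1 _)))
  have h5 := h4 X hX S (fun q hq => by
    have h6 := hS q hq
    rw [mul_assoc, mul_assoc] at h6
    exact h6)
  norm_num at h5
  exact h5

end Pool.Agent.Work.MP_f2148a_nt.Exp
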