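import Mathlib
import Pool.Agent.Work.MP_f2148a_nt.Exp.Defs

set_option autoImplicit false

namespace Pool.Agent.Work.MP_f2148a_nt.Exp

open Polynomial

/-- The falling factorial `X (X - 1) ⋯ (X - n + 1)`. -/
noncomputable def ff (n : ℕ) : ℤ[X] := ∏ l ∈ Finset.range n, (X - C (l : ℤ))

/-- The basis pairs `(ff n, 0)` and `(0, ff n)`. -/
noncomputable def bp (c : ℕ × Bool) : ℤ[X] × ℤ[X] := if c.2 then (0, ff c.1) else (ff c.1, 0)

/-- The two linear functionals attached to `(p, r, d)`. -/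
noncomputable def row (a b c m p r d : ℤ) (β : Bool) (f : ℤ[X] × ℤ[X]) : ℤ :=
  if β then r * (hatU a b c m f).eval d + p * (hatV a b c m f).eval d
  else r * f.1.eval d + p * f.2.eval d

/-- The functional on the monomial `ξ^k` that approximates `row` (with `ρ = p / r`,
`ξ = ρ - X0`). -/
noncomputable def yv (a b c p r : ℤ) (X0 : ℝ) (β : Bool) (k : ℕ) : ℝ :=
  (r : ℝ) * (if β then
    -((a * ((p : ℝ) / r) ^ 2 + 2 * b * ((p : ℝ) / r) + c) *
      ((a * ((p : ℝ) / r) + b) ^ 2 + 4 * ((a : ℝ) * c - b ^ 2))) *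
      (k * ((p : ℝ) / r - X0) ^ (k - 1)) +
    2 * a * ((a : ℝ) * c - b ^ 2) * ((p : ℝ) / r) * ((p : ℝ) / r - X0) ^ k
    else ((p : ℝ) / r - X0) ^ k)

end Pool.Agent.Work.MP_f2148a_nt.Exp
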