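import Mathlib
import Pool.Agent.Work.MP_f2148a_nt.Exp.Defs2

set_option autoImplicit false

namespace Pool.Agent.Work.MP_f2148a_nt.Exp

theorem comb_count (i x : ℕ) :
    (Finset.univ.filter (fun c : Fin i × Bool => (c.1 : ℕ) < x)).card = 2 * min x i := by
  have h : (Finset.univ.filter (fun c : Fin i × Bool => (c.1 : ℕ) < x)) =
      (Finset.univ.filter (fun c : Fin i => (c : ℕ) < x)) ×ˢ (Finset.univ : Finset Bool) := by
    ext c
    simp
  rw [h, Finset.card_product, Finset.card_univ, Fintype.card_bool, mul_comm]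
  congr 1
  have h2 : (Finset.univ.filter (fun c : Fin i => (c : ℕ) < x)).card =
      (Finset.range (min x i)).card := by
    apply Finset.card_bij (fun (c : Fin i) _ => (c : ℕ))
    · intro c hc
      simp only [Finset.mem_filter, Finset.mem_univ, true_and] at hc
      simp only [Finset.mem_range]
      exact lt_min hc c.2
    · intro a _ b _ h
      exact Fin.ext h
    · intro b hb
      simp only [Finset.mem_range] at hb
      exact ⟨⟨b, lt_of_lt_of_le hb (min_le_right _ _)⟩, by simp; exact lt_of_lt_of_le hb (min_le_left _ _), rfl⟩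
  rw [h2, Finset.card_range]

theorem comb_sum (m : ℕ) : ∑ y ∈ Finset.range (2 * m), ((2 * min y m : ℕ) - (y : ℤ)) =
    (m : ℤ) ^ 2 := by
  rw [two_mul m, Finset.sum_range_add]
  have h1 : ∑ y ∈ Finset.range m, (((2 * min y m : ℕ) : ℤ) - (y : ℤ)) =
      ∑ y ∈ Finset.range m, (y : ℤ) := by
    apply Finset.sum_congr rfl
    intro y hy
    rw [Finset.mem_range] at hy
    rw [min_eq_left hy.le]
    push_cast
    ring
  have h2 : ∑ y ∈ Finset.range m, (((2 * min (m + y) m : ℕ) : ℤ) - ((m + y : ℕ) : ℤ)) =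
      ∑ y ∈ Finset.range m, ((m : ℤ) - y) := by
    apply Finset.sum_congr rfl
    intro y _
    rw [min_eq_right (by omega)]
    push_cast
    ring
  rw [h1, h2, ← Finset.sum_add_distrib]
  simp only [add_sub_cancel, Finset.sum_const, Finset.card_range, nsmul_eq_mul]
  ring

/-- The layer cake inequality. -/
theorem comb_layer (i t : ℕ) (ht : t ≤ i) (U : Finset (Fin i × Bool)) (hU : U.card + t = 2 * i)
    (k : Fin i × Bool → ℕ) (hinj : ∀ c ∈ U, ∀ c' ∈ U, k c = k c' → c = c') :
    (i - t) ^ 2 ≤ ∑ c ∈ U, (k c - (c.1 : ℕ)) := by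
  set X := Finset.Ico t (t + 2 * (i - t)) with hX
  have h1 : ∀ c ∈ U, (X.filter (fun x => (c.1 : ℕ) < x ∧ x ≤ k c)).card ≤ k c - (c.1 : ℕ) := by
    intro c _
    rw [← Nat.card_Ioc]
    apply Finset.card_le_card
    intro x hx
    rw [Finset.mem_filter] at hx
    exact Finset.mem_Ioc.2 hx.2
  refine le_trans ?_ (Finset.sum_le_sum h1)
  have h2 : ∑ c ∈ U, (X.filter (fun x => (c.1 : ℕ) < x ∧ x ≤ k c)).card =
      ∑ x ∈ X, (U.filter (fun c => (c.1 : ℕ) < x ∧ x ≤ k c)).card := by
    simp only [Finset.card_filter]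
    exact Finset.sum_comm
  rw [h2]
  have h3 : ∀ x : ℕ, 2 * min x i ≤ (U.filter (fun c => (c.1 : ℕ) < x ∧ x ≤ k c)).card + t + x := by
    intro x
    have e1 := comb_count i x
    have e2 : (Finset.univ.filter (fun c : Fin i × Bool => (c.1 : ℕ) < x)) ⊆
        ((U.filter (fun c => (c.1 : ℕ) < x ∧ x ≤ k c)) ∪ Uᶜ) ∪ (U.filter (fun c => k c < x)) := by
      intro c hc
      simp only [Finset.mem_filter, Finset.mem_univ, true_and] at hc
      simp only [Finset.mem_union, Finset.mem_filter, Finset.mem_compl]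
      by_cases hcU : c ∈ U
      · by_cases hk : x ≤ k c
        · exact Or.inl (Or.inl ⟨hcU, hc, hk⟩)
        · exact Or.inr ⟨hcU, by omega⟩
      · exact Or.inl (Or.inr hcU)
    have e3 := Finset.card_le_card e2
    have e4 : (Uᶜ).card = t := by
      rw [Finset.card_compl, Fintype.card_prod, Fintype.card_fin, Fintype.card_bool]
      omega
    have e5 : (U.filter (fun c => k c < x)).card ≤ x := by
      refine le_trans ?_ (Finset.card_range x).le
      apply Finset.card_le_card_of_injOn k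
      · intro c hc
        rw [Finset.mem_coe, Finset.mem_filter] at hc
        exact Finset.mem_coe.2 (Finset.mem_range.2 hc.2)
      · intro c hc c' hc' h
        rw [Finset.mem_coe, Finset.mem_filter] at hc hc'
        exact hinj c hc.1 c' hc'.1 h
    have e6 := Finset.card_union_le ((U.filter (fun c => (c.1 : ℕ) < x ∧ x ≤ k c)) ∪ Uᶜ)
      (U.filter (fun c => k c < x))
    have e7 := Finset.card_union_le (U.filter (fun c => (c.1 : ℕ) < x ∧ x ≤ k c)) Uᶜ
    omega
  have h4 : ∑ x ∈ X, (((2 * min x i : ℕ) : ℤ) - t - x) ≤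
      ((∑ x ∈ X, (U.filter (fun c => (c.1 : ℕ) < x ∧ x ≤ k c)).card : ℕ) : ℤ) := by
    push_cast
    apply Finset.sum_le_sum
    intro x _
    have := h3 x
    push_cast at this ⊢
    omega
  have h5 : ∑ x ∈ X, (((2 * min x i : ℕ) : ℤ) - t - x) = (((i - t) ^ 2 : ℕ) : ℤ) := by
    rw [hX, Finset.sum_Ico_eq_sum_range]
    have e0 : t + 2 * (i - t) - t = 2 * (i - t) := by omega
    rw [e0]
    push_cast
    rw [← comb_sum (i - t)]
    apply Finset.sum_congr rfl
    intro y _
    have : min (t + y) i = t + min y (i - t) := by omega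
    have e1 : (min ((t : ℤ) + y) i) = t + ((min y (i - t) : ℕ) : ℤ) := by
      omega
    rw [e1]
    push_cast
    ring
  rw [h5] at h4
  exact_mod_cast h4

/-- Module Comb. -/
theorem prod_le (i : ℕ) (B g τ w T : ℝ) (hB : 0 ≤ B) (hg : 0 ≤ g) (hτ : 0 ≤ τ) (hw0 : 0 ≤ w)
    (hw1 : w ≤ 1) (hT : ∀ t ≤ 2 * i, τ ^ t * w ^ ((i - t) ^ 2) ≤ T)
    (κ : Fin i × Bool → Option ℕ) (hinj : ∀ c c' k, κ c = some k → κ c' = some k → c = c') :
    ∏ c : Fin i × Bool, (κ c).elim (B * g ^ (c.1 : ℕ) * τ)
      (fun k => B * g ^ (c.1 : ℕ) * w ^ (k - (c.1 : ℕ))) ≤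
    B ^ (2 * i) * g ^ (i * (i - 1)) * T := by
  classical
  have h1 : ∀ c : Fin i × Bool, (κ c).elim (B * g ^ (c.1 : ℕ) * τ)
      (fun k => B * g ^ (c.1 : ℕ) * w ^ (k - (c.1 : ℕ))) =
      (B * g ^ (c.1 : ℕ)) * (κ c).elim τ (fun k => w ^ (k - (c.1 : ℕ))) := by
    intro c
    cases κ c <;> simp
  rw [Finset.prod_congr rfl (fun c _ => h1 c), Finset.prod_mul_distrib, Finset.prod_mul_distrib]
  have h2 : ∏ _c : Fin i × Bool, B = B ^ (2 * i) := by
    rw [Finset.prod_const, Finset.card_univ, Fintype.card_prod, Fintype.card_fin,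
      Fintype.card_bool, mul_comm i 2]
  have h3 : ∏ c : Fin i × Bool, g ^ (c.1 : ℕ) = g ^ (i * (i - 1)) := by
    rw [Finset.prod_pow_eq_pow_sum, Fintype.sum_prod_type]
    simp only [Fintype.sum_bool]
    congr 1
    rw [Fin.sum_univ_eq_sum_range (fun x => x + x) i, ← Finset.sum_range_id_mul_two]
    rw [Finset.sum_mul]
    apply Finset.sum_congr rfl
    intro x _
    ring
  rw [h2, h3]
  apply mul_le_mul_of_nonneg_left _ (by positivity)
  set U := Finset.univ.filter (fun c => κ c ≠ none) with hU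
  set V := Finset.univ.filter (fun c => ¬ (κ c ≠ none)) with hV
  have hUV : U.card + V.card = 2 * i := by
    rw [hU, hV, Finset.card_filter_add_card_filter_not, Finset.card_univ, Fintype.card_prod,
      Fintype.card_fin, Fintype.card_bool, mul_comm]
  have h4 : ∏ c : Fin i × Bool, (κ c).elim τ (fun k => w ^ (k - (c.1 : ℕ))) =
      τ ^ V.card * w ^ (∑ c ∈ U, ((κ c).getD 0 - (c.1 : ℕ))) := by
    rw [← Finset.prod_filter_mul_prod_filter_not Finset.univ (fun c => κ c ≠ none), mul_comm,
      ← hU, ← hV]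
    congr 1
    · rw [← Finset.prod_const]
      apply Finset.prod_congr rfl
      intro c hc
      rw [hV, Finset.mem_filter] at hc
      have : κ c = none := by simpa using hc.2
      rw [this]
      rfl
    · rw [← Finset.prod_pow_eq_pow_sum]
      apply Finset.prod_congr rfl
      intro c hc
      rw [hU, Finset.mem_filter] at hc
      obtain ⟨k, hk⟩ := Option.ne_none_iff_exists'.1 hc.2
      rw [hk]
      rfl
  rw [h4]
  refine le_trans ?_ (hT V.card (by omega))
  apply mul_le_mul_of_nonneg_left _ (by positivity)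
  apply pow_le_pow_of_le_one hw0 hw1
  by_cases hVi : V.card ≤ i
  · apply comb_layer i V.card hVi U hUV (fun c => (κ c).getD 0)
    intro c hc c' hc' h
    rw [hU, Finset.mem_filter] at hc hc'
    obtain ⟨k, hk⟩ := Option.ne_none_iff_exists'.1 hc.2
    obtain ⟨k', hk'⟩ := Option.ne_none_iff_exists'.1 hc'.2
    simp only [hk, hk', Option.getD_some] at h
    exact hinj c c' k hk (h ▸ hk')
  · have : i - V.card = 0 := by omega
    rw [this]
    simp

end Pool.Agent.Work.MP_f2148a_nt.Exp
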