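import Mathlib
import Pool.Agent.Work.MP_f2148a_nt.Exp.Defs2

set_option autoImplicit false

namespace Pool.Agent.Work.MP_f2148a_nt.Exp

private lemma box_card' (R : ℕ) : (Finset.Icc (-(R : ℤ)) R).card = 2 * R + 1 := by
  rw [Int.card_Icc]; omega

private lemma abs_le_floor {R : ℝ} (hR : 0 ≤ R) {t : ℤ} (h : |(t : ℝ)| ≤ R) :
    |t| ≤ (⌊R⌋₊ : ℤ) := by
  have h1 : ((t.natAbs : ℕ) : ℝ) ≤ R := by
    rw [Nat.cast_natAbs, Int.cast_abs]
    exact h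
  have h2 : t.natAbs ≤ ⌊R⌋₊ := Nat.le_floor h1
  rw [Int.abs_eq_natAbs]
  exact_mod_cast h2

private lemma cnt0 (R : ℕ) (S : Finset (ℤ × ℤ × ℤ × ℤ))
    (hS : ∀ q ∈ S, q.1 ≠ 0 ∧ |q.1| ≤ (R : ℤ) ∧ |q.2.1| ≤ (R : ℤ) ∧ |q.2.2.2| ≤ (R : ℤ) ∧
      q.2.1 ^ 2 = q.1 * q.2.2.1) : S.card ≤ (2 * R + 1) ^ 3 := by
  classical
  set I := Finset.Icc (-(R : ℤ)) R with hI
  have h1 : S.card ≤ (I ×ˢ I ×ˢ I).card := by
    refine Finset.card_le_card_of_injOn (fun q => (q.1, q.2.1, q.2.2.2)) ?_ ?_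
    · intro q hq
      obtain ⟨_, h1, h2, h3, _⟩ := hS q (by simpa using hq)
      simp only [Finset.mem_coe, Finset.mem_product, hI, Finset.mem_Icc]
      exact ⟨abs_le.1 h1, abs_le.1 h2, abs_le.1 h3⟩
    · intro q hq q' hq' h
      obtain ⟨h0, _, _, _, h4⟩ := hS q (by simpa using hq)
      obtain ⟨h0', _, _, _, h4'⟩ := hS q' (by simpa using hq')
      simp only [Prod.mk.injEq] at h
      obtain ⟨e1, e2, e3⟩ := h
      obtain ⟨a, b, c, d⟩ := q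
      obtain ⟨a', b', c', d'⟩ := q'
      simp only at *
      subst e1 e2 e3
      have : a * c = a * c' := by rw [← h4, ← h4']
      have : c = c' := mul_left_cancel₀ h0 this
      rw [this]
  calc S.card ≤ (I ×ˢ I ×ˢ I).card := h1
    _ = (2 * R + 1) ^ 3 := by
      rw [Finset.card_product, Finset.card_product, hI, box_card']; ring

/-- Module Count2 (to be derived from the arc bound). -/
theorem bal_count2 (R w Q1 Q2 : ℝ) (N : ℕ) (hR : 1 ≤ R) (hw0 : 0 < w) (hw1 : w ≤ 1)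
    (hQ1 : 1 ≤ Q1)
    (harc : ∀ (a b c : ℤ) (X0 : ℝ) (S : Finset ℤ), a ≠ 0 → b ^ 2 ≠ a * c → |(a : ℝ)| ≤ R →
      |(b : ℝ)| ≤ R → |(c : ℝ)| ≤ R → |X0| ≤ 1 →
      (∀ D ∈ S, ∃ p r : ℤ, |Fv a b c D p r| = 1 ∧ Q1 ≤ (r : ℝ) ∧ (r : ℝ) ≤ Q2 ∧
        |(p : ℝ) / r - X0| ≤ w) → S.card ≤ N)
    (S : Finset (ℤ × ℤ × ℤ × ℤ))
    (hS : ∀ q ∈ S, q.1 ≠ 0 ∧ |(q.1 : ℝ)| ≤ R ∧ |(q.2.1 : ℝ)| ≤ R ∧ |(q.2.2.1 : ℝ)| ≤ R ∧
      |(q.2.2.2 : ℝ)| ≤ R ∧ ∃ p r : ℤ, |Fv q.1 q.2.1 q.2.2.1 q.2.2.2 p r| = 1 ∧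
        Q1 ≤ (r : ℝ) ∧ (r : ℝ) ≤ Q2 ∧ |p| ≤ r) :
    (S.card : ℝ) ≤ (2 * R + 1) ^ 3 * ((2 / w + 3) * N + 1) := by
  classical
  have hR0 : 0 ≤ R := by linarith
  obtain ⟨R', hR'⟩ : ∃ R' : ℕ, R' = ⌊R⌋₊ := ⟨_, rfl⟩
  have hR'R : (R' : ℝ) ≤ R := by rw [hR']; exact Nat.floor_le hR0
  -- degenerate part
  have c0 : ((S.filter (fun q => q.2.1 ^ 2 = q.1 * q.2.2.1)).card : ℝ) ≤ (2 * R + 1) ^ 3 := by
    have h1 := cnt0 R' (S.filter (fun q => q.2.1 ^ 2 = q.1 * q.2.2.1)) (by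
      intro q hq
      obtain ⟨hq1, hq2⟩ := Finset.mem_filter.1 hq
      obtain ⟨g0, g1, g2, g3, g4, _⟩ := hS q hq1
      rw [hR']
      exact ⟨g0, abs_le_floor hR0 g1, abs_le_floor hR0 g2, abs_le_floor hR0 g4, hq2⟩)
    calc ((S.filter (fun q => q.2.1 ^ 2 = q.1 * q.2.2.1)).card : ℝ)
        ≤ (((2 * R' + 1) ^ 3 : ℕ) : ℝ) := by exact_mod_cast h1
      _ = (2 * (R' : ℝ) + 1) ^ 3 := by push_cast; ring
      _ ≤ (2 * R + 1) ^ 3 := by gcongr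
  -- main part
  set S' := S.filter (fun q => ¬ q.2.1 ^ 2 = q.1 * q.2.2.1) with hS'def
  have hS' : ∀ q : ℤ × ℤ × ℤ × ℤ, ∃ p r : ℤ, q ∈ S → (|Fv q.1 q.2.1 q.2.2.1 q.2.2.2 p r| = 1 ∧
      Q1 ≤ (r : ℝ) ∧ (r : ℝ) ≤ Q2 ∧ |p| ≤ r) := by
    intro q
    by_cases hq : q ∈ S
    · obtain ⟨p, r, h⟩ := (hS q hq).2.2.2.2.2
      exact ⟨p, r, fun _ => h⟩
    · exact ⟨0, 0, fun h => absurd h hq⟩
  choose P Rr hPR using hS'
  set I := Finset.Icc (-(R' : ℤ)) R' with hI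
  set J := Finset.Icc ⌊-(1 / w)⌋ ⌊1 / w⌋ with hJ
  set φ : ℤ × ℤ × ℤ × ℤ → (ℤ × ℤ × ℤ) × ℤ := fun q =>
    ((q.1, q.2.1, q.2.2.1), ⌊((P q : ℝ) / (Rr q : ℝ)) / w⌋) with hφ
  set T : Finset ((ℤ × ℤ × ℤ) × ℤ) := (I ×ˢ I ×ˢ I) ×ˢ J with hT
  have hJcard : (J.card : ℝ) ≤ 2 / w + 3 := by
    rw [hJ, Int.card_Icc]
    have h1 : (0 : ℝ) < 1 / w := by positivity
    have h2 : ⌊-(1 / w)⌋ ≤ ⌊1 / w⌋ := Int.floor_le_floor (by linarith)
    have h3 : (((⌊1 / w⌋ + 1 - ⌊-(1 / w)⌋).toNat : ℤ) : ℝ) =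
        ((⌊1 / w⌋ + 1 - ⌊-(1 / w)⌋ : ℤ) : ℝ) := by
      rw [Int.toNat_of_nonneg (by omega)]
    have h4 : (((⌊1 / w⌋ + 1 - ⌊-(1 / w)⌋).toNat : ℕ) : ℝ) =
        ((⌊1 / w⌋ + 1 - ⌊-(1 / w)⌋ : ℤ) : ℝ) := by
      rw [← h3]; norm_cast
    rw [h4]
    push_cast
    have h5 := Int.floor_le (1 / w)
    have h6 := Int.lt_floor_add_one (-(1 / w))
    have h7 : 2 / w = 1 / w + 1 / w := by ring
    rw [h7]
    linarith
  have hTcard : (T.card : ℝ) ≤ (2 * R + 1) ^ 3 * (2 / w + 3) := by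
    rw [hT, Finset.card_product, Finset.card_product, Finset.card_product, hI, box_card']
    push_cast
    have : (2 * (R' : ℝ) + 1) * ((2 * (R' : ℝ) + 1) * (2 * (R' : ℝ) + 1)) ≤ (2 * R + 1) ^ 3 := by
      have h1 : (2 * (R' : ℝ) + 1) ≤ 2 * R + 1 := by linarith
      calc (2 * (R' : ℝ) + 1) * ((2 * (R' : ℝ) + 1) * (2 * (R' : ℝ) + 1))
          = (2 * (R' : ℝ) + 1) ^ 3 := by ring
        _ ≤ (2 * R + 1) ^ 3 := by gcongr
    exact mul_le_mul this hJcard (by positivity) (by positivity)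
  have hrpos : ∀ q ∈ S, (0 : ℝ) < Rr q := by
    intro q hq
    have h1 := (hPR q hq).2.1
    linarith
  have hratio : ∀ q ∈ S, |(P q : ℝ) / (Rr q : ℝ)| ≤ 1 := by
    intro q hq
    have h1' := hrpos q hq
    have h2 := (hPR q hq).2.2.2
    rw [abs_div, abs_of_pos h1', div_le_one h1']
    exact_mod_cast h2
  have hmaps : ∀ q ∈ S', φ q ∈ T := by
    intro q hq
    have hqS := (Finset.mem_filter.1 hq).1
    obtain ⟨_, h1, h2, h3, h4, _⟩ := hS q hqS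
    simp only [hT, hφ, Finset.mem_product, hI, hJ, Finset.mem_Icc]
    have e1 := abs_le_floor hR0 h1
    have e2 := abs_le_floor hR0 h2
    have e3 := abs_le_floor hR0 h3
    rw [← hR'] at e1 e2 e3
    have e4 := abs_le.1 (hratio q hqS)
    refine ⟨⟨abs_le.1 e1, abs_le.1 e2, abs_le.1 e3⟩, ?_, ?_⟩
    · apply Int.floor_le_floor
      rw [le_div_iff₀ hw0, neg_mul, one_div, inv_mul_cancel₀ hw0.ne']
      exact e4.1
    · apply Int.floor_le_floor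
      gcongr
      exact e4.2
  have hfib : ∀ y ∈ T, (S'.filter (fun q => φ q = y)).card ≤ N := by
    intro y hy
    by_cases hemp : (S'.filter (fun q => φ q = y)) = ∅
    · rw [hemp]; simp
    · obtain ⟨q0, hq0⟩ := Finset.nonempty_iff_ne_empty.2 hemp
      obtain ⟨hq0S, hq0y⟩ := Finset.mem_filter.1 hq0
      obtain ⟨hq0S, hq0ne⟩ := Finset.mem_filter.1 hq0S
      obtain ⟨⟨a, b, c⟩, j⟩ := y
      simp only [hφ, Prod.mk.injEq] at hq0y
      obtain ⟨⟨ea, eb, ec⟩, ej⟩ := hq0y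
      obtain ⟨g0, g1, g2, g3, g4, _⟩ := hS q0 hq0S
      have hinj : (S'.filter (fun q => φ q = ((a, b, c), j))).card ≤
          ((S'.filter (fun q => φ q = ((a, b, c), j))).image (fun q => q.2.2.2)).card := by
        rw [Finset.card_image_of_injOn]
        intro q hq q' hq' h
        have h1 := (Finset.mem_filter.1 (Finset.mem_coe.1 hq)).2
        have h2 := (Finset.mem_filter.1 (Finset.mem_coe.1 hq')).2
        simp only [hφ, Prod.mk.injEq] at h1 h2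
        obtain ⟨q1, q2, q3, q4⟩ := q
        obtain ⟨q1', q2', q3', q4'⟩ := q'
        simp only at h h1 h2 ⊢
        obtain ⟨⟨h11, h12, h13⟩, _⟩ := h1
        obtain ⟨⟨h21, h22, h23⟩, _⟩ := h2
        rw [h11, h12, h13, h21, h22, h23, h]
      refine le_trans hinj ?_
      have hj1 : (j : ℝ) * w ≤ 1 := by
        have h1 := Int.floor_le (((P q0 : ℝ) / (Rr q0 : ℝ)) / w)
        rw [ej] at h1
        have h2 := (abs_le.1 (hratio q0 hq0S)).2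
        rw [le_div_iff₀ hw0] at h1
        linarith
      refine harc a b c (max (-1) ((j : ℝ) * w)) _ ?_ ?_ ?_ ?_ ?_ ?_ ?_
      · rw [← ea]; exact g0
      · rw [← ea, ← eb, ← ec]; exact hq0ne
      · rw [← ea]; exact g1
      · rw [← eb]; exact g2
      · rw [← ec]; exact g3
      · rw [abs_le]
        exact ⟨le_max_left _ _, max_le (by norm_num) hj1⟩
      · intro D hD
        obtain ⟨q, hq, rfl⟩ := Finset.mem_image.1 hD
        obtain ⟨hqS, hqy⟩ := Finset.mem_filter.1 hq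
        obtain ⟨hqS, -⟩ := Finset.mem_filter.1 hqS
        simp only [hφ, Prod.mk.injEq] at hqy
        obtain ⟨⟨fa, fb, fc⟩, fj⟩ := hqy
        obtain ⟨k1, k2, k3, k4⟩ := hPR q hqS
        refine ⟨P q, Rr q, ?_, k2, k3, ?_⟩
        · rw [← fa, ← fb, ← fc]; exact k1
        · have h1 := Int.floor_le (((P q : ℝ) / (Rr q : ℝ)) / w)
          have h2 := Int.lt_floor_add_one (((P q : ℝ) / (Rr q : ℝ)) / w)
          rw [fj] at h1 h2
          rw [le_div_iff₀ hw0] at h1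
          rw [div_lt_iff₀ hw0] at h2
          have h3 := abs_le.1 (hratio q hqS)
          rcases le_total (-1) ((j : ℝ) * w) with h5 | h5
          · rw [max_eq_right h5, abs_le]
            constructor <;> linarith
          · rw [max_eq_left h5, abs_le]
            constructor <;> linarith
  have h1 := Finset.card_le_mul_card_image_of_maps_to hmaps N hfib
  have h2 : (S'.card : ℝ) ≤ N * ((2 * R + 1) ^ 3 * (2 / w + 3)) := by
    calc (S'.card : ℝ) ≤ ((N * T.card : ℕ) : ℝ) := by exact_mod_cast h1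
      _ = N * (T.card : ℝ) := by push_cast; ring
      _ ≤ N * ((2 * R + 1) ^ 3 * (2 / w + 3)) := by gcongr
  have h3 : S.card = (S.filter (fun q => q.2.1 ^ 2 = q.1 * q.2.2.1)).card + S'.card := by
    rw [hS'def]
    exact (Finset.card_filter_add_card_filter_not _).symm
  rw [h3]
  push_cast
  nlinarith [c0, h2]

end Pool.Agent.Work.MP_f2148a_nt.Exp
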