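import Mathlib
import Pool.Agent.Work.MP_f2148a_nt.Exp.Defs2

set_option autoImplicit false

namespace Pool.Agent.Work.MP_f2148a_nt.Exp

/-- Multilinear expansion of a determinant whose rows are sums. -/
theorem detexp_sum_rows {ι : Type*} [Fintype ι] [DecidableEq ι] {κ : Type*} [Fintype κ]
    [DecidableEq κ] (g : ι → κ → ι → ℝ) :
    Matrix.det (fun i j => ∑ k, g i k j) = ∑ φ : ι → κ, Matrix.det (fun i j => g i (φ i) j) := by
  have h := (Matrix.detRowAlternating (n := ι) (R := ℝ)).toMultilinearMap.map_sum g
  have e1 : (Matrix.detRowAlternating (n := ι) (R := ℝ)).toMultilinearMap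
      (fun i => ∑ k, g i k) = Matrix.det (fun i j => ∑ k, g i k j) := by
    change Matrix.det (fun i => ∑ k, g i k) = _
    congr 1
    funext i j
    exact Finset.sum_apply j _ _
  rw [e1] at h
  rw [h]
  rfl

theorem detexp_det_le {ι : Type*} [Fintype ι] [DecidableEq ι] (A : Matrix ι ι ℝ) (b : ι → ℝ)
    (h : ∀ i j, |A i j| ≤ b i) : |A.det| ≤ (Fintype.card ι).factorial * ∏ i, b i := by
  rw [Matrix.det_apply']
  refine (Finset.abs_sum_le_sum_abs _ _).trans ?_
  have h1 : ∀ σ : Equiv.Perm ι, |((Equiv.Perm.sign σ : ℤ) : ℝ) * ∏ i, A (σ i) i| ≤ ∏ i, b i := by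
    intro σ
    rw [abs_mul]
    have h2 : |((Equiv.Perm.sign σ : ℤ) : ℝ)| = 1 := by
      rcases Int.units_eq_one_or (Equiv.Perm.sign σ) with h | h <;> rw [h] <;> simp
    rw [h2, one_mul, Finset.abs_prod, ← Equiv.prod_comp σ b]
    exact Finset.prod_le_prod (fun i _ => abs_nonneg _) (fun i _ => h (σ i) i)
  refine (Finset.sum_le_sum (fun σ _ => h1 σ)).trans ?_
  rw [Finset.sum_const, Finset.card_univ, Fintype.card_perm, nsmul_eq_mul]

/-- Module DetExp. -/
theorem det_expand_le {ι : Type*} [Fintype ι] [DecidableEq ι] (K1 : ℕ) (M : Matrix ι ι ℝ)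
    (cf : ℕ → ι → ℝ) (y : ℕ → ι → ℝ) (E : Matrix ι ι ℝ)
    (hM : ∀ j c, M j c = ∑ k ∈ Finset.range K1, cf k c * y k j + E j c)
    (β : ℕ → ι → ℝ) (ε : ι → ℝ) (hβ : ∀ k < K1, ∀ j c, |cf k c * y k j| ≤ β k c)
    (hε : ∀ j c, |E j c| ≤ ε c) (B : ℝ)
    (hB : ∀ κ : ι → Option ℕ, (∀ c k, κ c = some k → k < K1) →
      (∀ c c' k, κ c = some k → κ c' = some k → c = c') →
      ∏ c, (κ c).elim (ε c) (fun k => β k c) ≤ B) :
    |M.det| ≤ (Fintype.card ι).factorial * ((K1 : ℝ) + 1) ^ (Fintype.card ι) * B := by
  classical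
  set g : ι → Option (Fin K1) → ι → ℝ := fun c κ j =>
    κ.elim (E j c) (fun k => cf k c * y k j) with hg
  have h1 : M.det = ∑ φ : ι → Option (Fin K1), Matrix.det (fun c j => g c (φ c) j) := by
    rw [← detexp_sum_rows g, ← Matrix.det_transpose]
    congr 1
    funext c j
    rw [Matrix.transpose_apply, hM, Fintype.sum_option, add_comm, Finset.sum_range]
    rfl
  have hB0 : 0 ≤ B := by
    refine le_trans ?_ (hB (fun _ => none) (by simp) (by simp))
    apply Finset.prod_nonneg
    intro c _
    exact (abs_nonneg _).trans (hε c c)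
  have h2 : ∀ φ : ι → Option (Fin K1), |Matrix.det (fun c j => g c (φ c) j)| ≤
      (Fintype.card ι).factorial * B := by
    intro φ
    by_cases hinj : ∀ c c' k, φ c = some k → φ c' = some k → c = c'
    · have h3 := detexp_det_le (fun c j => g c (φ c) j)
        (fun c => ((φ c).map (fun k : Fin K1 => (k : ℕ))).elim (ε c) (fun k => β k c)) (by
          intro c j
          simp only [hg]
          cases hφ : φ c with
          | none => simpa using hε j c
          | some k => simpa using hβ k k.2 j c)
      refine h3.trans ?_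
      apply mul_le_mul_of_nonneg_left _ (by positivity)
      apply hB
      · intro c k hk
        obtain ⟨k', _, h0⟩ := Option.map_eq_some_iff.1 hk
        rw [← h0]
        exact k'.isLt
      · intro c c' k hk hk'
        obtain ⟨k1, h1, h0⟩ := Option.map_eq_some_iff.1 hk
        obtain ⟨k2, h2, h3⟩ := Option.map_eq_some_iff.1 hk'
        have : k2 = k1 := Fin.ext (h3.trans h0.symm)
        exact hinj c c' k1 h1 (this ▸ h2)
    · push Not at hinj
      obtain ⟨c, c', k, hk, hk', hne⟩ := hinj
      have h4 : Matrix.det (fun c j => g c (φ c) j) = 0 := by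
        have h5 : (fun c j => g c (φ c) j) = fun c j =>
            (φ c).elim 1 (fun k => cf k c) * (φ c).elim (E j c) (fun k => y k j) := by
          funext c j
          simp only [hg]
          cases hφ : φ c with
          | none => simp
          | some k => simp
        rw [h5]
        have h6 := Matrix.det_mul_column (fun c => (φ c).elim 1 (fun k => cf k c))
          (fun c j => (φ c).elim (E j c) (fun k => y k j))
        have h7 : Matrix.det (fun c j => (φ c).elim (E j c) (fun k => y k j)) = 0 := by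
          apply Matrix.det_zero_of_row_eq hne
          funext j
          simp only [hk, hk', Option.elim_some]
        rw [h7, mul_zero] at h6
        exact h6
      rw [h4, abs_zero]
      positivity
  rw [h1]
  refine (Finset.abs_sum_le_sum_abs _ _).trans ((Finset.sum_le_sum (fun φ _ => h2 φ)).trans ?_)
  rw [Finset.sum_const, Finset.card_univ, Fintype.card_fun, nsmul_eq_mul, Fintype.card_option,
    Fintype.card_fin]
  apply le_of_eq
  push_cast
  ring

end Pool.Agent.Work.MP_f2148a_nt.Exp
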