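import Mathlib
import Pool.Agent.Work.MP_f2148a_nt.Exp.Defs

set_option autoImplicit false

namespace Pool.Agent.Work.MP_f2148a_nt.Exp

open Polynomial

namespace NHatAux

theorem am {x y A B : ℝ} (hx : |x| ≤ A) (hy : |y| ≤ B) : |x * y| ≤ A * B := by
  rw [abs_mul]
  exact mul_le_mul hx hy (abs_nonneg _) ((abs_nonneg _).trans hx)

theorem aa {x y A B : ℝ} (hx : |x| ≤ A) (hy : |y| ≤ B) : |x + y| ≤ A + B :=
  (abs_add_le x y).trans (add_le_add hx hy)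

theorem as {x y A B : ℝ} (hx : |x| ≤ A) (hy : |y| ≤ B) : |x - y| ≤ A + B :=
  (abs_sub x y).trans (add_le_add hx hy)

/-- Size of a polynomial of degree `< i` with coefficients at most `M`. -/
theorem eval_bound (q : ℝ[X]) (i : ℕ) (hq : q.natDegree < i) (M B x : ℝ)
    (hM : ∀ j, |q.coeff j| ≤ M) (hB : 1 ≤ B) (hx : |x| ≤ B) :
    |q.eval x| ≤ M * i * B ^ i := by
  have hM0 : 0 ≤ M := (abs_nonneg _).trans (hM 0)
  rw [eval_eq_sum_range' hq]
  refine (Finset.abs_sum_le_sum_abs _ _).trans ?_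
  have : ∀ k ∈ Finset.range i, |q.coeff k * x ^ k| ≤ M * B ^ i := by
    intro k hk
    have hk' : k ≤ i := (Finset.mem_range.mp hk).le
    refine am (hM k) ?_
    rw [abs_pow]
    exact (pow_le_pow_left₀ (abs_nonneg _) hx k).trans (pow_le_pow_right₀ hB hk')
  refine (Finset.sum_le_sum this).trans ?_
  rw [Finset.sum_const, Finset.card_range, nsmul_eq_mul]
  apply le_of_eq
  ring

/-- Lipschitz bound for a polynomial of degree `< i` with coefficients at most `M`. -/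
theorem eval_lip (q : ℝ[X]) (i : ℕ) (hq : q.natDegree < i) (M B x y : ℝ)
    (hM : ∀ j, |q.coeff j| ≤ M) (hB : 1 ≤ B) (hx : |x| ≤ B) (hy : |y| ≤ B) :
    |q.eval x - q.eval y| ≤ M * i ^ 2 * B ^ i * |x - y| := by
  have hM0 : 0 ≤ M := (abs_nonneg _).trans (hM 0)
  rw [eval_eq_sum_range' hq, eval_eq_sum_range' hq, ← Finset.sum_sub_distrib]
  refine (Finset.abs_sum_le_sum_abs _ _).trans ?_
  have : ∀ k ∈ Finset.range i, |q.coeff k * x ^ k - q.coeff k * y ^ k| ≤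
      M * (|x - y| * i * B ^ i) := by
    intro k hk
    have hk' : k ≤ i := (Finset.mem_range.mp hk).le
    rw [← mul_sub]
    refine am (hM k) ?_
    refine (abs_pow_sub_pow_le x y k).trans ?_
    have h1 : max |x| |y| ^ (k - 1) ≤ B ^ i :=
      (pow_le_pow_left₀ (le_max_of_le_left (abs_nonneg _)) (max_le hx hy) _).trans
        (pow_le_pow_right₀ hB (by omega))
    have h2 : (k : ℝ) ≤ i := by exact_mod_cast hk'
    have h3 : |x - y| * k ≤ |x - y| * i := mul_le_mul_of_nonneg_left h2 (abs_nonneg _)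
    exact mul_le_mul h3 h1 (pow_nonneg (le_max_of_le_left (abs_nonneg _)) _)
      (mul_nonneg (abs_nonneg _) (Nat.cast_nonneg _))
  refine (Finset.sum_le_sum this).trans ?_
  rw [Finset.sum_const, Finset.card_range, nsmul_eq_mul]
  apply le_of_eq
  ring

theorem coeff_deriv_bound (q : ℝ[X]) (i : ℕ) (hq : q.natDegree < i) (M : ℝ)
    (hM : ∀ j, |q.coeff j| ≤ M) (j : ℕ) : |(derivative q).coeff j| ≤ M * i := by
  have hM0 : 0 ≤ M := (abs_nonneg _).trans (hM 0)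
  rw [coeff_derivative]
  by_cases hj : j + 1 < i
  · refine am (hM _) ?_
    have h1 : (0 : ℝ) ≤ (j : ℝ) + 1 := by positivity
    rw [abs_of_nonneg h1]
    exact_mod_cast hj.le
  · rw [coeff_eq_zero_of_natDegree_lt (by omega)]
    simp only [zero_mul, abs_zero]
    positivity

theorem natDegree_deriv_lt (q : ℝ[X]) (i : ℕ) (hq : q.natDegree < i) :
    (derivative q).natDegree < i :=
  lt_of_le_of_lt ((natDegree_derivative_le q).trans (Nat.sub_le _ _)) hq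

theorem abs_eval_le_nrm (w : ℝ[X]) (ρ ξ : ℝ) (hξ : |ξ| ≤ ρ) : |w.eval ξ| ≤ nrm w ρ := by
  rw [eval_eq_sum, sum_def, nrm]
  refine (Finset.abs_sum_le_sum_abs _ _).trans (Finset.sum_le_sum ?_)
  intro k _
  rw [abs_mul, abs_pow]
  exact mul_le_mul_of_nonneg_left (pow_le_pow_left₀ (abs_nonneg _) hξ k) (abs_nonneg _)

theorem abs_deriv_eval_le_nrm (w : ℝ[X]) (ρ ξ : ℝ) (hξ : |ξ| ≤ ρ) (N : ℕ)
    (hN : w.natDegree ≤ N) : |(derivative w).eval ξ| * ρ ≤ N * nrm w ρ := by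
  have hρ : 0 ≤ ρ := (abs_nonneg _).trans hξ
  rw [derivative_eval, sum_def, nrm, Finset.mul_sum]
  calc |∑ k ∈ w.support, w.coeff k * k * ξ ^ (k - 1)| * ρ
      ≤ (∑ k ∈ w.support, |w.coeff k * k * ξ ^ (k - 1)|) * ρ :=
        mul_le_mul_of_nonneg_right (Finset.abs_sum_le_sum_abs _ _) hρ
    _ = ∑ k ∈ w.support, |w.coeff k * k * ξ ^ (k - 1)| * ρ := Finset.sum_mul _ _ _
    _ ≤ ∑ k ∈ w.support, (N : ℝ) * (|w.coeff k| * ρ ^ k) := by
        refine Finset.sum_le_sum ?_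
        intro k hk
        have hkN : (k : ℝ) ≤ N := by
          exact_mod_cast (le_natDegree_of_mem_supp k hk).trans hN
        rcases Nat.eq_zero_or_pos k with rfl | hk0
        · simp only [CharP.cast_eq_zero, mul_zero, zero_mul, abs_zero]
          positivity
        · obtain ⟨j, rfl⟩ : ∃ j, k = j + 1 := ⟨k - 1, by omega⟩
          rw [Nat.add_sub_cancel, abs_mul, abs_mul, abs_pow, Nat.abs_cast]
          have h1 : |ξ| ^ j * ρ ≤ ρ ^ (j + 1) := by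
            rw [pow_succ]
            exact mul_le_mul_of_nonneg_right (pow_le_pow_left₀ (abs_nonneg _) hξ j) hρ
          calc |w.coeff (j + 1)| * ((j + 1 : ℕ) : ℝ) * |ξ| ^ j * ρ
              = ((j + 1 : ℕ) : ℝ) * (|w.coeff (j + 1)| * (|ξ| ^ j * ρ)) := by ring
            _ ≤ N * (|w.coeff (j + 1)| * ρ ^ (j + 1)) := by
                refine mul_le_mul hkN (mul_le_mul_of_nonneg_left h1 (abs_nonneg _)) ?_ ?_
                · positivity
                · positivity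


/-- Difference of the derived linear form at two nearby values. -/
theorem phi_diff (a b c ρ D D' u v u' v' ud vd ud' vd' R T e : ℝ) (hR : 1 ≤ R)
    (ha : |a| ≤ R) (hb : |b| ≤ R) (hc : |c| ≤ R) (hρ : |ρ| ≤ 2) (hD : |D| ≤ 27 * R)
    (hD' : |D'| ≤ 27 * R) (he : |D - D'| ≤ e) (hv : |v| ≤ T) (hud : |ud| ≤ T) (hvd : |vd| ≤ T)
    (hu2 : |u - u'| ≤ T * e) (hv2 : |v - v'| ≤ T * e) (hud2 : |ud - ud'| ≤ T * e)
    (hvd2 : |vd - vd'| ≤ T * e) :
    |(3 * (a ^ 2 * D ^ 2 + (4 * b ^ 3 - 6 * a * b * c) * D + (4 * a * c ^ 3 - 3 * b ^ 2 * c ^ 2)) *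
        (ud + ρ * vd) - ((4 * a * c ^ 2 - 3 * b ^ 2 * c - a * b * D) +
          (7 * a * b * c - 6 * b ^ 3 - a ^ 2 * D) * ρ) * v + 2 * a * (a * c - b ^ 2) * ρ * u) -
      (3 * (a ^ 2 * D' ^ 2 + (4 * b ^ 3 - 6 * a * b * c) * D' +
        (4 * a * c ^ 3 - 3 * b ^ 2 * c ^ 2)) *
        (ud' + ρ * vd') - ((4 * a * c ^ 2 - 3 * b ^ 2 * c - a * b * D') +
          (7 * a * b * c - 6 * b ^ 3 - a ^ 2 * D') * ρ) * v' +
          2 * a * (a * c - b ^ 2) * ρ * u')| ≤ 10 ^ 4 * R ^ 4 * T * e := by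
  have hT0 : 0 ≤ T := (abs_nonneg _).trans hv
  have he0 : 0 ≤ e := (abs_nonneg _).trans he
  have hR0 : 0 ≤ R := by linarith
  have ha2 : |a ^ 2| ≤ R ^ 2 := by rw [abs_pow]; exact pow_le_pow_left₀ (abs_nonneg _) ha 2
  have hb2 : |b ^ 2| ≤ R ^ 2 := by rw [abs_pow]; exact pow_le_pow_left₀ (abs_nonneg _) hb 2
  have hc2 : |c ^ 2| ≤ R ^ 2 := by rw [abs_pow]; exact pow_le_pow_left₀ (abs_nonneg _) hc 2
  have hb3 : |b ^ 3| ≤ R ^ 3 := by rw [abs_pow]; exact pow_le_pow_left₀ (abs_nonneg _) hb 3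
  have hc3 : |c ^ 3| ≤ R ^ 3 := by rw [abs_pow]; exact pow_le_pow_left₀ (abs_nonneg _) hc 3
  have hnum : ∀ x : ℝ, 0 ≤ x → |x| ≤ x := fun x hx => (abs_of_nonneg hx).le
  have h4 : |(4 : ℝ)| ≤ 4 := hnum 4 (by norm_num)
  have h6 : |(6 : ℝ)| ≤ 6 := hnum 6 (by norm_num)
  have h3 : |(3 : ℝ)| ≤ 3 := hnum 3 (by norm_num)
  have h2 : |(2 : ℝ)| ≤ 2 := hnum 2 (by norm_num)
  have h7 : |(7 : ℝ)| ≤ 7 := hnum 7 (by norm_num)
  have hk1 : |4 * b ^ 3 - 6 * a * b * c| ≤ 4 * R ^ 3 + 6 * R * R * R :=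
    as (am h4 hb3) (am (am (am h6 ha) hb) hc)
  -- first term
  have t1 : |(D - D') * (a ^ 2 * (D + D') + (4 * b ^ 3 - 6 * a * b * c))| ≤
      e * (R ^ 2 * (27 * R + 27 * R) + (4 * R ^ 3 + 6 * R * R * R)) :=
    am he (aa (am ha2 (aa hD hD')) hk1)
  have hsum : |ud + ρ * vd| ≤ T + 2 * T := aa hud (am hρ hvd)
  have T1 : |3 * ((D - D') * (a ^ 2 * (D + D') + (4 * b ^ 3 - 6 * a * b * c))) * (ud + ρ * vd)| ≤
      3 * (e * (R ^ 2 * (27 * R + 27 * R) + (4 * R ^ 3 + 6 * R * R * R))) * (T + 2 * T) :=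
    am (am h3 t1) hsum
  -- second term
  have hD'2 : |D' ^ 2| ≤ (27 * R) ^ 2 := by
    rw [abs_pow]; exact pow_le_pow_left₀ (abs_nonneg _) hD' 2
  have t2 : |a ^ 2 * D' ^ 2 + (4 * b ^ 3 - 6 * a * b * c) * D' +
      (4 * a * c ^ 3 - 3 * b ^ 2 * c ^ 2)| ≤ R ^ 2 * (27 * R) ^ 2 +
        (4 * R ^ 3 + 6 * R * R * R) * (27 * R) + (4 * R * R ^ 3 + 3 * R ^ 2 * R ^ 2) :=
    aa (aa (am ha2 hD'2) (am hk1 hD')) (as (am (am h4 ha) hc3) (am (am h3 hb2) hc2))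
  have T2 : |3 * (a ^ 2 * D' ^ 2 + (4 * b ^ 3 - 6 * a * b * c) * D' +
      (4 * a * c ^ 3 - 3 * b ^ 2 * c ^ 2)) * ((ud - ud') + ρ * (vd - vd'))| ≤
      3 * (R ^ 2 * (27 * R) ^ 2 +
        (4 * R ^ 3 + 6 * R * R * R) * (27 * R) + (4 * R * R ^ 3 + 3 * R ^ 2 * R ^ 2)) *
        (T * e + 2 * (T * e)) :=
    am (am h3 t2) (aa hud2 (am hρ hvd2))
  -- third term
  have T3 : |((a * b + a ^ 2 * ρ) * (D - D')) * v| ≤ ((R * R + R ^ 2 * 2) * e) * T :=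
    am (am (aa (am ha hb) (am ha2 hρ)) he) hv
  -- fourth term
  have T4 : |((4 * a * c ^ 2 - 3 * b ^ 2 * c - a * b * D') +
      (7 * a * b * c - 6 * b ^ 3 - a ^ 2 * D') * ρ) * (v - v')| ≤
      ((4 * R * R ^ 2 + 3 * R ^ 2 * R + R * R * (27 * R)) +
        (7 * R * R * R + 6 * R ^ 3 + R ^ 2 * (27 * R)) * 2) * (T * e) :=
    am (aa (as (as (am (am h4 ha) hc2) (am (am h3 hb2) hc)) (am (am ha hb) hD'))
      (am (as (as (am (am (am h7 ha) hb) hc) (am h6 hb3)) (am ha2 hD')) hρ)) hv2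
  -- fifth term
  have T5 : |2 * a * (a * c - b ^ 2) * ρ * (u - u')| ≤
      2 * R * (R * R + R ^ 2) * 2 * (T * e) :=
    am (am (am (am h2 ha) (as (am ha hc) hb2)) hρ) hu2
  have hsplit : (3 * (a ^ 2 * D ^ 2 + (4 * b ^ 3 - 6 * a * b * c) * D +
        (4 * a * c ^ 3 - 3 * b ^ 2 * c ^ 2)) *
        (ud + ρ * vd) - ((4 * a * c ^ 2 - 3 * b ^ 2 * c - a * b * D) +
          (7 * a * b * c - 6 * b ^ 3 - a ^ 2 * D) * ρ) * v + 2 * a * (a * c - b ^ 2) * ρ * u) -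
      (3 * (a ^ 2 * D' ^ 2 + (4 * b ^ 3 - 6 * a * b * c) * D' +
        (4 * a * c ^ 3 - 3 * b ^ 2 * c ^ 2)) *
        (ud' + ρ * vd') - ((4 * a * c ^ 2 - 3 * b ^ 2 * c - a * b * D') +
          (7 * a * b * c - 6 * b ^ 3 - a ^ 2 * D') * ρ) * v' +
          2 * a * (a * c - b ^ 2) * ρ * u') =
      3 * ((D - D') * (a ^ 2 * (D + D') + (4 * b ^ 3 - 6 * a * b * c))) * (ud + ρ * vd) +
      3 * (a ^ 2 * D' ^ 2 + (4 * b ^ 3 - 6 * a * b * c) * D' +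
        (4 * a * c ^ 3 - 3 * b ^ 2 * c ^ 2)) * ((ud - ud') + ρ * (vd - vd')) +
      ((a * b + a ^ 2 * ρ) * (D - D')) * v -
      ((4 * a * c ^ 2 - 3 * b ^ 2 * c - a * b * D') +
        (7 * a * b * c - 6 * b ^ 3 - a ^ 2 * D') * ρ) * (v - v') +
      2 * a * (a * c - b ^ 2) * ρ * (u - u') := by ring
  rw [hsplit]
  refine (aa (as (aa (aa T1 T2) T3) T4) T5).trans ?_
  have hTe : 0 ≤ T * e := mul_nonneg hT0 he0
  have p3 : R ^ 3 ≤ R ^ 4 := pow_le_pow_right₀ hR (by norm_num)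
  have p2 : R ^ 2 ≤ R ^ 4 := pow_le_pow_right₀ hR (by norm_num)
  have q3 : R ^ 3 * (T * e) ≤ R ^ 4 * (T * e) := mul_le_mul_of_nonneg_right p3 hTe
  have q2 : R ^ 2 * (T * e) ≤ R ^ 4 * (T * e) := mul_le_mul_of_nonneg_right p2 hTe
  have q4 : 0 ≤ R ^ 4 * (T * e) := mul_nonneg (pow_nonneg hR0 4) hTe
  have : 3 * (e * (R ^ 2 * (27 * R + 27 * R) + (4 * R ^ 3 + 6 * R * R * R))) * (T + 2 * T) +
      3 * (R ^ 2 * (27 * R) ^ 2 +
        (4 * R ^ 3 + 6 * R * R * R) * (27 * R) + (4 * R * R ^ 3 + 3 * R ^ 2 * R ^ 2)) *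
        (T * e + 2 * (T * e)) + ((R * R + R ^ 2 * 2) * e) * T +
      ((4 * R * R ^ 2 + 3 * R ^ 2 * R + R * R * (27 * R)) +
        (7 * R * R * R + 6 * R ^ 3 + R ^ 2 * (27 * R)) * 2) * (T * e) +
      2 * R * (R * R + R ^ 2) * 2 * (T * e) =
      (576 + 114 + 8) * (R ^ 3 * (T * e)) + 9054 * (R ^ 4 * (T * e)) + 3 * (R ^ 2 * (T * e)) := by
    ring
  rw [this]
  have h10 : 10 ^ 4 * R ^ 4 * T * e = 10000 * (R ^ 4 * (T * e)) := by ring
  rw [h10]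
  linarith

/-- Value of the derived linear form at a point of the curve, through `w` and `w'`. -/
theorem phi_at (a b c ρ D' u' v' ud' vd' w w' R : ℝ)
    (ha : |a| ≤ R) (hb : |b| ≤ R) (hc : |c| ≤ R) (hρ : |ρ| ≤ 2)
    (hD'b : |D'| ≤ 27 * R)
    (hD' : D' = -(a * ρ ^ 3 + 3 * b * ρ ^ 2 + 3 * c * ρ))
    (hw : w = u' + ρ * v') (hw' : w' = -3 * (a * ρ ^ 2 + 2 * b * ρ + c) * (ud' + ρ * vd') + v') :
    |3 * (a ^ 2 * D' ^ 2 + (4 * b ^ 3 - 6 * a * b * c) * D' +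
        (4 * a * c ^ 3 - 3 * b ^ 2 * c ^ 2)) *
        (ud' + ρ * vd') - ((4 * a * c ^ 2 - 3 * b ^ 2 * c - a * b * D') +
          (7 * a * b * c - 6 * b ^ 3 - a ^ 2 * D') * ρ) * v' +
          2 * a * (a * c - b ^ 2) * ρ * u'| ≤ 130 * R ^ 3 * |w'| + 8 * R ^ 3 * |w| := by
  have hR0 : 0 ≤ R := (abs_nonneg _).trans ha
  have ha2 : |a ^ 2| ≤ R ^ 2 := by rw [abs_pow]; exact pow_le_pow_left₀ (abs_nonneg _) ha 2
  have hb2 : |b ^ 2| ≤ R ^ 2 := by rw [abs_pow]; exact pow_le_pow_left₀ (abs_nonneg _) hb 2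
  have hc2 : |c ^ 2| ≤ R ^ 2 := by rw [abs_pow]; exact pow_le_pow_left₀ (abs_nonneg _) hc 2
  have hb3 : |b ^ 3| ≤ R ^ 3 := by rw [abs_pow]; exact pow_le_pow_left₀ (abs_nonneg _) hb 3
  have hρ2 : |ρ ^ 2| ≤ 2 ^ 2 := by rw [abs_pow]; exact pow_le_pow_left₀ (abs_nonneg _) hρ 2
  have hnum : ∀ x : ℝ, 0 ≤ x → |x| ≤ x := fun x hx => (abs_of_nonneg hx).le
  have h4 : |(4 : ℝ)| ≤ 4 := hnum 4 (by norm_num)
  have h6 : |(6 : ℝ)| ≤ 6 := hnum 6 (by norm_num)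
  have h3 : |(3 : ℝ)| ≤ 3 := hnum 3 (by norm_num)
  have h2 : |(2 : ℝ)| ≤ 2 := hnum 2 (by norm_num)
  have h7 : |(7 : ℝ)| ≤ 7 := hnum 7 (by norm_num)
  have key : 3 * (a ^ 2 * D' ^ 2 + (4 * b ^ 3 - 6 * a * b * c) * D' +
        (4 * a * c ^ 3 - 3 * b ^ 2 * c ^ 2)) *
        (ud' + ρ * vd') - ((4 * a * c ^ 2 - 3 * b ^ 2 * c - a * b * D') +
          (7 * a * b * c - 6 * b ^ 3 - a ^ 2 * D') * ρ) * v' +
          2 * a * (a * c - b ^ 2) * ρ * u' =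
      -((2 * a * (a * c - b ^ 2)) * ρ ^ 2 + (7 * a * b * c - 6 * b ^ 3 - a ^ 2 * D') * ρ +
        (4 * a * c ^ 2 - 3 * b ^ 2 * c - a * b * D')) * w' +
        2 * a * (a * c - b ^ 2) * ρ * w := by
    rw [hw, hw', hD']
    ring
  rw [key]
  have hs : |-((2 * a * (a * c - b ^ 2)) * ρ ^ 2 + (7 * a * b * c - 6 * b ^ 3 - a ^ 2 * D') * ρ +
        (4 * a * c ^ 2 - 3 * b ^ 2 * c - a * b * D'))| ≤
      2 * R * (R * R + R ^ 2) * 2 ^ 2 + (7 * R * R * R + 6 * R ^ 3 + R ^ 2 * (27 * R)) * 2 +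
        (4 * R * R ^ 2 + 3 * R ^ 2 * R + R * R * (27 * R)) := by
    rw [abs_neg]
    exact aa (aa (am (am (am h2 ha) (as (am ha hc) hb2)) hρ2)
      (am (as (as (am (am (am h7 ha) hb) hc) (am h6 hb3)) (am ha2 hD'b)) hρ))
      (as (as (am (am h4 ha) hc2) (am (am h3 hb2) hc)) (am (am ha hb) hD'b))
  have hs2 : |2 * a * (a * c - b ^ 2) * ρ| ≤ 2 * R * (R * R + R ^ 2) * 2 :=
    am (am (am h2 ha) (as (am ha hc) hb2)) hρ
  refine (aa (am hs le_rfl) (am hs2 le_rfl)).trans ?_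
  have e1 : 2 * R * (R * R + R ^ 2) * 2 ^ 2 + (7 * R * R * R + 6 * R ^ 3 + R ^ 2 * (27 * R)) * 2 +
        (4 * R * R ^ 2 + 3 * R ^ 2 * R + R * R * (27 * R)) = 130 * R ^ 3 := by ring
  have e2 : 2 * R * (R * R + R ^ 2) * 2 = 8 * R ^ 3 := by ring
  rw [e1, e2]

theorem natDegree_dp (a b c m X0 : ℝ) :
    (-(C a * (C X0 + X) ^ 3 + 3 * C b * (C X0 + X) ^ 2 + 3 * C c * (C X0 + X)) -
      C m : ℝ[X]).natDegree ≤ 3 := by
  have h1 : (C X0 + X : ℝ[X]).natDegree ≤ 1 :=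
    (natDegree_add_le _ _).trans (max_le (by rw [natDegree_C]; omega) natDegree_X_le)
  have hp : ∀ k : ℕ, ((C X0 + X : ℝ[X]) ^ k).natDegree ≤ k := fun k =>
    (natDegree_pow_le).trans ((Nat.mul_le_mul_left k h1).trans (by omega))
  have hc : ∀ (t : ℝ) (q : ℝ[X]), (C t * q).natDegree ≤ q.natDegree := fun t q =>
    natDegree_C_mul_le t q
  have e : (-(C a * (C X0 + X) ^ 3 + 3 * C b * (C X0 + X) ^ 2 + 3 * C c * (C X0 + X)) -
      C m : ℝ[X]) = C (-a) * (C X0 + X) ^ 3 + C (-(3 * b)) * (C X0 + X) ^ 2 +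
        C (-(3 * c)) * (C X0 + X) + C (-m) := by
    simp only [map_neg, map_mul, map_ofNat]
    ring
  rw [e]
  refine (natDegree_add_le _ _).trans (max_le ((natDegree_add_le _ _).trans (max_le
    ((natDegree_add_le _ _).trans (max_le ?_ ?_)) ?_)) ?_)
  · exact (hc _ _).trans (hp 3)
  · exact (hc _ _).trans ((hp 2).trans (by omega))
  · exact (hc _ _).trans (h1.trans (by omega))
  · rw [natDegree_C]; omega

theorem aux1 (g W i : ℝ) (hg : 49 * i + 2 ≤ g) (hW : 1 ≤ W) (hi : 0 ≤ i) :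
    195 / 4 * i * W + 1 ≤ g * W := by
  have h1 : (49 * i + 2) * W ≤ g * W := mul_le_mul_of_nonneg_right hg (by linarith)
  have h2 : 0 ≤ i * W := mul_nonneg hi (by linarith)
  linarith

theorem aux2 (g S : ℝ) (hg : 51 ≤ g) (hS : 0 ≤ S) : S + S ≤ g * S := by
  have h1 : 51 * S ≤ g * S := mul_le_mul_of_nonneg_right hg hS
  linarith

theorem aux3 (g W R : ℝ) (hg : 51 ≤ g) (hW : 1 ≤ W) (hR : R = g * W) : 51 ≤ R := by
  rw [hR]
  have h1 : 51 * 1 ≤ g * W := mul_le_mul hg hW (by norm_num) (by linarith)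
  linarith

theorem nhat_real (g W R M T r p a b c m D X0 E : ℝ) (i : ℕ) (U V : ℝ[X])
    (hR : R = g * W) (hg : 49 * (i : ℝ) + 2 ≤ g) (hW : 1 ≤ W)
    (ha : |a| ≤ R) (hb : |b| ≤ R) (hc : |c| ≤ R) (hX0 : |X0| ≤ 1)
    (hm : |-(a * X0 ^ 3 + 3 * b * X0 ^ 2 + 3 * c * X0) - m| ≤ 1 / 2)
    (hF : |a * p ^ 3 + 3 * b * p ^ 2 * r + 3 * c * p * r ^ 2 + D * r ^ 3| = 1)
    (hr : 1 ≤ r) (hrE : r ≤ E) (hp : |p / r - X0| ≤ 1 / W)
    (hU : U.natDegree < i) (hV : V.natDegree < i)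
    (hMU : ∀ j, |U.coeff j| ≤ M) (hMV : ∀ j, |V.coeff j| ≤ M)
    (hT : T = M * i ^ 3 * (21 * g) ^ i) (hTr : 10 ^ 4 * T ≤ r ^ 2)
    (hw : nrm (U.comp (-(C a * (C X0 + X) ^ 3 + 3 * C b * (C X0 + X) ^ 2 +
      3 * C c * (C X0 + X)) - C m) + (C X0 + X) * V.comp (-(C a * (C X0 + X) ^ 3 +
      3 * C b * (C X0 + X) ^ 2 + 3 * C c * (C X0 + X)) - C m)) (1 / W) ≤ 1 / (8 * E)) :
    |r * U.eval (D - m) + p * V.eval (D - m)| < 1 ∧
    |r * (3 * (a ^ 2 * D ^ 2 + (4 * b ^ 3 - 6 * a * b * c) * D +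
        (4 * a * c ^ 3 - 3 * b ^ 2 * c ^ 2)) * (derivative U).eval (D - m) -
        (4 * a * c ^ 2 - 3 * b ^ 2 * c - a * b * D) * V.eval (D - m)) +
      p * (3 * (a ^ 2 * D ^ 2 + (4 * b ^ 3 - 6 * a * b * c) * D +
        (4 * a * c ^ 3 - 3 * b ^ 2 * c ^ 2)) * (derivative V).eval (D - m) -
        (7 * a * b * c - 6 * b ^ 3 - a ^ 2 * D) * V.eval (D - m) +
        2 * a * (a * c - b ^ 2) * U.eval (D - m))| ≤ g * R ^ 4 := by
  have hi1 : 1 ≤ i := by omega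
  have hi1' : (1 : ℝ) ≤ i := by exact_mod_cast hi1
  have hg1 : 51 ≤ g := by linarith
  have hg0 : 0 < g := by linarith
  have hW0 : 0 < W := by linarith
  have hr0 : 0 < r := by linarith
  have hE0 : 0 < E := by linarith
  have hR51 : 51 ≤ R := aux3 g W R hg1 hW hR
  have hR0 : 0 < R := by linarith
  have hM0 : 0 ≤ M := (abs_nonneg _).trans (hMU 0)
  set ρ := p / r with hρdef
  have hpρ : p = r * ρ := by rw [hρdef]; field_simp
  set ξ := ρ - X0 with hξdef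
  have hW1 : 1 / W ≤ 1 := by rw [div_le_one hW0]; exact hW
  have hρ2 : |ρ| ≤ 2 := by
    have h1 : ρ = X0 + ξ := by rw [hξdef]; ring
    rw [h1]
    exact (aa hX0 (hp.trans hW1)).trans (by norm_num)
  -- the points
  set D' := -(a * ρ ^ 3 + 3 * b * ρ ^ 2 + 3 * c * ρ) with hD'def
  set d := D - m with hd
  set d' := D' - m with hd'
  have hr3 : 0 < r ^ 3 := by positivity
  have hDD' : |D - D'| = 1 / r ^ 3 := by
    have h1 : D - D' = (a * p ^ 3 + 3 * b * p ^ 2 * r + 3 * c * p * r ^ 2 + D * r ^ 3) / r ^ 3 := by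
      rw [hD'def, hpρ]
      field_simp
      ring
    rw [h1, abs_div, hF, abs_of_pos hr3]
  set e := 1 / r ^ 3 with he
  have he0 : 0 < e := by positivity
  have he1 : e ≤ 1 := by
    rw [he, div_le_one hr3]
    exact one_le_pow₀ hr
  have hdd' : d - d' = D - D' := by rw [hd, hd']; ring
  have hnum : ∀ x : ℝ, 0 ≤ x → |x| ≤ x := fun x hx => (abs_of_nonneg hx).le
  have h3 : |(3 : ℝ)| ≤ 3 := hnum 3 (by norm_num)
  have hρsq : |ρ ^ 2| ≤ 4 := by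
    rw [abs_pow]
    exact (pow_le_pow_left₀ (abs_nonneg _) hρ2 2).trans (by norm_num)
  have hρcu : |ρ ^ 3| ≤ 8 := by
    rw [abs_pow]
    exact (pow_le_pow_left₀ (abs_nonneg _) hρ2 3).trans (by norm_num)
  have hX0sq : |X0 ^ 2| ≤ 1 := by
    rw [abs_pow]
    exact (pow_le_pow_left₀ (abs_nonneg _) hX0 2).trans (by norm_num)
  have hD'b : |D'| ≤ 26 * R := by
    rw [hD'def, abs_neg]
    refine (aa (aa (am ha hρcu) (am (am h3 hb) hρsq)) (am (am h3 hc) hρ2)).trans ?_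
    linarith
  have hD'b' : |D'| ≤ 27 * R := by linarith
  have hDb : |D| ≤ 27 * R := by
    have h1 : D = D' + (D - D') := by ring
    rw [h1]
    refine (aa hD'b (hDD'.le.trans he1)).trans ?_
    linarith
  have hRW : R * (1 / W) = g := by rw [hR]; field_simp
  have hd'b : |d'| ≤ 20 * g := by
    have h1 : d' = (-(a * X0 ^ 3 + 3 * b * X0 ^ 2 + 3 * c * X0) - m) +
        -((a * (ρ ^ 2 + ρ * X0 + X0 ^ 2) + 3 * b * (ρ + X0) + 3 * c) * (ρ - X0)) := by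
      rw [hd', hD'def]; ring
    rw [h1]
    have h2 : |-((a * (ρ ^ 2 + ρ * X0 + X0 ^ 2) + 3 * b * (ρ + X0) + 3 * c) * (ρ - X0))| ≤
        (R * (4 + 2 * 1 + 1) + 3 * R * (2 + 1) + 3 * R) * (1 / W) := by
      rw [abs_neg]
      exact am (aa (aa (am ha (aa (aa hρsq (am hρ2 hX0)) hX0sq)) (am (am h3 hb) (aa hρ2 hX0)))
        (am h3 hc)) hp
    refine (aa hm h2).trans ?_
    have h4 : (R * (4 + 2 * 1 + 1) + 3 * R * (2 + 1) + 3 * R) * (1 / W) = 19 * g := by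
      rw [← hRW]; ring
    rw [h4]
    linarith
  have hd'b2 : |d'| ≤ 21 * g := by linarith
  have hdb : |d| ≤ 21 * g := by
    have h1 : d = d' + (D - D') := by rw [← hdd']; ring
    rw [h1]
    refine (aa hd'b (hDD'.le.trans he1)).trans ?_
    linarith
  have h21 : (1 : ℝ) ≤ 21 * g := by linarith
  -- bounds on values
  have hpw : 0 ≤ (21 * g) ^ i := by positivity
  have hT1 : M * i * (21 * g) ^ i ≤ T := by
    rw [hT]
    refine mul_le_mul_of_nonneg_right ?_ hpw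
    refine mul_le_mul_of_nonneg_left ?_ hM0
    calc (i : ℝ) = i ^ 1 := (pow_one _).symm
      _ ≤ i ^ 3 := pow_le_pow_right₀ hi1' (by norm_num)
  have hT2 : M * i ^ 2 * (21 * g) ^ i ≤ T := by
    rw [hT]
    refine mul_le_mul_of_nonneg_right ?_ hpw
    exact mul_le_mul_of_nonneg_left (pow_le_pow_right₀ hi1' (by norm_num)) hM0
  have hT0 : 0 ≤ T := le_trans (by positivity) hT1
  have vB : |V.eval d| ≤ T := (eval_bound V i hV M _ _ hMV h21 hdb).trans hT1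
  have uL : |U.eval d - U.eval d'| ≤ T * e := by
    refine (eval_lip U i hU M _ _ _ hMU h21 hdb hd'b2).trans ?_
    rw [hdd', hDD']
    exact mul_le_mul_of_nonneg_right hT2 he0.le
  have vL : |V.eval d - V.eval d'| ≤ T * e := by
    refine (eval_lip V i hV M _ _ _ hMV h21 hdb hd'b2).trans ?_
    rw [hdd', hDD']
    exact mul_le_mul_of_nonneg_right hT2 he0.le
  have hUd := natDegree_deriv_lt U i hU
  have hVd := natDegree_deriv_lt V i hV
  have hMUd := coeff_deriv_bound U i hU M hMU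
  have hMVd := coeff_deriv_bound V i hV M hMV
  have hT3 : M * i * i * (21 * g) ^ i ≤ T := by
    refine le_trans (le_of_eq ?_) hT2
    ring
  have hT4 : M * i * i ^ 2 * (21 * g) ^ i = T := by rw [hT]; ring
  have udB : |(derivative U).eval d| ≤ T :=
    (eval_bound _ i hUd (M * i) _ _ hMUd h21 hdb).trans hT3
  have vdB : |(derivative V).eval d| ≤ T :=
    (eval_bound _ i hVd (M * i) _ _ hMVd h21 hdb).trans hT3
  have udL : |(derivative U).eval d - (derivative U).eval d'| ≤ T * e := by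
    refine (eval_lip _ i hUd (M * i) _ _ _ hMUd h21 hdb hd'b2).trans ?_
    rw [hdd', hDD', hT4]
  have vdL : |(derivative V).eval d - (derivative V).eval d'| ≤ T * e := by
    refine (eval_lip _ i hVd (M * i) _ _ _ hMVd h21 hdb hd'b2).trans ?_
    rw [hdd', hDD', hT4]
  -- the polynomial w
  set dp : ℝ[X] := -(C a * (C X0 + X) ^ 3 + 3 * C b * (C X0 + X) ^ 2 +
      3 * C c * (C X0 + X)) - C m with hdp
  set w : ℝ[X] := U.comp dp + (C X0 + X) * V.comp dp with hwdef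
  have hdpe : dp.eval ξ = d' := by
    rw [hdp, hd', hD'def, hξdef]
    simp only [eval_sub, eval_neg, eval_add, eval_mul, eval_pow, eval_C, eval_X, eval_ofNat]
    ring
  have hdpd : (derivative dp).eval ξ = -3 * (a * ρ ^ 2 + 2 * b * ρ + c) := by
    rw [hdp, hξdef]
    simp only [derivative_sub, derivative_neg, derivative_add, derivative_mul, derivative_C,
      derivative_pow, derivative_X, derivative_ofNat, eval_sub, eval_neg, eval_add, eval_mul,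
      eval_pow, eval_C, eval_X, eval_ofNat, eval_zero, eval_one]
    norm_num
    ring
  have hwe : w.eval ξ = U.eval d' + ρ * V.eval d' := by
    rw [hwdef]
    simp only [eval_add, eval_mul, eval_comp, eval_C, eval_X, hdpe]
    rw [hξdef]; ring
  have hwd : (derivative w).eval ξ = -3 * (a * ρ ^ 2 + 2 * b * ρ + c) *
      ((derivative U).eval d' + ρ * (derivative V).eval d') + V.eval d' := by
    rw [hwdef]
    simp only [derivative_add, derivative_mul, derivative_comp, derivative_C, derivative_X,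
      eval_add, eval_mul, eval_comp, eval_C, eval_X, hdpe, hdpd, eval_zero, eval_one]
    rw [hξdef]; ring
  have hwdeg : w.natDegree ≤ 3 * i := by
    have hdp3 : dp.natDegree ≤ 3 := natDegree_dp a b c m X0
    have h1 : (U.comp dp).natDegree ≤ 3 * (i - 1) := by
      rw [natDegree_comp]
      calc U.natDegree * dp.natDegree ≤ (i - 1) * 3 := Nat.mul_le_mul (by omega) hdp3
        _ = 3 * (i - 1) := by ring
    have h2 : (V.comp dp).natDegree ≤ 3 * (i - 1) := by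
      rw [natDegree_comp]
      calc V.natDegree * dp.natDegree ≤ (i - 1) * 3 := Nat.mul_le_mul (by omega) hdp3
        _ = 3 * (i - 1) := by ring
    have h3 : (C X0 + X : ℝ[X]).natDegree ≤ 1 :=
      (natDegree_add_le _ _).trans (max_le (by rw [natDegree_C]; omega) natDegree_X_le)
    rw [hwdef]
    refine (natDegree_add_le _ _).trans (max_le (h1.trans (by omega)) ?_)
    refine (natDegree_mul_le).trans ?_
    omega
  have hw1 : |w.eval ξ| ≤ 1 / (8 * E) := (abs_eval_le_nrm w (1 / W) ξ hp).trans hw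
  have hw2 : |(derivative w).eval ξ| * (1 / W) ≤ 3 * i * (1 / (8 * E)) := by
    refine (abs_deriv_eval_le_nrm w (1 / W) ξ hp (3 * i) hwdeg).trans ?_
    push_cast
    exact mul_le_mul_of_nonneg_left hw (by positivity)
  have hw2' : |(derivative w).eval ξ| ≤ 3 * i * (1 / (8 * E)) * W := by
    have h1 : |(derivative w).eval ξ| = |(derivative w).eval ξ| * (1 / W) * W := by
      field_simp
    rw [h1]
    exact mul_le_mul_of_nonneg_right hw2 hW0.le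
  have hrw : r * |w.eval ξ| ≤ 1 / 8 := by
    calc r * |w.eval ξ| ≤ E * (1 / (8 * E)) :=
          mul_le_mul hrE hw1 (abs_nonneg _) hE0.le
      _ = 1 / 8 := by field_simp
  have hrw' : r * |(derivative w).eval ξ| ≤ 3 * i * W / 8 := by
    calc r * |(derivative w).eval ξ| ≤ E * (3 * i * (1 / (8 * E)) * W) :=
          mul_le_mul hrE hw2' (abs_nonneg _) hE0.le
      _ = 3 * i * W / 8 := by field_simp
  have hrTe : r * (T * e) ≤ 1 / 10 ^ 4 := by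
    rw [he]
    have h1 : r * (T * (1 / r ^ 3)) = T / r ^ 2 := by field_simp
    rw [h1, div_le_div_iff₀ (by positivity) (by norm_num)]
    linarith
  constructor
  · have h1 : r * U.eval d + p * V.eval d = r * w.eval ξ + r * (U.eval d - U.eval d') +
        r * (ρ * (V.eval d - V.eval d')) := by
      rw [hwe, hpρ]; ring
    rw [h1]
    have h2 : |r * w.eval ξ| ≤ 1 / 8 := by rw [abs_mul, abs_of_pos hr0]; exact hrw
    have h4 : |r * (U.eval d - U.eval d')| ≤ r * (T * e) := by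
      rw [abs_mul, abs_of_pos hr0]
      exact mul_le_mul_of_nonneg_left uL hr0.le
    have h5 : |r * (ρ * (V.eval d - V.eval d'))| ≤ r * (2 * (T * e)) := by
      rw [abs_mul, abs_of_pos hr0]
      exact mul_le_mul_of_nonneg_left (am hρ2 vL) hr0.le
    refine lt_of_le_of_lt (aa (aa h2 h4) h5) ?_
    have h6 : r * (2 * (T * e)) = 2 * (r * (T * e)) := by ring
    rw [h6]
    linarith
  · have hdiff := phi_diff a b c ρ D D' (U.eval d) (V.eval d) (U.eval d') (V.eval d')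
      ((derivative U).eval d) ((derivative V).eval d) ((derivative U).eval d')
      ((derivative V).eval d') R T e (by linarith) ha hb hc hρ2 hDb hD'b' hDD'.le vB udB vdB
      uL vL udL vdL
    have hat := phi_at a b c ρ D' (U.eval d') (V.eval d') ((derivative U).eval d')
      ((derivative V).eval d') (w.eval ξ) ((derivative w).eval ξ) R ha hb hc hρ2 hD'b' hD'def
      hwe hwd
    set Φ := 3 * (a ^ 2 * D ^ 2 + (4 * b ^ 3 - 6 * a * b * c) * D +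
        (4 * a * c ^ 3 - 3 * b ^ 2 * c ^ 2)) *
        ((derivative U).eval d + ρ * (derivative V).eval d) -
        ((4 * a * c ^ 2 - 3 * b ^ 2 * c - a * b * D) +
          (7 * a * b * c - 6 * b ^ 3 - a ^ 2 * D) * ρ) * V.eval d +
          2 * a * (a * c - b ^ 2) * ρ * U.eval d with hΦ
    set Φ' := 3 * (a ^ 2 * D' ^ 2 + (4 * b ^ 3 - 6 * a * b * c) * D' +
        (4 * a * c ^ 3 - 3 * b ^ 2 * c ^ 2)) *
        ((derivative U).eval d' + ρ * (derivative V).eval d') -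
        ((4 * a * c ^ 2 - 3 * b ^ 2 * c - a * b * D') +
          (7 * a * b * c - 6 * b ^ 3 - a ^ 2 * D') * ρ) * V.eval d' +
          2 * a * (a * c - b ^ 2) * ρ * U.eval d' with hΦ'
    have h1 : r * (3 * (a ^ 2 * D ^ 2 + (4 * b ^ 3 - 6 * a * b * c) * D +
        (4 * a * c ^ 3 - 3 * b ^ 2 * c ^ 2)) * (derivative U).eval d -
        (4 * a * c ^ 2 - 3 * b ^ 2 * c - a * b * D) * V.eval d) +
      p * (3 * (a ^ 2 * D ^ 2 + (4 * b ^ 3 - 6 * a * b * c) * D +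
        (4 * a * c ^ 3 - 3 * b ^ 2 * c ^ 2)) * (derivative V).eval d -
        (7 * a * b * c - 6 * b ^ 3 - a ^ 2 * D) * V.eval d +
        2 * a * (a * c - b ^ 2) * U.eval d) = r * (Φ - Φ') + r * Φ' := by
      rw [hΦ, hpρ]; ring
    rw [h1]
    have h2 : |r * (Φ - Φ')| ≤ r * (10 ^ 4 * R ^ 4 * T * e) := by
      rw [abs_mul, abs_of_pos hr0]
      exact mul_le_mul_of_nonneg_left hdiff hr0.le
    have h4 : |r * Φ'| ≤ r * (130 * R ^ 3 * |(derivative w).eval ξ| + 8 * R ^ 3 * |w.eval ξ|) := by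
      rw [abs_mul, abs_of_pos hr0]
      exact mul_le_mul_of_nonneg_left hat hr0.le
    refine (aa h2 h4).trans ?_
    have h5 : r * (10 ^ 4 * R ^ 4 * T * e) = 10 ^ 4 * R ^ 4 * (r * (T * e)) := by ring
    have h6 : 10 ^ 4 * R ^ 4 * (r * (T * e)) ≤ 10 ^ 4 * R ^ 4 * (1 / 10 ^ 4) :=
      mul_le_mul_of_nonneg_left hrTe (by positivity)
    have h7 : r * (130 * R ^ 3 * |(derivative w).eval ξ| + 8 * R ^ 3 * |w.eval ξ|) =
        130 * R ^ 3 * (r * |(derivative w).eval ξ|) + 8 * R ^ 3 * (r * |w.eval ξ|) := by ring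
    have h8 : 130 * R ^ 3 * (r * |(derivative w).eval ξ|) ≤ 130 * R ^ 3 * (3 * i * W / 8) :=
      mul_le_mul_of_nonneg_left hrw' (by positivity)
    have h9 : 8 * R ^ 3 * (r * |w.eval ξ|) ≤ 8 * R ^ 3 * (1 / 8) :=
      mul_le_mul_of_nonneg_left hrw (by positivity)
    have hR3 : 0 < R ^ 3 := by positivity
    have h10 : 130 * R ^ 3 * (3 * i * W / 8) + 8 * R ^ 3 * (1 / 8) ≤ R ^ 4 := by
      have : R ^ 4 = R ^ 3 * (g * W) := by rw [← hR]; ring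
      rw [this]
      have h11 : 130 * R ^ 3 * (3 * i * W / 8) + 8 * R ^ 3 * (1 / 8) =
          R ^ 3 * (195 / 4 * i * W + 1) := by ring
      rw [h11]
      exact mul_le_mul_of_nonneg_left (aux1 g W i hg hW (by linarith)) hR3.le
    have h12 : R ^ 4 + R ^ 4 ≤ g * R ^ 4 := aux2 g (R ^ 4) hg1 (by positivity)
    rw [h5, h7]
    have h13 : (10 : ℝ) ^ 4 * R ^ 4 * (1 / 10 ^ 4) = R ^ 4 := by
      field_simp
    linarith

theorem hatU_eval (a b c m D : ℤ) (f : ℤ[X] × ℤ[X]) :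
    (hatU a b c m f).eval (D - m) = 3 * (a ^ 2 * D ^ 2 + (4 * b ^ 3 - 6 * a * b * c) * D +
      (4 * a * c ^ 3 - 3 * b ^ 2 * c ^ 2)) * (derivative f.1).eval (D - m) -
      (4 * a * c ^ 2 - 3 * b ^ 2 * c - a * b * D) * f.2.eval (D - m) := by
  simp only [hatU, delta, ps0, eval_sub, eval_mul, eval_add, eval_pow, eval_C, eval_X,
    eval_ofNat]
  ring

theorem hatV_eval (a b c m D : ℤ) (f : ℤ[X] × ℤ[X]) :
    (hatV a b c m f).eval (D - m) = 3 * (a ^ 2 * D ^ 2 + (4 * b ^ 3 - 6 * a * b * c) * D +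
      (4 * a * c ^ 3 - 3 * b ^ 2 * c ^ 2)) * (derivative f.2).eval (D - m) -
      (7 * a * b * c - 6 * b ^ 3 - a ^ 2 * D) * f.2.eval (D - m) +
      2 * a * (a * c - b ^ 2) * f.1.eval (D - m) := by
  simp only [hatV, delta, ps1, eval_sub, eval_mul, eval_add, eval_pow, eval_C, eval_X,
    eval_ofNat]
  ring

theorem cast_eval (q : ℤ[X]) (x : ℤ) :
    ((q.eval x : ℤ) : ℝ) = (q.map (Int.castRingHom ℝ)).eval (x : ℝ) := by
  rw [eval_intCast_map]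
  rfl

theorem num_hg (G ζ : ℕ) (hζ : 16500 ≤ ζ) (hG : ζ ^ 4 ≤ G) :
    49 * (((ζ / 30 : ℕ) : ℝ)) + 2 ≤ (G : ℝ) := by
  have h1 : 49 * (ζ / 30) + 2 ≤ G := by
    have h2 : ζ / 30 ≤ ζ := Nat.div_le_self _ _
    have h3 : ζ * 51 ≤ ζ * ζ := Nat.mul_le_mul_left ζ (by omega)
    have h4 : ζ * ζ ≤ ζ ^ 4 := by
      calc ζ * ζ = ζ ^ 2 := by ring
        _ ≤ ζ ^ 4 := Nat.pow_le_pow_right (by omega) (by norm_num)
    omega
  exact_mod_cast h1

theorem num_hT (G ζ i : ℕ) (hζ : 16500 ≤ ζ) (hG : ζ ^ 4 ≤ G) (hi : i ≤ ζ) (hi2 : 2 * i + 8 ≤ 2 * ζ)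
    (r : ℝ) (hr : (G : ℝ) ^ ζ ≤ r) :
    10 ^ 4 * ((G : ℝ) ^ (2 * ζ - 2 * i - 8) * (i : ℝ) ^ 3 * (21 * (G : ℝ)) ^ i) ≤ r ^ 2 := by
  have h1 : 10 ^ 4 * i ^ 3 ≤ G := by
    calc 10 ^ 4 * i ^ 3 ≤ ζ * ζ ^ 3 :=
          Nat.mul_le_mul (by omega) (Nat.pow_le_pow_left hi 3)
      _ = ζ ^ 4 := by ring
      _ ≤ G := hG
  have hG1 : 1 ≤ G := by
    have : 0 < ζ ^ 4 := Nat.pow_pos (by omega)
    omega
  have h2 : 10 ^ 4 * i ^ 3 ≤ G ^ 8 := h1.trans (Nat.le_self_pow (by norm_num) G)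
  have h21 : 21 ≤ G := by
    have h3 : ζ ≤ ζ ^ 4 := Nat.le_self_pow (by norm_num) ζ
    omega
  have h4 : (21 * G) ^ i ≤ G ^ (2 * i) := by
    rw [pow_mul]
    exact Nat.pow_le_pow_left (by nlinarith) i
  have h5 : 10 ^ 4 * (G ^ (2 * ζ - 2 * i - 8) * i ^ 3 * (21 * G) ^ i) ≤ G ^ (2 * ζ) := by
    calc 10 ^ 4 * (G ^ (2 * ζ - 2 * i - 8) * i ^ 3 * (21 * G) ^ i) =
        (10 ^ 4 * i ^ 3) * G ^ (2 * ζ - 2 * i - 8) * (21 * G) ^ i := by ring
      _ ≤ G ^ 8 * G ^ (2 * ζ - 2 * i - 8) * G ^ (2 * i) :=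
          Nat.mul_le_mul (Nat.mul_le_mul_right _ h2) h4
      _ = G ^ (2 * ζ) := by
          rw [← pow_add, ← pow_add]
          congr 1
          omega
  have h6 : (10 ^ 4 * ((G : ℝ) ^ (2 * ζ - 2 * i - 8) * (i : ℝ) ^ 3 * (21 * (G : ℝ)) ^ i)) ≤
      (G : ℝ) ^ (2 * ζ) := by exact_mod_cast h5
  refine h6.trans ?_
  rw [mul_comm, pow_mul]
  exact pow_le_pow_left₀ (by positivity) hr 2

end NHatAux

open NHatAux

/-- Module NHat. -/
theorem nhat (G ζ : ℕ) (hζ : 16500 ≤ ζ) (hG : ζ ^ 4 ≤ G) (a b c D m p r : ℤ) (X0 : ℝ)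
    (hX0 : |X0| ≤ 1) (ha : |(a : ℝ)| ≤ (G : ℝ) ^ 3000) (hb : |(b : ℝ)| ≤ (G : ℝ) ^ 3000)
    (hc : |(c : ℝ)| ≤ (G : ℝ) ^ 3000)
    (hm : |-((a : ℝ) * X0 ^ 3 + 3 * b * X0 ^ 2 + 3 * c * X0) - m| ≤ 1 / 2)
    (hF : |Fv a b c D p r| = 1) (hr1 : (G : ℤ) ^ ζ ≤ r) (hr2 : r ≤ (G : ℤ) ^ (ζ + 1))
    (hp : |(p : ℝ) / r - X0| ≤ 1 / (G : ℝ) ^ 2999)
    (f : ℤ[X] × ℤ[X]) (hdeg : f.1.natDegree < ζ / 30 ∧ f.2.natDegree < ζ / 30)
    (hM : ∀ j, |(f.1.coeff j : ℝ)| ≤ (G : ℝ) ^ (2 * ζ - 2 * (ζ / 30) - 8) ∧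
      |(f.2.coeff j : ℝ)| ≤ (G : ℝ) ^ (2 * ζ - 2 * (ζ / 30) - 8))
    (hw : nrm (wpol a b c m X0 f) (1 / (G : ℝ) ^ 2999) ≤ 1 / (8 * (G : ℝ) ^ (ζ + 1))) :
    r * f.1.eval (D - m) + p * f.2.eval (D - m) = 0 ∧
      |r * (hatU a b c m f).eval (D - m) + p * (hatV a b c m f).eval (D - m)| ≤
        ((G ^ 12001 : ℕ) : ℤ) := by
  have hG1n : 1 ≤ G := by
    have : 0 < ζ ^ 4 := Nat.pow_pos (by omega)
    omega
  have hG1 : (1 : ℝ) ≤ (G : ℝ) := by exact_mod_cast hG1n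
  have hr1' : (G : ℝ) ^ ζ ≤ (r : ℝ) := by exact_mod_cast hr1
  have hr2' : (r : ℝ) ≤ (G : ℝ) ^ (ζ + 1) := by exact_mod_cast hr2
  have hrr : (1 : ℝ) ≤ (r : ℝ) := (one_le_pow₀ hG1).trans hr1'
  have hF' : |(a : ℝ) * p ^ 3 + 3 * b * p ^ 2 * r + 3 * c * p * r ^ 2 + D * r ^ 3| = 1 := by
    have h1 : ((|Fv a b c D p r| : ℤ) : ℝ) = 1 := by rw [hF]; norm_num
    rw [Int.cast_abs, Fv] at h1
    push_cast at h1
    exact h1
  have hdU : (f.1.map (Int.castRingHom ℝ)).natDegree < ζ / 30 :=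
    lt_of_le_of_lt natDegree_map_le hdeg.1
  have hdV : (f.2.map (Int.castRingHom ℝ)).natDegree < ζ / 30 :=
    lt_of_le_of_lt natDegree_map_le hdeg.2
  have hMU : ∀ j, |(f.1.map (Int.castRingHom ℝ)).coeff j| ≤
      (G : ℝ) ^ (2 * ζ - 2 * (ζ / 30) - 8) := by
    intro j
    rw [coeff_map]
    exact (hM j).1
  have hMV : ∀ j, |(f.2.map (Int.castRingHom ℝ)).coeff j| ≤
      (G : ℝ) ^ (2 * ζ - 2 * (ζ / 30) - 8) := by
    intro j
    rw [coeff_map]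
    exact (hM j).2
  have hR : (G : ℝ) ^ 3000 = (G : ℝ) * (G : ℝ) ^ 2999 := pow_succ' _ _
  have main := nhat_real (G : ℝ) ((G : ℝ) ^ 2999) ((G : ℝ) ^ 3000)
    ((G : ℝ) ^ (2 * ζ - 2 * (ζ / 30) - 8)) _ r p a b c m D X0 ((G : ℝ) ^ (ζ + 1)) (ζ / 30)
    (f.1.map (Int.castRingHom ℝ)) (f.2.map (Int.castRingHom ℝ)) hR (num_hg G ζ hζ hG)
    (one_le_pow₀ hG1) ha hb hc hX0 hm hF' hrr hr2' hp hdU hdV hMU hMV rfl
    (num_hT G ζ (ζ / 30) hζ hG (Nat.div_le_self _ _) (by omega) r hr1') hw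
  obtain ⟨h1, h2⟩ := main
  constructor
  · have h3 : |((r * f.1.eval (D - m) + p * f.2.eval (D - m) : ℤ) : ℝ)| < 1 := by
      rw [Int.cast_add, Int.cast_mul, Int.cast_mul, cast_eval, cast_eval, Int.cast_sub]
      exact h1
    have h4 : |r * f.1.eval (D - m) + p * f.2.eval (D - m)| < 1 := by
      exact_mod_cast h3
    exact Int.abs_lt_one_iff.mp h4
  · have h3 : ((|r * (hatU a b c m f).eval (D - m) + p * (hatV a b c m f).eval (D - m)| : ℤ) : ℝ) ≤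
        (((G ^ 12001 : ℕ) : ℤ) : ℝ) := by
      rw [hatU_eval, hatV_eval, Int.cast_abs]
      have h5 : (((G ^ 12001 : ℕ) : ℤ) : ℝ) = (G : ℝ) * ((G : ℝ) ^ 3000) ^ 4 := by
        rw [← pow_mul, ← pow_succ']
        rw [Int.cast_natCast, Nat.cast_pow]
      rw [h5]
      refine le_trans (le_of_eq ?_) h2
      congr 1
      rw [derivative_map, derivative_map]
      have c1 := cast_eval (derivative f.1) (D - m)
      have c2 := cast_eval (derivative f.2) (D - m)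
      have c3 := cast_eval f.1 (D - m)
      have c4 := cast_eval f.2 (D - m)
      rw [Int.cast_sub] at c1 c2 c3 c4
      rw [← c1, ← c2, ← c3, ← c4]
      push_cast
      ring
    exact_mod_cast h3

end Pool.Agent.Work.MP_f2148a_nt.Exp
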