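import Pool.Agent.Work.MP_f2148a_nt.Exp.Defs

set_option autoImplicit false

namespace Pool.Agent.Work.MP_f2148a_nt.Exp

open Polynomial

/-- `W` majorises `w` coefficientwise -/
def Maj (w W : ℝ[X]) : Prop := ∀ k, |w.coeff k| ≤ W.coeff k

lemma Maj.add {w W v V : ℝ[X]} (h : Maj w W) (h' : Maj v V) : Maj (w + v) (W + V) := by
  intro k
  rw [coeff_add, coeff_add]
  exact (abs_add_le _ _).trans (add_le_add (h k) (h' k))

lemma Maj.neg {w W : ℝ[X]} (h : Maj w W) : Maj (-w) W := by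
  intro k
  rw [coeff_neg, abs_neg]
  exact h k

lemma Maj.mul {w W v V : ℝ[X]} (h : Maj w W) (h' : Maj v V) : Maj (w * v) (W * V) := by
  intro k
  rw [coeff_mul, coeff_mul]
  refine (Finset.abs_sum_le_sum_abs _ _).trans (Finset.sum_le_sum fun x _ => ?_)
  rw [abs_mul]
  exact mul_le_mul (h _) (h' _) (abs_nonneg _) ((abs_nonneg _).trans (h _))

lemma Maj.const {c C' : ℝ} (h : |c| ≤ C') : Maj (C c) (C C') := by
  intro k
  rw [coeff_C, coeff_C]
  split_ifs
  · exact h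
  · simp

lemma Maj.X : Maj (X : ℝ[X]) X := by
  intro k
  rw [coeff_X]
  split_ifs <;> simp

lemma Maj.pow {w W : ℝ[X]} (h : Maj w W) (n : ℕ) : Maj (w ^ n) (W ^ n) := by
  induction n with
  | zero =>
    rw [pow_zero, pow_zero]
    have := Maj.const (c := 1) (C' := 1) (by simp)
    simpa using this
  | succ n ih =>
    rw [pow_succ, pow_succ]
    exact ih.mul h

lemma Maj.sum {ι : Type} (s : Finset ι) {w W : ι → ℝ[X]} (h : ∀ i ∈ s, Maj (w i) (W i)) :
    Maj (∑ i ∈ s, w i) (∑ i ∈ s, W i) := by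
  intro k
  rw [finsetSum_coeff, finsetSum_coeff]
  exact (Finset.abs_sum_le_sum_abs _ _).trans (Finset.sum_le_sum fun i hi => h i hi k)

lemma nrm_le_eval {w W : ℝ[X]} (h : Maj w W) {ρ : ℝ} (hρ : 0 ≤ ρ) : nrm w ρ ≤ W.eval ρ := by
  have h1 : W.eval ρ = ∑ k ∈ Finset.range (max W.natDegree w.natDegree + 1), W.coeff k * ρ ^ k :=
    eval_eq_sum_range' (by omega) ρ
  rw [h1]
  unfold nrm
  have h2 : w.support ⊆ Finset.range (max W.natDegree w.natDegree + 1) := by
    intro k hk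
    have := le_natDegree_of_mem_supp k hk
    rw [Finset.mem_range]
    omega
  refine (Finset.sum_le_sum fun k _ => mul_le_mul_of_nonneg_right (h k) (by positivity)).trans ?_
  apply Finset.sum_le_sum_of_subset_of_nonneg h2
  intro k _ _
  exact mul_nonneg ((abs_nonneg _).trans (h k)) (by positivity)

/-- Module WBound: majorant norm of `w`, on the small disc and on the unit disc. -/
theorem nrm_wpol_le (a b c m : ℤ) (X0 : ℝ) (R ρ : ℝ) (hR : 1 ≤ R) (hX0 : |X0| ≤ 1)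
    (ha : |(a : ℝ)| ≤ R) (hb : |(b : ℝ)| ≤ R) (hc : |(c : ℝ)| ≤ R) (hρ0 : 0 ≤ ρ) (hρ1 : ρ ≤ 1)
    (hRρ : 1 ≤ R * ρ)
    (hm : |-((a : ℝ) * X0 ^ 3 + 3 * b * X0 ^ 2 + 3 * c * X0) - m| ≤ 1 / 2) (i : ℕ) (M : ℝ)
    (f : ℤ[X] × ℤ[X]) (hdeg : f.1.natDegree < i ∧ f.2.natDegree < i)
    (hM : ∀ j, |(f.1.coeff j : ℝ)| ≤ M ∧ |(f.2.coeff j : ℝ)| ≤ M) :
    nrm (wpol a b c m X0 f) ρ ≤ 3 * i * M * (20 * (R * ρ)) ^ i := by
  have hM0 : 0 ≤ M := (abs_nonneg _).trans (hM 0).1
  set D : ℝ[X] := C (1 / 2) + C (12 * R) * X + C (6 * R) * X ^ 2 + C R * X ^ 3 with hD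
  have hd : Maj (dpol a b c m X0) D := by
    have e : dpol a b c m X0 =
        C (-((a : ℝ) * X0 ^ 3 + 3 * b * X0 ^ 2 + 3 * c * X0) - m) +
        C (-(3 * (a : ℝ) * X0 ^ 2 + 6 * b * X0 + 3 * c)) * X +
        C (-(3 * (a : ℝ) * X0 + 3 * b)) * X ^ 2 + C (-(a : ℝ)) * X ^ 3 := by
      unfold dpol
      simp only [C_neg, C_add, C_sub, C_mul, C_pow]
      have h3 : (C (3 : ℝ) : ℝ[X]) = 3 := rfl
      have h6 : (C (6 : ℝ) : ℝ[X]) = 6 := rfl
      rw [h3, h6]
      ring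
    rw [e, hD]
    have hX2 : |X0 ^ 2| ≤ 1 := by
      rw [abs_pow]
      exact pow_le_one₀ (abs_nonneg _) hX0
    have b1 : |(a : ℝ) * X0 ^ 2| ≤ R := by
      rw [abs_mul]
      exact (mul_le_mul ha hX2 (abs_nonneg _) (by linarith)).trans (by linarith)
    have b2 : |(b : ℝ) * X0| ≤ R := by
      rw [abs_mul]
      exact (mul_le_mul hb hX0 (abs_nonneg _) (by linarith)).trans (by linarith)
    have b3 : |(a : ℝ) * X0| ≤ R := by
      rw [abs_mul]
      exact (mul_le_mul ha hX0 (abs_nonneg _) (by linarith)).trans (by linarith)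
    rw [abs_le] at b1 b2 b3 hb hc
    refine ((((Maj.const hm)).add ((Maj.const ?_).mul Maj.X)).add
      ((Maj.const ?_).mul (Maj.X.pow 2))).add ((Maj.const ?_).mul (Maj.X.pow 3))
    · rw [abs_le]
      constructor <;> nlinarith
    · rw [abs_le]
      constructor <;> nlinarith
    · rw [abs_neg]
      exact ha
  set Y : ℝ := 20 * (R * ρ) with hY
  have hY1 : 1 ≤ Y := by linarith
  have hDe : D.eval ρ ≤ Y := by
    rw [hD]
    simp only [eval_add, eval_mul, eval_C, eval_X, eval_pow]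
    have h1 : R * ρ ^ 2 ≤ R * ρ := by
      apply mul_le_mul_of_nonneg_left _ (by linarith)
      nlinarith
    have h2 : R * ρ ^ 3 ≤ R * ρ := by
      apply mul_le_mul_of_nonneg_left _ (by linarith)
      nlinarith [mul_nonneg hρ0 hρ0]
    linarith
  have hDe0 : 0 ≤ D.eval ρ := by
    rw [hD]
    simp only [eval_add, eval_mul, eval_C, eval_X, eval_pow]
    positivity
  have hcomp : ∀ g : ℤ[X], g.natDegree < i → (∀ j, |(g.coeff j : ℝ)| ≤ M) →
      Maj ((g.map (Int.castRingHom ℝ)).comp (dpol a b c m X0))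
        (∑ j ∈ Finset.range i, C M * D ^ j) := by
    intro g hg hgM
    have e : (g.map (Int.castRingHom ℝ)).comp (dpol a b c m X0) =
        ∑ j ∈ Finset.range i, C ((g.coeff j : ℝ)) * (dpol a b c m X0) ^ j := by
      unfold Polynomial.comp
      rw [eval₂_eq_sum_range' C (lt_of_le_of_lt (natDegree_map_le) hg)]
      apply Finset.sum_congr rfl
      intro j _
      rw [coeff_map]
      rfl
    rw [e]
    exact Maj.sum _ fun j _ => (Maj.const (hgM j)).mul (hd.pow j)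
  have hev : (∑ j ∈ Finset.range i, C M * D ^ j).eval ρ ≤ i * M * Y ^ i := by
    rw [eval_finsetSum]
    have h1 : ∀ j ∈ Finset.range i, (C M * D ^ j).eval ρ ≤ M * Y ^ i := by
      intro j hj
      rw [eval_mul, eval_C, eval_pow]
      apply mul_le_mul_of_nonneg_left _ hM0
      exact (pow_le_pow_left₀ hDe0 hDe j).trans
        (pow_le_pow_right₀ hY1 (Finset.mem_range.1 hj).le)
    refine (Finset.sum_le_sum h1).trans (le_of_eq ?_)
    rw [Finset.sum_const, Finset.card_range, nsmul_eq_mul, mul_assoc]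
  have hev0 : 0 ≤ i * M * Y ^ i := by positivity
  have hw : Maj (wpol a b c m X0 f) ((∑ j ∈ Finset.range i, C M * D ^ j) +
      (C 1 + X) * (∑ j ∈ Finset.range i, C M * D ^ j)) := by
    unfold wpol
    exact (hcomp f.1 hdeg.1 fun j => (hM j).1).add
      (((Maj.const hX0).add Maj.X).mul (hcomp f.2 hdeg.2 fun j => (hM j).2))
  refine (nrm_le_eval hw hρ0).trans ?_
  rw [eval_add, eval_mul, eval_add, eval_C, eval_X]
  have h2 : (1 + ρ) * (∑ j ∈ Finset.range i, C M * D ^ j).eval ρ ≤ 2 * (i * M * Y ^ i) :=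
    (mul_le_mul_of_nonneg_left hev (by linarith)).trans
      (mul_le_mul_of_nonneg_right (by linarith) hev0)
  linarith

end Pool.Agent.Work.MP_f2148a_nt.Exp
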