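import Mathlib
import Pool.Agent.Work.MP_f2148a_nt.Exp.Defs2
import Pool.Agent.Work.MP_f2148a_nt.Exp.WBound
import Pool.Agent.Work.MP_f2148a_nt.Exp.NHat

set_option autoImplicit false

namespace Pool.Agent.Work.MP_f2148a_nt.Exp

open Polynomial NHatAux

/-- the majorant of `dpol` -/
private noncomputable def DD (R : ℝ) : ℝ[X] :=
  C (1 / 2) + C (12 * R) * X + C (6 * R) * X ^ 2 + C R * X ^ 3

private theorem maj_dpol (a b c m : ℤ) (X0 R : ℝ) (hX0 : |X0| ≤ 1) (hR : 1 ≤ R)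
    (ha : |(a : ℝ)| ≤ R) (hb : |(b : ℝ)| ≤ R) (hc : |(c : ℝ)| ≤ R)
    (hm : |-((a : ℝ) * X0 ^ 3 + 3 * b * X0 ^ 2 + 3 * c * X0) - m| ≤ 1 / 2) :
    Maj (dpol a b c m X0) (DD R) := by
  have e : dpol a b c m X0 =
      C (-((a : ℝ) * X0 ^ 3 + 3 * b * X0 ^ 2 + 3 * c * X0) - m) +
      C (-(3 * (a : ℝ) * X0 ^ 2 + 6 * b * X0 + 3 * c)) * X +
      C (-(3 * (a : ℝ) * X0 + 3 * b)) * X ^ 2 + C (-(a : ℝ)) * X ^ 3 := by
    unfold dpol
    simp only [C_neg, C_add, C_sub, C_mul, C_pow]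
    have h3 : (C (3 : ℝ) : ℝ[X]) = 3 := rfl
    have h6 : (C (6 : ℝ) : ℝ[X]) = 6 := rfl
    rw [h3, h6]
    ring
  rw [e, DD]
  have hX2 : |X0 ^ 2| ≤ 1 := by
    rw [abs_pow]
    exact pow_le_one₀ (abs_nonneg _) hX0
  have b1 : |(a : ℝ) * X0 ^ 2| ≤ R := by
    rw [abs_mul]
    exact (mul_le_mul ha hX2 (abs_nonneg _) (by linarith)).trans (by linarith)
  have b2 : |(b : ℝ) * X0| ≤ R := by
    rw [abs_mul]
    exact (mul_le_mul hb hX0 (abs_nonneg _) (by linarith)).trans (by linarith)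
  have b3 : |(a : ℝ) * X0| ≤ R := by
    rw [abs_mul]
    exact (mul_le_mul ha hX0 (abs_nonneg _) (by linarith)).trans (by linarith)
  rw [abs_le] at b1 b2 b3 hb hc
  refine ((((Maj.const hm)).add ((Maj.const ?_).mul Maj.X)).add
    ((Maj.const ?_).mul (Maj.X.pow 2))).add ((Maj.const ?_).mul (Maj.X.pow 3))
  · rw [abs_le]
    constructor <;> nlinarith
  · rw [abs_le]
    constructor <;> nlinarith
  · rw [abs_neg]
    exact ha

private theorem DD_eval_nonneg (R ρ : ℝ) (hR : 1 ≤ R) (hρ : 0 ≤ ρ) : 0 ≤ (DD R).eval ρ := by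
  rw [DD]
  simp only [eval_add, eval_mul, eval_C, eval_X, eval_pow]
  positivity

private theorem DD_eval_le (R ρ : ℝ) (hR : 1 ≤ R) (hρ : 0 ≤ ρ) (hρ1 : ρ ≤ 1)
    (h : 1 ≤ R * ρ) : (DD R).eval ρ ≤ 20 * (R * ρ) := by
  rw [DD]
  simp only [eval_add, eval_mul, eval_C, eval_X, eval_pow]
  have h1 : R * ρ ^ 2 ≤ R * ρ := by
    apply mul_le_mul_of_nonneg_left _ (by linarith)
    nlinarith
  have h2 : R * ρ ^ 3 ≤ R * ρ := by
    apply mul_le_mul_of_nonneg_left _ (by linarith)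
    nlinarith [mul_nonneg hρ hρ]
  linarith

private theorem map_ff (n : ℕ) : (ff n).map (Int.castRingHom ℝ) =
    ∏ l ∈ Finset.range n, (X - C (l : ℝ)) := by
  unfold ff
  rw [Polynomial.map_prod]
  apply Finset.prod_congr rfl
  intro l _
  simp

private theorem comp_ff (n : ℕ) (q : ℝ[X]) : ((ff n).map (Int.castRingHom ℝ)).comp q =
    ∏ l ∈ Finset.range n, (q - C (l : ℝ)) := by
  rw [map_ff, Polynomial.prod_comp]
  apply Finset.prod_congr rfl
  intro l _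
  simp

private theorem maj_prod {w W : ℝ[X]} (h : Maj w W) (n : ℕ) :
    Maj (∏ l ∈ Finset.range n, (w - C (l : ℝ))) (∏ l ∈ Finset.range n, (W + C (l : ℝ))) := by
  induction n with
  | zero =>
    rw [Finset.prod_range_zero, Finset.prod_range_zero]
    have := Maj.const (c := 1) (C' := 1) (by simp)
    simpa using this
  | succ n ih =>
    rw [Finset.prod_range_succ, Finset.prod_range_succ]
    refine ih.mul ?_
    rw [sub_eq_add_neg]
    exact h.add ((Maj.const (by simp)).neg)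

private theorem eval_prod_le (W : ℝ[X]) (ρ Z : ℝ) (i n : ℕ) (h0 : 0 ≤ W.eval ρ)
    (hZ : W.eval ρ + i ≤ Z) (hn : n ≤ i) :
    (∏ l ∈ Finset.range n, (W + C (l : ℝ))).eval ρ ≤ Z ^ n := by
  rw [eval_prod]
  calc ∏ l ∈ Finset.range n, (W + C (l : ℝ)).eval ρ ≤ ∏ l ∈ Finset.range n, Z := by
        apply Finset.prod_le_prod
        · intro l _
          rw [eval_add, eval_C]
          positivity
        · intro l hl
          rw [eval_add, eval_C]
          have h1 : (l : ℝ) ≤ i := by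
            exact_mod_cast ((Finset.mem_range.1 hl).le.trans hn)
          linarith
    _ = Z ^ n := by rw [Finset.prod_const, Finset.card_range]

private theorem coeff_le_eval {w W : ℝ[X]} (h : Maj w W) {ρ : ℝ} (hρ : 0 ≤ ρ) (k : ℕ) :
    |w.coeff k| * ρ ^ k ≤ W.eval ρ := by
  refine le_trans ?_ (nrm_le_eval h hρ)
  unfold nrm
  by_cases hk : k ∈ w.support
  · exact Finset.single_le_sum (f := fun k => |w.coeff k| * ρ ^ k)
      (fun j _ => mul_nonneg (abs_nonneg _) (pow_nonneg hρ _)) hk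
  · rw [notMem_support_iff.1 hk, abs_zero, zero_mul]
    exact Finset.sum_nonneg fun j _ => mul_nonneg (abs_nonneg _) (pow_nonneg hρ _)

private theorem wpol_coeff (a b c m : ℤ) (X0 R ρ : ℝ) (hX0 : |X0| ≤ 1) (hR : 1 ≤ R)
    (ha : |(a : ℝ)| ≤ R) (hb : |(b : ℝ)| ≤ R) (hc : |(c : ℝ)| ≤ R) (hρ0 : 0 < ρ) (hρ1 : ρ ≤ 1)
    (hm : |-((a : ℝ) * X0 ^ 3 + 3 * b * X0 ^ 2 + 3 * c * X0) - m| ≤ 1 / 2)
    (i : ℕ) (hi1 : 1 ≤ i) (hi : (i : ℝ) ≤ R * ρ) (n : ℕ) (hn : n < i) (σ : Bool) (k : ℕ) :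
    |(wpol a b c m X0 (bp (n, σ))).coeff k| * ρ ^ k ≤ 2 * (21 * (R * ρ)) ^ n := by
  have hd := maj_dpol a b c m X0 R hX0 hR ha hb hc hm
  have hi1' : (1 : ℝ) ≤ i := by exact_mod_cast hi1
  have hG : 1 ≤ R * ρ := hi1'.trans hi
  have hev := eval_prod_le (DD R) ρ (21 * (R * ρ)) i n (DD_eval_nonneg R ρ hR hρ0.le)
    (by have := DD_eval_le R ρ hR hρ0.le hρ1 hG; linarith) hn.le
  have hY : 0 ≤ (21 * (R * ρ)) ^ n := by positivity
  cases σ
  · have e : wpol a b c m X0 (bp (n, false)) =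
        ∏ l ∈ Finset.range n, (dpol a b c m X0 - C (l : ℝ)) := by
      unfold wpol bp
      simp only [Bool.false_eq_true, if_false, Polynomial.map_zero, zero_comp, mul_zero, add_zero]
      exact comp_ff n _
    rw [e]
    refine (coeff_le_eval (maj_prod hd n) hρ0.le k).trans (hev.trans ?_)
    linarith
  · have e : wpol a b c m X0 (bp (n, true)) =
        (C X0 + X) * ∏ l ∈ Finset.range n, (dpol a b c m X0 - C (l : ℝ)) := by
      unfold wpol bp
      simp only [if_true, Polynomial.map_zero, zero_comp, zero_add]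
      rw [comp_ff]
    rw [e]
    refine (coeff_le_eval (((Maj.const hX0).add Maj.X).mul (maj_prod hd n)) hρ0.le k).trans ?_
    rw [eval_mul, eval_add, eval_C, eval_X]
    calc (1 + ρ) * eval ρ (∏ l ∈ Finset.range n, (DD R + C (l : ℝ)))
        ≤ (1 + ρ) * (21 * (R * ρ)) ^ n := mul_le_mul_of_nonneg_left hev (by linarith)
      _ ≤ 2 * (21 * (R * ρ)) ^ n := mul_le_mul_of_nonneg_right (by linarith) hY

/-- combined coefficient bound -/
private theorem wpol_coeff' (a b c m : ℤ) (X0 R w : ℝ) (hX0 : |X0| ≤ 1) (hR : 1 ≤ R)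
    (ha : |(a : ℝ)| ≤ R) (hb : |(b : ℝ)| ≤ R) (hc : |(c : ℝ)| ≤ R) (hw0 : 0 < w) (hw1 : w ≤ 1)
    (hm : |-((a : ℝ) * X0 ^ 3 + 3 * b * X0 ^ 2 + 3 * c * X0) - m| ≤ 1 / 2)
    (i : ℕ) (hi1 : 1 ≤ i) (hi : (i : ℝ) ≤ R * w) (n : ℕ) (hn : n < i) (σ : Bool) (k : ℕ) :
    |(wpol a b c m X0 (bp (n, σ))).coeff k| * w ^ k ≤
      2 * (21 * (R * w)) ^ n * w ^ (k - n) := by
  rcases le_or_gt k n with hkn | hkn
  · rw [Nat.sub_eq_zero_of_le hkn, pow_zero, mul_one]
    exact wpol_coeff a b c m X0 R w hX0 hR ha hb hc hw0 hw1 hm i hi1 hi n hn σ k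
  · have h1 := wpol_coeff a b c m X0 R 1 hX0 hR ha hb hc one_pos le_rfl hm i hi1
      (by rw [mul_one]; exact hi.trans (mul_le_of_le_one_right (by linarith) hw1)) n hn σ k
    rw [one_pow, mul_one, mul_one] at h1
    have h2 : w ^ k = w ^ n * w ^ (k - n) := by
      rw [← pow_add]
      congr 1
      omega
    calc |(wpol a b c m X0 (bp (n, σ))).coeff k| * w ^ k
        ≤ 2 * (21 * R) ^ n * w ^ k := mul_le_mul_of_nonneg_right h1 (by positivity)
      _ = 2 * (21 * (R * w)) ^ n * w ^ (k - n) := by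
        rw [h2, ← mul_assoc (21 : ℝ), mul_pow (21 * R) w]
        ring

private theorem rho_le (X0 ρ w : ℝ) (hX0 : |X0| ≤ 1) (hw1 : w ≤ 1) (hp : |ρ - X0| ≤ w) :
    |ρ| ≤ 2 := by
  rw [abs_le] at *
  constructor <;> linarith [hX0.1, hX0.2, hp.1, hp.2]

private theorem s_bound (a b c ρ R : ℝ) (hR : 0 ≤ R) (ha : |a| ≤ R) (hb : |b| ≤ R) (hc : |c| ≤ R)
    (hρ : |ρ| ≤ 2) :
    |(a * ρ ^ 2 + 2 * b * ρ + c) * ((a * ρ + b) ^ 2 + 4 * (a * c - b ^ 2))| ≤ 153 * R ^ 3 ∧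
    |2 * a * (a * c - b ^ 2) * ρ| ≤ 8 * R ^ 3 := by
  have hρ2 : |ρ ^ 2| ≤ 2 ^ 2 := by rw [abs_pow]; exact pow_le_pow_left₀ (abs_nonneg _) hρ 2
  have hb2 : |b ^ 2| ≤ R ^ 2 := by rw [abs_pow]; exact pow_le_pow_left₀ (abs_nonneg _) hb 2
  have h2 : |(2 : ℝ)| ≤ 2 := by norm_num
  have h4 : |(4 : ℝ)| ≤ 4 := by norm_num
  constructor
  · have h5 : |a * ρ ^ 2 + 2 * b * ρ + c| ≤ R * 2 ^ 2 + 2 * R * 2 + R :=
      aa (aa (am ha hρ2) (am (am h2 hb) hρ)) hc
    have h6 : |(a * ρ + b) ^ 2| ≤ (R * 2 + R) ^ 2 := by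
      rw [abs_pow]
      exact pow_le_pow_left₀ (abs_nonneg _) (aa (am ha hρ) hb) 2
    have h7 : |(a * ρ + b) ^ 2 + 4 * (a * c - b ^ 2)| ≤ (R * 2 + R) ^ 2 + 4 * (R * R + R ^ 2) :=
      aa h6 (am h4 (as (am ha hc) hb2))
    refine (am h5 h7).trans (le_of_eq ?_)
    ring
  · refine (am (am (am h2 ha) (as (am ha hc) hb2)) hρ).trans (le_of_eq ?_)
    ring

/-- Module Entry, size of the terms. -/
theorem entry_term (a b c m p r : ℤ) (X0 R w Q2 : ℝ) (hX0 : |X0| ≤ 1) (hR : 1 ≤ R)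
    (ha : |(a : ℝ)| ≤ R) (hb : |(b : ℝ)| ≤ R) (hc : |(c : ℝ)| ≤ R) (hw0 : 0 < w) (hw1 : w ≤ 1)
    (hm : |-((a : ℝ) * X0 ^ 3 + 3 * b * X0 ^ 2 + 3 * c * X0) - m| ≤ 1 / 2)
    (i : ℕ) (hi : (i : ℝ) ≤ R * w) (hr0 : 1 ≤ (r : ℝ)) (hr2 : (r : ℝ) ≤ Q2)
    (hp : |(p : ℝ) / r - X0| ≤ w) (β : Bool) (n : ℕ) (hn : n < i) (σ : Bool) (k : ℕ)
    (hk : k < 3 * i + 1) :
    |(wpol a b c m X0 (bp (n, σ))).coeff k * yv a b c p r X0 β k| ≤
      (10000 * Q2 * R ^ 4 * (3 * i + 1) ^ 2 / w) * (22 * (R * w)) ^ n * w ^ (k - n) := by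
  have hi1 : 1 ≤ i := by omega
  have hi1' : (1 : ℝ) ≤ i := by exact_mod_cast hi1
  have hG : 1 ≤ R * w := hi1'.trans hi
  have hco := wpol_coeff' a b c m X0 R w hX0 hR ha hb hc hw0 hw1 hm i hi1 hi n hn σ k
  set ρ : ℝ := (p : ℝ) / r with hρdef
  set ξ : ℝ := ρ - X0 with hξdef
  have hρ : |ρ| ≤ 2 := rho_le X0 ρ w hX0 hw1 hp
  obtain ⟨hs1, hs2⟩ := s_bound a b c ρ R (by linarith) ha hb hc hρ
  have hQ2 : 1 ≤ Q2 := hr0.trans hr2
  have hk' : (k : ℝ) ≤ 3 * i := by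
    have : k ≤ 3 * i := by omega
    exact_mod_cast this
  have hR3 : 1 ≤ R ^ 3 := one_le_pow₀ hR
  have hξk : |ξ ^ k| ≤ w ^ k := by
    rw [abs_pow]
    exact pow_le_pow_left₀ (abs_nonneg _) hp k
  have hwk : 0 < w ^ k := by positivity
  have hdiv : w ^ k ≤ w ^ k / w := by
    rw [le_div_iff₀ hw0]
    exact mul_le_of_le_one_right hwk.le hw1
  have hξk1 : |(k : ℝ) * ξ ^ (k - 1)| ≤ k * (w ^ k / w) := by
    rcases Nat.eq_zero_or_pos k with h0 | h0
    · rw [h0]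
      simp
    · rw [abs_mul, Nat.abs_cast, abs_pow]
      apply mul_le_mul_of_nonneg_left _ (Nat.cast_nonneg _)
      have h1 : w ^ k / w = w ^ (k - 1) := by
        rw [div_eq_iff hw0.ne', ← pow_succ]
        congr 1
        omega
      rw [h1]
      exact pow_le_pow_left₀ (abs_nonneg _) hp _
  have hyv : |yv a b c p r X0 β k| ≤ Q2 * (R ^ 3 * (153 * (3 * i + 1)) * (w ^ k / w)) := by
    unfold yv
    rw [abs_mul]
    have hr0' : |(r : ℝ)| ≤ Q2 := by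
      rw [abs_of_nonneg (by linarith)]
      exact hr2
    refine mul_le_mul hr0' ?_ (abs_nonneg _) (by linarith)
    have hpos : 0 ≤ w ^ k / w := by positivity
    cases β
    · simp only [Bool.false_eq_true, if_false]
      calc |((p : ℝ) / r - X0) ^ k| ≤ w ^ k := hξk
        _ ≤ w ^ k / w := hdiv
        _ ≤ R ^ 3 * (153 * (3 * i + 1)) * (w ^ k / w) := by
          apply le_mul_of_one_le_left hpos
          nlinarith
    · simp only [if_true]
      have h1 : |-((a * ρ ^ 2 + 2 * b * ρ + c) * ((a * ρ + b) ^ 2 + 4 * ((a : ℝ) * c - b ^ 2))) *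
          (k * ξ ^ (k - 1)) + 2 * a * ((a : ℝ) * c - b ^ 2) * ρ * ξ ^ k| ≤
          (153 * R ^ 3) * (k * (w ^ k / w)) + (8 * R ^ 3) * w ^ k := by
        refine aa (am ?_ hξk1) (am hs2 hξk)
        rw [abs_neg]
        exact hs1
      refine h1.trans ?_
      have h2 : (8 * R ^ 3) * w ^ k ≤ (8 * R ^ 3) * (w ^ k / w) :=
        mul_le_mul_of_nonneg_left hdiv (by positivity)
      have h3 : (153 * R ^ 3) * (k * (w ^ k / w)) ≤ (153 * R ^ 3) * ((3 * i) * (w ^ k / w)) := by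
        apply mul_le_mul_of_nonneg_left _ (by positivity)
        exact mul_le_mul_of_nonneg_right hk' hpos
      have h4 : 0 ≤ R ^ 3 * (w ^ k / w) := by positivity
      nlinarith
  rw [abs_mul]
  have hc0 := abs_nonneg ((wpol a b c m X0 (bp (n, σ))).coeff k)
  have hpow : (21 * (R * w)) ^ n ≤ (22 * (R * w)) ^ n := by gcongr; norm_num
  calc |(wpol a b c m X0 (bp (n, σ))).coeff k| * |yv a b c p r X0 β k|
      ≤ |(wpol a b c m X0 (bp (n, σ))).coeff k| *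
          (Q2 * (R ^ 3 * (153 * (3 * i + 1)) * (w ^ k / w))) := mul_le_mul_of_nonneg_left hyv hc0
    _ = (|(wpol a b c m X0 (bp (n, σ))).coeff k| * w ^ k) *
          (Q2 * R ^ 3 * (153 * (3 * i + 1)) / w) := by ring
    _ ≤ (2 * (21 * (R * w)) ^ n * w ^ (k - n)) * (Q2 * R ^ 3 * (153 * (3 * i + 1)) / w) :=
        mul_le_mul_of_nonneg_right hco (by positivity)
    _ ≤ (2 * (22 * (R * w)) ^ n * w ^ (k - n)) * (Q2 * R ^ 3 * (153 * (3 * i + 1)) / w) := by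
        gcongr
    _ = (306 * (Q2 * R ^ 3 * (3 * i + 1)) / w) * (22 * (R * w)) ^ n * w ^ (k - n) := by ring
    _ ≤ (10000 * Q2 * R ^ 4 * (3 * i + 1) ^ 2 / w) * (22 * (R * w)) ^ n * w ^ (k - n) := by
        have h5 : 306 * (Q2 * R ^ 3 * (3 * i + 1)) ≤ 10000 * Q2 * R ^ 4 * (3 * i + 1) ^ 2 := by
          have h6 : 0 ≤ Q2 * R ^ 3 * (3 * (i : ℝ) + 1) := by positivity
          have h7 : 306 ≤ 10000 * (R * (3 * (i : ℝ) + 1)) := by nlinarith
          calc 306 * (Q2 * R ^ 3 * (3 * i + 1))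
              ≤ (10000 * (R * (3 * (i : ℝ) + 1))) * (Q2 * R ^ 3 * (3 * i + 1)) :=
                mul_le_mul_of_nonneg_right h7 h6
            _ = 10000 * Q2 * R ^ 4 * (3 * i + 1) ^ 2 := by ring
        gcongr

/-- bounds for the falling factorial and its derivative -/
private theorem qf_bounds (i : ℕ) (A Y : ℝ) (hY1 : 1 ≤ Y) (hAY : A + i ≤ Y) (n : ℕ)
    (hn : n ≤ i) (x y : ℝ) (hx : |x| ≤ A) (hy : |y| ≤ A) :
    (|(∏ l ∈ Finset.range n, (X - C (l : ℝ))).eval x| ≤ Y ^ n ∧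
    |(∏ l ∈ Finset.range n, (X - C (l : ℝ))).eval y| ≤ Y ^ n) ∧
    (|(derivative (∏ l ∈ Finset.range n, (X - C (l : ℝ)))).eval x| ≤ n * Y ^ n ∧
    |(derivative (∏ l ∈ Finset.range n, (X - C (l : ℝ)))).eval y| ≤ n * Y ^ n) ∧
    |(∏ l ∈ Finset.range n, (X - C (l : ℝ))).eval x -
      (∏ l ∈ Finset.range n, (X - C (l : ℝ))).eval y| ≤ n * Y ^ n * |x - y| ∧
    |(derivative (∏ l ∈ Finset.range n, (X - C (l : ℝ)))).eval x -
      (derivative (∏ l ∈ Finset.range n, (X - C (l : ℝ)))).eval y| ≤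
      (n : ℝ) ^ 2 * Y ^ n * |x - y| := by
  induction n with
  | zero => simp
  | succ n ih =>
    obtain ⟨⟨h1, h1'⟩, ⟨h2, h2'⟩, h3, h4⟩ := ih (by omega)
    rw [Finset.prod_range_succ]
    set q : ℝ[X] := ∏ l ∈ Finset.range n, (X - C (l : ℝ)) with hq
    have hn' : (n : ℝ) ≤ i := by exact_mod_cast (by omega : n ≤ i)
    have hxn : |x - n| ≤ Y := by
      rw [abs_le] at hx ⊢
      have : (0 : ℝ) ≤ n := Nat.cast_nonneg _
      constructor <;> linarith
    have hyn : |y - n| ≤ Y := by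
      rw [abs_le] at hy ⊢
      have : (0 : ℝ) ≤ n := Nat.cast_nonneg _
      constructor <;> linarith
    have hYn : 0 ≤ Y ^ n := by positivity
    have hYY : Y ^ n ≤ Y ^ (n + 1) := pow_le_pow_right₀ hY1 (by omega)
    have hn0 : (0 : ℝ) ≤ n := Nat.cast_nonneg _
    have hxy := abs_nonneg (x - y)
    have ed : derivative (q * (X - C (n : ℝ))) = derivative q * (X - C (n : ℝ)) + q := by
      rw [derivative_mul, derivative_sub, derivative_X, derivative_C, sub_zero, mul_one]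
    refine ⟨⟨?_, ?_⟩, ⟨?_, ?_⟩, ?_, ?_⟩
    · rw [eval_mul, eval_sub, eval_X, eval_C, pow_succ]
      exact am h1 hxn
    · rw [eval_mul, eval_sub, eval_X, eval_C, pow_succ]
      exact am h1' hyn
    · rw [ed, eval_add, eval_mul, eval_sub, eval_X, eval_C]
      refine (aa (am h2 hxn) h1).trans ?_
      push_cast
      rw [pow_succ] at hYY ⊢
      nlinarith
    · rw [ed, eval_add, eval_mul, eval_sub, eval_X, eval_C]
      refine (aa (am h2' hyn) h1').trans ?_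
      push_cast
      rw [pow_succ] at hYY ⊢
      nlinarith
    · have e1 : eval x (q * (X - C (n : ℝ))) - eval y (q * (X - C (n : ℝ))) =
          (eval x q - eval y q) * (x - n) + eval y q * (x - y) := by
        simp only [eval_mul, eval_sub, eval_X, eval_C]
        ring
      rw [e1]
      refine (aa (am h3 hxn) (am h1' (le_refl |x - y|))).trans ?_
      push_cast
      have e2 : (n : ℝ) * Y ^ n * |x - y| * Y + Y ^ n * |x - y| =
          (n * Y ^ (n + 1) + Y ^ n) * |x - y| := by ring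
      rw [e2]
      apply mul_le_mul_of_nonneg_right _ hxy
      linarith
    · rw [ed]
      have e1 : eval x (derivative q * (X - C (n : ℝ)) + q) -
          eval y (derivative q * (X - C (n : ℝ)) + q) =
          (eval x (derivative q) - eval y (derivative q)) * (x - n) +
          eval y (derivative q) * (x - y) + (eval x q - eval y q) := by
        simp only [eval_add, eval_mul, eval_sub, eval_X, eval_C]
        ring
      rw [e1]
      refine (aa (aa (am h4 hxn) (am h2' (le_refl |x - y|))) h3).trans ?_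
      push_cast
      have e2 : (n : ℝ) ^ 2 * Y ^ n * |x - y| * Y + n * Y ^ n * |x - y| + n * Y ^ n * |x - y| =
          ((n : ℝ) ^ 2 * Y ^ (n + 1) + 2 * n * Y ^ n) * |x - y| := by ring
      rw [e2]
      apply mul_le_mul_of_nonneg_right _ hxy
      have h5 : 2 * (n : ℝ) * Y ^ n ≤ 2 * n * Y ^ (n + 1) :=
        mul_le_mul_of_nonneg_left hYY (by positivity)
      have h6 : 0 ≤ Y ^ (n + 1) := by positivity
      nlinarith

private theorem cast_eval' (q : ℤ[X]) (D m : ℤ) :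
    ((q.eval (D - m) : ℤ) : ℝ) = (q.map (Int.castRingHom ℝ)).eval ((D : ℝ) - m) := by
  rw [cast_eval]
  push_cast
  rfl

private theorem row_false_cast (a b c D m p r : ℤ) (f : ℤ[X] × ℤ[X]) :
    ((row a b c m p r (D - m) false f : ℤ) : ℝ) =
      r * (f.1.map (Int.castRingHom ℝ)).eval ((D : ℝ) - m) +
      p * (f.2.map (Int.castRingHom ℝ)).eval ((D : ℝ) - m) := by
  unfold row
  simp only [Bool.false_eq_true, if_false]
  push_cast
  rw [cast_eval', cast_eval']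

private theorem row_true_cast (a b c D m p r : ℤ) (f : ℤ[X] × ℤ[X]) :
    ((row a b c m p r (D - m) true f : ℤ) : ℝ) =
      r * (3 * ((a : ℝ) ^ 2 * D ^ 2 + (4 * b ^ 3 - 6 * a * b * c) * D +
        (4 * a * c ^ 3 - 3 * b ^ 2 * c ^ 2)) *
          (derivative (f.1.map (Int.castRingHom ℝ))).eval ((D : ℝ) - m) -
        (4 * a * c ^ 2 - 3 * b ^ 2 * c - a * b * D) *
          (f.2.map (Int.castRingHom ℝ)).eval ((D : ℝ) - m)) +
      p * (3 * ((a : ℝ) ^ 2 * D ^ 2 + (4 * b ^ 3 - 6 * a * b * c) * D +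
        (4 * a * c ^ 3 - 3 * b ^ 2 * c ^ 2)) *
          (derivative (f.2.map (Int.castRingHom ℝ))).eval ((D : ℝ) - m) -
        (7 * a * b * c - 6 * b ^ 3 - a ^ 2 * D) *
          (f.2.map (Int.castRingHom ℝ)).eval ((D : ℝ) - m) +
        2 * a * (a * c - b ^ 2) * (f.1.map (Int.castRingHom ℝ)).eval ((D : ℝ) - m)) := by
  unfold row
  simp only [if_true]
  rw [hatU_eval, hatV_eval]
  push_cast
  rw [cast_eval', cast_eval', cast_eval', cast_eval', derivative_map, derivative_map]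

private theorem dpol_eval (a b c m : ℤ) (X0 ρ : ℝ) :
    (dpol a b c m X0).eval (ρ - X0) = -(a * ρ ^ 3 + 3 * b * ρ ^ 2 + 3 * c * ρ) - m := by
  unfold dpol
  simp only [eval_sub, eval_neg, eval_add, eval_mul, eval_pow, eval_C, eval_X, eval_ofNat]
  ring

private theorem dpol_deriv_eval (a b c m : ℤ) (X0 ρ : ℝ) :
    (derivative (dpol a b c m X0)).eval (ρ - X0) = -3 * (a * ρ ^ 2 + 2 * b * ρ + c) := by
  unfold dpol
  simp only [derivative_sub, derivative_neg, derivative_add, derivative_mul, derivative_pow,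
    derivative_C, derivative_X, derivative_ofNat, eval_sub, eval_neg, eval_add, eval_mul,
    eval_pow, eval_C, eval_X, eval_ofNat, eval_zero, eval_one]
  push_cast
  ring

private theorem wpol_eval (a b c m : ℤ) (X0 ρ : ℝ) (f : ℤ[X] × ℤ[X]) :
    (wpol a b c m X0 f).eval (ρ - X0) =
      (f.1.map (Int.castRingHom ℝ)).eval
        (-(a * ρ ^ 3 + 3 * b * ρ ^ 2 + 3 * c * ρ) - m) +
      ρ * (f.2.map (Int.castRingHom ℝ)).eval
        (-(a * ρ ^ 3 + 3 * b * ρ ^ 2 + 3 * c * ρ) - m) := by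
  unfold wpol
  rw [eval_add, eval_mul, eval_comp, eval_comp, dpol_eval, eval_add, eval_C, eval_X]
  ring

private theorem wpol_deriv_eval (a b c m : ℤ) (X0 ρ : ℝ) (f : ℤ[X] × ℤ[X]) :
    (derivative (wpol a b c m X0 f)).eval (ρ - X0) =
      -3 * (a * ρ ^ 2 + 2 * b * ρ + c) *
        ((derivative (f.1.map (Int.castRingHom ℝ))).eval
          (-(a * ρ ^ 3 + 3 * b * ρ ^ 2 + 3 * c * ρ) - m) +
        ρ * (derivative (f.2.map (Int.castRingHom ℝ))).eval
          (-(a * ρ ^ 3 + 3 * b * ρ ^ 2 + 3 * c * ρ) - m)) +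
      (f.2.map (Int.castRingHom ℝ)).eval
        (-(a * ρ ^ 3 + 3 * b * ρ ^ 2 + 3 * c * ρ) - m) := by
  unfold wpol
  rw [derivative_add, derivative_mul, derivative_comp, derivative_comp, derivative_add,
    derivative_C, derivative_X]
  simp only [eval_add, eval_mul, eval_comp, dpol_eval, dpol_deriv_eval, eval_C, eval_X, eval_zero,
    eval_one]
  ring

private theorem natDegree_ff (n : ℕ) : (ff n).natDegree ≤ n := by
  unfold ff
  refine (natDegree_prod_le _ _).trans ?_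
  refine (Finset.sum_le_card_nsmul _ _ 1 ?_).trans ?_
  · intro l _
    exact natDegree_X_sub_C_le _
  · simp

private theorem natDegree_wpol (a b c m : ℤ) (X0 : ℝ) (n : ℕ) (σ : Bool) :
    (wpol a b c m X0 (bp (n, σ))).natDegree ≤ 3 * n + 1 := by
  have h1 : (((ff n).map (Int.castRingHom ℝ)).comp (dpol a b c m X0)).natDegree ≤ 3 * n := by
    refine natDegree_comp_le.trans ?_
    have h2 : (dpol a b c m X0).natDegree ≤ 3 := natDegree_dp _ _ _ _ _
    have h3 : ((ff n).map (Int.castRingHom ℝ)).natDegree ≤ n :=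
      natDegree_map_le.trans (natDegree_ff n)
    calc _ ≤ n * 3 := Nat.mul_le_mul h3 h2
      _ = 3 * n := by ring
  cases σ
  · unfold wpol bp
    simp only [Bool.false_eq_true, if_false, Polynomial.map_zero, zero_comp, mul_zero, add_zero]
    omega
  · unfold wpol bp
    simp only [if_true, Polynomial.map_zero, zero_comp, zero_add]
    refine natDegree_mul_le.trans ?_
    have h4 : (C X0 + X : ℝ[X]).natDegree ≤ 1 :=
      (natDegree_add_le _ _).trans (max_le (by rw [natDegree_C]; omega) natDegree_X_le)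
    omega

private theorem deriv_eval_sum (q : ℝ[X]) (N : ℕ) (hN : q.natDegree < N) (x : ℝ) :
    (derivative q).eval x = ∑ k ∈ Finset.range N, q.coeff k * (k * x ^ (k - 1)) := by
  rw [derivative_eval, sum_over_range' q (fun k => by simp) N hN]
  apply Finset.sum_congr rfl
  intro k _
  ring

private theorem sum_yv_false (a b c p r : ℤ) (X0 : ℝ) (q : ℝ[X]) (N : ℕ) (hN : q.natDegree < N) :
    ∑ k ∈ Finset.range N, q.coeff k * yv a b c p r X0 false k =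
      r * q.eval ((p : ℝ) / r - X0) := by
  rw [eval_eq_sum_range' hN, Finset.mul_sum]
  apply Finset.sum_congr rfl
  intro k _
  simp only [yv, Bool.false_eq_true, if_false]
  ring

private theorem sum_yv_true (a b c p r : ℤ) (X0 : ℝ) (q : ℝ[X]) (N : ℕ) (hN : q.natDegree < N) :
    ∑ k ∈ Finset.range N, q.coeff k * yv a b c p r X0 true k =
      r * (-((a * ((p : ℝ) / r) ^ 2 + 2 * b * ((p : ℝ) / r) + c) *
        ((a * ((p : ℝ) / r) + b) ^ 2 + 4 * ((a : ℝ) * c - b ^ 2))) *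
        (derivative q).eval ((p : ℝ) / r - X0) +
        2 * a * ((a : ℝ) * c - b ^ 2) * ((p : ℝ) / r) * q.eval ((p : ℝ) / r - X0)) := by
  rw [eval_eq_sum_range' hN, deriv_eval_sum q N hN, Finset.mul_sum, Finset.mul_sum,
    ← Finset.sum_add_distrib, Finset.mul_sum]
  apply Finset.sum_congr rfl
  intro k _
  simp only [yv, if_true]
  ring

private lemma fin_step (i n : ℕ) (Q2 R w e T : ℝ) (hi : (0 : ℝ) ≤ i) (hR : 1 ≤ R) (hw0 : 0 < w)
    (hw1 : w ≤ 1) (he0 : 0 ≤ e) (hT : T = (i : ℝ) ^ 2 * (22 * (R * w)) ^ n) (hQ : 0 ≤ Q2)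
    (Z : ℝ) (hZ : |Z| ≤ 10 ^ 4 * R ^ 4 * T * e) (r : ℝ) (hr : |r| ≤ Q2) :
    |r * Z| ≤ (10000 * Q2 * R ^ 4 * (3 * (i : ℝ) + 1) ^ 2 / w) * (22 * (R * w)) ^ n * e := by
  have h0 : |r * Z| ≤ Q2 * (10 ^ 4 * R ^ 4 * T * e) := by
    rw [abs_mul]
    exact mul_le_mul hr hZ (abs_nonneg _) hQ
  refine h0.trans ?_
  have h1 : (i : ℝ) ^ 2 ≤ (3 * (i : ℝ) + 1) ^ 2 / w := by
    rw [le_div_iff₀ hw0]
    have h2 : (i : ℝ) ^ 2 * w ≤ (i : ℝ) ^ 2 * 1 := mul_le_mul_of_nonneg_left hw1 (sq_nonneg _)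
    have h3 : (i : ℝ) ^ 2 * 1 ≤ (3 * (i : ℝ) + 1) ^ 2 := by
      have h4 : (i : ℝ) ≤ 3 * i + 1 := by linarith
      have h5 := pow_le_pow_left₀ hi h4 2
      linarith
    exact h2.trans h3
  have h6 : 0 ≤ 10000 * Q2 * R ^ 4 * (22 * (R * w)) ^ n * e := by
    have : 0 ≤ R := by linarith
    positivity
  have h7 := mul_le_mul_of_nonneg_left h1 h6
  calc Q2 * (10 ^ 4 * R ^ 4 * T * e)
      = (10000 * Q2 * R ^ 4 * (22 * (R * w)) ^ n * e) * (i : ℝ) ^ 2 := by rw [hT]; ring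
    _ ≤ (10000 * Q2 * R ^ 4 * (22 * (R * w)) ^ n * e) * ((3 * (i : ℝ) + 1) ^ 2 / w) := h7
    _ = _ := by ring


/-- Module Entry, size of the error. -/
theorem entry_err (a b c D m p r : ℤ) (X0 R w Q1 Q2 : ℝ) (hX0 : |X0| ≤ 1) (hR : 1 ≤ R)
    (ha : |(a : ℝ)| ≤ R) (hb : |(b : ℝ)| ≤ R) (hc : |(c : ℝ)| ≤ R) (hw0 : 0 < w) (hw1 : w ≤ 1)
    (hm : |-((a : ℝ) * X0 ^ 3 + 3 * b * X0 ^ 2 + 3 * c * X0) - m| ≤ 1 / 2)
    (i : ℕ) (hi : (i : ℝ) ≤ R * w) (hF : |Fv a b c D p r| = 1) (hQ1 : 1 ≤ Q1)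
    (hr1 : Q1 ≤ (r : ℝ)) (hr2 : (r : ℝ) ≤ Q2) (hp : |(p : ℝ) / r - X0| ≤ w)
    (β : Bool) (n : ℕ) (hn : n < i) (σ : Bool) :
    |(row a b c m p r (D - m) β (bp (n, σ)) : ℝ) -
      ∑ k ∈ Finset.range (3 * i + 1),
        (wpol a b c m X0 (bp (n, σ))).coeff k * yv a b c p r X0 β k| ≤
      (10000 * Q2 * R ^ 4 * (3 * i + 1) ^ 2 / w) * (22 * (R * w)) ^ n * (1 / Q1 ^ 3) := by
  have hi1 : 1 ≤ i := by omega
  have hi1' : (1 : ℝ) ≤ i := by exact_mod_cast hi1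
  have hG : 1 ≤ R * w := hi1'.trans hi
  have hr0 : (0 : ℝ) < r := by linarith
  have hrne : (r : ℝ) ≠ 0 := hr0.ne'
  have hQ2 : 1 ≤ Q2 := by linarith
  have hρ : |(p : ℝ) / r| ≤ 2 := rho_le X0 _ w hX0 hw1 hp
  have hdeg : (wpol a b c m X0 (bp (n, σ))).natDegree < 3 * i + 1 := by
    have := natDegree_wpol a b c m X0 n σ
    omega
  obtain ⟨ρ, hρdef⟩ : ∃ ρ : ℝ, ρ = (p : ℝ) / r := ⟨_, rfl⟩
  have hpr : (p : ℝ) = ρ * r := by rw [hρdef]; field_simp
  obtain ⟨D', hD'⟩ : ∃ D' : ℝ, D' = -((a : ℝ) * ρ ^ 3 + 3 * b * ρ ^ 2 + 3 * c * ρ) := ⟨_, rfl⟩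
  obtain ⟨e, he⟩ : ∃ e : ℝ, e = 1 / Q1 ^ 3 := ⟨_, rfl⟩
  have he0 : 0 ≤ e := by rw [he]; positivity
  have he1 : e ≤ 1 := by
    rw [he, div_le_one (by positivity)]
    exact one_le_pow₀ hQ1
  have hFr : |(a : ℝ) * p ^ 3 + 3 * b * p ^ 2 * r + 3 * c * p * r ^ 2 + D * r ^ 3| = 1 := by
    have h1 : ((|Fv a b c D p r| : ℤ) : ℝ) = 1 := by rw [hF]; norm_num
    rw [Int.cast_abs] at h1
    unfold Fv at h1
    push_cast at h1
    exact h1
  have hDD : |(D : ℝ) - D'| ≤ e := by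
    have h1 : (D : ℝ) - D' =
        ((a : ℝ) * p ^ 3 + 3 * b * p ^ 2 * r + 3 * c * p * r ^ 2 + D * r ^ 3) / r ^ 3 := by
      rw [hD', hpr]
      field_simp
      ring
    rw [h1, abs_div, hFr, abs_of_pos (by positivity), he]
    gcongr
  rw [hρdef.symm] at hρ
  have hD'b : |D'| ≤ 26 * R := by
    rw [hD', abs_neg]
    have hρ2 : |ρ ^ 2| ≤ 2 ^ 2 := by rw [abs_pow]; exact pow_le_pow_left₀ (abs_nonneg _) hρ 2
    have hρ3 : |ρ ^ 3| ≤ 2 ^ 3 := by rw [abs_pow]; exact pow_le_pow_left₀ (abs_nonneg _) hρ 3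
    have h3 : |(3 : ℝ)| ≤ 3 := by norm_num
    refine (aa (aa (am ha hρ3) (am (am h3 hb) hρ2)) (am (am h3 hc) hρ)).trans (le_of_eq ?_)
    ring
  have hDb : |(D : ℝ)| ≤ 27 * R := by
    have h1 : (D : ℝ) = D' + (D - D') := by ring
    rw [h1]
    refine (aa hD'b hDD).trans ?_
    linarith
  have hy : |D' - m| ≤ 21 * (R * w) := by
    have h1 : D' - m = (dpol a b c m X0).eval (ρ - X0) := by rw [dpol_eval, hD']
    rw [h1]
    refine (abs_eval_le_nrm _ w _ (by rw [hρdef]; exact hp)).trans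
      ((nrm_le_eval (maj_dpol a b c m X0 R hX0 hR ha hb hc hm) hw0.le).trans
      ((DD_eval_le R w hR hw0.le hw1 hG).trans ?_))
    linarith
  have hy20 : |D' - m| ≤ 20 * (R * w) := by
    have h1 : D' - m = (dpol a b c m X0).eval (ρ - X0) := by rw [dpol_eval, hD']
    rw [h1]
    exact (abs_eval_le_nrm _ w _ (by rw [hρdef]; exact hp)).trans
      ((nrm_le_eval (maj_dpol a b c m X0 R hX0 hR ha hb hc hm) hw0.le).trans
      (DD_eval_le R w hR hw0.le hw1 hG))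
  have hx : |(D : ℝ) - m| ≤ 21 * (R * w) := by
    have h1 : (D : ℝ) - m = (D' - m) + (D - D') := by ring
    rw [h1]
    refine (aa hy20 hDD).trans ?_
    linarith
  obtain ⟨⟨q1, q1'⟩, ⟨q2, q2'⟩, q3, q4⟩ := qf_bounds i (21 * (R * w)) (22 * (R * w))
    (by linarith) (by linarith) n hn.le ((D : ℝ) - m) (D' - m) hx hy
  rw [← map_ff] at q1 q1' q2 q2' q3 q4
  have hxy : |((D : ℝ) - m) - (D' - m)| ≤ e := by
    have h1 : ((D : ℝ) - m) - (D' - m) = D - D' := by ring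
    rw [h1]
    exact hDD
  obtain ⟨T, hT⟩ : ∃ T : ℝ, T = (i : ℝ) ^ 2 * (22 * (R * w)) ^ n := ⟨_, rfl⟩
  have hYn : 0 ≤ (22 * (R * w)) ^ n := by positivity
  have hn' : (n : ℝ) ≤ i := by exact_mod_cast hn.le
  have hn0 : (0 : ℝ) ≤ n := Nat.cast_nonneg _
  have hT1 : (22 * (R * w)) ^ n ≤ T := by
    rw [hT]
    exact le_mul_of_one_le_left hYn (one_le_pow₀ hi1')
  have hT2 : n * (22 * (R * w)) ^ n ≤ T := by
    rw [hT]
    apply mul_le_mul_of_nonneg_right _ hYn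
    nlinarith
  have hT3 : (n : ℝ) ^ 2 * (22 * (R * w)) ^ n ≤ T := by
    rw [hT]
    apply mul_le_mul_of_nonneg_right _ hYn
    exact pow_le_pow_left₀ hn0 hn' 2
  have hT0 : 0 ≤ T := hYn.trans hT1
  have p1 := q1.trans hT1
  have p2 := q2.trans hT2
  have p3 : |eval ((D : ℝ) - m) ((ff n).map (Int.castRingHom ℝ)) -
      eval (D' - m) ((ff n).map (Int.castRingHom ℝ))| ≤ T * e :=
    q3.trans (mul_le_mul hT2 hxy (abs_nonneg _) hT0)
  have p4 : |eval ((D : ℝ) - m) (derivative ((ff n).map (Int.castRingHom ℝ))) -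
      eval (D' - m) (derivative ((ff n).map (Int.castRingHom ℝ)))| ≤ T * e :=
    q4.trans (mul_le_mul hT3 hxy (abs_nonneg _) hT0)
  have hTe : 0 ≤ T * e := mul_nonneg hT0 he0
  -- the pair
  obtain ⟨f, hf⟩ : ∃ f : ℤ[X] × ℤ[X], f = bp (n, σ) := ⟨_, rfl⟩
  have hb1 : |eval ((D : ℝ) - m) (f.2.map (Int.castRingHom ℝ))| ≤ T ∧
      |eval ((D : ℝ) - m) (derivative (f.1.map (Int.castRingHom ℝ)))| ≤ T ∧
      |eval ((D : ℝ) - m) (derivative (f.2.map (Int.castRingHom ℝ)))| ≤ T ∧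
      |eval ((D : ℝ) - m) (f.1.map (Int.castRingHom ℝ)) -
        eval (D' - m) (f.1.map (Int.castRingHom ℝ))| ≤ T * e ∧
      |eval ((D : ℝ) - m) (f.2.map (Int.castRingHom ℝ)) -
        eval (D' - m) (f.2.map (Int.castRingHom ℝ))| ≤ T * e ∧
      |eval ((D : ℝ) - m) (derivative (f.1.map (Int.castRingHom ℝ))) -
        eval (D' - m) (derivative (f.1.map (Int.castRingHom ℝ)))| ≤ T * e ∧
      |eval ((D : ℝ) - m) (derivative (f.2.map (Int.castRingHom ℝ))) -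
        eval (D' - m) (derivative (f.2.map (Int.castRingHom ℝ)))| ≤ T * e := by
    cases σ
    · have e1 : f.1 = ff n := by rw [hf]; simp [bp]
      have e2 : f.2 = 0 := by rw [hf]; simp [bp]
      rw [e1, e2, Polynomial.map_zero, derivative_zero, eval_zero, eval_zero, sub_zero, abs_zero]
      exact ⟨hT0, p2, hT0, p3, hTe, p4, hTe⟩
    · have e1 : f.1 = 0 := by rw [hf]; simp [bp]
      have e2 : f.2 = ff n := by rw [hf]; simp [bp]
      rw [e1, e2, Polynomial.map_zero, derivative_zero, eval_zero, eval_zero, sub_zero, abs_zero]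
      exact ⟨p1, hT0, p2, hTe, p3, hTe, p4⟩
  obtain ⟨b1, b2, b3, b4, b5, b6, b7⟩ := hb1
  rw [← hf] at hdeg ⊢
  have hfin : ∀ Z : ℝ, |Z| ≤ 10 ^ 4 * R ^ 4 * T * e → |(r : ℝ) * Z| ≤
      (10000 * Q2 * R ^ 4 * (3 * i + 1) ^ 2 / w) * (22 * (R * w)) ^ n * (1 / Q1 ^ 3) := by
    intro Z hZ
    have hrQ : |(r : ℝ)| ≤ Q2 := by rw [abs_of_pos hr0]; exact hr2
    rw [← he]
    refine fin_step i n Q2 R w e T ?_ hR hw0 hw1 he0 hT (le_trans (abs_nonneg _) hrQ) _ hZ _ hrQ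
    positivity
  cases β
  · rw [sum_yv_false a b c p r X0 _ _ hdeg, row_false_cast, ← hρdef, wpol_eval, ← hD']
    have h1 : (r : ℝ) * eval ((D : ℝ) - m) (f.1.map (Int.castRingHom ℝ)) +
        p * eval ((D : ℝ) - m) (f.2.map (Int.castRingHom ℝ)) -
        r * (eval (D' - m) (f.1.map (Int.castRingHom ℝ)) +
          ρ * eval (D' - m) (f.2.map (Int.castRingHom ℝ))) =
        r * ((eval ((D : ℝ) - m) (f.1.map (Int.castRingHom ℝ)) -
          eval (D' - m) (f.1.map (Int.castRingHom ℝ))) +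
          ρ * (eval ((D : ℝ) - m) (f.2.map (Int.castRingHom ℝ)) -
          eval (D' - m) (f.2.map (Int.castRingHom ℝ)))) := by
      rw [hpr]
      ring
    rw [h1]
    apply hfin
    refine (aa b4 (am hρ b5)).trans ?_
    have hR4 : 1 ≤ R ^ 4 := one_le_pow₀ hR
    have h2 : 10 ^ 4 * R ^ 4 * T * e = (10 ^ 4 * R ^ 4) * (T * e) := by ring
    rw [h2]
    nlinarith
  · rw [sum_yv_true a b c p r X0 _ _ hdeg, row_true_cast, ← hρdef, wpol_eval, wpol_deriv_eval,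
      ← hD']
    have h1 := phi_diff (a : ℝ) b c ρ D D'
      (eval ((D : ℝ) - m) (f.1.map (Int.castRingHom ℝ)))
      (eval ((D : ℝ) - m) (f.2.map (Int.castRingHom ℝ)))
      (eval (D' - m) (f.1.map (Int.castRingHom ℝ)))
      (eval (D' - m) (f.2.map (Int.castRingHom ℝ)))
      (eval ((D : ℝ) - m) (derivative (f.1.map (Int.castRingHom ℝ))))
      (eval ((D : ℝ) - m) (derivative (f.2.map (Int.castRingHom ℝ))))
      (eval (D' - m) (derivative (f.1.map (Int.castRingHom ℝ))))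
      (eval (D' - m) (derivative (f.2.map (Int.castRingHom ℝ))))
      R T e hR ha hb hc hρ hDb (hD'b.trans (by linarith)) hDD b1 b2 b3 b4 b5 b6 b7
    have h2 := hfin _ h1
    refine le_of_eq_of_le ?_ h2
    congr 1
    rw [hpr, hD']
    ring

end Pool.Agent.Work.MP_f2148a_nt.Exp
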