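import Mathlib
import Pool.Agent.Work.MP_f2148a_nt.Exp.Defs2

set_option autoImplicit false

namespace Pool.Agent.Work.MP_f2148a_nt.Exp

open Polynomial

theorem integ_prod (k : ℕ) (x : ℤ) : (k.factorial : ℤ) ∣ ∏ l ∈ Finset.range k, (x - l) := by
  have h := Nat.factorial_coe_dvd_prod k (x - (k - 1 : ℤ))
  rw [← Finset.prod_range_reflect] at h
  convert h using 1
  apply Finset.prod_congr rfl
  intro l hl
  rw [Finset.mem_range] at hl
  have : ((k - 1 - l : ℕ) : ℤ) = (k : ℤ) - 1 - l := by omega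
  rw [this]
  ring

theorem integ_ff (n : ℕ) (d : ℤ) : (n.factorial : ℤ) ∣ (ff n).eval d := by
  unfold ff
  rw [eval_prod]
  simp only [eval_sub, eval_X, eval_C]
  exact integ_prod n d

theorem integ_lcm {n i : ℕ} (hn : 0 < n) (hni : n ≤ i) : n ∣ Nat.lcmUpto i := by
  unfold Nat.lcmUpto
  exact Finset.dvd_lcm (f := id) (Finset.mem_Icc.2 ⟨hn, hni⟩)

theorem integ_lcm_mono {n i : ℕ} (hni : n ≤ i) : Nat.lcmUpto n ∣ Nat.lcmUpto i := by
  unfold Nat.lcmUpto
  apply Finset.lcm_dvd
  intro b hb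
  rw [Finset.mem_Icc] at hb
  exact Finset.dvd_lcm (f := id) (Finset.mem_Icc.2 ⟨hb.1, hb.2.trans hni⟩)

theorem integ_ff' (i n : ℕ) (hni : n ≤ i) (d : ℤ) :
    (n.factorial : ℤ) ∣ (Nat.lcmUpto i : ℤ) ^ 2 * (derivative (ff n)).eval d := by
  unfold ff
  rw [derivative_prod_finset, eval_finsetSum, Finset.mul_sum]
  apply Finset.dvd_sum
  intro j hj
  rw [Finset.mem_range] at hj
  have h1 : (eval d ((∏ l ∈ (Finset.range n).erase j, (X - C (l : ℤ))) *
      derivative (X - C (j : ℤ)))) =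
      (∏ l ∈ Finset.range j, (d - l)) * ∏ l ∈ Finset.range (n - 1 - j), (d - (j + 1) - l) := by
    rw [derivative_X_sub_C, mul_one, eval_prod]
    simp only [eval_sub, eval_X, eval_C]
    have h2 : (Finset.range n).erase j = Finset.range j ∪ Finset.Ico (j + 1) n := by
      ext x
      simp only [Finset.mem_erase, Finset.mem_range, Finset.mem_union, Finset.mem_Ico]
      omega
    rw [h2, Finset.prod_union]
    · congr 1
      rw [Finset.prod_Ico_eq_prod_range]
      have : n - (j + 1) = n - 1 - j := by omega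
      rw [this]
      apply Finset.prod_congr rfl
      intro l _
      push_cast
      ring
    · rw [Finset.disjoint_left]
      intro x hx hy
      rw [Finset.mem_range] at hx
      rw [Finset.mem_Ico] at hy
      omega
  rw [h1]
  obtain ⟨u, hu⟩ := integ_prod j d
  obtain ⟨v, hv⟩ := integ_prod (n - 1 - j) (d - (j + 1))
  rw [hu, hv]
  have hn0 : 0 < n := by omega
  obtain ⟨s, hs⟩ := integ_lcm hn0 hni
  obtain ⟨t, ht⟩ : (n - 1).choose j ∣ Nat.lcmUpto i :=
    (Chebyshev.choose_dvd_lcmUpto (by omega)).trans (integ_lcm_mono (by omega))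
  have hfac : (n.factorial : ℤ) = n * ((n - 1).choose j) * j.factorial *
      (n - 1 - j).factorial := by
    have e1 : n.factorial = n * (n - 1).factorial := by
      obtain ⟨m, rfl⟩ : ∃ m, n = m + 1 := ⟨n - 1, by omega⟩
      rw [Nat.factorial_succ]
      rfl
    have e2 := Nat.choose_mul_factorial_mul_factorial (n := n - 1) (k := j) (by omega)
    rw [e1, ← e2]
    push_cast
    ring
  have hL : (Nat.lcmUpto i : ℤ) ^ 2 = (n * s) * ((n - 1).choose j * t) := by
    have h1 : (Nat.lcmUpto i : ℤ) = n * s := by exact_mod_cast hs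
    have h2 : (Nat.lcmUpto i : ℤ) = (n - 1).choose j * t := by exact_mod_cast ht
    rw [sq]
    nth_rewrite 1 [h1]
    rw [h2]
  rw [hL, hfac]
  refine ⟨s * t * u * v, ?_⟩
  ring

theorem integ_entry (a b c m p r d : ℤ) (β : Bool) (i n : ℕ) (hni : n ≤ i) (s : Bool) :
    (n.factorial : ℤ) ∣ (Nat.lcmUpto i : ℤ) ^ 2 * row a b c m p r d β (bp (n, s)) := by
  obtain ⟨u, hu⟩ := integ_ff n d
  obtain ⟨v, hv⟩ := integ_ff' i n hni d
  set L := (Nat.lcmUpto i : ℤ) with hL
  unfold row bp hatU hatV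
  cases s <;> cases β
  · simp only [Bool.false_eq_true, if_false, eval_zero, mul_zero, add_zero]
    rw [hu]
    exact ⟨L ^ 2 * r * u, by ring⟩
  · simp only [Bool.false_eq_true, if_false, if_true, derivative_zero, mul_zero, sub_zero,
      zero_add, eval_mul, eval_C, hu]
    refine ⟨r * (eval d (3 : ℤ[X]) * eval d (delta a b c m)) * v +
      L ^ 2 * (p * (2 * a * (a * c - b ^ 2))) * u, ?_⟩
    linear_combination r * (eval d (3 : ℤ[X]) * eval d (delta a b c m)) * hv
  · simp only [Bool.false_eq_true, if_false, if_true, eval_zero, mul_zero, zero_add]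
    rw [hu]
    exact ⟨L ^ 2 * p * u, by ring⟩
  · simp only [if_true, derivative_zero, mul_zero, zero_sub, eval_neg, eval_mul, eval_sub,
      add_zero, hu]
    refine ⟨p * (eval d (3 : ℤ[X]) * eval d (delta a b c m)) * v -
      L ^ 2 * (r * eval d (ps0 a b c m) + p * eval d (ps1 a b c m)) * u, ?_⟩
    linear_combination p * (eval d (3 : ℤ[X]) * eval d (delta a b c m)) * hv

/-- Module Integ. -/
theorem det_dvd (a b c m : ℤ) (i : ℕ) (p r d : Fin i × Bool → ℤ) (β : Fin i × Bool → Bool) :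
    (∏ n ∈ Finset.range i, (n.factorial : ℤ)) ^ 2 ∣
      (Nat.lcmUpto i : ℤ) ^ (4 * i) *
      Matrix.det (Matrix.of fun (j c' : Fin i × Bool) =>
        row a b c m (p j) (r j) (d j) (β j) (bp ((c'.1 : ℕ), c'.2))) := by
  have h : ∀ j c' : Fin i × Bool, ∃ e : ℤ,
      (Nat.lcmUpto i : ℤ) ^ 2 * row a b c m (p j) (r j) (d j) (β j) (bp ((c'.1 : ℕ), c'.2)) =
        ((c'.1 : ℕ).factorial : ℤ) * e := fun j c' =>
    integ_entry a b c m (p j) (r j) (d j) (β j) i c'.1 c'.1.2.le c'.2
  choose e he using h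
  set M := Matrix.of fun (j c' : Fin i × Bool) =>
        row a b c m (p j) (r j) (d j) (β j) (bp ((c'.1 : ℕ), c'.2)) with hM
  have h1 : ((Nat.lcmUpto i : ℤ) ^ 2 • M).det = (Nat.lcmUpto i : ℤ) ^ (4 * i) * M.det := by
    rw [Matrix.det_smul, Fintype.card_prod, Fintype.card_fin, Fintype.card_bool, ← pow_mul]
    congr 2
    ring
  have h2 : ((Nat.lcmUpto i : ℤ) ^ 2 • M) = Matrix.of fun (j c' : Fin i × Bool) =>
      ((c'.1 : ℕ).factorial : ℤ) * e j c' := by
    ext j c'
    rw [Matrix.smul_apply, hM, Matrix.of_apply, Matrix.of_apply, smul_eq_mul, he]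
  rw [← h1, h2, Matrix.det_mul_row (fun c' : Fin i × Bool => ((c'.1 : ℕ).factorial : ℤ))
    (fun j c' => e j c')]
  have h3 : ∏ c' : Fin i × Bool, ((c'.1 : ℕ).factorial : ℤ) =
      (∏ n ∈ Finset.range i, (n.factorial : ℤ)) ^ 2 := by
    rw [Fintype.prod_prod_type]
    simp only [Fintype.prod_bool]
    rw [Fin.prod_univ_eq_prod_range (fun n => (n.factorial : ℤ) * (n.factorial : ℤ)) i,
      ← Finset.prod_pow]
    apply Finset.prod_congr rfl
    intro n _
    ring
  rw [h3]
  exact dvd_mul_right _ _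

end Pool.Agent.Work.MP_f2148a_nt.Exp
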