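import Pool.Agent.Work.MP_f2148a_nt.Exp.Omega

set_option autoImplicit false

namespace Pool.Agent.Work.MP_f2148a_nt.Exp

open Polynomial

lemma nd_sub {p q : ℤ[X]} {n : ℕ} (hp : p.natDegree ≤ n) (hq : q.natDegree ≤ n) :
    (p - q).natDegree ≤ n :=
  (natDegree_sub_le_of_le hp hq).trans (le_of_eq (max_self n))

lemma delta_deg (a b c m : ℤ) : (delta a b c m).natDegree ≤ 2 := by
  unfold delta
  compute_degree

lemma ps1_deg (a b c m : ℤ) : (ps1 a b c m).natDegree ≤ 1 := by
  unfold ps1
  compute_degree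

lemma ps0_deg (a b c m : ℤ) : (ps0 a b c m).natDegree ≤ 1 := by
  unfold ps0
  compute_degree

lemma hatU_deg (a b c m : ℤ) (f : ℤ[X] × ℤ[X]) {i : ℕ} (h1 : f.1.natDegree ≤ i)
    (h2 : f.2.natDegree ≤ i) : (hatU a b c m f).natDegree ≤ i + 2 := by
  unfold hatU
  apply nd_sub
  · have h3 : (3 * delta a b c m).natDegree ≤ 2 := by
      have : (3 : ℤ[X]) = C 3 := rfl
      rw [this]
      exact (natDegree_C_mul_le _ _).trans (delta_deg a b c m)
    refine natDegree_mul_le.trans ?_
    have := (natDegree_derivative_le f.1)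
    omega
  · refine natDegree_mul_le.trans ?_
    have := ps0_deg a b c m
    omega

lemma hatV_deg (a b c m : ℤ) (f : ℤ[X] × ℤ[X]) {i : ℕ} (h1 : f.1.natDegree ≤ i)
    (h2 : f.2.natDegree ≤ i) : (hatV a b c m f).natDegree ≤ i + 2 := by
  unfold hatV
  apply natDegree_add_le_of_degree_le
  · apply nd_sub
    · have h3 : (3 * delta a b c m).natDegree ≤ 2 := by
        have : (3 : ℤ[X]) = C 3 := rfl
        rw [this]
        exact (natDegree_C_mul_le _ _).trans (delta_deg a b c m)
      refine natDegree_mul_le.trans ?_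
      have := (natDegree_derivative_le f.2)
      omega
    · refine natDegree_mul_le.trans ?_
      have := ps1_deg a b c m
      omega
  · refine (natDegree_C_mul_le _ _).trans ?_
    omega

lemma omega_deg (a b c m : ℤ) (f : ℤ[X] × ℤ[X]) {i : ℕ} (h1 : f.1.natDegree ≤ i)
    (h2 : f.2.natDegree ≤ i) : (omega a b c m f).natDegree ≤ 2 * i + 2 := by
  unfold omega
  have h3 := hatU_deg a b c m f h1 h2
  have h4 := hatV_deg a b c m f h1 h2
  apply nd_sub
  · refine natDegree_mul_le.trans ?_
    omega
  · refine natDegree_mul_le.trans ?_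
    omega

/-- a pair of polynomials without common factors proportional to all pairs -/
lemma exists_prim (f0 : ℤ[X] × ℤ[X]) (h0 : f0 ≠ 0) :
    ∃ g : ℤ[X] × ℤ[X], g ≠ 0 ∧ (∀ i, f0.1.natDegree < i ∧ f0.2.natDegree < i →
      g.1.natDegree < i ∧ g.2.natDegree < i) ∧
      ∀ f : ℤ[X] × ℤ[X], f.1 * f0.2 = f0.1 * f.2 → ∃ t : ℤ[X], f.1 = t * g.1 ∧ f.2 = t * g.2 := by
  obtain ⟨U, V, c, hrel, hU, hV⟩ : ∃ U V c : ℤ[X], IsRelPrime U V ∧ c * U = f0.1 ∧
      c * V = f0.2 := by
    by_cases h2 : f0.2 = 0
    · have h1 : f0.1 ≠ 0 := fun h1 => h0 (Prod.ext h1 h2)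
      obtain ⟨V, U, c, h3, h4, h5⟩ := UniqueFactorizationMonoid.exists_reduced_factors' f0.2 f0.1 h1
      exact ⟨U, V, c, h3.symm, h5, h4⟩
    · exact UniqueFactorizationMonoid.exists_reduced_factors' f0.1 f0.2 h2
  have hc : c ≠ 0 := by
    rintro rfl
    apply h0
    rw [zero_mul] at hU hV
    exact Prod.ext hU.symm hV.symm
  have hUV : ¬ (U = 0 ∧ V = 0) := by
    rintro ⟨rfl, rfl⟩
    rw [mul_zero] at hU hV
    exact h0 (Prod.ext hU.symm hV.symm)
  refine ⟨(U, V), fun h => hUV (Prod.mk.inj h), ?_, ?_⟩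
  · rintro i ⟨h1, h2⟩
    constructor
    · show U.natDegree < i
      by_cases hU0 : U = 0
      · rw [hU0, natDegree_zero]
        omega
      · rw [← hU, natDegree_mul hc hU0] at h1
        omega
    · show V.natDegree < i
      by_cases hV0 : V = 0
      · rw [hV0, natDegree_zero]
        omega
      · rw [← hV, natDegree_mul hc hV0] at h2
        omega
  · intro f hf
    have h1 : f.1 * V = U * f.2 := by
      apply mul_left_cancel₀ hc
      rw [← hU, ← hV] at hf
      linear_combination hf
    by_cases hV0 : V = 0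
    · have hU0 : U ≠ 0 := fun h => hUV ⟨h, hV0⟩
      have h2 : U ∣ f.1 * V := ⟨f.2, h1⟩
      obtain ⟨t, ht⟩ := hrel.dvd_of_dvd_mul_right h2
      refine ⟨t, by rw [ht]; ring, ?_⟩
      apply mul_left_cancel₀ hU0
      rw [← h1, ht]
      ring
    · have h2 : V ∣ U * f.2 := ⟨f.1, by rw [← h1]; ring⟩
      obtain ⟨t, ht⟩ := hrel.symm.dvd_of_dvd_mul_left h2
      refine ⟨t, ?_, by rw [ht]; ring⟩
      apply mul_right_cancel₀ hV0
      rw [h1, ht]
      ring

/-- the hat operation on multiples -/
lemma hat_mul (a b c m : ℤ) (t : ℤ[X]) (g : ℤ[X] × ℤ[X]) :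
    hatU a b c m (t * g.1, t * g.2) = t * hatU a b c m g + 3 * delta a b c m * derivative t * g.1 ∧
    hatV a b c m (t * g.1, t * g.2) = t * hatV a b c m g + 3 * delta a b c m * derivative t * g.2 := by
  unfold hatU hatV
  simp only [derivative_mul]
  constructor <;> ring

/-- Module Family. -/
theorem family_card (a b c m : ℤ) (ha : a ≠ 0) (hbc : b ^ 2 ≠ a * c) (i Q : ℕ)
    (F : Finset (ℤ[X] × ℤ[X])) (hne : ∀ f ∈ F, f ≠ 0)
    (hdeg : ∀ f ∈ F, f.1.natDegree < i ∧ f.2.natDegree < i)
    (hcard : (2 * Q + 1) ^ i < F.card) (S : Finset ℤ)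
    (hS : ∀ d ∈ S, ∃ p r : ℤ, r ≠ 0 ∧ ∀ f ∈ F, r * f.1.eval d + p * f.2.eval d = 0 ∧
      |r * (hatU a b c m f).eval d + p * (hatV a b c m f).eval d| ≤ (Q : ℤ)) :
    S.card ≤ 3 * i := by
  classical
  have hFne : F.Nonempty := by
    rw [← Finset.card_pos]
    omega
  obtain ⟨f0, hf0⟩ := hFne
  have hi : 1 ≤ i := by
    have := (hdeg f0 hf0).1
    omega
  have hroots : ∀ (W : ℤ[X]) (T : Finset ℤ), W ≠ 0 → (∀ d ∈ T, W.eval d = 0) →
      T.card ≤ W.natDegree := by
    intro W T hW hT
    have h1 : T ⊆ W.roots.toFinset := by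
      intro d hd
      rw [Multiset.mem_toFinset, mem_roots hW]
      exact hT d hd
    exact (Finset.card_le_card h1).trans ((Multiset.toFinset_card_le _).trans (card_roots' W))
  by_cases hW : ∃ f ∈ F, f.1 * f0.2 ≠ f0.1 * f.2
  · obtain ⟨f, hf, hne'⟩ := hW
    have h1 : f.1 * f0.2 - f0.1 * f.2 ≠ 0 := sub_ne_zero.2 hne'
    have h2 : ∀ d ∈ S, (f.1 * f0.2 - f0.1 * f.2).eval d = 0 := by
      intro d hd
      obtain ⟨p, r, hr, hpr⟩ := hS d hd
      have h3 := (hpr f hf).1
      have h4 := (hpr f0 hf0).1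
      rw [eval_sub, eval_mul, eval_mul]
      apply mul_left_cancel₀ hr
      rw [mul_zero]
      linear_combination (f0.2.eval d) * h3 - (f.2.eval d) * h4
    have h3 := hroots _ S h1 h2
    have h4 : (f.1 * f0.2 - f0.1 * f.2).natDegree ≤ 2 * i := by
      have d1 := hdeg f hf
      have d2 := hdeg f0 hf0
      apply nd_sub
      · refine natDegree_mul_le.trans ?_
        omega
      · refine natDegree_mul_le.trans ?_
        omega
    omega
  · push Not at hW
    obtain ⟨g, hg0, hgdeg, hg⟩ := exists_prim f0 (hne f0 hf0)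
    have hgd := hgdeg i (hdeg f0 hf0)
    have hth : ∀ f : ℤ[X] × ℤ[X], ∃ t : ℤ[X], f ∈ F → f.1 = t * g.1 ∧ f.2 = t * g.2 := by
      intro f
      by_cases hf : f ∈ F
      · obtain ⟨t, ht⟩ := hg f (hW f hf)
        exact ⟨t, fun _ => ht⟩
      · exact ⟨0, fun h => absurd h hf⟩
    choose th hth using hth
    have hthdeg : ∀ f ∈ F, (th f).natDegree < i := by
      intro f hf
      obtain ⟨h1, h2⟩ := hth f hf
      obtain ⟨d1, d2⟩ := hdeg f hf
      have hgg : g.1 ≠ 0 ∨ g.2 ≠ 0 := by
        by_contra h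
        push Not at h
        exact hg0 (Prod.ext h.1 h.2)
      by_cases ht0 : th f = 0
      · rw [ht0, natDegree_zero]
        omega
      · rcases hgg with h3 | h3
        · rw [h1, natDegree_mul ht0 h3] at d1
          omega
        · rw [h2, natDegree_mul ht0 h3] at d2
          omega
    -- the bad points
    set Bad : Finset ℤ := S.filter (fun d => ∀ f ∈ F, |(th f).eval d| ≤ (Q : ℤ)) with hBad
    have hbad : Bad.card < i := by
      by_contra hcon
      push Not at hcon
      obtain ⟨B, hB, hBc⟩ := Finset.exists_subset_card_eq hcon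
      have hmaps : ∀ f ∈ F, (fun d : B => (th f).eval (d : ℤ)) ∈
          Fintype.piFinset (fun _ : B => Finset.Icc (-(Q : ℤ)) Q) := by
        intro f hf
        rw [Fintype.mem_piFinset]
        intro d
        have h1 := (Finset.mem_filter.1 (hB d.2)).2 f hf
        rw [abs_le] at h1
        exact Finset.mem_Icc.2 h1
      have hc : (Fintype.piFinset (fun _ : B => Finset.Icc (-(Q : ℤ)) Q)).card < F.card := by
        rw [Fintype.card_piFinset]
        simp only [Int.card_Icc, Finset.prod_const, Finset.card_univ, Fintype.card_coe]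
        have h1 : ((Q : ℤ) + 1 - -(Q : ℤ)).toNat = 2 * Q + 1 := by omega
        rw [h1, hBc]
        exact hcard
      obtain ⟨f, hf, f', hf', hff, heq⟩ := Finset.exists_ne_map_eq_of_card_lt_of_maps_to hc hmaps
      apply hff
      have h1 : th f = th f' := by
        apply eq_of_degrees_lt_of_eval_finset_eq B
        · rw [hBc]
          exact lt_of_le_of_lt degree_le_natDegree (by exact_mod_cast hthdeg f hf)
        · rw [hBc]
          exact lt_of_le_of_lt degree_le_natDegree (by exact_mod_cast hthdeg f' hf')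
        · intro d hd
          exact congrFun heq ⟨d, hd⟩
      obtain ⟨e1, e2⟩ := hth f hf
      obtain ⟨e3, e4⟩ := hth f' hf'
      exact Prod.ext (by rw [e1, e3, h1]) (by rw [e2, e4, h1])
    have homega := omega_ne_zero a b c m ha hbc g hg0
    have hgood : ∀ d ∈ S \ Bad, (omega a b c m g).eval d = 0 := by
      intro d hd
      rw [Finset.mem_sdiff, hBad, Finset.mem_filter, not_and] at hd
      obtain ⟨hdS, hd2⟩ := hd
      have hd3 := hd2 hdS
      push Not at hd3
      obtain ⟨f, hf, hfQ⟩ := hd3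
      obtain ⟨p, r, hr, hpr⟩ := hS d hdS
      obtain ⟨h1, h2⟩ := hpr f hf
      obtain ⟨e1, e2⟩ := hth f hf
      set t := (th f).eval d with ht
      have ht0 : t ≠ 0 := by
        intro h
        rw [h, abs_zero] at hfQ
        have : (0 : ℤ) ≤ Q := Int.natCast_nonneg Q
        omega
      have hN : r * g.1.eval d + p * g.2.eval d = 0 := by
        apply mul_left_cancel₀ ht0
        rw [e1, e2, eval_mul, eval_mul] at h1
        rw [mul_zero]
        linear_combination h1
      have hf' : f = (th f * g.1, th f * g.2) := Prod.ext e1 e2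
      obtain ⟨k1, k2⟩ := hat_mul a b c m (th f) g
      rw [← hf'] at k1 k2
      rw [k1, k2] at h2
      simp only [eval_add, eval_mul] at h2
      have h3 : r * (t * (hatU a b c m g).eval d + (eval d 3) * (delta a b c m).eval d *
          (derivative (th f)).eval d * g.1.eval d) + p * (t * (hatV a b c m g).eval d +
          (eval d 3) * (delta a b c m).eval d * (derivative (th f)).eval d * g.2.eval d) =
          t * (r * (hatU a b c m g).eval d + p * (hatV a b c m g).eval d) := by
        linear_combination ((eval d 3) * (delta a b c m).eval d *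
          (derivative (th f)).eval d) * hN
      rw [h3, abs_mul] at h2
      have h4 : r * (hatU a b c m g).eval d + p * (hatV a b c m g).eval d = 0 := by
        by_contra h
        have h5 : 1 ≤ |r * (hatU a b c m g).eval d + p * (hatV a b c m g).eval d| :=
          Int.one_le_abs h
        nlinarith [abs_nonneg t]
      unfold omega
      rw [eval_sub, eval_mul, eval_mul]
      apply mul_left_cancel₀ hr
      rw [mul_zero]
      linear_combination (hatV a b c m g).eval d * hN - g.2.eval d * h4
    have h1 := hroots _ (S \ Bad) homega hgood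
    have h2 := omega_deg a b c m g (i := i - 1) (by omega) (by omega)
    have h3 : S.card ≤ (S \ Bad).card + Bad.card := by
      have := Finset.card_le_card_sdiff_add_card (s := S) (t := Bad)
      omega
    omega

end Pool.Agent.Work.MP_f2148a_nt.Exp
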