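import Mathlib
import Pool.Agent.Work.MP_f2148a_nt.Exp.Defs

set_option autoImplicit false

namespace Pool.Agent.Work.MP_f2148a_nt.Exp

open Polynomial

/-- Comparison of multiplicities at a simple root of `kap`. -/
theorem mult_contra (kap n m1 : ℂ[X]) (z0 : ℂ) (hz : kap.eval z0 = 0)
    (hz' : (derivative kap).eval z0 ≠ 0) (hn : n ≠ 0) (hm : m1 ≠ 0)
    (h : 2 * kap * (derivative n * m1 - n * derivative m1) = derivative kap * n * m1) : False := by
  obtain ⟨kap3, hk3⟩ := dvd_iff_isRoot.mpr hz
  obtain ⟨n1, hn1, hn1'⟩ := exists_eq_pow_rootMultiplicity_mul_and_not_dvd n hn z0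
  obtain ⟨m2, hm2, hm2'⟩ := exists_eq_pow_rootMultiplicity_mul_and_not_dvd m1 hm z0
  set al := rootMultiplicity z0 n with hal
  set be := rootMultiplicity z0 m1 with hbe
  have key : ∀ (k : ℕ) (q : ℂ[X]), (X - C z0) * derivative ((X - C z0) ^ k * q) =
      (X - C z0) ^ k * ((k : ℂ[X]) * q + (X - C z0) * derivative q) := by
    intro k q
    rcases Nat.eq_zero_or_pos k with rfl | hk
    · simp
    · obtain ⟨j, rfl⟩ : ∃ j, k = j + 1 := ⟨k - 1, by omega⟩
      rw [derivative_mul, derivative_X_sub_C_pow]
      simp only [Nat.add_sub_cancel]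
      push_cast
      rw [map_add]
      simp only [map_natCast, map_one]
      ring
  have h1 := key al n1
  have h2 := key be m2
  rw [← hn1] at h1
  rw [← hm2] at h2
  have h3 : (X - C z0) ^ (al + be) * (2 * kap3 * (((al : ℂ[X]) * n1 + (X - C z0) * derivative n1) * m2
      - n1 * ((be : ℂ[X]) * m2 + (X - C z0) * derivative m2)) - derivative kap * n1 * m2) = 0 := by
    have e1 : 2 * kap * (derivative n * m1 - n * derivative m1) =
        2 * kap3 * (((X - C z0) * derivative n) * m1 - n * ((X - C z0) * derivative m1)) := by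
      rw [hk3]; ring
    rw [e1, h1, h2] at h
    have e2 : n = (X - C z0) ^ al * n1 := hn1
    have e3 : m1 = (X - C z0) ^ be * m2 := hm2
    have h' : 2 * kap3 * ((X - C z0) ^ al * ((al : ℂ[X]) * n1 + (X - C z0) * derivative n1) *
        ((X - C z0) ^ be * m2) - (X - C z0) ^ al * n1 *
          ((X - C z0) ^ be * ((be : ℂ[X]) * m2 + (X - C z0) * derivative m2))) =
        derivative kap * ((X - C z0) ^ al * n1) * ((X - C z0) ^ be * m2) := by
      rw [← e2, ← e3]
      exact h
    rw [pow_add]
    linear_combination h'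
  have hX : (X - C z0) ^ (al + be) ≠ 0 := pow_ne_zero _ (X_sub_C_ne_zero z0)
  have h4 := (mul_eq_zero.mp h3).resolve_left hX
  have h5 := congrArg (Polynomial.eval z0) h4
  simp only [eval_sub, eval_mul, eval_add, eval_ofNat, eval_natCast, eval_X, eval_C, sub_self,
    zero_mul, add_zero, eval_zero] at h5
  have hn0 : n1.eval z0 ≠ 0 := fun h0 => hn1' (dvd_iff_isRoot.mpr h0)
  have hm0 : m2.eval z0 ≠ 0 := fun h0 => hm2' (dvd_iff_isRoot.mpr h0)
  have hk : (derivative kap).eval z0 = kap3.eval z0 := by
    rw [hk3]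
    simp [derivative_mul]
  rw [hk] at h5 hz'
  have h6 : kap3.eval z0 * n1.eval z0 * m2.eval z0 * (2 * ((al : ℂ) - be) - 1) = 0 := by
    linear_combination h5
  have h7 : (2 * ((al : ℂ) - be) - 1) = 0 := by
    refine (mul_eq_zero.mp h6).resolve_left ?_
    exact mul_ne_zero (mul_ne_zero hz' hn0) hm0
  have h8 : (2 * al : ℂ) = 2 * be + 1 := by linear_combination h7
  have h9 : 2 * al = 2 * be + 1 := by exact_mod_cast h8
  omega

theorem natDegree_pol (a b c m : ℂ) (ha : a ≠ 0) :
    (-(C a * X ^ 3 + 3 * C b * X ^ 2 + 3 * C c * X) - C m : ℂ[X]).natDegree = 3 := by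
  have : (-(C a * X ^ 3 + 3 * C b * X ^ 2 + 3 * C c * X) - C m : ℂ[X]) =
      C (-a) * X ^ 3 + C (-3 * b) * X ^ 2 + C (-3 * c) * X + C (-m) := by
    simp only [map_neg, map_mul, map_ofNat]
    ring
  rw [this]
  exact Polynomial.natDegree_cubic (neg_ne_zero.mpr ha)

theorem omega_core (a b c m : ℂ) (ha : a ≠ 0) (hbc : a * c - b ^ 2 ≠ 0) (U V : ℂ[X])
    (h : 3 * (C (a ^ 2) * (X + C m) ^ 2 + C (4 * b ^ 3 - 6 * a * b * c) * (X + C m) +
      C (4 * a * c ^ 3 - 3 * b ^ 2 * c ^ 2)) * (U * derivative V - derivative U * V) -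
      (C (7 * a * b * c - 6 * b ^ 3) - C (a ^ 2) * (X + C m)) * (U * V) +
      C (2 * a * (a * c - b ^ 2)) * U ^ 2 +
      (C (4 * a * c ^ 2 - 3 * b ^ 2 * c) - C (a * b) * (X + C m)) * V ^ 2 = 0) :
    U = 0 ∧ V = 0 := by
  set D : ℂ[X] := -(C a * X ^ 3 + 3 * C b * X ^ 2 + 3 * C c * X) - C m with hD
  have hDdeg : D.natDegree = 3 := natDegree_pol a b c m ha
  have hD' : derivative D = -3 * (C a * X ^ 2 + 2 * C b * X + C c) := by
    rw [hD]
    simp only [derivative_sub, derivative_neg, derivative_add, derivative_mul, derivative_C,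
      derivative_X_pow, derivative_X, derivative_ofNat]
    simp only [Nat.cast_ofNat, map_ofNat, Nat.add_one_sub_one, pow_one]
    ring
  set u := U.comp D with hu
  set v := V.comp D with hv
  have hu' : derivative u = derivative D * (derivative U).comp D := derivative_comp U D
  have hv' : derivative v = derivative D * (derivative V).comp D := derivative_comp V D
  have h1 := congrArg (fun p : ℂ[X] => p.comp D) h
  simp only [sub_comp, add_comp, mul_comp, pow_comp, C_comp, X_comp, ofNat_comp, zero_comp,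
    ← hu, ← hv] at h1
  simp only [map_sub, map_mul, map_pow, map_ofNat] at h1
  have hXm : D + C m = -(C a * X ^ 3 + 3 * C b * X ^ 2 + 3 * C c * X) := by rw [hD]; ring
  rw [hXm] at h1
  set m1 := u + X * v with hm1
  set Y : ℂ[X] := C a * X + C b with hY
  set H : ℂ[X] := C a * C c - C b ^ 2 with hH
  set kap : ℂ[X] := Y ^ 2 + 4 * H with hkap
  set n := C a * Y * m1 - 2 * (Y ^ 2 + H) * v with hn
  have hm1' : derivative m1 = derivative u + v + X * derivative v := by
    rw [hm1]
    simp only [derivative_add, derivative_mul, derivative_X]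
    ring
  have hY' : derivative Y = C a := by
    rw [hY]
    simp
  have hH' : derivative H = 0 := by
    rw [hH]
    simp
  have hn' : derivative n = C a * C a * m1 + C a * Y * derivative m1 - 4 * Y * C a * v -
      2 * (Y ^ 2 + H) * derivative v := by
    rw [hn]
    simp only [derivative_sub, derivative_mul, derivative_add, derivative_pow, derivative_C,
      derivative_ofNat, hY', hH']
    simp only [Nat.cast_ofNat, map_ofNat, Nat.add_one_sub_one, pow_one]
    ring
  have hkap' : derivative kap = 2 * C a * Y := by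
    rw [hkap]
    simp only [derivative_add, derivative_mul, derivative_pow, derivative_ofNat, hY', hH']
    simp only [Nat.cast_ofNat, map_ofNat, Nat.add_one_sub_one, pow_one]
    ring
  have hstar : kap * (derivative n * m1 - n * derivative m1) = C a * Y * n * m1 := by
    have E1 : -(C a * X ^ 2 + 2 * C b * X + C c) * kap * (u * derivative v - derivative u * v) -
        (7 * C a * C b * C c - 6 * C b ^ 3 + C a ^ 2 * (C a * X ^ 3 + 3 * C b * X ^ 2 +
          3 * C c * X)) * (u * v) + (2 * C a * H) * u ^ 2 +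
        (4 * C a * C c ^ 2 - 3 * C b ^ 2 * C c + C a * C b * (C a * X ^ 3 + 3 * C b * X ^ 2 +
          3 * C c * X)) * v ^ 2 = 0 := by
      rw [hu', hv', hD', hkap, hY, hH]
      linear_combination h1
    rw [hn', hm1', hn, hm1]
    rw [hkap, hY, hH] at E1 ⊢
    linear_combination (2 * C a) * E1
  by_cases hm0 : m1 = 0
  · -- u = - X v
    have h2 : u = -(X * v) := by
      rw [hm1] at hm0
      linear_combination hm0
    by_cases hV : V = 0
    · have hv0 : v = 0 := by rw [hv, hV, zero_comp]
      have hu0 : u = 0 := by rw [h2, hv0]; ring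
      refine ⟨?_, hV⟩
      by_contra hU
      have h3 : (U.comp D) ≠ 0 := by
        intro h4
        rcases (comp_eq_zero_iff.mp h4) with h5 | ⟨_, h5⟩
        · exact hU h5
        · have := congrArg natDegree h5
          rw [hDdeg, natDegree_C] at this
          omega
      exact h3 hu0
    · exfalso
      have hv0 : v ≠ 0 := by
        intro h4
        rcases (comp_eq_zero_iff.mp h4) with h5 | ⟨_, h5⟩
        · exact hV h5
        · have := congrArg natDegree h5
          rw [hDdeg, natDegree_C] at this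
          omega
      have h3 := congrArg natDegree h2
      rw [natDegree_neg, natDegree_X_mul hv0, hu, hv, natDegree_comp, natDegree_comp, hDdeg] at h3
      omega
  by_cases hn0 : n = 0
  · have h2 : C a * Y * u = (Y ^ 2 + C b * Y + 2 * H) * v := by
      have h3 : C a * Y * (u + X * v) - 2 * (Y ^ 2 + H) * v = 0 := by
        rw [← hm1, ← hn]; exact hn0
      have h4 : C a * X = Y - C b := by rw [hY]; ring
      linear_combination h3 - Y * v * h4
    have hCa : (C a : ℂ[X]) ≠ 0 := C_ne_zero.mpr ha
    have hYdeg : Y.natDegree = 1 := natDegree_linear ha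
    have hY0 : Y ≠ 0 := by
      intro h5
      rw [h5] at hYdeg
      simp at hYdeg
    have hQ : (Y ^ 2 + C b * Y + 2 * H) = C (a ^ 2) * X ^ 2 + C (3 * a * b) * X +
        C (2 * a * c) := by
      rw [hY, hH]
      simp only [map_mul, map_pow, map_ofNat]
      ring
    have hQdeg : (Y ^ 2 + C b * Y + 2 * H).natDegree = 2 := by
      rw [hQ]
      exact natDegree_quadratic (pow_ne_zero 2 ha)
    have hQ0 : (Y ^ 2 + C b * Y + 2 * H) ≠ 0 := by
      intro h5
      rw [h5] at hQdeg
      simp at hQdeg
    have hcomp : ∀ W : ℂ[X], W ≠ 0 → W.comp D ≠ 0 := by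
      intro W hW h4
      rcases (comp_eq_zero_iff.mp h4) with h5 | ⟨_, h5⟩
      · exact hW h5
      · have := congrArg natDegree h5
        rw [hDdeg, natDegree_C] at this
        omega
    by_cases hV : V = 0
    · have hv0 : v = 0 := by rw [hv, hV, zero_comp]
      refine ⟨?_, hV⟩
      by_contra hU
      have hu0 : u ≠ 0 := hcomp U hU
      rw [hv0, mul_zero] at h2
      exact mul_ne_zero (mul_ne_zero hCa hY0) hu0 h2
    · exfalso
      have hv0 : v ≠ 0 := hcomp V hV
      have hu0 : u ≠ 0 := by
        intro h5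
        rw [h5, mul_zero] at h2
        exact mul_ne_zero hQ0 hv0 h2.symm
      have h3 := congrArg natDegree h2
      rw [natDegree_mul (mul_ne_zero hCa hY0) hu0, natDegree_mul hCa hY0, natDegree_C, hYdeg,
        natDegree_mul hQ0 hv0, hQdeg, hu, hv, natDegree_comp, natDegree_comp, hDdeg] at h3
      omega
  exfalso
  -- a root of kap
  obtain ⟨t, ht⟩ := IsAlgClosed.exists_pow_nat_eq (-4 * (a * c - b ^ 2)) (n := 2) (by norm_num)
  have ht0 : t ≠ 0 := by
    intro h5
    rw [h5] at ht
    have : (-4 : ℂ) * (a * c - b ^ 2) = 0 := by rw [← ht]; ring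
    rcases mul_eq_zero.mp this with h6 | h6
    · norm_num at h6
    · exact hbc h6
  have hYz : Y.eval ((t - b) / a) = t := by
    rw [hY]
    simp only [eval_add, eval_mul, eval_C, eval_X]
    field_simp
    ring
  refine mult_contra kap n m1 ((t - b) / a) ?_ ?_ hn0 hm0 ?_
  · rw [hkap, eval_add, eval_pow, eval_mul, hYz, ht, hH]
    simp
  · rw [hkap', eval_mul, hYz]
    simp only [eval_mul, eval_ofNat, eval_C]
    exact mul_ne_zero (mul_ne_zero two_ne_zero ha) ht0
  · rw [hkap']
    linear_combination 2 * hstar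

/-- Module Omega. -/
theorem omega_ne_zero (a b c m : ℤ) (ha : a ≠ 0) (hbc : b ^ 2 ≠ a * c) (f : ℤ[X] × ℤ[X])
    (hf : f ≠ 0) : omega a b c m f ≠ 0 := by
  intro h0
  have h1 := congrArg (Polynomial.map (Int.castRingHom ℂ)) h0
  have h2 := omega_core (a : ℂ) b c m (by exact_mod_cast ha) (by
    intro h
    apply hbc
    have : (b : ℂ) ^ 2 = a * c := by linear_combination -h
    exact_mod_cast this) (f.1.map (Int.castRingHom ℂ)) (f.2.map (Int.castRingHom ℂ)) (by
    rw [derivative_map, derivative_map]
    simp only [omega, hatU, hatV, delta, ps0, ps1, Polynomial.map_sub, Polynomial.map_mul,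
      Polynomial.map_add, Polynomial.map_pow, Polynomial.map_C, Polynomial.map_X,
      Polynomial.map_ofNat, Polynomial.map_zero] at h1
    simp only [eq_intCast (Int.castRingHom ℂ)] at h1
    push_cast at h1
    linear_combination h1)
  apply hf
  obtain ⟨hU, hV⟩ := h2
  have hinj : Function.Injective (Polynomial.map (Int.castRingHom ℂ)) :=
    Polynomial.map_injective _ Int.cast_injective
  have e1 : f.1 = 0 := hinj (by rw [hU, Polynomial.map_zero])
  have e2 : f.2 = 0 := hinj (by rw [hV, Polynomial.map_zero])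
  exact Prod.ext e1 e2

end Pool.Agent.Work.MP_f2148a_nt.Exp
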