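import Mathlib
import Pool.Agent.Work.MP_f2148a_nt.Exp.Defs2
import Pool.Agent.Work.MP_f2148a_nt.Exp.Omega
import Pool.Agent.Work.MP_f2148a_nt.Exp.Family

set_option autoImplicit false

namespace Pool.Agent.Work.MP_f2148a_nt.Exp

open Polynomial

private theorem ff_natDegree (n : ℕ) : (ff n).natDegree ≤ n := by
  unfold ff
  refine (natDegree_prod_le _ _).trans ?_
  refine (Finset.sum_le_card_nsmul _ _ 1 ?_).trans ?_
  · intro l _
    exact natDegree_X_sub_C_le _
  · simp

private theorem ff_eval_lt {l n : ℕ} (h : l < n) : (ff n).eval (l : ℤ) = 0 := by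
  unfold ff
  rw [eval_prod]
  apply Finset.prod_eq_zero (Finset.mem_range.2 h)
  simp

private theorem ff_eval_self (n : ℕ) : (ff n).eval (n : ℤ) ≠ 0 := by
  unfold ff
  rw [eval_prod, Finset.prod_ne_zero_iff]
  intro l hl
  rw [Finset.mem_range] at hl
  rw [eval_sub, eval_X, eval_C]
  omega

private theorem ff_indep (i : ℕ) (y : Fin i → ℤ) (h : ∑ n : Fin i, y n • ff n = 0) :
    ∀ n, y n = 0 := by
  have key : ∀ l : ℕ, ∀ hl : l < i, y ⟨l, hl⟩ = 0 := by
    intro l
    induction l using Nat.strong_induction_on with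
    | _ l ih =>
      intro hl
      have h1 := congrArg (fun q : ℤ[X] => q.eval (l : ℤ)) h
      simp only [eval_finsetSum, eval_smul, smul_eq_mul, eval_zero] at h1
      rw [Finset.sum_eq_single ⟨l, hl⟩] at h1
      · rcases mul_eq_zero.1 h1 with h2 | h2
        · exact h2
        · exact absurd h2 (ff_eval_self l)
      · intro n _ hn
        rcases lt_trichotomy (n : ℕ) l with h2 | h2 | h2
        · have := ih n h2 n.2
          rw [show (⟨(n : ℕ), n.2⟩ : Fin i) = n from rfl] at this
          rw [this, zero_mul]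
        · exact absurd (Fin.ext h2) hn
        · rw [ff_eval_lt h2, mul_zero]
      · intro h2
        exact absurd (Finset.mem_univ _) h2
  intro n
  exact key n n.2

/-- `row` as a linear map -/
private noncomputable def rowL (a b c m p r d : ℤ) (β : Bool) : (ℤ[X] × ℤ[X]) →ₗ[ℤ] ℤ where
  toFun := row a b c m p r d β
  map_add' f g := by
    cases β
    · simp only [row, Prod.fst_add, Prod.snd_add, eval_add, Bool.false_eq_true, if_false]
      ring
    · simp only [row, hatU, hatV, Prod.fst_add, Prod.snd_add, derivative_add, eval_add, eval_sub,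
        eval_mul, if_true]
      ring
  map_smul' t f := by
    cases β
    · simp only [row, Prod.smul_fst, Prod.smul_snd, eval_smul, smul_eq_mul, Bool.false_eq_true,
        if_false, RingHom.id_apply]
      ring
    · simp only [row, hatU, hatV, Prod.smul_fst, Prod.smul_snd, derivative_smul, eval_add,
        eval_sub, eval_mul, eval_smul, smul_eq_mul, if_true, RingHom.id_apply]
      ring

private theorem rowL_apply (a b c m p r d : ℤ) (β : Bool) (f : ℤ[X] × ℤ[X]) :
    rowL a b c m p r d β f = row a b c m p r d β f := rfl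

/-- the key vanishing statement -/
private theorem comb_zero (a b c m : ℤ) (ha : a ≠ 0) (hbc : b ^ 2 ≠ a * c) (i : ℕ) (hi : 0 < i)
    (S : Finset ℤ) (hS : 2 * i < S.card) (p r : ℤ → ℤ) (hr : ∀ d ∈ S, r d ≠ 0)
    (y : Fin i × Bool → ℤ)
    (hy : ∀ d ∈ S, ∀ β, ∑ c' : Fin i × Bool,
      y c' * row a b c m (p d) (r d) d β (bp ((c'.1 : ℕ), c'.2)) = 0) : y = 0 := by
  set f : ℤ[X] × ℤ[X] := ∑ c' : Fin i × Bool, y c' • bp ((c'.1 : ℕ), c'.2) with hf
  have hrow : ∀ d ∈ S, ∀ β, row a b c m (p d) (r d) d β f = 0 := by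
    intro d hd β
    rw [← rowL_apply, hf, map_sum, ← hy d hd β]
    apply Finset.sum_congr rfl
    intro c' _
    rw [map_smul, rowL_apply, smul_eq_mul]
  have hf1 : f.1 = ∑ n : Fin i, y (n, false) • ff n := by
    rw [hf, Prod.fst_sum, Fintype.sum_prod_type]
    apply Finset.sum_congr rfl
    intro n _
    rw [Fintype.sum_bool]
    simp [bp]
  have hf2 : f.2 = ∑ n : Fin i, y (n, true) • ff n := by
    rw [hf, Prod.snd_sum, Fintype.sum_prod_type]
    apply Finset.sum_congr rfl
    intro n _
    rw [Fintype.sum_bool]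
    simp [bp]
  have hdeg : ∀ β, (∑ n : Fin i, y (n, β) • ff n).natDegree ≤ i - 1 := by
    intro β
    apply natDegree_sum_le_of_forall_le
    intro n _
    refine (natDegree_smul_le _ _).trans ((ff_natDegree n).trans ?_)
    have := n.2
    omega
  have hom : omega a b c m f = 0 := by
    apply eq_zero_of_natDegree_lt_card_of_eval_eq_zero' _ S
    · intro d hd
      have h0 := hrow d hd false
      have h1 := hrow d hd true
      simp only [row, Bool.false_eq_true, if_false, if_true] at h0 h1
      rw [omega, eval_sub, eval_mul, eval_mul]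
      have h2 : r d * (eval d f.1 * eval d (hatV a b c m f) -
          eval d (hatU a b c m f) * eval d f.2) = 0 := by
        linear_combination eval d (hatV a b c m f) * h0 - eval d f.2 * h1
      rcases mul_eq_zero.1 h2 with h3 | h3
      · exact absurd h3 (hr d hd)
      · exact h3
    · have h1 := omega_deg a b c m f (i := i - 1) (by rw [hf1]; exact hdeg false)
        (by rw [hf2]; exact hdeg true)
      omega
  have hf0 : f = 0 := by
    by_contra h
    exact omega_ne_zero a b c m ha hbc f h hom
  funext ⟨n, β⟩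
  cases β
  · refine ff_indep i (fun n => y (n, false)) ?_ n
    rw [← hf1, hf0]
    rfl
  · refine ff_indep i (fun n => y (n, true)) ?_ n
    rw [← hf2, hf0]
    rfl

/-- Module Sel. -/
theorem exists_minor (a b c m : ℤ) (ha : a ≠ 0) (hbc : b ^ 2 ≠ a * c) (i : ℕ) (S : Finset ℤ)
    (hS : 2 * i < S.card) (p r : ℤ → ℤ) (hr : ∀ d ∈ S, r d ≠ 0) :
    ∃ s : Fin i × Bool → ℤ × Bool, (∀ j, (s j).1 ∈ S) ∧
      Matrix.det (Matrix.of fun (j c' : Fin i × Bool) =>
        row a b c m (p (s j).1) (r (s j).1) (s j).1 (s j).2 (bp ((c'.1 : ℕ), c'.2))) ≠ 0 := by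
  classical
  rcases Nat.eq_zero_or_pos i with hi | hi
  · subst hi
    refine ⟨fun j => (0, false), fun j => j.1.elim0, ?_⟩
    rw [Matrix.det_isEmpty]
    exact one_ne_zero
  set v : ℤ × Bool → (Fin i × Bool → ℚ) := fun x c' =>
    (row a b c m (p x.1) (r x.1) x.1 x.2 (bp ((c'.1 : ℕ), c'.2)) : ℚ) with hv
  set A : Set (Fin i × Bool → ℚ) := v '' {x | x.1 ∈ S} with hA
  have hspan : Submodule.span ℚ A = ⊤ := by
    by_contra hne
    obtain ⟨f, hf0, hfle⟩ := Submodule.exists_le_ker_of_lt_top _ (lt_top_iff_ne_top.2 hne)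
    obtain ⟨N, hN⟩ := IsLocalization.exist_integer_multiples_of_finite (nonZeroDivisors ℤ)
      (fun c' : Fin i × Bool => f (Pi.single c' 1))
    choose y hy using hN
    have hy' : ∀ c', (y c' : ℚ) = ((N : ℤ) : ℚ) * f (Pi.single c' 1) := by
      intro c'
      have := hy c'
      simpa [Algebra.smul_def] using this
    have hN0 : ((N : ℤ) : ℚ) ≠ 0 := by
      exact_mod_cast nonZeroDivisors.coe_ne_zero N
    have hy0 : y = 0 := by
      apply comb_zero a b c m ha hbc i hi S hS p r hr
      intro d hd β
      have h1 : v (d, β) ∈ LinearMap.ker f :=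
        hfle (Submodule.subset_span ⟨(d, β), hd, rfl⟩)
      rw [LinearMap.mem_ker] at h1
      have h2 : f (v (d, β)) = ∑ c', v (d, β) c' * f (Pi.single c' 1) := by
        conv_lhs => rw [← Finset.univ_sum_single (v (d, β))]
        rw [map_sum]
        apply Finset.sum_congr rfl
        intro c' _
        have : (Pi.single c' (v (d, β) c') : Fin i × Bool → ℚ) =
            v (d, β) c' • (Pi.single c' (1 : ℚ) : Fin i × Bool → ℚ) := by
          rw [← Pi.single_smul, smul_eq_mul, mul_one]
        rw [this, map_smul, smul_eq_mul]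
      have h3 : ((∑ c' : Fin i × Bool,
          y c' * row a b c m (p d) (r d) d β (bp ((c'.1 : ℕ), c'.2)) : ℤ) : ℚ) = 0 := by
        push_cast
        calc ∑ c' : Fin i × Bool,
            (y c' : ℚ) * (row a b c m (p d) (r d) d β (bp ((c'.1 : ℕ), c'.2)) : ℚ)
            = ((N : ℤ) : ℚ) * ∑ c', v (d, β) c' * f (Pi.single c' 1) := by
              rw [Finset.mul_sum]
              apply Finset.sum_congr rfl
              intro c' _
              rw [hy' c', hv]
              ring
          _ = 0 := by rw [← h2, h1, mul_zero]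
      exact_mod_cast h3
    apply hf0
    apply LinearMap.pi_ext'
    intro c'
    apply LinearMap.ext_ring
    have h1 := hy' c'
    rw [hy0, Pi.zero_apply, Int.cast_zero] at h1
    have h2 : f (Pi.single c' 1) = 0 := by
      rcases mul_eq_zero.1 h1.symm with h | h
      · exact absurd h hN0
      · exact h
    simpa using h2
  obtain ⟨B, hBA, hBspan, hBli⟩ := exists_linearIndependent ℚ A
  let bas : Module.Basis B ℚ (Fin i × Bool → ℚ) := Module.Basis.mk hBli (by
    rw [Subtype.range_coe, hBspan, hspan])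
  let e : (Fin i × Bool) ≃ B := (Pi.basisFun ℚ (Fin i × Bool)).indexEquiv bas
  have hch : ∀ j : Fin i × Bool, ∃ x : ℤ × Bool, x.1 ∈ S ∧ v x = (e j : Fin i × Bool → ℚ) := by
    intro j
    obtain ⟨x, hx, hxe⟩ := hBA (e j).2
    exact ⟨x, hx, hxe⟩
  choose s hs1 hs2 using hch
  refine ⟨s, hs1, ?_⟩
  have hli : LinearIndependent ℚ (fun j => v (s j)) := by
    have h1 := hBli.comp e e.injective
    have h2 : (fun j => v (s j)) = (fun x : B => (x : Fin i × Bool → ℚ)) ∘ e := by
      funext j
      exact hs2 j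
    rw [h2]
    exact h1
  have hdet : (Matrix.of fun j c' => v (s j) c').det ≠ 0 := by
    have h1 : LinearIndependent ℚ (Matrix.of fun j c' => v (s j) c').row := hli
    rw [Matrix.linearIndependent_rows_iff_isUnit, Matrix.isUnit_iff_isUnit_det] at h1
    exact h1.ne_zero
  intro h0
  apply hdet
  have h1 : (Matrix.of fun j c' => v (s j) c') =
      (Matrix.of fun (j c' : Fin i × Bool) =>
        row a b c m (p (s j).1) (r (s j).1) (s j).1 (s j).2 (bp ((c'.1 : ℕ), c'.2))).map
        (Int.castRingHom ℚ) := by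
    ext j c'
    simp [hv]
  rw [h1, ← RingHom.mapMatrix_apply, ← RingHom.map_det, h0, map_zero]

end Pool.Agent.Work.MP_f2148a_nt.Exp
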