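import Mathlib
import Pool.Agent.Work.MP_f2148a_nt.Exp.Defs2
import Pool.Agent.Work.MP_f2148a_nt.Exp.Sel
import Pool.Agent.Work.MP_f2148a_nt.Exp.Integ
import Pool.Agent.Work.MP_f2148a_nt.Exp.DetExp
import Pool.Agent.Work.MP_f2148a_nt.Exp.Comb
import Pool.Agent.Work.MP_f2148a_nt.Exp.Entry
import Pool.Agent.Work.MP_f2148a_nt.Exp.Count2

set_option autoImplicit false

namespace Pool.Agent.Work.MP_f2148a_nt.Exp

open Polynomial

theorem T_le (q W : ℝ) (hW : 0 < W) (hq : 0 < q) (i t : ℕ) :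
    (1 / Real.exp q ^ 3) ^ t * Real.exp (-W) ^ ((i - t) ^ 2) ≤
      Real.exp (-(3 * q * i) + 9 * q ^ 2 / (4 * W)) := by
  have e1 : (1 / Real.exp q ^ 3) = Real.exp (-(3 * q)) := by
    rw [one_div, ← Real.exp_nat_mul, ← Real.exp_neg]; push_cast; ring_nf
  rw [e1, ← Real.exp_nat_mul, ← Real.exp_nat_mul, ← Real.exp_add]
  apply Real.exp_le_exp.2
  rcases le_total t i with h | h
  · have e2 : (((i - t) ^ 2 : ℕ) : ℝ) = ((i : ℝ) - t) ^ 2 := by
      push_cast [Nat.cast_sub h]; ring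
    rw [e2]
    have h3 : 9 * q ^ 2 / (4 * W) - 3 * q * ((i : ℝ) - t) + W * ((i : ℝ) - t) ^ 2 =
        W * (((i : ℝ) - t) - 3 * q / (2 * W)) ^ 2 := by
      field_simp; ring
    have h4 : 0 ≤ W * (((i : ℝ) - t) - 3 * q / (2 * W)) ^ 2 := by positivity
    nlinarith
  · have e2 : i - t = 0 := by omega
    rw [e2]
    have h3 : (i : ℝ) ≤ t := by exact_mod_cast h
    have h4 : 0 ≤ 9 * q ^ 2 / (4 * W) := by positivity
    have h5 : 3 * q * (i : ℝ) ≤ 3 * q * t := by gcongr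
    norm_num
    linarith

/-- The arc bound by determinants. -/
theorem arc_card2 (a b c : ℤ) (ha0 : a ≠ 0) (hbc : b ^ 2 ≠ a * c) (X0 R W q : ℝ) (i : ℕ)
    (hX0 : |X0| ≤ 1) (hR : 1 ≤ R) (ha : |(a : ℝ)| ≤ R) (hb : |(b : ℝ)| ≤ R) (hc : |(c : ℝ)| ≤ R)
    (hW : 0 < W) (hq : 0 < q) (hRw : (i : ℝ) ≤ R * Real.exp (-W))
    (hnum : (Nat.lcmUpto i : ℝ) ^ (4 * i) * (((2 * i).factorial : ℝ) * (3 * i + 2) ^ (2 * i) *
      ((10000 * Real.exp (9 / 8 * q) * R ^ 4 * (3 * i + 1) ^ 2 / Real.exp (-W)) ^ (2 * i) *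
        (22 * (R * Real.exp (-W))) ^ (i * (i - 1)) *
        Real.exp (-(3 * q * i) + 9 * q ^ 2 / (4 * W)))) <
      (∏ n ∈ Finset.range i, ((n.factorial : ℕ) : ℝ)) ^ 2)
    (S : Finset ℤ)
    (hS : ∀ D ∈ S, ∃ p r : ℤ, |Fv a b c D p r| = 1 ∧ Real.exp q ≤ (r : ℝ) ∧
      (r : ℝ) ≤ Real.exp (9 / 8 * q) ∧ |(p : ℝ) / r - X0| ≤ Real.exp (-W)) :
    S.card ≤ 2 * i := by
  classical
  by_contra hcard
  push Not at hcard
  set w := Real.exp (-W) with hw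
  have hw0 : 0 < w := Real.exp_pos _
  have hw1 : w ≤ 1 := by
    rw [hw]; exact Real.exp_le_one_iff.2 (by linarith)
  have hQ1 : 1 ≤ Real.exp q := Real.one_le_exp hq.le
  obtain ⟨m, hm⟩ : ∃ m : ℤ,
      |-((a : ℝ) * X0 ^ 3 + 3 * b * X0 ^ 2 + 3 * c * X0) - m| ≤ 1 / 2 :=
    ⟨round (-((a : ℝ) * X0 ^ 3 + 3 * b * X0 ^ 2 + 3 * c * X0)), abs_sub_round _⟩
  have hch : ∀ d : ℤ, ∃ pr : ℤ × ℤ, d + m ∈ S → |Fv a b c (d + m) pr.1 pr.2| = 1 ∧
      Real.exp q ≤ (pr.2 : ℝ) ∧ (pr.2 : ℝ) ≤ Real.exp (9 / 8 * q) ∧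
      |(pr.1 : ℝ) / pr.2 - X0| ≤ w := by
    intro d
    by_cases h : d + m ∈ S
    · obtain ⟨p, r, h1, h2, h3, h4⟩ := hS _ h
      exact ⟨(p, r), fun _ => ⟨h1, h2, h3, h4⟩⟩
    · exact ⟨(0, 0), fun h' => absurd h' h⟩
  choose pr hpr using hch
  set S' := S.image (fun D => D - m) with hS'
  have hcardS' : S'.card = S.card := Finset.card_image_of_injective _ sub_left_injective
  have hmemS' : ∀ d ∈ S', d + m ∈ S := by
    intro d hd
    obtain ⟨D, hD, rfl⟩ := Finset.mem_image.1 hd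
    rw [sub_add_cancel]; exact hD
  obtain ⟨s, hs, hdet⟩ := exists_minor a b c m ha0 hbc i S' (by omega) (fun d => (pr d).1)
    (fun d => (pr d).2) (by
      intro d hd
      have h := (hpr d (hmemS' d hd)).2.1
      have h2 : (0 : ℝ) < (pr d).2 := by linarith [Real.exp_pos q]
      have h3 : 0 < (pr d).2 := by exact_mod_cast h2
      exact h3.ne')
  set M : Matrix (Fin i × Bool) (Fin i × Bool) ℤ := Matrix.of fun (j c' : Fin i × Bool) =>
        row a b c m (pr (s j).1).1 (pr (s j).1).2 (s j).1 (s j).2 (bp ((c'.1 : ℕ), c'.2)) with hM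
  have hdvd := det_dvd a b c m i (fun j => (pr (s j).1).1) (fun j => (pr (s j).1).2)
    (fun j => (s j).1) (fun j => (s j).2)
  have hL0 : (0 : ℤ) < (Nat.lcmUpto i : ℤ) := by exact_mod_cast Nat.lcmUpto_pos i
  have hint : (∏ n ∈ Finset.range i, (n.factorial : ℤ)) ^ 2 ≤
      (Nat.lcmUpto i : ℤ) ^ (4 * i) * |M.det| := by
    have h1 := Int.le_of_dvd (b := |(Nat.lcmUpto i : ℤ) ^ (4 * i) * M.det|)
      (abs_pos.2 (mul_ne_zero (by positivity) hdet)) ((dvd_abs _ _).2 hdvd)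
    rw [abs_mul, abs_of_pos (by positivity : (0 : ℤ) < (Nat.lcmUpto i : ℤ) ^ (4 * i))] at h1
    exact h1
  -- the real matrix
  set B : ℝ := 10000 * Real.exp (9 / 8 * q) * R ^ 4 * (3 * i + 1) ^ 2 / w with hB
  have hB0 : 0 ≤ B := by positivity
  set MR : Matrix (Fin i × Bool) (Fin i × Bool) ℝ := M.map (Int.castRingHom ℝ) with hMR
  have hMRdet : MR.det = ((M.det : ℤ) : ℝ) := by
    rw [hMR]
    exact ((Int.castRingHom ℝ).map_det M).symm
  let cf : ℕ → Fin i × Bool → ℝ := fun k c' => (wpol a b c m X0 (bp ((c'.1 : ℕ), c'.2))).coeff k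
  let y : ℕ → Fin i × Bool → ℝ := fun k j =>
    yv a b c (pr (s j).1).1 (pr (s j).1).2 X0 (s j).2 k
  let E : Matrix (Fin i × Bool) (Fin i × Bool) ℝ := Matrix.of fun j c' =>
    MR j c' - ∑ k ∈ Finset.range (3 * i + 1), cf k c' * y k j
  have hup := det_expand_le (3 * i + 1) MR cf y E
    (fun j c' => by
      show MR j c' = _ + (MR j c' - _)
      ring)
    (fun k c' => B * (22 * (R * w)) ^ (c'.1 : ℕ) * w ^ (k - (c'.1 : ℕ)))
    (fun c' => B * (22 * (R * w)) ^ (c'.1 : ℕ) * (1 / Real.exp q ^ 3))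
    (by
      intro k hk j c'
      obtain ⟨h1, h2, h3, h4⟩ := hpr (s j).1 (hmemS' _ (hs j))
      exact entry_term a b c m _ _ X0 R w (Real.exp (9 / 8 * q)) hX0 hR ha hb hc hw0 hw1 hm i hRw
        (hQ1.trans h2) h3 h4 (s j).2 c'.1 c'.1.2 c'.2 k hk)
    (by
      intro j c'
      obtain ⟨h1, h2, h3, h4⟩ := hpr (s j).1 (hmemS' _ (hs j))
      have h5 := entry_err a b c ((s j).1 + m) m _ _ X0 R w (Real.exp q) (Real.exp (9 / 8 * q)) hX0
        hR ha hb hc hw0 hw1 hm i hRw h1 hQ1 h2 h3 h4 (s j).2 c'.1 c'.1.2 c'.2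
      rw [add_sub_cancel_right] at h5
      exact h5)
    (B ^ (2 * i) * (22 * (R * w)) ^ (i * (i - 1)) *
      Real.exp (-(3 * q * i) + 9 * q ^ 2 / (4 * W)))
    (by
      intro κ _ hinj
      exact prod_le i B (22 * (R * w)) (1 / Real.exp q ^ 3) w _ hB0 (by positivity)
        (by positivity) hw0.le hw1 (fun t _ => T_le q W hW hq i t) κ hinj)
  have hcardι : Fintype.card (Fin i × Bool) = 2 * i := by
    rw [Fintype.card_prod, Fintype.card_fin, Fintype.card_bool, mul_comm]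
  rw [hcardι, hMRdet] at hup
  have hint' : (∏ n ∈ Finset.range i, ((n.factorial : ℕ) : ℝ)) ^ 2 ≤
      (Nat.lcmUpto i : ℝ) ^ (4 * i) * |((M.det : ℤ) : ℝ)| := by
    have := (Int.cast_le (R := ℝ)).2 hint
    rw [Int.cast_pow, Int.cast_prod, Int.cast_mul, Int.cast_pow, Int.cast_abs] at this
    simpa only [Int.cast_natCast] using this
  have hK : (((3 * i + 1 : ℕ) : ℝ) + 1) = 3 * i + 2 := by push_cast; ring
  rw [hK] at hup
  have hL0' : (0 : ℝ) < (Nat.lcmUpto i : ℝ) := by exact_mod_cast Nat.lcmUpto_pos i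
  have := mul_le_mul_of_nonneg_left hup (by positivity : (0 : ℝ) ≤ (Nat.lcmUpto i : ℝ) ^ (4 * i))
  linarith

end Pool.Agent.Work.MP_f2148a_nt.Exp
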