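import Mathlib
import Pool.Agent.Work.MP_f2148a_nt.Exp.Defs2

set_option autoImplicit false

namespace Pool.Agent.Work.MP_f2148a_nt.Exp

theorem super_log_factorial (i : ℕ) (hi : 1 ≤ i) :
    (i : ℝ) * Real.log i - i ≤ Real.log (i.factorial : ℝ) := by
  induction i, hi using Nat.le_induction with
  | base => simp
  | succ i hi ih =>
    have hi0 : (0 : ℝ) < i := by exact_mod_cast hi
    have h1 : Real.log ((i + 1 : ℕ).factorial : ℝ) =
        Real.log ((i : ℝ) + 1) + Real.log (i.factorial : ℝ) := by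
      rw [Nat.factorial_succ, Nat.cast_mul, Real.log_mul (by positivity) (by positivity)]
      push_cast
      rfl
    have h2 : Real.log ((i : ℝ) + 1) ≤ Real.log i + 1 / i := by
      have h3 : (i : ℝ) + 1 = i * (1 + 1 / i) := by field_simp
      rw [h3, Real.log_mul hi0.ne' (by positivity)]
      have h4 := Real.log_le_sub_one_of_pos (x := 1 + 1 / (i : ℝ)) (by positivity)
      linarith
    have h5 : (i : ℝ) * Real.log ((i : ℝ) + 1) ≤ i * Real.log i + 1 := by
      have := mul_le_mul_of_nonneg_left h2 hi0.le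
      have h6 : (i : ℝ) * (Real.log i + 1 / i) = i * Real.log i + 1 := by field_simp
      linarith
    rw [h1]
    push_cast
    nlinarith

/-- Module Super: superfactorial. -/
theorem superfactorial_ge (i : ℕ) (hi : 1 ≤ i) :
    (i : ℝ) ^ 2 / 2 * (Real.log i - 2) ≤ ∑ n ∈ Finset.range i, Real.log (n.factorial : ℝ) := by
  induction i, hi using Nat.le_induction with
  | base => simp
  | succ i hi ih =>
    have hi0 : (0 : ℝ) < i := by exact_mod_cast hi
    have hi1 : (1 : ℝ) ≤ i := by exact_mod_cast hi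
    rw [Finset.sum_range_succ]
    have hf := super_log_factorial i hi
    have h2 : Real.log ((i : ℝ) + 1) ≤ Real.log i + 1 / i := by
      have h3 : (i : ℝ) + 1 = i * (1 + 1 / i) := by field_simp
      rw [h3, Real.log_mul hi0.ne' (by positivity)]
      have h4 := Real.log_le_sub_one_of_pos (x := 1 + 1 / (i : ℝ)) (by positivity)
      linarith
    have h5 : Real.log i ≤ i - 1 := Real.log_le_sub_one_of_pos hi0
    have h6 : 1 / (i : ℝ) ≤ 1 := by rw [div_le_one hi0]; exact hi1
    have h7 : ((i : ℝ) + 1) ^ 2 / 2 * (Real.log ((i : ℝ) + 1) - 2) ≤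
        ((i : ℝ) + 1) ^ 2 / 2 * (Real.log i + 1 / i - 2) := by
      apply mul_le_mul_of_nonneg_left _ (by positivity)
      linarith
    have h8 : ((i : ℝ) + 1) ^ 2 / 2 * (1 / i) = (i + 2 + 1 / i) / 2 := by
      field_simp
      ring
    push_cast
    have h9 : ((i : ℝ) + 1) ^ 2 / 2 * (Real.log i + 1 / i - 2) =
        (i : ℝ) ^ 2 / 2 * (Real.log i - 2) + (i * Real.log i - i) +
          ((Real.log i + 1 / i - i) / 2) := by
      have : ((i : ℝ) + 1) ^ 2 / 2 * (Real.log i + 1 / i - 2) =
          ((i : ℝ) + 1) ^ 2 / 2 * (Real.log i - 2) + ((i : ℝ) + 1) ^ 2 / 2 * (1 / i) := by ring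
      rw [this, h8]
      ring
    linarith

end Pool.Agent.Work.MP_f2148a_nt.Exp
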