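import Mathlib
import Pool.Agent.Work.MP_f2148a_nt.Exp.Super

set_option autoImplicit false

namespace Pool.Agent.Work.MP_f2148a_nt.Exp

theorem log_lcm_le (i : ℕ) : Real.log (Nat.lcmUpto i : ℝ) ≤ 27 / 5 * i := by
  have h1 := Chebyshev.psi_eq_log_lcmUpto i
  have h2 := Chebyshev.psi_le_const_mul_self (x := (i : ℝ)) (by positivity)
  have h3 : Real.log 4 ≤ 7 / 5 := by
    have : Real.log 4 = 2 * Real.log 2 := by
      rw [show (4 : ℝ) = 2 ^ 2 by norm_num, Real.log_pow]; norm_num
    rw [this]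
    have := Real.log_two_lt_d9
    linarith
  rw [← h1]
  calc Chebyshev.psi (i : ℝ) ≤ (Real.log 4 + 4) * i := h2
    _ ≤ 27 / 5 * i := by
      gcongr
      linarith

theorem log_22 : Real.log 22 ≤ 32 / 10 := by
  have h1 : Real.log 22 = Real.log (22 / 2 ^ 4) + 4 * Real.log 2 := by
    rw [Real.log_div (by norm_num) (by norm_num), Real.log_pow]; push_cast; ring
  have h2 : Real.log (22 / 2 ^ 4) ≤ 22 / 2 ^ 4 - 1 := Real.log_le_sub_one_of_pos (by norm_num)
  have h3 := Real.log_two_lt_d9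
  rw [h1]
  linarith

theorem log_10000 : Real.log 10000 ≤ 10 := by
  have h1 : Real.log 10000 = 4 * Real.log (10 / 8) + 12 * Real.log 2 := by
    rw [show (10000 : ℝ) = (10 / 8) ^ 4 * 2 ^ 12 by norm_num,
      Real.log_mul (by norm_num) (by norm_num), Real.log_pow, Real.log_pow]
    push_cast; ring
  have h2 : Real.log (10 / 8) ≤ 10 / 8 - 1 := Real.log_le_sub_one_of_pos (by norm_num)
  have h3 := Real.log_two_lt_d9
  rw [h1]
  linarith

theorem log_fact_le (n : ℕ) : Real.log ((n.factorial : ℕ) : ℝ) ≤ n * Real.log n := by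
  have h1 : (n.factorial : ℝ) ≤ (n : ℝ) ^ n := by exact_mod_cast Nat.factorial_le_pow n
  have h2 : (0 : ℝ) < n.factorial := by exact_mod_cast Nat.factorial_pos n
  calc Real.log ((n.factorial : ℕ) : ℝ) ≤ Real.log ((n : ℝ) ^ n) := Real.log_le_log h2 h1
    _ = n * Real.log n := by rw [Real.log_pow]

theorem log_prod_fact (i : ℕ) : Real.log ((∏ n ∈ Finset.range i, ((n.factorial : ℕ) : ℝ)) ^ 2) =
    2 * ∑ n ∈ Finset.range i, Real.log (n.factorial : ℝ) := by
  rw [Real.log_pow, Real.log_prod]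
  · norm_num
  · intro n _
    exact_mod_cast (Nat.factorial_pos n).ne'

theorem num_arc (R W q : ℝ) (i : ℕ) (hR : 1 ≤ R) (hW : 1 ≤ W) (hq : 2 * W ≤ q)
    (hi1 : 9 * q / (2 * W) ≤ i) (hi2 : (i : ℝ) ≤ 5 * q / W)
    (hRw : (i : ℝ) ≤ R * Real.exp (-W))
    (hΓ : Real.log R - W - Real.log i + 27 ≤ W / 25)
    (hΩ : 40 * (Real.log (2 * i) + Real.log (3 * i + 2) + 10 + 4 * Real.log R +
      2 * Real.log (3 * i + 1) + W) < q) :
    (Nat.lcmUpto i : ℝ) ^ (4 * i) * (((2 * i).factorial : ℝ) * (3 * i + 2) ^ (2 * i) *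
      ((10000 * Real.exp (9 / 8 * q) * R ^ 4 * (3 * i + 1) ^ 2 / Real.exp (-W)) ^ (2 * i) *
        (22 * (R * Real.exp (-W))) ^ (i * (i - 1)) *
        Real.exp (-(3 * q * i) + 9 * q ^ 2 / (4 * W)))) <
      (∏ n ∈ Finset.range i, ((n.factorial : ℕ) : ℝ)) ^ 2 := by
  have hW0 : 0 < W := by linarith
  have hq0 : 0 < q := by linarith
  have hR0 : 0 < R := by linarith
  have hi0 : (0 : ℝ) < i := by
    have : 0 < 9 * q / (2 * W) := by positivity
    linarith
  have hi1' : 1 ≤ i := by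
    have : 0 < i := by exact_mod_cast hi0
    omega
  have hi1r : (1 : ℝ) ≤ i := by exact_mod_cast hi1'
  have hw0 : 0 < Real.exp (-W) := Real.exp_pos _
  have hL0 : (0 : ℝ) < Nat.lcmUpto i := by exact_mod_cast Nat.lcmUpto_pos i
  have hf0 : (0 : ℝ) < (2 * i).factorial := by exact_mod_cast Nat.factorial_pos _
  have hp0 : 0 < ∏ n ∈ Finset.range i, ((n.factorial : ℕ) : ℝ) := by
    apply Finset.prod_pos
    intro n _
    exact_mod_cast Nat.factorial_pos n
  rw [← Real.log_lt_log_iff (by positivity) (by positivity), log_prod_fact]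
  have hsup := superfactorial_ge i hi1'
  have hB0 : 0 < 10000 * Real.exp (9 / 8 * q) * R ^ 4 * (3 * i + 1) ^ 2 / Real.exp (-W) := by
    positivity
  rw [Real.log_mul (by positivity) (by positivity), Real.log_mul (by positivity) (by positivity),
    Real.log_mul (by positivity) (by positivity), Real.log_mul (by positivity) (by positivity),
    Real.log_mul (by positivity) (by positivity), Real.log_pow, Real.log_pow, Real.log_pow,
    Real.log_pow, Real.log_exp]
  have hlogB : Real.log (10000 * Real.exp (9 / 8 * q) * R ^ 4 * (3 * i + 1) ^ 2 / Real.exp (-W)) ≤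
      10 + 9 / 8 * q + 4 * Real.log R + 2 * Real.log (3 * i + 1) + W := by
    rw [Real.log_div (by positivity) (by positivity), Real.log_mul (by positivity) (by positivity),
      Real.log_mul (by positivity) (by positivity), Real.log_mul (by positivity) (by positivity),
      Real.log_exp, Real.log_exp, Real.log_pow, Real.log_pow]
    have := log_10000
    push_cast
    linarith
  have hlogG : Real.log (22 * (R * Real.exp (-W))) ≤ 32 / 10 + Real.log R - W := by
    rw [Real.log_mul (by positivity) (by positivity), Real.log_mul (by positivity) (by positivity),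
      Real.log_exp]
    have := log_22
    linarith
  have hlogG0 : 0 ≤ Real.log (22 * (R * Real.exp (-W))) := by
    apply Real.log_nonneg
    linarith
  have hlcm := log_lcm_le i
  have hfac := log_fact_le (2 * i)
  have e1 : ((4 * i : ℕ) : ℝ) * Real.log (Nat.lcmUpto i) ≤ 108 / 5 * (i : ℝ) ^ 2 := by
    push_cast
    calc 4 * (i : ℝ) * Real.log (Nat.lcmUpto i) ≤ 4 * (i : ℝ) * (27 / 5 * i) := by gcongr
      _ = 108 / 5 * (i : ℝ) ^ 2 := by ring
  have e2 : ((2 * i : ℕ) : ℝ) * Real.log (10000 * Real.exp (9 / 8 * q) * R ^ 4 *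
      (3 * i + 1) ^ 2 / Real.exp (-W)) ≤ 2 * i * (10 + 9 / 8 * q + 4 * Real.log R +
        2 * Real.log (3 * i + 1) + W) := by
    push_cast
    gcongr
  have e3 : ((i * (i - 1) : ℕ) : ℝ) * Real.log (22 * (R * Real.exp (-W))) ≤
      (i : ℝ) ^ 2 * (32 / 10 + Real.log R - W) := by
    calc ((i * (i - 1) : ℕ) : ℝ) * Real.log (22 * (R * Real.exp (-W)))
        ≤ (i : ℝ) ^ 2 * Real.log (22 * (R * Real.exp (-W))) := by
          gcongr
          have : i * (i - 1) ≤ i ^ 2 := by
            rw [sq]; exact Nat.mul_le_mul_left _ (Nat.sub_le _ _)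
          exact_mod_cast this
      _ ≤ _ := by gcongr
  have e4 : Real.log ((2 * i).factorial : ℝ) ≤ 2 * i * Real.log (2 * i) := by
    push_cast at hfac
    exact hfac
  have hiW : (i : ℝ) * W ≤ 5 * q := by
    rwa [le_div_iff₀ hW0] at hi2
  have f1 : (i : ℝ) ^ 2 * (Real.log R - W - Real.log i + 27) ≤ i * q / 5 := by
    calc (i : ℝ) ^ 2 * (Real.log R - W - Real.log i + 27) ≤ (i : ℝ) ^ 2 * (W / 25) := by gcongr
      _ = i * (i * W) / 25 := by ring
      _ ≤ i * (5 * q) / 25 := by gcongr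
      _ = i * q / 5 := by ring
  have f2 : 2 * (i : ℝ) * (Real.log (2 * i) + Real.log (3 * i + 2) + 10 + 4 * Real.log R +
      2 * Real.log (3 * i + 1) + W) < i * q / 20 := by
    have h := mul_lt_mul_of_pos_left hΩ hi0
    linarith
  have f3 : 9 * q ^ 2 / (4 * W) ≤ i * q / 2 := by
    calc 9 * q ^ 2 / (4 * W) = (9 * q / (2 * W)) * q / 2 := by field_simp; ring
      _ ≤ i * q / 2 := by gcongr
  have e5 : ((2 * i : ℕ) : ℝ) * Real.log (3 * i + 2) = 2 * i * Real.log (3 * i + 2) := by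
    push_cast; ring
  rw [e5]
  nlinarith [sq_nonneg (i : ℝ)]

end Pool.Agent.Work.MP_f2148a_nt.Exp
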