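import Mathlib
import Pool.Agent.Work.MP_f2148a_nt.Exp.Arc2
import Pool.Agent.Work.MP_f2148a_nt.Exp.NumArc

set_option autoImplicit false

namespace Pool.Agent.Work.MP_f2148a_nt.Exp

/-- Quadruples of size `≤ R` with a solution of size in `[exp q1, exp q2]`. -/
def Bal3 (R q1 q2 : ℝ) (q : ℤ × ℤ × ℤ × ℤ) : Prop :=
  q.1 ≠ 0 ∧ |(q.1 : ℝ)| ≤ R ∧ |(q.2.1 : ℝ)| ≤ R ∧ |(q.2.2.1 : ℝ)| ≤ R ∧
      |(q.2.2.2 : ℝ)| ≤ R ∧ ∃ p r : ℤ, |Fv q.1 q.2.1 q.2.2.1 q.2.2.2 p r| = 1 ∧
        Real.exp q1 ≤ (r : ℝ) ∧ (r : ℝ) ≤ Real.exp q2 ∧ |p| ≤ r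

theorem log_18 : Real.log 18 ≤ 3 := by
  have h1 : Real.log 18 = Real.log (18 / 2 ^ 4) + 4 * Real.log 2 := by
    rw [Real.log_div (by norm_num) (by norm_num), Real.log_pow]; push_cast; ring
  have h2 : Real.log (18 / 2 ^ 4) ≤ 18 / 2 ^ 4 - 1 := Real.log_le_sub_one_of_pos (by norm_num)
  have h3 := Real.log_two_lt_d9
  rw [h1]
  linarith

/-- One range of sizes. -/
theorem sub_bound (ε K q : ℝ) (hε0 : 0 < ε) (hε : ε ≤ 1 / 4) (hK : 1 ≤ K)
    (hl0 : 1 ≤ Real.log K)
    (hA : Real.log (Real.log K) + 40 ≤ ε / 1000 * Real.log K)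
    (hB : 2000 * Real.log K ≤ q) (hC : q ≤ 2 * K ^ (1 / 4 - ε))
    (S : Finset (ℤ × ℤ × ℤ × ℤ))
    (hS : ∀ x ∈ S, Bal3 (18 * K ^ (1 / 4 + 3 * (ε / 400))) q (9 / 8 * q) x) :
    (S.card : ℝ) ≤ 1485 * Real.exp 13 * K ^ (1 - 7 / 1000 * ε) := by
  have hKpos : 0 < K := by linarith
  set l := Real.log K with hl
  set R := 18 * K ^ (1 / 4 + 3 * (ε / 400)) with hR
  have hKl : ∀ x : ℝ, K ^ x = Real.exp (x * l) := fun x => by
    rw [Real.rpow_def_of_pos hKpos, mul_comm]
  have hll : 0 ≤ Real.log l := Real.log_nonneg hl0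
  have hεl : 40000 ≤ ε * l := by linarith
  have hl1 : 160000 ≤ l := by nlinarith
  have hq0 : 0 < q := by linarith
  have hq1 : 1 ≤ q := by linarith
  have hlq0 : 0 ≤ Real.log q := Real.log_nonneg hq1
  have hlogR : Real.log R = Real.log 18 + (1 / 4 + 3 * (ε / 400)) * l := by
    rw [hR, Real.log_mul (by norm_num) (by positivity), Real.log_rpow hKpos]
  have h18 := log_18
  have h18' : Real.log 2 ≤ Real.log 18 := Real.log_le_log (by norm_num) (by norm_num)
  have hl2 : Real.log 2 ≤ 1 := by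
    have := Real.log_two_lt_d9
    linarith
  have hl2' : 0 ≤ Real.log 2 := Real.log_nonneg (by norm_num)
  have hlq : Real.log q ≤ Real.log 2 + (1 / 4 - ε) * l := by
    calc Real.log q ≤ Real.log (2 * K ^ (1 / 4 - ε)) := Real.log_le_log hq0 hC
      _ = _ := by rw [Real.log_mul (by norm_num) (by positivity), Real.log_rpow hKpos]
  have hRpos : 0 < R := by positivity
  have hR1 : 1 ≤ R := by
    rw [← Real.log_nonneg_iff hRpos, hlogR]
    have : 0 ≤ (1 / 4 + 3 * (ε / 400)) * l := by positivity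
    linarith
  have hRl : Real.log R ≤ 26 / 100 * l := by
    rw [hlogR]
    nlinarith
  set W := 25 / 26 * (Real.log R - Real.log q + ε / 1000 * l) with hW
  have hRq : ε * l ≤ Real.log R - Real.log q := by
    rw [hlogR]
    nlinarith
  have hWl : W ≤ l := by
    rw [hW]; nlinarith
  have hW1 : 1 ≤ W := by
    rw [hW]; nlinarith
  have hW0 : 0 < W := by linarith
  have h2W : 2 * W ≤ q := by linarith
  obtain ⟨i, hi⟩ : ∃ i : ℕ, i = ⌈9 * q / (2 * W)⌉₊ := ⟨_, rfl⟩
  have hi1 : 9 * q / (2 * W) ≤ i := by rw [hi]; exact Nat.le_ceil _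
  have hi2 : (i : ℝ) ≤ 5 * q / W := by
    have h1 : (i : ℝ) < 9 * q / (2 * W) + 1 := by rw [hi]; exact Nat.ceil_lt_add_one (by positivity)
    have h2 : 1 ≤ q / (2 * W) := by rw [one_le_div (by positivity)]; exact h2W
    have h3 : 9 * q / (2 * W) + q / (2 * W) = 5 * q / W := by field_simp; ring
    linarith
  have hi5 : (i : ℝ) ≤ 5 * q := by
    refine hi2.trans ?_
    apply div_le_self (by positivity) hW1
  have hipos : (0 : ℝ) < i := lt_of_lt_of_le (by positivity) hi1
  have hi1n : 1 ≤ i := by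
    have : 0 < i := by exact_mod_cast hipos
    omega
  have hi1r : (1 : ℝ) ≤ i := by exact_mod_cast hi1n
  have hlogW : Real.log W ≤ Real.log l := Real.log_le_log hW0 hWl
  have hlogi : Real.log q - Real.log W ≤ Real.log i := by
    rw [← Real.log_div hq0.ne' hW0.ne']
    apply Real.log_le_log (by positivity)
    refine le_trans ?_ hi1
    rw [div_le_div_iff₀ hW0 (by positivity)]
    nlinarith [mul_pos hq0 hW0]
  have hRw : (i : ℝ) ≤ R * Real.exp (-W) := by
    refine hi5.trans ?_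
    have h5 : Real.log 5 ≤ 2 := by
      have h1 : Real.log 5 = Real.log (5 / 4) + 2 * Real.log 2 := by
        rw [Real.log_div (by norm_num) (by norm_num), show (4 : ℝ) = 2 ^ 2 by norm_num,
          Real.log_pow]; push_cast; ring
      have h2 : Real.log (5 / 4) ≤ 5 / 4 - 1 := Real.log_le_sub_one_of_pos (by norm_num)
      have h3 := Real.log_two_lt_d9
      linarith
    rw [← Real.log_le_log_iff (by positivity) (by positivity),
      Real.log_mul (by norm_num) hq0.ne', Real.log_mul hRpos.ne' (Real.exp_pos _).ne',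
      Real.log_exp, hW]
    nlinarith
  have hΓ : Real.log R - W - Real.log i + 27 ≤ W / 25 := by
    have : 26 / 25 * W = Real.log R - Real.log q + ε / 1000 * l := by rw [hW]; ring
    linarith
  have hq4 : Real.log q ≤ 1 + l / 4 := by nlinarith
  have hΩ : 40 * (Real.log (2 * i) + Real.log (3 * i + 2) + 10 + 4 * Real.log R +
      2 * Real.log (3 * i + 1) + W) < q := by
    have h17 : Real.log 17 ≤ 3 := (Real.log_le_log (by norm_num) (by norm_num)).trans log_18
    have a1 : Real.log (2 * i) ≤ 4 + l / 4 := by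
      calc Real.log (2 * i) ≤ Real.log (17 * q) := Real.log_le_log (by positivity) (by linarith)
        _ = Real.log 17 + Real.log q := Real.log_mul (by norm_num) hq0.ne'
        _ ≤ _ := by linarith
    have a2 : Real.log (3 * i + 2) ≤ 4 + l / 4 := by
      calc Real.log (3 * i + 2) ≤ Real.log (17 * q) := Real.log_le_log (by positivity) (by linarith)
        _ = Real.log 17 + Real.log q := Real.log_mul (by norm_num) hq0.ne'
        _ ≤ _ := by linarith
    have a3 : Real.log (3 * i + 1) ≤ 4 + l / 4 := by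
      calc Real.log (3 * i + 1) ≤ Real.log (17 * q) := Real.log_le_log (by positivity) (by linarith)
        _ = Real.log 17 + Real.log q := Real.log_mul (by norm_num) hq0.ne'
        _ ≤ _ := by linarith
    nlinarith
  have hnum := num_arc R W q i hR1 hW1 h2W hi1 hi2 hRw hΓ hΩ
  have hcount := bal_count2 R (Real.exp (-W)) (Real.exp q) (Real.exp (9 / 8 * q)) (2 * i) hR1
    (Real.exp_pos _) (Real.exp_le_one_iff.2 (by linarith)) (Real.one_le_exp hq0.le)
    (fun a b c X0 T ha hbc haR hbR hcR hX0 hT =>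
      arc_card2 a b c ha hbc X0 R W q i hX0 hR1 haR hbR hcR hW0 hq0 hRw hnum T hT) S hS
  refine hcount.trans ?_
  have hE : 2 / Real.exp (-W) = 2 * Real.exp W := by
    rw [Real.exp_neg]; field_simp
  rw [hE]
  have hE1 : 1 ≤ Real.exp W := Real.one_le_exp hW0.le
  have b1 : (2 * R + 1) ^ 3 ≤ (3 * R) ^ 3 := by gcongr; linarith
  have b2 : (2 * Real.exp W + 3) * ((2 * i : ℕ) : ℝ) + 1 ≤ 55 * (Real.exp W * q) := by
    push_cast
    calc (2 * Real.exp W + 3) * (2 * i) + 1 ≤ (5 * Real.exp W) * (2 * i) + Real.exp W * i := by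
          have h1 : (1 : ℝ) ≤ Real.exp W * i := by nlinarith
          have h2 : (2 * Real.exp W + 3) * (2 * (i : ℝ)) ≤ (5 * Real.exp W) * (2 * i) := by
            gcongr; linarith
          linarith
      _ = 11 * Real.exp W * i := by ring
      _ ≤ 11 * Real.exp W * (5 * q) := by gcongr
      _ = 55 * (Real.exp W * q) := by ring
  have b3 : R ^ 3 = Real.exp (3 * Real.log R) := by
    rw [← Real.exp_log hRpos, ← Real.exp_nat_mul, Real.log_exp]; push_cast; rfl
  have b4 : Real.exp W * q = Real.exp (W + Real.log q) := by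
    rw [Real.exp_add, Real.exp_log hq0]
  calc (2 * R + 1) ^ 3 * ((2 * Real.exp W + 3) * ((2 * i : ℕ) : ℝ) + 1)
      ≤ (3 * R) ^ 3 * (55 * (Real.exp W * q)) := by gcongr
    _ = 1485 * (R ^ 3 * (Real.exp W * q)) := by ring
    _ = 1485 * Real.exp (3 * Real.log R + (W + Real.log q)) := by
        rw [b3, b4, ← Real.exp_add]
    _ ≤ 1485 * Real.exp (13 + (1 - 7 / 1000 * ε) * l) := by
        apply mul_le_mul_of_nonneg_left _ (by norm_num)
        apply Real.exp_le_exp.2
        have e1 : 3 * Real.log R + (W + Real.log q) =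
            103 / 26 * Real.log R + 1 / 26 * Real.log q + 25 / 26 * (ε / 1000 * l) := by
          rw [hW]; ring
        rw [e1, hlogR]
        have e2 : 0 ≤ ε * l := by positivity
        linarith
    _ = 1485 * Real.exp 13 * K ^ (1 - 7 / 1000 * ε) := by
        rw [Real.exp_add, hKl]; ring

end Pool.Agent.Work.MP_f2148a_nt.Exp
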