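import Mathlib
import Pool.Agent.Work.MP_f2148a_nt.Exp.Sub2

set_option autoImplicit false

namespace Pool.Agent.Work.MP_f2148a_nt.Exp

/-- All ranges together. -/
theorem range_bound (ε K q0 : ℝ) (hε0 : 0 < ε) (hε : ε ≤ 1 / 4) (hK : 1 ≤ K)
    (hl0 : 1 ≤ Real.log K)
    (hA : Real.log (Real.log K) + 40 ≤ ε / 1000 * Real.log K)
    (hB : 2000 * Real.log K ≤ q0)
    (S : Finset (ℤ × ℤ × ℤ × ℤ))
    (hS : ∀ x ∈ S, Bal3 (18 * K ^ (1 / 4 + 3 * (ε / 400))) q0 (2 * K ^ (1 / 4 - ε)) x) :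
    (S.card : ℝ) ≤ (14850 * Real.exp 13 * (1000 / ε)) * K ^ (1 - 6 / 1000 * ε) := by
  classical
  have hKpos : 0 < K := by linarith
  set l := Real.log K with hl
  have hq0 : 0 < q0 := by linarith
  have hq1 : 1 ≤ q0 := by linarith
  set R := 18 * K ^ (1 / 4 + 3 * (ε / 400)) with hR
  set Z := 1485 * Real.exp 13 * K ^ (1 - 7 / 1000 * ε) with hZ
  have hZ0 : 0 ≤ Z := by positivity
  have hex : ∀ x : ℤ × ℤ × ℤ × ℤ, ∃ n : ℕ, x ∈ S → n < ⌊9 * l⌋₊ + 1 ∧
      q0 * (9 / 8) ^ n ≤ 2 * K ^ (1 / 4 - ε) ∧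
      Bal3 R (q0 * (9 / 8) ^ n) (9 / 8 * (q0 * (9 / 8) ^ n)) x := by
    intro x
    by_cases hx : x ∈ S
    · obtain ⟨h1, h2, h3, h4, h5, p, r, h6, h7, h8, h9⟩ := hS x hx
      have hr0 : (0 : ℝ) < r := (Real.exp_pos _).trans_le h7
      have hu1 : q0 ≤ Real.log r := by
        rw [← Real.log_exp q0]; exact Real.log_le_log (Real.exp_pos _) h7
      have hu2 : Real.log r ≤ 2 * K ^ (1 / 4 - ε) := by
        rw [← Real.log_exp (2 * K ^ (1 / 4 - ε))]; exact Real.log_le_log hr0 h8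
      obtain ⟨n, hn1, hn2⟩ := exists_nat_pow_near (x := Real.log r / q0) (y := 9 / 8)
        (by rw [one_le_div hq0]; exact hu1) (by norm_num)
      have hn1' : q0 * (9 / 8) ^ n ≤ Real.log r := by
        rw [le_div_iff₀ hq0] at hn1; linarith
      have hn2' : Real.log r ≤ 9 / 8 * (q0 * (9 / 8) ^ n) := by
        rw [div_lt_iff₀ hq0, pow_succ] at hn2; linarith
      refine ⟨n, fun _ => ⟨?_, hn1'.trans hu2, h1, h2, h3, h4, h5, p, r, h6, ?_, ?_, h9⟩⟩
      · rw [Nat.lt_succ_iff]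
        apply Nat.le_floor
        have h10 : ((9 : ℝ) / 8) ^ n ≤ K := by
          have a1 : ((9 : ℝ) / 8) ^ n ≤ 2 * K ^ (1 / 4 - ε) := by
            calc ((9 : ℝ) / 8) ^ n ≤ q0 * (9 / 8) ^ n := by
                  have : (0 : ℝ) < (9 / 8) ^ n := by positivity
                  nlinarith
              _ ≤ _ := hn1'.trans hu2
          have a2 : K ^ (1 / 4 - ε) ≤ K ^ (1 / 4 : ℝ) :=
            Real.rpow_le_rpow_of_exponent_le hK (by linarith)
          have a3 : (2 : ℝ) ≤ K ^ (3 / 4 : ℝ) := by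
            rw [Real.rpow_def_of_pos hKpos]
            have h40 : 40 ≤ l := by
              have := Real.log_nonneg hl0
              nlinarith
            have : (2 : ℝ) ≤ Real.exp 1 := by
              have := Real.add_one_le_exp (1 : ℝ)
              linarith
            refine this.trans (Real.exp_le_exp.2 ?_)
            linarith
          calc ((9 : ℝ) / 8) ^ n ≤ 2 * K ^ (1 / 4 - ε) := a1
            _ ≤ K ^ (3 / 4 : ℝ) * K ^ (1 / 4 : ℝ) := by gcongr
            _ = K := by rw [← Real.rpow_add hKpos]; norm_num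
        have h11 : (n : ℝ) * Real.log (9 / 8) ≤ l := by
          rw [← Real.log_pow]
          exact Real.log_le_log (by positivity) h10
        have h12 : (1 : ℝ) / 9 ≤ Real.log (9 / 8) := by
          have := Real.one_sub_inv_le_log_of_pos (x := 9 / 8) (by norm_num)
          norm_num at this ⊢
          linarith
        have h13 : (n : ℝ) * (1 / 9) ≤ n * Real.log (9 / 8) := by gcongr
        linarith
      · rw [← Real.exp_log hr0]; exact Real.exp_le_exp.2 hn1'
      · conv_lhs => rw [← Real.exp_log hr0]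
        exact Real.exp_le_exp.2 hn2'
    · exact ⟨0, fun h => absurd h hx⟩
  choose f hf using hex
  have hsum : S.card = ∑ n ∈ Finset.range (⌊9 * l⌋₊ + 1), (S.filter (fun x => f x = n)).card := by
    apply Finset.card_eq_sum_card_fiberwise
    intro x hx
    exact Finset.mem_coe.2 (Finset.mem_range.2 (hf x hx).1)
  have hfib : ∀ n ∈ Finset.range (⌊9 * l⌋₊ + 1),
      ((S.filter (fun x => f x = n)).card : ℝ) ≤ Z := by
    intro n _
    rcases (S.filter (fun x => f x = n)).eq_empty_or_nonempty with h | ⟨x, hx⟩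
    · rw [h]; simpa using hZ0
    · obtain ⟨hxS, hxn⟩ := Finset.mem_filter.1 hx
      have h1 := (hf x hxS).2.1
      rw [hxn] at h1
      apply sub_bound ε K (q0 * (9 / 8) ^ n) hε0 hε hK hl0 hA ?_ h1
      · intro z hz
        obtain ⟨hzS, hzn⟩ := Finset.mem_filter.1 hz
        have h2 := (hf z hzS).2.2
        rw [hzn] at h2
        exact h2
      · refine hB.trans ?_
        have : (1 : ℝ) ≤ (9 / 8) ^ n := one_le_pow₀ (by norm_num)
        nlinarith
  have hlogK : l ≤ (1000 / ε) * K ^ (1 / 1000 * ε) := by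
    have h := Real.log_le_rpow_div (x := K) (ε := 1 / 1000 * ε) hKpos.le (by positivity)
    calc l ≤ K ^ (1 / 1000 * ε) / (1 / 1000 * ε) := h
      _ = _ := by field_simp
  have hfl : ((⌊9 * l⌋₊ + 1 : ℕ) : ℝ) ≤ 10 * l := by
    push_cast
    have := Nat.floor_le (a := 9 * l) (by linarith)
    linarith
  calc (S.card : ℝ) = ∑ n ∈ Finset.range (⌊9 * l⌋₊ + 1),
        ((S.filter (fun x => f x = n)).card : ℝ) := by rw [hsum]; push_cast; rfl
    _ ≤ ∑ n ∈ Finset.range (⌊9 * l⌋₊ + 1), Z := Finset.sum_le_sum hfib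
    _ = ((⌊9 * l⌋₊ + 1 : ℕ) : ℝ) * Z := by
        rw [Finset.sum_const, Finset.card_range, nsmul_eq_mul]
    _ ≤ (10 * ((1000 / ε) * K ^ (1 / 1000 * ε))) * Z := by
        gcongr
        linarith
    _ = (14850 * Real.exp 13 * (1000 / ε)) * (K ^ (1 / 1000 * ε) * K ^ (1 - 7 / 1000 * ε)) := by
        rw [hZ]; ring
    _ = _ := by
        rw [← Real.rpow_add hKpos]
        congr 2
        ring

end Pool.Agent.Work.MP_f2148a_nt.Exp
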