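import Mathlib
import Pool.Agent.Work.MP_f2148a_nt.Exp.Defs

set_option autoImplicit false

namespace Pool.Agent.Work.MP_f2148a_nt.Exp

private lemma c_bound (ζ c : ℕ) (hc : c = 3 * ζ / 2999 + 1) :
    2999 * c ≤ 3 * ζ + 2999 ∧ 3 * ζ < 2999 * c := by
  subst hc; constructor <;> omega

/-- Module ArcNum, first inequality. -/
theorem arc_num1 (G ζ i k μ : ℕ) (hζ : 16500 ≤ ζ) (hG : ζ ^ 4 ≤ G) (hi : i = ζ / 30)
    (hk : k = i + (3 * ζ / 2999 + 1)) (hμ : μ = 2 * ζ - 2 * i - 8) :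
    (2 * (3 * i * G ^ μ * (20 * G) ^ i * (16 * k * G ^ (ζ + 1))) + 1) ^ k *
      ((2 * G ^ 12001 + 1) ^ i + 1) < (G ^ μ) ^ (2 * i) := by
  obtain ⟨c, hc⟩ : ∃ c, c = 3 * ζ / 2999 + 1 := ⟨_, rfl⟩
  obtain ⟨hc1, hc2⟩ := c_bound ζ c hc
  rw [← hc] at hk
  have hi1 : 550 ≤ i := by omega
  have hi2 : 30 * i ≤ ζ := by omega
  have hi3 : ζ < 30 * i + 30 := by omega
  have hG1 : 16500 * ζ ^ 3 ≤ G := by
    calc 16500 * ζ ^ 3 ≤ ζ * ζ ^ 3 := by gcongr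
      _ = ζ ^ 4 := by ring
      _ ≤ G := hG
  have hG1' : 16500 ^ 3 * ζ ≤ G := by
    calc 16500 ^ 3 * ζ ≤ ζ ^ 3 * ζ := by gcongr
      _ = ζ ^ 4 := by ring
      _ ≤ G := hG
  have hG2 : 97 * i * k ≤ G := by
    have hk2 : k ≤ ζ := by omega
    have hi4 : i ≤ ζ := by omega
    calc 97 * i * k ≤ 97 * ζ * ζ := by gcongr
      _ = 97 * 1 * ζ ^ 2 := by ring
      _ ≤ 16500 * ζ * ζ ^ 2 := by gcongr <;> omega
      _ = 16500 * ζ ^ 3 := by ring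
      _ ≤ G := hG1
  have hG20 : 20 ≤ G := by omega
  have hGpos : 1 ≤ G := by omega
  have hG2' : 2 ≤ G := by omega
  -- first factor
  have e1 : 2 * (3 * i * G ^ μ * (20 * G) ^ i * (16 * k * G ^ (ζ + 1))) + 1 ≤ G ^ (3 * ζ - 6) := by
    have hik : 1 ≤ i * k := by
      have : 1 ≤ i := by omega
      have : 1 ≤ k := by omega
      exact Nat.mul_pos (by omega) (by omega)
    have hb : 1 ≤ i * k * (20 ^ i * G ^ (μ + i + ζ + 1)) :=
      Nat.mul_pos hik (Nat.mul_pos (by positivity) (by positivity))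
    calc 2 * (3 * i * G ^ μ * (20 * G) ^ i * (16 * k * G ^ (ζ + 1))) + 1
        = 96 * (i * k * (20 ^ i * G ^ (μ + i + ζ + 1))) + 1 := by
          rw [mul_pow]; ring
      _ ≤ 97 * (i * k * (20 ^ i * G ^ (μ + i + ζ + 1))) := by omega
      _ = (97 * i * k) * (20 ^ i * G ^ (μ + i + ζ + 1)) := by ring
      _ ≤ G * (G ^ i * G ^ (μ + i + ζ + 1)) := by gcongr
      _ = G ^ (μ + 2 * i + ζ + 2) := by ring
      _ = G ^ (3 * ζ - 6) := by congr 1; omega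
  -- second factor
  have e2 : (2 * G ^ 12001 + 1) ^ i + 1 ≤ G ^ (12002 * i) := by
    have h1 : 1 ≤ G ^ 12001 := Nat.one_le_pow _ _ hGpos
    have h2 : 2 * G ^ 12001 + 1 ≤ 3 * G ^ 12001 := by omega
    have h3 : 1 ≤ (3 * G ^ 12001) ^ i := Nat.one_le_pow _ _ (by omega)
    calc (2 * G ^ 12001 + 1) ^ i + 1 ≤ (3 * G ^ 12001) ^ i + (3 * G ^ 12001) ^ i := by
          gcongr
      _ = 2 * (3 * G ^ 12001) ^ i := by ring
      _ ≤ 2 ^ i * (3 * G ^ 12001) ^ i := by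
          gcongr
          calc 2 = 2 ^ 1 := by norm_num
            _ ≤ 2 ^ i := Nat.pow_le_pow_right (by norm_num) (by omega)
      _ = (6 * G ^ 12001) ^ i := by rw [← mul_pow]; ring
      _ ≤ (G * G ^ 12001) ^ i := by gcongr; omega
      _ = G ^ (12002 * i) := by rw [← pow_succ', ← pow_mul]
  have hexp : (3 * ζ - 6) * k + 12002 * i < 2 * i * μ := by
    have key : 3 * ζ * c + 12012 * i + 4 * i * i < i * ζ + 6 * c := by
      obtain ⟨r, hr⟩ : ∃ r, ζ = 30 * i + r := ⟨ζ - 30 * i, by omega⟩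
      have hr2 : r < 30 := by omega
      have a1 : 2999 * (3 * ζ * c) ≤ 3 * ζ * (3 * ζ + 2999) := by
        calc 2999 * (3 * ζ * c) = 3 * ζ * (2999 * c) := by ring
          _ ≤ 3 * ζ * (3 * ζ + 2999) := by gcongr
      have a2 : 3 * ζ * (3 * ζ + 2999) + 2999 * (12012 * i + 4 * i * i) < 2999 * (i * ζ) := by
        subst hr
        nlinarith [Nat.mul_le_mul hi1 (le_refl i), Nat.mul_le_mul hi1 (le_refl r),
          Nat.mul_le_mul hr2.le (le_refl r)]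
      omega
    have hμ2 : μ + 2 * i + 8 = 2 * ζ := by omega
    have h36 : (3 * ζ - 6) + 6 = 3 * ζ := by omega
    obtain ⟨u, hu⟩ : ∃ u, u = 3 * ζ - 6 := ⟨_, rfl⟩
    rw [← hu] at h36 ⊢
    rw [hk]
    zify at *
    have hu2 : (u : ℤ) = 3 * ζ - 6 := by linarith
    have hμ3 : (μ : ℤ) = 2 * ζ - 2 * i - 8 := by linarith
    rw [hu2, hμ3]
    nlinarith
  calc (2 * (3 * i * G ^ μ * (20 * G) ^ i * (16 * k * G ^ (ζ + 1))) + 1) ^ k *
      ((2 * G ^ 12001 + 1) ^ i + 1) ≤ (G ^ (3 * ζ - 6)) ^ k * G ^ (12002 * i) :=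
        Nat.mul_le_mul (Nat.pow_le_pow_left e1 k) e2
    _ = G ^ ((3 * ζ - 6) * k + 12002 * i) := by rw [← pow_mul, ← pow_add]
    _ < G ^ (2 * i * μ) := Nat.pow_lt_pow_right (by omega) hexp
    _ = (G ^ μ) ^ (2 * i) := by rw [← pow_mul, mul_comm]

/-- Module ArcNum, second inequality. -/
theorem arc_num2 (G ζ i k μ : ℕ) (hζ : 16500 ≤ ζ) (hG : ζ ^ 4 ≤ G) (hi : i = ζ / 30)
    (hk : k = i + (3 * ζ / 2999 + 1)) (hμ : μ = 2 * ζ - 2 * i - 8) :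
    3 * i * G ^ μ * (20 * G ^ 3000) ^ i * (16 * G ^ (ζ + 1)) ≤ G ^ (2999 * k) := by
  obtain ⟨c, hc⟩ : ∃ c, c = 3 * ζ / 2999 + 1 := ⟨_, rfl⟩
  obtain ⟨hc1, hc2⟩ := c_bound ζ c hc
  rw [← hc] at hk
  have hi1 : 550 ≤ i := by omega
  have hi2 : 30 * i ≤ ζ := by omega
  have hG1' : 16500 ^ 3 * ζ ≤ G := by
    calc 16500 ^ 3 * ζ ≤ ζ ^ 3 * ζ := by gcongr
      _ = ζ ^ 4 := by ring
      _ ≤ G := hG
  have hG20 : 20 ≤ G := by omega
  have hG48 : 48 * i ≤ G := by omega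
  calc 3 * i * G ^ μ * (20 * G ^ 3000) ^ i * (16 * G ^ (ζ + 1))
      = (48 * i) * (20 ^ i * G ^ (μ + 3000 * i + ζ + 1)) := by
        rw [mul_pow, ← pow_mul]; ring
    _ ≤ G * (G ^ i * G ^ (μ + 3000 * i + ζ + 1)) := by gcongr
    _ = G ^ (μ + 3001 * i + ζ + 2) := by ring
    _ ≤ G ^ (2999 * k) := Nat.pow_le_pow_right (by omega) (by rw [hk]; omega)

end Pool.Agent.Work.MP_f2148a_nt.Exp
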