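import Mathlib
import Pool.Agent.Work.MP_f2148a_nt.Exp.Defs

set_option autoImplicit false

namespace Pool.Agent.Work.MP_f2148a_nt.Exp

/-- Module Pigeon. -/
theorem pigeon {α : Type*} (s : Finset α) (k : ℕ) (φ : α → Fin k → ℝ) (B : ℕ)
    (hB : ∀ a ∈ s, ∀ j, |φ a j| ≤ (B : ℝ)) (N : ℕ) (h : (2 * B + 1) ^ k * N < s.card) :
    ∃ t ⊆ s, N < t.card ∧ ∀ a ∈ t, ∀ b ∈ t, ∀ j, |φ a j - φ b j| < 1 := by
  classical
  set T : Finset (Fin k → ℤ) := Fintype.piFinset (fun _ => Finset.Icc (-(B : ℤ)) B) with hT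
  have hcard : T.card = (2 * B + 1) ^ k := by
    rw [hT, Fintype.card_piFinset]
    simp only [Int.card_Icc, Finset.prod_const, Finset.card_univ, Fintype.card_fin]
    congr 1
    omega
  have hmaps : ∀ a ∈ s, (fun j => ⌊φ a j⌋) ∈ T := by
    intro a ha
    rw [hT, Fintype.mem_piFinset]
    intro j
    have h1 := abs_le.1 (hB a ha j)
    rw [Finset.mem_Icc]
    constructor
    · rw [Int.le_floor]
      push_cast
      exact h1.1
    · have h2 : ((⌊φ a j⌋ : ℤ) : ℝ) ≤ ((B : ℤ) : ℝ) := by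
        push_cast
        exact le_trans (Int.floor_le _) h1.2
      exact_mod_cast h2
  have hlt : T.card * N < s.card := by rw [hcard]; exact h
  obtain ⟨y, _, hy⟩ := Finset.exists_lt_card_fiber_of_mul_lt_card_of_maps_to hmaps hlt
  refine ⟨s.filter (fun a => (fun j => ⌊φ a j⌋) = y), Finset.filter_subset _ _, hy, ?_⟩
  intro a ha b hb j
  have h1 := congrFun (Finset.mem_filter.1 ha).2 j
  have h2 := congrFun (Finset.mem_filter.1 hb).2 j
  exact Int.abs_sub_lt_one_of_floor_eq_floor (h1.trans h2.symm)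

end Pool.Agent.Work.MP_f2148a_nt.Exp
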