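import Mathlib
import Pool.Agent.Work.MP_f2148a_nt.Exp.Defs
import Pool.Agent.Work.MP_f2148a_nt.Exp.WBound
import Pool.Agent.Work.MP_f2148a_nt.Exp.Pigeon
import Pool.Agent.Work.MP_f2148a_nt.Exp.ArcNum
import Pool.Agent.Work.MP_f2148a_nt.Exp.NHat
import Pool.Agent.Work.MP_f2148a_nt.Exp.Family

set_option autoImplicit false

namespace Pool.Agent.Work.MP_f2148a_nt.Exp

open Polynomial

/-- The polynomial with given digits. -/
noncomputable def pol (i M : ℕ) (u : Fin i → Fin M) : ℤ[X] :=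
  ∑ j : Fin i, monomial (j : ℕ) (((u j : ℕ) : ℤ))

theorem pol_coeff (i M : ℕ) (u : Fin i → Fin M) (n : ℕ) :
    (pol i M u).coeff n = if h : n < i then ((u ⟨n, h⟩ : ℕ) : ℤ) else 0 := by
  unfold pol
  rw [finsetSum_coeff]
  split_ifs with h
  · rw [Finset.sum_eq_single (⟨n, h⟩ : Fin i)]
    · rw [coeff_monomial]; simp
    · intro b _ hb
      rw [coeff_monomial, if_neg]
      intro h2
      apply hb
      ext
      exact h2
    · intro h2
      exact absurd (Finset.mem_univ _) h2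
  · apply Finset.sum_eq_zero
    intro b _
    rw [coeff_monomial, if_neg]
    have := b.2
    omega

theorem pol_inj (i M : ℕ) (u v : Fin i → Fin M) (h : pol i M u = pol i M v) : u = v := by
  funext j
  have h1 := congrArg (fun p : ℤ[X] => p.coeff (j : ℕ)) h
  simp only [pol_coeff, j.2, dite_true] at h1
  ext
  exact_mod_cast h1

theorem pol_sub_natDegree (i M : ℕ) (hi : 0 < i) (u v : Fin i → Fin M) :
    (pol i M u - pol i M v).natDegree < i := by
  rw [Nat.lt_iff_le_pred hi, natDegree_le_iff_coeff_eq_zero]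
  intro n hn
  have h : ¬ n < i := by
    have := Nat.pred_eq_sub_one (n := i)
    omega
  rw [coeff_sub, pol_coeff, pol_coeff, dif_neg h, dif_neg h, sub_zero]

theorem pol_natDegree (i M : ℕ) (hi : 0 < i) (u : Fin i → Fin M) :
    (pol i M u).natDegree < i := by
  rw [Nat.lt_iff_le_pred hi, natDegree_le_iff_coeff_eq_zero]
  intro n hn
  have h : ¬ n < i := by
    have := Nat.pred_eq_sub_one (n := i)
    omega
  rw [pol_coeff, dif_neg h]

theorem pol_coeff_le (i M : ℕ) (u : Fin i → Fin M) (n : ℕ) :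
    0 ≤ (pol i M u).coeff n ∧ (pol i M u).coeff n ≤ M := by
  rw [pol_coeff]
  split_ifs with h
  · exact ⟨by positivity, by exact_mod_cast (u ⟨n, h⟩).2.le⟩
  · exact ⟨le_rfl, by positivity⟩

theorem wpol_sub (a b c m : ℤ) (X0 : ℝ) (f g : ℤ[X] × ℤ[X]) :
    wpol a b c m X0 (f - g) = wpol a b c m X0 f - wpol a b c m X0 g := by
  unfold wpol
  simp only [Prod.fst_sub, Prod.snd_sub, Polynomial.map_sub, sub_comp]
  ring

theorem coeff_le_nrm (w : ℝ[X]) (ρ : ℝ) (hρ : 0 ≤ ρ) (k : ℕ) :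
    |w.coeff k| * ρ ^ k ≤ nrm w ρ := by
  unfold nrm
  by_cases h : k ∈ w.support
  · exact Finset.single_le_sum (f := fun k => |w.coeff k| * ρ ^ k)
      (fun j _ => by positivity) h
  · rw [notMem_support_iff.1 h, abs_zero, zero_mul]
    exact Finset.sum_nonneg (fun j _ => by positivity)

theorem nrm_split (w : ℝ[X]) (ρ δ : ℝ) (k : ℕ) (hρ0 : 0 ≤ ρ) (hρ1 : ρ ≤ 1) (hδ0 : 0 ≤ δ)
    (h : ∀ j < k, |w.coeff j| * ρ ^ j ≤ δ) : nrm w ρ ≤ k * δ + ρ ^ k * nrm w 1 := by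
  unfold nrm
  rw [← Finset.sum_filter_add_sum_filter_not w.support (fun j => j < k)]
  apply add_le_add
  · calc ∑ j ∈ w.support.filter (fun j => j < k), |w.coeff j| * ρ ^ j
        ≤ ∑ j ∈ w.support.filter (fun j => j < k), δ :=
          Finset.sum_le_sum (fun j hj => h j (Finset.mem_filter.1 hj).2)
      _ ≤ ∑ j ∈ Finset.range k, δ := by
          apply Finset.sum_le_sum_of_subset_of_nonneg
          · intro j hj
            exact Finset.mem_range.2 (Finset.mem_filter.1 hj).2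
          · intro _ _ _; exact hδ0
      _ = k * δ := by rw [Finset.sum_const, Finset.card_range, nsmul_eq_mul]
  · rw [Finset.mul_sum]
    calc ∑ j ∈ w.support.filter (fun j => ¬ j < k), |w.coeff j| * ρ ^ j
        ≤ ∑ j ∈ w.support.filter (fun j => ¬ j < k), ρ ^ k * (|w.coeff j| * 1 ^ j) := by
          apply Finset.sum_le_sum
          intro j hj
          have hj2 : k ≤ j := not_lt.1 (Finset.mem_filter.1 hj).2
          rw [one_pow, mul_one, mul_comm]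
          gcongr ?_ * _
          exact pow_le_pow_of_le_one hρ0 hρ1 hj2
      _ ≤ _ := by
          apply Finset.sum_le_sum_of_subset_of_nonneg (Finset.filter_subset _ _)
          intro _ _ _; positivity

/-- Module Arc. -/
theorem arc_card (G ζ : ℕ) (hζ : 16500 ≤ ζ) (hG : ζ ^ 4 ≤ G) (a b c : ℤ) (ha0 : a ≠ 0)
    (hbc : b ^ 2 ≠ a * c) (X0 : ℝ)
    (hX0 : |X0| ≤ 1) (ha : |(a : ℝ)| ≤ (G : ℝ) ^ 3000) (hb : |(b : ℝ)| ≤ (G : ℝ) ^ 3000)
    (hc : |(c : ℝ)| ≤ (G : ℝ) ^ 3000) (S : Finset ℤ)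
    (hS : ∀ D ∈ S, ∃ p r : ℤ, |Fv a b c D p r| = 1 ∧ (G : ℤ) ^ ζ ≤ r ∧ r ≤ (G : ℤ) ^ (ζ + 1) ∧
      |(p : ℝ) / r - X0| ≤ 1 / (G : ℝ) ^ 2999) :
    S.card ≤ ζ := by
  classical
  obtain ⟨i, hi⟩ : ∃ i, i = ζ / 30 := ⟨_, rfl⟩
  obtain ⟨k, hk⟩ : ∃ k, k = i + (3 * ζ / 2999 + 1) := ⟨_, rfl⟩
  obtain ⟨μ, hμ⟩ : ∃ μ, μ = 2 * ζ - 2 * i - 8 := ⟨_, rfl⟩
  have hi0 : 0 < i := by omega
  have hk0 : 0 < k := by omega
  have hG1 : 1 ≤ G := by
    have : 0 < ζ ^ 4 := by positivity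
    omega
  have hGr : (1 : ℝ) ≤ G := by exact_mod_cast hG1
  have hG0 : (0 : ℝ) < G := by linarith
  have n1 := arc_num1 G ζ i k μ hζ hG hi hk hμ
  have n2 := arc_num2 G ζ i k μ hζ hG hi hk hμ
  obtain ⟨m, hm⟩ : ∃ m : ℤ,
      |-((a : ℝ) * X0 ^ 3 + 3 * b * X0 ^ 2 + 3 * c * X0) - m| ≤ 1 / 2 :=
    ⟨round (-((a : ℝ) * X0 ^ 3 + 3 * b * X0 ^ 2 + 3 * c * X0)), abs_sub_round _⟩
  set ρ : ℝ := 1 / (G : ℝ) ^ 2999 with hρ
  have hρ0 : 0 < ρ := by positivity
  have hρ1 : ρ ≤ 1 := by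
    rw [hρ, div_le_one (by positivity)]
    exact one_le_pow₀ hGr
  have hRρ : (G : ℝ) ^ 3000 * ρ = G := by
    rw [hρ, mul_one_div, div_eq_iff (by positivity), ← pow_succ']
  have hR1 : (1 : ℝ) ≤ (G : ℝ) ^ 3000 := one_le_pow₀ hGr
  set M : ℕ := G ^ μ with hM
  set Λ : ℝ := 16 * k * (G : ℝ) ^ (ζ + 1) with hΛ
  have hΛ0 : 0 < Λ := by positivity
  let P : (Fin i → Fin M) × (Fin i → Fin M) → ℤ[X] × ℤ[X] := fun a => (pol i M a.1, pol i M a.2)
  have hPinj : Function.Injective P := by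
    intro u v huv
    have h1 : pol i M u.1 = pol i M v.1 := congrArg Prod.fst huv
    have h2 : pol i M u.2 = pol i M v.2 := congrArg Prod.snd huv
    exact Prod.ext (pol_inj _ _ _ _ h1) (pol_inj _ _ _ _ h2)
  let φ : (Fin i → Fin M) × (Fin i → Fin M) → Fin k → ℝ := fun u j =>
    (wpol a b c m X0 (P u)).coeff j * ρ ^ (j : ℕ) * Λ
  have hφB : ∀ u ∈ (Finset.univ : Finset ((Fin i → Fin M) × (Fin i → Fin M))), ∀ j,
      |φ u j| ≤ ((3 * i * M * (20 * G) ^ i * (16 * k * G ^ (ζ + 1)) : ℕ) : ℝ) := by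
    intro u _ j
    have h1 := coeff_le_nrm (wpol a b c m X0 (P u)) ρ hρ0.le j
    have h2 := nrm_wpol_le a b c m X0 ((G : ℝ) ^ 3000) ρ hR1 hX0 ha hb hc hρ0.le hρ1
      (by rw [hRρ]; exact hGr) hm i (M : ℝ) (P u)
      ⟨pol_natDegree i M hi0 u.1, pol_natDegree i M hi0 u.2⟩ (by
        intro j
        have t1 := pol_coeff_le i M u.1 j
        have t2 := pol_coeff_le i M u.2 j
        constructor
        · rw [abs_of_nonneg (by exact_mod_cast t1.1)]; exact_mod_cast t1.2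
        · rw [abs_of_nonneg (by exact_mod_cast t2.1)]; exact_mod_cast t2.2)
    rw [hRρ] at h2
    show |(wpol a b c m X0 (P u)).coeff j * ρ ^ (j : ℕ) * Λ| ≤ _
    rw [abs_mul, abs_mul, abs_of_pos hΛ0, abs_of_nonneg (by positivity : (0 : ℝ) ≤ ρ ^ (j : ℕ))]
    push_cast
    rw [← hΛ]
    exact mul_le_mul_of_nonneg_right (h1.trans h2) hΛ0.le
  obtain ⟨t, -, htc, ht⟩ := pigeon (Finset.univ : Finset ((Fin i → Fin M) × (Fin i → Fin M))) k φ
    (3 * i * M * (20 * G) ^ i * (16 * k * G ^ (ζ + 1))) hφB ((2 * G ^ 12001 + 1) ^ i + 1) (by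
      rw [Finset.card_univ, Fintype.card_prod, Fintype.card_fun, Fintype.card_fin, Fintype.card_fin]
      refine n1.trans_le (le_of_eq ?_)
      rw [two_mul, pow_add])
  have htne : t.Nonempty := Finset.card_pos.1 (by omega)
  obtain ⟨u0, hu0⟩ := htne
  let F : Finset (ℤ[X] × ℤ[X]) := (t.erase u0).image (fun u => P u - P u0)
  have hFcard : F.card = t.card - 1 := by
    rw [Finset.card_image_of_injective, Finset.card_erase_of_mem hu0]
    intro u v huv
    apply hPinj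
    exact sub_left_injective huv
  have hFmem : ∀ f ∈ F, ∃ u ∈ t, u ≠ u0 ∧ f = P u - P u0 := by
    intro f hf
    obtain ⟨u, hu, rfl⟩ := Finset.mem_image.1 hf
    exact ⟨u, Finset.mem_of_mem_erase hu, Finset.ne_of_mem_erase hu, rfl⟩
  have hFne : ∀ f ∈ F, f ≠ 0 := by
    intro f hf
    obtain ⟨u, -, hne, rfl⟩ := hFmem f hf
    intro h
    exact hne (hPinj (sub_eq_zero.1 h))
  have hFdeg : ∀ f ∈ F, f.1.natDegree < i ∧ f.2.natDegree < i := by
    intro f hf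
    obtain ⟨u, -, -, rfl⟩ := hFmem f hf
    exact ⟨pol_sub_natDegree i M hi0 _ _, pol_sub_natDegree i M hi0 _ _⟩
  have hFcoef : ∀ f ∈ F, ∀ j, |(f.1.coeff j : ℝ)| ≤ (M : ℝ) ∧ |(f.2.coeff j : ℝ)| ≤ (M : ℝ) := by
    intro f hf j
    obtain ⟨u, -, -, rfl⟩ := hFmem f hf
    have t1 := pol_coeff_le i M u.1 j
    have t2 := pol_coeff_le i M u.2 j
    have t3 := pol_coeff_le i M u0.1 j
    have t4 := pol_coeff_le i M u0.2 j
    constructor
    · have : |(P u - P u0).1.coeff j| ≤ (M : ℤ) := by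
        show |(pol i M u.1 - pol i M u0.1).coeff j| ≤ (M : ℤ)
        rw [coeff_sub, abs_le]
        constructor <;> linarith [t1.1, t1.2, t3.1, t3.2]
      exact_mod_cast this
    · have : |(P u - P u0).2.coeff j| ≤ (M : ℤ) := by
        show |(pol i M u.2 - pol i M u0.2).coeff j| ≤ (M : ℤ)
        rw [coeff_sub, abs_le]
        constructor <;> linarith [t2.1, t2.2, t4.1, t4.2]
      exact_mod_cast this
  have hFw : ∀ f ∈ F, nrm (wpol a b c m X0 f) ρ ≤ 1 / (8 * (G : ℝ) ^ (ζ + 1)) := by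
    intro f hf
    have h1 := nrm_wpol_le a b c m X0 ((G : ℝ) ^ 3000) 1 hR1 hX0 ha hb hc zero_le_one le_rfl
      (by rw [mul_one]; exact hR1) hm i (M : ℝ) f (hFdeg f hf) (hFcoef f hf)
    rw [mul_one] at h1
    obtain ⟨u, hut, -, rfl⟩ := hFmem f hf
    have h2 : ∀ j < k, |(wpol a b c m X0 (P u - P u0)).coeff j| * ρ ^ j ≤ 1 / Λ := by
      intro j hj
      have h3 := ht u hut u0 hu0 ⟨j, hj⟩
      have h4 : φ u ⟨j, hj⟩ - φ u0 ⟨j, hj⟩ =
          (wpol a b c m X0 (P u - P u0)).coeff j * ρ ^ j * Λ := by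
        rw [wpol_sub, coeff_sub]
        show (wpol a b c m X0 (P u)).coeff j * ρ ^ j * Λ -
          (wpol a b c m X0 (P u0)).coeff j * ρ ^ j * Λ = _
        ring
      rw [h4, abs_mul, abs_mul, abs_of_pos hΛ0,
        abs_of_nonneg (by positivity : (0 : ℝ) ≤ ρ ^ j)] at h3
      rw [le_div_iff₀ hΛ0]
      exact h3.le
    have h5 := nrm_split _ ρ (1 / Λ) k hρ0.le hρ1 (by positivity) h2
    have h6 : (k : ℝ) * (1 / Λ) = 1 / (16 * (G : ℝ) ^ (ζ + 1)) := by
      rw [hΛ]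
      have : (0 : ℝ) < k := by exact_mod_cast hk0
      field_simp
    have h7 : ρ ^ k * nrm (wpol a b c m X0 (P u - P u0)) 1 ≤ 1 / (16 * (G : ℝ) ^ (ζ + 1)) := by
      calc ρ ^ k * nrm (wpol a b c m X0 (P u - P u0)) 1
          ≤ ρ ^ k * (3 * i * M * (20 * (G : ℝ) ^ 3000) ^ i) := by gcongr
        _ ≤ 1 / (16 * (G : ℝ) ^ (ζ + 1)) := by
          rw [le_div_iff₀ (by positivity), hρ, one_div, inv_pow, ← pow_mul, mul_assoc,
            inv_mul_le_iff₀ (by positivity), mul_one]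
          exact_mod_cast n2
    have h8 : 1 / (16 * (G : ℝ) ^ (ζ + 1)) + 1 / (16 * (G : ℝ) ^ (ζ + 1)) =
        1 / (8 * (G : ℝ) ^ (ζ + 1)) := by
      field_simp; norm_num
    rw [h6] at h5
    linarith
  -- the shifted set
  have hfin := family_card a b c m ha0 hbc i (G ^ 12001) F hFne hFdeg (by omega)
    (S.image (fun D => D - m)) (by
      intro d hd
      obtain ⟨D, hD, rfl⟩ := Finset.mem_image.1 hd
      obtain ⟨p, r, hF, hr1, hr2, hp⟩ := hS D hD
      refine ⟨p, r, ?_, ?_⟩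
      · have : (0 : ℤ) < (G : ℤ) ^ ζ := by positivity
        omega
      · intro f hf
        have hdf := hFdeg f hf
        have hcf := hFcoef f hf
        rw [hi] at hdf
        have hMμ : (M : ℝ) = (G : ℝ) ^ (2 * ζ - 2 * (ζ / 30) - 8) := by
          rw [hM, hμ, hi]; push_cast; rfl
        rw [hMμ] at hcf
        exact nhat G ζ hζ hG a b c D m p r X0 hX0 ha hb hc hm hF hr1 hr2 hp f hdf hcf (hFw f hf))
  rw [Finset.card_image_of_injective _ (sub_left_injective)] at hfin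
  omega

end Pool.Agent.Work.MP_f2148a_nt.Exp
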