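import Mathlib
import Pool.Agent.Work.MP_f2148a_nt.Exp.Defs

set_option autoImplicit false

namespace Pool.Agent.Work.MP_f2148a_nt.Exp

/-- The statement of `arc_card` (module Arc). -/
def ArcCard : Prop := ∀ (G ζ : ℕ) (_ : 16500 ≤ ζ) (_ : ζ ^ 4 ≤ G) (a b c : ℤ) (_ : a ≠ 0)
    (_ : b ^ 2 ≠ a * c) (X0 : ℝ)
    (_ : |X0| ≤ 1) (_ : |(a : ℝ)| ≤ (G : ℝ) ^ 3000) (_ : |(b : ℝ)| ≤ (G : ℝ) ^ 3000)
    (_ : |(c : ℝ)| ≤ (G : ℝ) ^ 3000) (S : Finset ℤ)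
    (_ : ∀ D ∈ S, ∃ p r : ℤ, |Fv a b c D p r| = 1 ∧ (G : ℤ) ^ ζ ≤ r ∧ r ≤ (G : ℤ) ^ (ζ + 1) ∧
      |(p : ℝ) / r - X0| ≤ 1 / (G : ℝ) ^ 2999),
    S.card ≤ ζ

private lemma box_card (R : ℕ) : (Finset.Icc (-(R : ℤ)) R).card = 2 * R + 1 := by
  rw [Int.card_Icc]; omega

private lemma count0 (R : ℕ) (S : Finset (ℤ × ℤ × ℤ × ℤ))
    (hS : ∀ q ∈ S, q.1 ≠ 0 ∧ |q.1| ≤ (R : ℤ) ∧ |q.2.1| ≤ (R : ℤ) ∧ |q.2.2.2| ≤ (R : ℤ) ∧
      q.2.1 ^ 2 = q.1 * q.2.2.1) : S.card ≤ (2 * R + 1) ^ 3 := by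
  classical
  set I := Finset.Icc (-(R : ℤ)) R with hI
  have h1 : S.card ≤ (I ×ˢ I ×ˢ I).card := by
    refine Finset.card_le_card_of_injOn (fun q => (q.1, q.2.1, q.2.2.2)) ?_ ?_
    · intro q hq
      obtain ⟨_, h1, h2, h3, _⟩ := hS q (by simpa using hq)
      simp only [Finset.mem_coe, Finset.mem_product, hI, Finset.mem_Icc]
      exact ⟨abs_le.1 h1, abs_le.1 h2, abs_le.1 h3⟩
    · intro q hq q' hq' h
      obtain ⟨h0, _, _, _, h4⟩ := hS q (by simpa using hq)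
      obtain ⟨h0', _, _, _, h4'⟩ := hS q' (by simpa using hq')
      simp only [Prod.mk.injEq] at h
      obtain ⟨e1, e2, e3⟩ := h
      obtain ⟨a, b, c, d⟩ := q
      obtain ⟨a', b', c', d'⟩ := q'
      simp only at *
      subst e1 e2 e3
      have : a * c = a * c' := by rw [← h4, ← h4']
      have : c = c' := mul_left_cancel₀ h0 this
      rw [this]
  calc S.card ≤ (I ×ˢ I ×ˢ I).card := h1
    _ = (2 * R + 1) ^ 3 := by
      rw [Finset.card_product, Finset.card_product, hI, box_card]; ring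

private lemma count1 (harc : ArcCard) (G Z : ℕ) (hG2 : 2 ≤ G) (hG : Z ^ 4 ≤ G)
    (S : Finset (ℤ × ℤ × ℤ × ℤ))
    (hS : ∀ q ∈ S, q.1 ≠ 0 ∧ |q.1| ≤ (G : ℤ) ^ 3000 ∧ |q.2.1| ≤ (G : ℤ) ^ 3000 ∧
      |q.2.2.1| ≤ (G : ℤ) ^ 3000 ∧ |q.2.2.2| ≤ (G : ℤ) ^ 3000 ∧
      ∃ p r : ℤ, |Fv q.1 q.2.1 q.2.2.1 q.2.2.2 p r| = 1 ∧ (G : ℤ) ^ 16500 ≤ r ∧
        r < (G : ℤ) ^ (Z + 1) ∧ |p| ≤ r)
    (hne : ∀ q ∈ S, q.2.1 ^ 2 ≠ q.1 * q.2.2.1) :
    S.card ≤ Z * ((2 * G ^ 3000 + 1) ^ 3 * ((2 * G ^ 2999 + 1) * (Z + 1))) := by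
  classical
  have hGpos : 0 < G := by omega
  have hS' : ∀ q : ℤ × ℤ × ℤ × ℤ, ∃ p r : ℤ, q ∈ S → (|Fv q.1 q.2.1 q.2.2.1 q.2.2.2 p r| = 1 ∧
      (G : ℤ) ^ 16500 ≤ r ∧ r < (G : ℤ) ^ (Z + 1) ∧ |p| ≤ r) := by
    intro q
    by_cases hq : q ∈ S
    · obtain ⟨p, r, h⟩ := (hS q hq).2.2.2.2.2
      exact ⟨p, r, fun _ => h⟩
    · exact ⟨0, 0, fun h => absurd h hq⟩
  choose P Rr hPR using hS'
  obtain ⟨M, hM⟩ : ∃ M : ℕ, M = G ^ 2999 := ⟨_, rfl⟩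
  have hMpos : 0 < M := by rw [hM]; exact Nat.pow_pos hGpos
  obtain ⟨R, hR⟩ : ∃ R : ℕ, R = G ^ 3000 := ⟨_, rfl⟩
  have hRZ : ((R : ℕ) : ℤ) = (G : ℤ) ^ 3000 := by rw [hR]; push_cast; rfl
  set I := Finset.Icc (-(R : ℤ)) R with hI
  set J := Finset.Icc (-(M : ℤ)) M with hJ
  set φ : ℤ × ℤ × ℤ × ℤ → (ℤ × ℤ × ℤ) × ℤ × ℕ := fun q =>
    ((q.1, q.2.1, q.2.2.1), ⌊((P q : ℝ) / (Rr q : ℝ)) * M⌋, Nat.log G (Rr q).toNat) with hφ
  set T : Finset ((ℤ × ℤ × ℤ) × ℤ × ℕ) := (I ×ˢ I ×ˢ I) ×ˢ J ×ˢ Finset.range (Z + 1) with hT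
  have hTcard : T.card = (2 * R + 1) ^ 3 * ((2 * M + 1) * (Z + 1)) := by
    rw [hT, Finset.card_product, Finset.card_product, Finset.card_product, Finset.card_product,
      hI, hJ, box_card, box_card, Finset.card_range]
    ring
  have hrpos : ∀ q ∈ S, 0 < Rr q := by
    intro q hq
    have h1 := (hPR q hq).2.1
    have h2 : (0 : ℤ) < (G : ℤ) ^ 16500 := by positivity
    linarith
  have hratio : ∀ q ∈ S, |(P q : ℝ) / (Rr q : ℝ)| ≤ 1 := by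
    intro q hq
    have h1 := hrpos q hq
    have h2 := (hPR q hq).2.2.2
    have h1' : (0 : ℝ) < (Rr q : ℝ) := by exact_mod_cast h1
    rw [abs_div, abs_of_pos h1', div_le_one h1']
    exact_mod_cast h2
  have hMR : (0 : ℝ) < (M : ℝ) := by exact_mod_cast hMpos
  have hmaps : ∀ q ∈ S, φ q ∈ T := by
    intro q hq
    obtain ⟨_, h1, h2, h3, h4, _⟩ := hS q hq
    simp only [hT, hφ, Finset.mem_product, hI, hJ, Finset.mem_Icc, Finset.mem_range]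
    rw [← hRZ] at h1 h2 h3
    refine ⟨⟨abs_le.1 h1, abs_le.1 h2, abs_le.1 h3⟩, ⟨?_, ?_⟩, ?_⟩
    · rw [Int.le_floor]
      push_cast
      have := (abs_le.1 (hratio q hq)).1
      nlinarith
    · have h5 : ((⌊((P q : ℝ) / (Rr q : ℝ)) * M⌋ : ℤ) : ℝ) ≤ ((M : ℤ) : ℝ) := by
        push_cast
        refine le_trans (Int.floor_le _) ?_
        have := (abs_le.1 (hratio q hq)).2
        nlinarith
      exact_mod_cast h5
    · refine Nat.log_lt_of_lt_pow ?_ ?_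
      · have := hrpos q hq
        omega
      · have h6 := (hPR q hq).2.2.1
        have h7 : ((Rr q).toNat : ℤ) = Rr q := Int.toNat_of_nonneg (hrpos q hq).le
        have h8 : ((Rr q).toNat : ℤ) < ((G ^ (Z + 1) : ℕ) : ℤ) := by
          rw [h7]; push_cast; exact h6
        exact_mod_cast h8
  have hfib : ∀ y ∈ T, (S.filter (fun q => φ q = y)).card ≤ Z := by
    intro y hy
    by_cases hemp : (S.filter (fun q => φ q = y)) = ∅
    · rw [hemp]; simp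
    · obtain ⟨q0, hq0⟩ := Finset.nonempty_iff_ne_empty.2 hemp
      obtain ⟨hq0S, hq0y⟩ := Finset.mem_filter.1 hq0
      obtain ⟨⟨a, b, c⟩, j, ζ⟩ := y
      simp only [hT, Finset.mem_product, hI, hJ, Finset.mem_Icc, Finset.mem_range] at hy
      obtain ⟨⟨ha, hb, hc⟩, hj, hz⟩ := hy
      simp only [hφ, Prod.mk.injEq] at hq0y
      obtain ⟨⟨ea, eb, ec⟩, ej, ez⟩ := hq0y
      have hζ : 16500 ≤ ζ := by
        rw [← ez]
        refine Nat.le_log_of_pow_le (by omega) ?_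
        have h6 := (hPR q0 hq0S).2.1
        have h7 : ((Rr q0).toNat : ℤ) = Rr q0 := Int.toNat_of_nonneg (hrpos q0 hq0S).le
        have h8 : ((G ^ 16500 : ℕ) : ℤ) ≤ ((Rr q0).toNat : ℤ) := by
          rw [h7]; push_cast; exact h6
        exact_mod_cast h8
      have hζZ : ζ ≤ Z := by omega
      have hζG : ζ ^ 4 ≤ G := le_trans (Nat.pow_le_pow_left hζZ 4) hG
      have hX0 : |(j : ℝ) / M| ≤ 1 := by
        rw [abs_div, abs_of_pos hMR, div_le_one hMR]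
        have h9 : |j| ≤ (M : ℤ) := abs_le.2 hj
        have h10 : ((|j| : ℤ) : ℝ) ≤ ((M : ℤ) : ℝ) := by exact_mod_cast h9
        rw [Int.cast_abs] at h10
        simpa using h10
      have hcast : ∀ t : ℤ, -(R : ℤ) ≤ t ∧ t ≤ R → |(t : ℝ)| ≤ (G : ℝ) ^ 3000 := by
        intro t ht
        have h9 : |t| ≤ (R : ℤ) := abs_le.2 ht
        rw [hRZ] at h9
        exact_mod_cast h9
      have hinj : (S.filter (fun q => φ q = ((a, b, c), j, ζ))).card ≤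
          ((S.filter (fun q => φ q = ((a, b, c), j, ζ))).image (fun q => q.2.2.2)).card := by
        rw [Finset.card_image_of_injOn]
        intro q hq q' hq' h
        have h1 := (Finset.mem_filter.1 (Finset.mem_coe.1 hq)).2
        have h2 := (Finset.mem_filter.1 (Finset.mem_coe.1 hq')).2
        simp only [hφ, Prod.mk.injEq] at h1 h2
        obtain ⟨q1, q2, q3, q4⟩ := q
        obtain ⟨q1', q2', q3', q4'⟩ := q'
        simp only at h h1 h2 ⊢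
        obtain ⟨⟨h11, h12, h13⟩, _⟩ := h1
        obtain ⟨⟨h21, h22, h23⟩, _⟩ := h2
        rw [h11, h12, h13, h21, h22, h23, h]
      refine le_trans hinj (le_trans ?_ hζZ)
      refine harc G ζ hζ hζG a b c ?_ ?_ ((j : ℝ) / M) hX0 (hcast a ha) (hcast b hb)
        (hcast c hc) _ ?_
      · rw [← ea]; exact (hS q0 hq0S).1
      · rw [← ea, ← eb, ← ec]; exact hne q0 hq0S
      · intro D hD
        obtain ⟨q, hq, rfl⟩ := Finset.mem_image.1 hD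
        obtain ⟨hqS, hqy⟩ := Finset.mem_filter.1 hq
        simp only [hφ, Prod.mk.injEq] at hqy
        obtain ⟨⟨fa, fb, fc⟩, fj, fz⟩ := hqy
        obtain ⟨g1, g2, g3, g4⟩ := hPR q hqS
        refine ⟨P q, Rr q, ?_, ?_, ?_, ?_⟩
        · rw [← fa, ← fb, ← fc]; exact g1
        · have h7 : ((Rr q).toNat : ℤ) = Rr q := Int.toNat_of_nonneg (hrpos q hqS).le
          rw [← h7, ← fz]
          have hne0 : (Rr q).toNat ≠ 0 := by have := hrpos q hqS; omega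
          exact_mod_cast Nat.pow_log_le_self G hne0
        · have h7 : ((Rr q).toNat : ℤ) = Rr q := Int.toNat_of_nonneg (hrpos q hqS).le
          rw [← h7, ← fz]
          exact_mod_cast (Nat.lt_pow_succ_log_self (by omega) _).le
        · have hGM : (G : ℝ) ^ 2999 = (M : ℝ) := by rw [hM]; push_cast; rfl
          rw [hGM, ← fj]
          have h1 := Int.floor_le (((P q : ℝ) / (Rr q : ℝ)) * M)
          have h2 := Int.lt_floor_add_one (((P q : ℝ) / (Rr q : ℝ)) * M)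
          have h3 : (P q : ℝ) / (Rr q : ℝ) - (⌊((P q : ℝ) / (Rr q : ℝ)) * M⌋ : ℝ) / M =
              (((P q : ℝ) / (Rr q : ℝ)) * M - (⌊((P q : ℝ) / (Rr q : ℝ)) * M⌋ : ℝ)) / M := by
            field_simp
          rw [h3, abs_div, abs_of_pos hMR]
          gcongr
          rw [abs_le]
          constructor <;> linarith
  have := Finset.card_le_mul_card_image_of_maps_to hmaps Z hfib
  rw [hTcard, hR, hM] at this
  exact this

/-- Module BalCount, conditional on the statement of module Arc. -/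
theorem bal_count_of_arc (harc : ArcCard) (G Z : ℕ) (hG2 : 2 ≤ G) (hG : Z ^ 4 ≤ G)
    (S : Finset (ℤ × ℤ × ℤ × ℤ))
    (hS : ∀ q ∈ S, q.1 ≠ 0 ∧ |q.1| ≤ (G : ℤ) ^ 3000 ∧ |q.2.1| ≤ (G : ℤ) ^ 3000 ∧
      |q.2.2.1| ≤ (G : ℤ) ^ 3000 ∧ |q.2.2.2| ≤ (G : ℤ) ^ 3000 ∧
      ∃ p r : ℤ, |Fv q.1 q.2.1 q.2.2.1 q.2.2.2 p r| = 1 ∧ (G : ℤ) ^ 16500 ≤ r ∧
        r < (G : ℤ) ^ (Z + 1) ∧ |p| ≤ r) :
    S.card ≤ (2 * G ^ 3000 + 1) ^ 3 * ((2 * G ^ 2999 + 1) * (Z + 1) * Z + 1) := by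
  classical
  have h0 : (S.filter (fun q => q.2.1 ^ 2 = q.1 * q.2.2.1)).card ≤ (2 * G ^ 3000 + 1) ^ 3 := by
    refine count0 (G ^ 3000) _ ?_
    intro q hq
    obtain ⟨hqS, hq2⟩ := Finset.mem_filter.1 hq
    obtain ⟨h1, h2, h3, _, h5, _⟩ := hS q hqS
    push_cast
    exact ⟨h1, h2, h3, h5, hq2⟩
  have h1 : (S.filter (fun q => ¬ q.2.1 ^ 2 = q.1 * q.2.2.1)).card ≤
      Z * ((2 * G ^ 3000 + 1) ^ 3 * ((2 * G ^ 2999 + 1) * (Z + 1))) := by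
    refine count1 harc G Z hG2 hG _ ?_ ?_
    · intro q hq
      exact hS q (Finset.mem_filter.1 hq).1
    · intro q hq
      exact (Finset.mem_filter.1 hq).2
  have h2 := Finset.card_filter_add_card_filter_not (s := S) (fun q => q.2.1 ^ 2 = q.1 * q.2.2.1)
  rw [← h2]
  obtain ⟨A, hA⟩ : ∃ A, A = (2 * G ^ 3000 + 1) ^ 3 := ⟨_, rfl⟩
  obtain ⟨B, hB⟩ : ∃ B, B = (2 * G ^ 2999 + 1) * (Z + 1) := ⟨_, rfl⟩
  rw [← hA] at h0 h1 ⊢
  rw [← hB] at h1 ⊢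
  calc _ ≤ A + Z * (A * B) := Nat.add_le_add h0 h1
    _ = A * (B * Z + 1) := by ring

end Pool.Agent.Work.MP_f2148a_nt.Exp
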