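import Mathlib
import Pool.Agent.Work.MP_f2148a_nt.Exp.Defs
import Pool.Agent.Work.MP_f2148a_nt.Exp.Quad
import Pool.Agent.Work.MP_f2148a_nt.Exp.Arc
import Pool.Agent.Work.MP_f2148a_nt.Exp.BalCount
import Pool.Agent.Work.MP_f2148a_nt.Exp.ProdCount

set_option autoImplicit false

namespace Pool.Agent.Work.MP_f2148a_nt.Exp

theorem bal_final : ∃ c : ℝ, 0 < c ∧ ∀ K : ℝ, 1 ≤ K → ∀ S : Finset (ℤ × ℤ × ℤ × ℤ),
    (∀ q ∈ S, Bal (scale K ^ 20) (scale K) q) → (S.card : ℝ) ≤ c * K ^ (1 - 1 / 1000000 : ℝ) := by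
  obtain ⟨c, hc, hcK⟩ := scale_pow_le 239982
  refine ⟨189 * c, by positivity, fun K hK S hS => ?_⟩
  have h2 := two_le_scale K hK
  have h1 := bal_count_of_arc (fun G ζ h1 h2 a b c h3 h4 X0 h5 h6 h7 h8 S hS =>
      arc_card G ζ h1 h2 a b c h3 h4 X0 h5 h6 h7 h8 S hS) (scale K ^ 20) (scale K)
    (by
      calc (2 : ℕ) ≤ scale K := h2
        _ = scale K ^ 1 := (pow_one _).symm
        _ ≤ scale K ^ 20 := Nat.pow_le_pow_right (by omega) (by norm_num))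
    (Nat.pow_le_pow_right (by omega) (by norm_num)) S hS
  have h2' : (2 : ℝ) ≤ scale K := by exact_mod_cast h2
  have h1' : (S.card : ℝ) ≤ (2 * ((scale K : ℝ) ^ 20) ^ 3000 + 1) ^ 3 *
      ((2 * ((scale K : ℝ) ^ 20) ^ 2999 + 1) * (scale K + 1) * scale K + 1) := by exact_mod_cast h1
  refine h1'.trans ?_
  set s : ℝ := ((scale K : ℕ) : ℝ) with hs
  have hs1 : 1 ≤ s := by linarith
  have e1 : 2 * (s ^ 20) ^ 3000 + 1 ≤ 3 * s ^ 60000 := by
    rw [← pow_mul]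
    have : 1 ≤ s ^ (20 * 3000) := one_le_pow₀ hs1
    have e : s ^ (20 * 3000) = s ^ 60000 := by norm_num
    linarith
  have e2 : 2 * (s ^ 20) ^ 2999 + 1 ≤ 3 * s ^ 59980 := by
    rw [← pow_mul]
    have : 1 ≤ s ^ (20 * 2999) := one_le_pow₀ hs1
    have e : s ^ (20 * 2999) = s ^ 59980 := by norm_num
    linarith
  have e3 : (s + 1) * s ≤ 2 * s ^ 2 := by nlinarith
  have e4 : (1 : ℝ) ≤ s ^ 59982 := one_le_pow₀ hs1
  have e5 : (2 * (s ^ 20) ^ 2999 + 1) * (s + 1) * s + 1 ≤ 7 * s ^ 59982 := by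
    calc (2 * (s ^ 20) ^ 2999 + 1) * (s + 1) * s + 1
        = (2 * (s ^ 20) ^ 2999 + 1) * ((s + 1) * s) + 1 := by rw [mul_assoc]
      _ ≤ (3 * s ^ 59980) * (2 * s ^ 2) + s ^ 59982 := by gcongr
      _ = 7 * s ^ 59982 := by
          rw [show (3 * s ^ 59980) * (2 * s ^ 2) = 6 * (s ^ 59980 * s ^ 2) by ring, ← pow_add]
          ring
  calc (2 * (s ^ 20) ^ 3000 + 1) ^ 3 * ((2 * (s ^ 20) ^ 2999 + 1) * (s + 1) * s + 1)
      ≤ (3 * s ^ 60000) ^ 3 * (7 * s ^ 59982) := by gcongr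
    _ = 189 * s ^ 239982 := by
        rw [mul_pow, ← pow_mul,
          show (3 : ℝ) ^ 3 * s ^ (60000 * 3) * (7 * s ^ 59982) =
            189 * (s ^ (60000 * 3) * s ^ 59982) by ring, ← pow_add]
    _ ≤ 189 * (c * K ^ (((239982 : ℕ) : ℝ) / 239988)) := by
        gcongr
        exact hcK K hK
    _ = 189 * c * K ^ (((239982 : ℕ) : ℝ) / 239988) := by ring
    _ ≤ 189 * c * K ^ (1 - 1 / 1000000 : ℝ) := by
        apply mul_le_mul_of_nonneg_left _ (by positivity)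
        apply Real.rpow_le_rpow_of_exponent_le hK
        norm_num

theorem log_bd (C : ℝ) (hC : 0 < C) : ∃ c4 : ℝ, 0 < c4 ∧ ∀ K X : ℝ, 1 ≤ K → 1 ≤ X → X ≤ C * K →
    Real.log X ≤ c4 * K ^ (1 / 1000000 : ℝ) := by
  refine ⟨C ^ (1 / 1000000 : ℝ) / (1 / 1000000 : ℝ), by positivity, fun K X hK hX hXK => ?_⟩
  have hKpos : 0 < K := by linarith
  calc Real.log X ≤ X ^ (1 / 1000000 : ℝ) / (1 / 1000000 : ℝ) :=
        Real.log_le_rpow_div (by linarith) (by norm_num)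
    _ ≤ (C * K) ^ (1 / 1000000 : ℝ) / (1 / 1000000 : ℝ) := by gcongr
    _ = _ := by
      rw [Real.mul_rpow hC.le hKpos.le, mul_div_right_comm]

theorem unb_final : ∃ c : ℝ, 0 < c ∧ ∀ K : ℝ, 1 ≤ K → ∀ S : Finset (ℤ × ℤ × ℤ × ℤ),
    (∀ q ∈ S, Unb (18720 * K / scale K) q) → (S.card : ℝ) ≤ c * K ^ (1 - 1 / 1000000 : ℝ) := by
  obtain ⟨c4, hc4p, hc4⟩ := log_bd 18720 (by norm_num)
  obtain ⟨c3, hc3⟩ : ∃ c3 : ℝ, c3 = 1 + c4 := ⟨_, rfl⟩
  have hc3p : 0 < c3 := by rw [hc3]; positivity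
  refine ⟨81 * 18720 * c3 ^ 3, by positivity, fun K hK S hS => ?_⟩
  have hKpos : 0 < K := by linarith
  have hsc := scale_ge_rpow K hK
  have hsc0 : 0 < K ^ (1 / 239988 : ℝ) := by positivity
  set X : ℝ := 18720 * K ^ (1 - 1 / 239988 : ℝ) with hX
  have hX1 : 1 ≤ X := by
    have : 1 ≤ K ^ (1 - 1 / 239988 : ℝ) := Real.one_le_rpow hK (by norm_num)
    linarith
  have hXK : X ≤ 18720 * K := by
    rw [hX]
    gcongr
    calc K ^ (1 - 1 / 239988 : ℝ) ≤ K ^ (1 : ℝ) :=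
          Real.rpow_le_rpow_of_exponent_le hK (by norm_num)
      _ = K := Real.rpow_one K
  have hle : 18720 * K / scale K ≤ X := by
    calc 18720 * K / scale K ≤ 18720 * K / K ^ (1 / 239988 : ℝ) := by gcongr
      _ = X := by
        rw [hX, Real.rpow_sub hKpos, Real.rpow_one]; ring
  have h1 := prod_count X hX1 S (fun q hq => (hS q hq).trans hle)
  have hlog : Real.log X ≤ c4 * K ^ (1 / 1000000 : ℝ) := hc4 K X hK hX1 hXK
  have hK6 : 1 ≤ K ^ (1 / 1000000 : ℝ) := Real.one_le_rpow hK (by norm_num)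
  have hlog2 : 1 + Real.log X ≤ c3 * K ^ (1 / 1000000 : ℝ) := by
    rw [hc3, add_mul, one_mul]
    linarith
  have hlog0 : 0 ≤ 1 + Real.log X := by
    have := Real.log_nonneg hX1
    linarith
  calc (S.card : ℝ) ≤ 81 * X * (1 + Real.log X) ^ 3 := h1
    _ ≤ 81 * X * (c3 * K ^ (1 / 1000000 : ℝ)) ^ 3 := by gcongr
    _ = 81 * 18720 * c3 ^ 3 * (K ^ (1 - 1 / 239988 : ℝ) * K ^ (3 / 1000000 : ℝ)) := by
        rw [hX, mul_pow, ← Real.rpow_natCast (K ^ (1 / 1000000 : ℝ)) 3, ← Real.rpow_mul hKpos.le]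
        norm_num
        ring
    _ = 81 * 18720 * c3 ^ 3 * K ^ (1 - 1 / 239988 + 3 / 1000000 : ℝ) := by
        rw [← Real.rpow_add hKpos]
    _ ≤ 81 * 18720 * c3 ^ 3 * K ^ (1 - 1 / 1000000 : ℝ) := by
        apply mul_le_mul_of_nonneg_left _ (by positivity)
        apply Real.rpow_le_rpow_of_exponent_le hK
        norm_num

/-- Integers `k` in the window. -/
def Win (K Y : ℝ) : Set ℤ := {k : ℤ | k ≠ 0 ∧ |(k : ℝ)| ≤ K ∧
      ∃ x y : ℤ, y ^ 2 = x ^ 3 + k ∧ max |(x : ℝ)| |(y : ℝ)| ≤ Y}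

theorem Win_finite (K Y : ℝ) : (Win K Y).Finite := by
  apply Set.Finite.subset (Set.toFinite (↑(Finset.Icc (-⌈K⌉) ⌈K⌉) : Set ℤ))
  intro k hk
  obtain ⟨_, h2, _⟩ := hk
  rw [Finset.coe_Icc, Set.mem_Icc, ← abs_le]
  have : ((|k| : ℤ) : ℝ) ≤ (⌈K⌉ : ℝ) := by
    push_cast
    exact h2.trans (Int.le_ceil K)
  exact_mod_cast this

theorem Win_card (K Y : ℝ) (hK : 1 ≤ K) : ((Win K Y).ncard : ℝ) ≤ 5 * K := by
  have h1 : (Win K Y).ncard ≤ (Finset.Icc (-⌈K⌉) ⌈K⌉).card := by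
    rw [← Set.ncard_coe_finset]
    apply Set.ncard_le_ncard _ (Finset.finite_toSet _)
    intro k hk
    obtain ⟨_, h2, _⟩ := hk
    rw [Finset.coe_Icc, Set.mem_Icc, ← abs_le]
    have : ((|k| : ℤ) : ℝ) ≤ (⌈K⌉ : ℝ) := by
      push_cast
      exact h2.trans (Int.le_ceil K)
    exact_mod_cast this
  rw [Int.card_Icc] at h1
  have hc := Int.ceil_lt_add_one K
  have hc0 : 0 ≤ ⌈K⌉ := Int.ceil_nonneg (by linarith)
  have h2 : (((⌈K⌉ + 1 - -⌈K⌉).toNat : ℕ) : ℤ) = ⌈K⌉ + 1 - -⌈K⌉ := Int.toNat_of_nonneg (by linarith)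
  have h3 : (((⌈K⌉ + 1 - -⌈K⌉).toNat : ℕ) : ℝ) = ⌈K⌉ + 1 + ⌈K⌉ := by
    have := congrArg (fun z : ℤ => (z : ℝ)) h2
    push_cast at this
    linarith
  calc ((Win K Y).ncard : ℝ) ≤ (((⌈K⌉ + 1 - -⌈K⌉).toNat : ℕ) : ℝ) := by exact_mod_cast h1
    _ = ⌈K⌉ + 1 + ⌈K⌉ := h3
    _ ≤ 5 * K := by linarith

theorem final (A1 : ℝ) (hA1 : ∀ K : ℝ, 1 ≤ K →
      ((Win K (K ^ (5 - 1 / 20 : ℝ))).ncard : ℝ) ≤ A1 * K ^ (1 - 1 / 20 / 6 + 1 / 1000 : ℝ)) :
    ∃ A : ℝ, ∀ K : ℝ, 1 ≤ K →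
      ((Win K (Real.exp (K ^ (1 / 1000000 : ℝ)))).ncard : ℝ) ≤ A * K ^ (1 - 1 / 1000000 : ℝ) := by
  classical
  obtain ⟨K0, hK0, hq⟩ := exists_quad
  obtain ⟨c1, hc1, hb⟩ := bal_final
  obtain ⟨c2, hc2, hu⟩ := unb_final
  refine ⟨max (5 * K0) (|A1| + c1 + c2), fun K hK => ?_⟩
  have hKpos : 0 < K := by linarith
  have hKd : 1 ≤ K ^ (1 - 1 / 1000000 : ℝ) := Real.one_le_rpow hK (by norm_num)
  rcases lt_or_ge K K0 with hlt | hge
  · calc ((Win K (Real.exp (K ^ (1 / 1000000 : ℝ)))).ncard : ℝ) ≤ 5 * K := Win_card _ _ hK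
      _ ≤ 5 * K0 * 1 := by linarith
      _ ≤ max (5 * K0) (|A1| + c1 + c2) * K ^ (1 - 1 / 1000000 : ℝ) := by
          gcongr
          exact le_max_left _ _
  · set W := Win K (Real.exp (K ^ (1 / 1000000 : ℝ))) with hW
    set W1 := Win K (K ^ (5 - 1 / 20 : ℝ)) with hW1
    have hWf : W.Finite := Win_finite _ _
    have hW1f : W1.Finite := Win_finite _ _
    have hex : ∀ k : ℤ, ∃ q : ℤ × ℤ × ℤ × ℤ, k ∈ W \ W1 → Dv q.1 q.2.1 q.2.2.1 q.2.2.2 = 4 * k ∧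
      (Bal (scale K ^ 20) (scale K) q ∨ Unb (18720 * K / scale K) q) := by
      intro k
      by_cases hk : k ∈ W \ W1
      · obtain ⟨⟨hk0, hkK, x, y, hxy, hmax⟩, hk2⟩ := hk
        have hlo : K ^ (5 - 1 / 20 : ℝ) < max |(x : ℝ)| |(y : ℝ)| := by
          by_contra h
          push Not at h
          exact hk2 ⟨hk0, hkK, x, y, hxy, h⟩
        obtain ⟨q, h1, h2⟩ := hq K hge k x y hk0 hkK hxy hlo hmax
        exact ⟨q, fun _ => ⟨h1, h2⟩⟩
      · exact ⟨(0, 0, 0, 0), fun h => absurd h hk⟩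
    choose f hf using hex
    have hDf : (W \ W1).Finite := hWf.subset Set.sdiff_subset
    set T := hDf.toFinset with hT
    have hTmem : ∀ k, k ∈ T ↔ k ∈ W \ W1 := fun k => by rw [hT, Set.Finite.mem_toFinset]
    have hinj : Set.InjOn f (T : Set ℤ) := by
      intro k hk l hl hkl
      have e1 := (hf k ((hTmem k).1 hk)).1
      have e2 := (hf l ((hTmem l).1 hl)).1
      rw [hkl] at e1
      linarith
    have hcT : (T.card : ℝ) ≤ (c1 + c2) * K ^ (1 - 1 / 1000000 : ℝ) := by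
      rw [← Finset.card_filter_add_card_filter_not
        (fun k => Bal (scale K ^ 20) (scale K) (f k)) (s := T)]
      push_cast
      rw [add_mul]
      apply add_le_add
      · rw [← Finset.card_image_of_injOn (f := f)
          (hinj.mono (by intro k hk; exact (Finset.mem_filter.1 hk).1))]
        apply hb K hK
        intro q hq
        obtain ⟨k, hk, rfl⟩ := Finset.mem_image.1 hq
        exact (Finset.mem_filter.1 hk).2
      · rw [← Finset.card_image_of_injOn (f := f)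
          (hinj.mono (by intro k hk; exact (Finset.mem_filter.1 hk).1))]
        apply hu K hK
        intro q hq
        obtain ⟨k, hk, rfl⟩ := Finset.mem_image.1 hq
        obtain ⟨hk1, hk2⟩ := Finset.mem_filter.1 hk
        exact ((hf k ((hTmem k).1 hk1)).2).resolve_left hk2
    have hcard : W.ncard ≤ W1.ncard + T.card := by
      have h1 : W ⊆ W1 ∪ (T : Set ℤ) := by
        intro k hk
        by_cases hk1 : k ∈ W1
        · exact Or.inl hk1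
        · exact Or.inr ((hTmem k).2 ⟨hk, hk1⟩)
      calc W.ncard ≤ (W1 ∪ (T : Set ℤ)).ncard :=
            Set.ncard_le_ncard h1 (hW1f.union (Finset.finite_toSet _))
        _ ≤ W1.ncard + (T : Set ℤ).ncard := Set.ncard_union_le _ _
        _ = W1.ncard + T.card := by rw [Set.ncard_coe_finset]
    have hW1c : (W1.ncard : ℝ) ≤ |A1| * K ^ (1 - 1 / 1000000 : ℝ) := by
      calc (W1.ncard : ℝ) ≤ A1 * K ^ (1 - 1 / 20 / 6 + 1 / 1000 : ℝ) := hA1 K hK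
        _ ≤ |A1| * K ^ (1 - 1 / 20 / 6 + 1 / 1000 : ℝ) := by gcongr; exact le_abs_self _
        _ ≤ |A1| * K ^ (1 - 1 / 1000000 : ℝ) := by
            apply mul_le_mul_of_nonneg_left _ (abs_nonneg _)
            apply Real.rpow_le_rpow_of_exponent_le hK
            norm_num
    calc (W.ncard : ℝ) ≤ W1.ncard + T.card := by exact_mod_cast hcard
      _ ≤ |A1| * K ^ (1 - 1 / 1000000 : ℝ) + (c1 + c2) * K ^ (1 - 1 / 1000000 : ℝ) := by gcongr
      _ = (|A1| + c1 + c2) * K ^ (1 - 1 / 1000000 : ℝ) := by ring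
      _ ≤ max (5 * K0) (|A1| + c1 + c2) * K ^ (1 - 1 / 1000000 : ℝ) := by
          gcongr
          exact le_max_right _ _

end Pool.Agent.Work.MP_f2148a_nt.Exp
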