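import Mathlib
import Pool.Agent.Work.MP_f2148a_nt.Exp.Quad2
import Pool.Agent.Work.MP_f2148a_nt.Exp.Assembly

set_option autoImplicit false

namespace Pool.Agent.Work.MP_f2148a_nt.Exp

open Filter

theorem ev_log_rpow (C δ : ℝ) (hC : 0 < C) (hδ : 0 < δ) :
    ∀ᶠ K : ℝ in atTop, C * Real.log K ≤ K ^ δ := by
  have h := (isLittleO_log_rpow_atTop hδ).def (c := 1 / C) (by positivity)
  filter_upwards [h, eventually_ge_atTop (1 : ℝ)] with K hK hK1
  rw [Real.norm_of_nonneg (Real.log_nonneg hK1), Real.norm_of_nonneg (by positivity)] at hK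
  rw [mul_comm]
  calc Real.log K * C ≤ 1 / C * K ^ δ * C := by gcongr
    _ = K ^ δ := by field_simp

theorem ev_loglog (c : ℝ) (hc : 0 < c) :
    ∀ᶠ K : ℝ in atTop, Real.log (Real.log K) + 40 ≤ c * Real.log K := by
  have h1 : ∀ᶠ x : ℝ in atTop, Real.log x + 40 ≤ c * x := by
    have h := (Real.isLittleO_log_id_atTop).def (c := c / 2) (by positivity)
    filter_upwards [h, eventually_ge_atTop (1 : ℝ), eventually_ge_atTop (80 / c)] with x hx hx1 hx2
    rw [Real.norm_of_nonneg (Real.log_nonneg hx1)] at hx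
    simp only [id, Real.norm_eq_abs, abs_of_nonneg (by linarith : (0 : ℝ) ≤ x)] at hx
    rw [div_le_iff₀ hc] at hx2
    linarith
  exact Real.tendsto_log_atTop.eventually h1

theorem final2 (A0 : ℝ) (hA0 : ∀ K : ℝ, 1 ≤ K →
      ((Win K (Real.exp (K ^ (1 / 1000000 : ℝ)))).ncard : ℝ) ≤ A0 * K ^ (1 - 1 / 1000000 : ℝ))
    (ε : ℝ) (hε0 : 0 < ε) (hε : ε ≤ 1 / 4) :
    ∃ A : ℝ, ∀ K : ℝ, 1 ≤ K →
      ((Win K (Real.exp (K ^ (1 / 4 - ε)))).ncard : ℝ) ≤ A * K ^ (1 - ε / 1000000) := by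
  classical
  have hmono : ∀ K Y Y' : ℝ, Y ≤ Y' → (Win K Y).ncard ≤ (Win K Y').ncard := by
    intro K Y Y' h
    apply Set.ncard_le_ncard _ (Win_finite _ _)
    rintro k ⟨h1, h2, x, y, h3, h4⟩
    exact ⟨h1, h2, x, y, h3, h4.trans h⟩
  have hKpow : ∀ K : ℝ, 1 ≤ K → K ^ (1 - 1 / 1000000 : ℝ) ≤ K ^ (1 - ε / 1000000) := by
    intro K hK
    apply Real.rpow_le_rpow_of_exponent_le hK
    linarith
  rcases le_or_gt (1 / 4 - ε) (1 / 1000000 : ℝ) with hsmall | hbig
  · refine ⟨|A0|, fun K hK => ?_⟩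
    have h1 := hmono K (Real.exp (K ^ (1 / 4 - ε))) (Real.exp (K ^ (1 / 1000000 : ℝ)))
      (Real.exp_le_exp.2 (Real.rpow_le_rpow_of_exponent_le hK hsmall))
    calc ((Win K (Real.exp (K ^ (1 / 4 - ε)))).ncard : ℝ)
        ≤ ((Win K (Real.exp (K ^ (1 / 1000000 : ℝ)))).ncard : ℝ) := by exact_mod_cast h1
      _ ≤ A0 * K ^ (1 - 1 / 1000000 : ℝ) := hA0 K hK
      _ ≤ |A0| * K ^ (1 - 1 / 1000000 : ℝ) := by gcongr; exact le_abs_self _
      _ ≤ |A0| * K ^ (1 - ε / 1000000) :=
          mul_le_mul_of_nonneg_left (hKpow K hK) (abs_nonneg _)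
  · have hev : ∀ᶠ K : ℝ in atTop, 1 ≤ K ∧ 1 ≤ Real.log K ∧
        Real.log (Real.log K) + 40 ≤ ε / 1000 * Real.log K ∧
        2000 * Real.log K ≤ K ^ (1 / 1000000 : ℝ) / 8 := by
      filter_upwards [eventually_ge_atTop (1 : ℝ),
        Real.tendsto_log_atTop.eventually (eventually_ge_atTop (1 : ℝ)),
        ev_loglog (ε / 1000) (by positivity),
        ev_log_rpow 16000 (1 / 1000000) (by norm_num) (by norm_num)] with K h1 h2 h3 h4
      refine ⟨h1, h2, h3, ?_⟩
      linarith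
    obtain ⟨K0, hK0⟩ := eventually_atTop.1 hev
    obtain ⟨c2, hc2, hu⟩ := unb_final2 (ε / 400) (by positivity) (by linarith)
    set c1 : ℝ := 14850 * Real.exp 13 * (1000 / ε) with hc1
    have hc1p : 0 < c1 := by positivity
    refine ⟨max (5 * |K0|) (|A0| + c1 + c2), fun K hK => ?_⟩
    have hKpos : 0 < K := by linarith
    have hKd : 1 ≤ K ^ (1 - ε / 1000000) := Real.one_le_rpow hK (by linarith)
    rcases lt_or_ge K K0 with hlt | hge
    · have hK0' : K ≤ |K0| := hlt.le.trans (le_abs_self _)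
      calc ((Win K (Real.exp (K ^ (1 / 4 - ε)))).ncard : ℝ) ≤ 5 * K := Win_card _ _ hK
        _ ≤ 5 * |K0| * 1 := by linarith
        _ ≤ max (5 * |K0|) (|A0| + c1 + c2) * K ^ (1 - ε / 1000000) := by
            gcongr
            exact le_max_left _ _
    · obtain ⟨-, hl0, hA, hB⟩ := hK0 K hge
      set W := Win K (Real.exp (K ^ (1 / 4 - ε))) with hW
      set W1 := Win K (Real.exp (K ^ (1 / 1000000 : ℝ))) with hW1
      have hWf : W.Finite := Win_finite _ _
      have hW1f : W1.Finite := Win_finite _ _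
      have hex : ∀ k : ℤ, ∃ q : ℤ × ℤ × ℤ × ℤ, k ∈ W \ W1 →
          Dv q.1 q.2.1 q.2.2.1 q.2.2.2 = 4 * k ∧
          (Bal3 (18 * K ^ (1 / 4 + 3 * (ε / 400))) (K ^ (1 / 1000000 : ℝ) / 8)
            (2 * K ^ (1 / 4 - ε)) q ∨ Unb (18720 * K ^ (1 - ε / 400)) q) := by
        intro k
        by_cases hk : k ∈ W \ W1
        · obtain ⟨⟨hk0, hkK, x, y, hxy, hmax⟩, hk2⟩ := hk
          have hlo : Real.exp (K ^ (1 / 1000000 : ℝ)) < max |(x : ℝ)| |(y : ℝ)| := by
            by_contra h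
            push Not at h
            exact hk2 ⟨hk0, hkK, x, y, hxy, h⟩
          obtain ⟨q, h1, h2⟩ := quad2 ε K (K ^ (1 / 1000000 : ℝ)) hε0 hε hK hl0 hA hB
            (Real.rpow_le_rpow_of_exponent_le hK hbig.le) k x y hk0 hkK hxy hlo hmax
          exact ⟨q, fun _ => ⟨h1, h2⟩⟩
        · exact ⟨(0, 0, 0, 0), fun h => absurd h hk⟩
      choose f hf using hex
      have hDf : (W \ W1).Finite := hWf.subset Set.sdiff_subset
      set T := hDf.toFinset with hT
      have hTmem : ∀ k, k ∈ T ↔ k ∈ W \ W1 := fun k => by rw [hT, Set.Finite.mem_toFinset]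
      have hinj : Set.InjOn f (T : Set ℤ) := by
        intro k hk l hl hkl
        have e1 := (hf k ((hTmem k).1 hk)).1
        have e2 := (hf l ((hTmem l).1 hl)).1
        rw [hkl] at e1
        linarith
      have hcT : (T.card : ℝ) ≤ (c1 + c2) * K ^ (1 - ε / 1000000) := by
        rw [← Finset.card_filter_add_card_filter_not
          (fun k => Bal3 (18 * K ^ (1 / 4 + 3 * (ε / 400))) (K ^ (1 / 1000000 : ℝ) / 8)
            (2 * K ^ (1 / 4 - ε)) (f k)) (s := T)]
        push_cast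
        rw [add_mul]
        apply add_le_add
        · rw [← Finset.card_image_of_injOn (f := f)
            (hinj.mono (by intro k hk; exact (Finset.mem_filter.1 hk).1))]
          refine (range_bound ε K (K ^ (1 / 1000000 : ℝ) / 8) hε0 hε hK hl0 hA hB _ ?_).trans ?_
          · intro q hq
            obtain ⟨k, hk, rfl⟩ := Finset.mem_image.1 hq
            exact (Finset.mem_filter.1 hk).2
          · apply mul_le_mul_of_nonneg_left _ hc1p.le
            apply Real.rpow_le_rpow_of_exponent_le hK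
            linarith
        · rw [← Finset.card_image_of_injOn (f := f)
            (hinj.mono (by intro k hk; exact (Finset.mem_filter.1 hk).1))]
          refine (hu K hK _ ?_).trans ?_
          · intro q hq
            obtain ⟨k, hk, rfl⟩ := Finset.mem_image.1 hq
            obtain ⟨hk1, hk2⟩ := Finset.mem_filter.1 hk
            exact ((hf k ((hTmem k).1 hk1)).2).resolve_left hk2
          · apply mul_le_mul_of_nonneg_left _ hc2.le
            apply Real.rpow_le_rpow_of_exponent_le hK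
            linarith
      have hcard : W.ncard ≤ W1.ncard + T.card := by
        have h1 : W ⊆ W1 ∪ (T : Set ℤ) := by
          intro k hk
          by_cases hk1 : k ∈ W1
          · exact Or.inl hk1
          · exact Or.inr ((hTmem k).2 ⟨hk, hk1⟩)
        calc W.ncard ≤ (W1 ∪ (T : Set ℤ)).ncard :=
              Set.ncard_le_ncard h1 (hW1f.union (Finset.finite_toSet _))
          _ ≤ W1.ncard + (T : Set ℤ).ncard := Set.ncard_union_le _ _
          _ = W1.ncard + T.card := by rw [Set.ncard_coe_finset]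
      have hW1c : (W1.ncard : ℝ) ≤ |A0| * K ^ (1 - ε / 1000000) := by
        calc (W1.ncard : ℝ) ≤ A0 * K ^ (1 - 1 / 1000000 : ℝ) := hA0 K hK
          _ ≤ |A0| * K ^ (1 - 1 / 1000000 : ℝ) := by gcongr; exact le_abs_self _
          _ ≤ |A0| * K ^ (1 - ε / 1000000) :=
          mul_le_mul_of_nonneg_left (hKpow K hK) (abs_nonneg _)
      calc (W.ncard : ℝ) ≤ W1.ncard + T.card := by exact_mod_cast hcard
        _ ≤ |A0| * K ^ (1 - ε / 1000000) + (c1 + c2) * K ^ (1 - ε / 1000000) := by gcongr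
        _ = (|A0| + c1 + c2) * K ^ (1 - ε / 1000000) := by ring
        _ ≤ max (5 * |K0|) (|A0| + c1 + c2) * K ^ (1 - ε / 1000000) := by
            gcongr
            exact le_max_right _ _

end Pool.Agent.Work.MP_f2148a_nt.Exp
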